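import Mathlib
import Pool.Agent.MP_c26281_pr.Defs

/-! Kernels on the integers with values in `[0, ∞]`: order, countable sums, star, majorants. -/

open MeasureTheory ProbabilityTheory Finset
open scoped ENNReal

namespace Pool.Agent.MP_c26281_pr.SA

/-- kernels `A p q`, vanishing unless `p ≤ q`; the product is the convolution over `Icc p q` -/
abbrev IA := IncidenceAlgebra ℝ≥0∞ ℕ

/-- kernel from a function -/
noncomputable def kmk (f : ℕ → ℕ → ℝ≥0∞) : IA :=
  ⟨fun p q => if p ≤ q then f p q else 0, fun _ _ h => if_neg h⟩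

theorem kmk_apply (f : ℕ → ℕ → ℝ≥0∞) (p q : ℕ) : kmk f p q = if p ≤ q then f p q else 0 := rfl

theorem kmk_of_le (f : ℕ → ℕ → ℝ≥0∞) {p q : ℕ} (h : p ≤ q) : kmk f p q = f p q := if_pos h

theorem kmk_add (f : ℕ → ℕ → ℝ≥0∞) (p n : ℕ) : kmk f p (p + n) = f p (p + n) :=
  if_pos (Nat.le_add_right p n)

theorem k_zero (A : IA) {p q : ℕ} (h : q < p) : A p q = 0 :=
  IncidenceAlgebra.apply_eq_zero_of_not_le (not_le.2 h) A

noncomputable instance : PartialOrder IA :=
  PartialOrder.lift (fun A : IA => (A : ℕ → ℕ → ℝ≥0∞)) DFunLike.coe_injective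

theorem le_def {A B : IA} : A ≤ B ↔ ∀ p q, A p q ≤ B p q := Iff.rfl

theorem le_of_le {A B : IA} (h : ∀ p q, p ≤ q → A p q ≤ B p q) : A ≤ B := fun p q => by
  rcases le_or_gt p q with h1 | h1
  · exact h p q h1
  · show A p q ≤ B p q
    rw [k_zero A h1]; exact zero_le

theorem k_mul (A B : IA) (p q : ℕ) : (A * B) p q = ∑ r ∈ Icc p q, A p r * B r q :=
  IncidenceAlgebra.mul_apply A B p q

theorem k_add (A B : IA) (p q : ℕ) : (A + B) p q = A p q + B p q := rfl

theorem k_one (p q : ℕ) : (1 : IA) p q = if p = q then 1 else 0 := rfl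

theorem k_sum {ι : Type*} (s : Finset ι) (F : ι → IA) (p q : ℕ) :
    (∑ i ∈ s, F i) p q = ∑ i ∈ s, F i p q := by
  classical
  induction s using Finset.induction_on with
  | empty => rfl
  | insert a s ha ih => rw [sum_insert ha, sum_insert ha, k_add, ih]

theorem k_mul_add (A B : IA) (p n : ℕ) :
    (A * B) p (p + n) = ∑ x ∈ antidiagonal n, A p (p + x.1) * B (p + x.1) (p + x.1 + x.2) := by
  rw [k_mul, Finset.Nat.sum_antidiagonal_eq_sum_range_succ_mk, ← Finset.Ico_add_one_right_eq_Icc,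
    sum_Ico_eq_sum_range, show p + n + 1 - p = n + 1 by omega]
  refine sum_congr rfl fun i hi => ?_
  have := mem_range.1 hi
  rw [show p + i + (n - i) = p + n by omega]

theorem k_term (A B : IA) (p r q : ℕ) : A p r * B r q ≤ (A * B) p q := by
  rcases lt_or_ge r p with h | h
  · rw [k_zero A h, zero_mul]; exact zero_le
  rcases lt_or_ge q r with h2 | h2
  · rw [k_zero B h2, mul_zero]; exact zero_le
  rw [k_mul]
  exact single_le_sum (f := fun r => A p r * B r q) (fun _ _ => zero_le) (mem_Icc.2 ⟨h, h2⟩)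

instance : MulLeftMono IA := ⟨fun A B C h p q => by
  show (A * B) p q ≤ (A * C) p q
  rw [k_mul, k_mul]; exact sum_le_sum fun r _ => mul_le_mul_right (h r q) _⟩

instance : MulRightMono IA := ⟨fun A B C h p q => by
  show (B * A) p q ≤ (C * A) p q
  rw [k_mul, k_mul]; exact sum_le_sum fun r _ => mul_le_mul_left (h p r) _⟩

instance : AddLeftMono IA := ⟨fun A B C h p q => by
  show (A + B) p q ≤ (A + C) p q
  rw [k_add, k_add]; exact add_le_add_right (h p q) _⟩

instance : AddRightMono IA := ⟨fun A B C h p q => by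
  show (B + A) p q ≤ (C + A) p q
  rw [k_add, k_add]; exact add_le_add_left (h p q) _⟩

theorem k_nonneg (A : IA) : 0 ≤ A := fun p q => by
  show (0 : ℝ≥0∞) ≤ A p q
  exact zero_le

theorem k_le_add_right (A B : IA) : A ≤ A + B := fun p q => by
  show A p q ≤ A p q + B p q
  exact le_self_add

theorem k_le_add_left (A B : IA) : B ≤ A + B := fun p q => by
  show B p q ≤ A p q + B p q
  exact le_add_self

/-- countable sum of kernels -/
noncomputable def gsum (F : ℕ → IA) : IA :=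
  ⟨fun p q => ∑' j, F j p q, fun p q h => by
    simp [IncidenceAlgebra.apply_eq_zero_of_not_le h]⟩

theorem gsum_apply (F : ℕ → IA) (p q : ℕ) : gsum F p q = ∑' j, F j p q := rfl

theorem gsum_mono {F G : ℕ → IA} (h : ∀ j, F j ≤ G j) : gsum F ≤ gsum G := fun p q =>
  ENNReal.tsum_le_tsum fun j => h j p q

theorem mul_gsum (A : IA) (F : ℕ → IA) : A * gsum F = gsum fun j => A * F j := by
  ext p q _
  simp only [k_mul, gsum_apply, ← ENNReal.tsum_mul_left]
  exact (Summable.tsum_finsetSum fun _ _ => ENNReal.summable).symm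

theorem gsum_mul (F : ℕ → IA) (A : IA) : gsum F * A = gsum fun j => F j * A := by
  ext p q _
  simp only [k_mul, gsum_apply, ← ENNReal.tsum_mul_right]
  exact (Summable.tsum_finsetSum fun _ _ => ENNReal.summable).symm

theorem gsum_succ (F : ℕ → IA) : gsum F = F 0 + gsum fun j => F (j + 1) := by
  ext p q _
  rw [k_add, gsum_apply, gsum_apply, tsum_eq_zero_add' ENNReal.summable]

theorem gsum_add (F G : ℕ → IA) : (gsum fun j => F j + G j) = gsum F + gsum G := by
  ext p q _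
  simp only [k_add, gsum_apply, ENNReal.tsum_add]

theorem gsum_comm (F : ℕ → ℕ → IA) :
    (gsum fun i => gsum fun j => F i j) = gsum fun j => gsum fun i => F i j := by
  ext p q _
  simp only [gsum_apply]; exact ENNReal.tsum_comm

theorem sum_le_gsum (F : ℕ → IA) (s : Finset ℕ) : ∑ j ∈ s, F j ≤ gsum F := fun p q => by
  show (∑ j ∈ s, F j) p q ≤ gsum F p q
  rw [k_sum, gsum_apply]; exact ENNReal.sum_le_tsum s

theorem le_gsum (F : ℕ → IA) (j : ℕ) : F j ≤ gsum F := fun p q => ENNReal.le_tsum (f := fun j => F j p q) j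

theorem gsum_le {F : ℕ → IA} {Y : IA} (h : ∀ n, ∑ j ∈ range n, F j ≤ Y) : gsum F ≤ Y :=
  fun p q => by
    show gsum F p q ≤ Y p q
    rw [gsum_apply, ENNReal.tsum_eq_iSup_nat]
    exact iSup_le fun n => by rw [← k_sum]; exact h n p q

/-- Cauchy product -/
theorem gsum_cauchy (F G : ℕ → IA) :
    (gsum fun z => ∑ x ∈ antidiagonal z, F x.1 * G x.2) = gsum F * gsum G := by
  rw [gsum_mul]
  simp_rw [mul_gsum]
  ext p q _
  simp only [gsum_apply, k_sum]
  rw [← ENNReal.tsum_prod' (f := fun x : ℕ × ℕ => (F x.1 * G x.2) p q),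
    ← Finset.HasAntidiagonal.sigmaAntidiagonalEquivProd.tsum_eq, ENNReal.tsum_sigma']
  refine tsum_congr fun z => ?_
  rw [← Finset.sum_coe_sort (antidiagonal z), tsum_fintype]
  rfl

/-- star of a kernel -/
noncomputable def kst (A : IA) : IA := gsum fun j => A ^ j

theorem kst_eq (A : IA) : kst A = 1 + A * kst A := by
  conv_lhs => unfold kst; rw [gsum_succ]
  unfold kst; rw [mul_gsum]; simp only [pow_zero, pow_succ']

theorem kst_eq' (A : IA) : kst A = 1 + kst A * A := by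
  conv_lhs => unfold kst; rw [gsum_succ]
  unfold kst; rw [gsum_mul]; simp only [pow_zero, pow_succ]

theorem one_le_kst (A : IA) : 1 ≤ kst A := by rw [kst_eq]; exact k_le_add_right _ _

theorem kst_mono {A B : IA} (h : A ≤ B) : kst A ≤ kst B :=
  gsum_mono fun j => pow_le_pow_left' h j

/-- least solution, left form -/
theorem kst_le {A D Y : IA} (h : D + A * Y ≤ Y) : kst A * D ≤ Y := by
  unfold kst; rw [gsum_mul]
  refine gsum_le fun n => ?_
  induction n with
  | zero => exact k_nonneg _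
  | succ n ih =>
    rw [sum_range_succ', pow_zero, one_mul, add_comm]
    refine le_trans ?_ h
    simp_rw [pow_succ', mul_assoc]
    rw [← mul_sum]; gcongr

/-- least solution, right form -/
theorem kst_le' {A D Y : IA} (h : D + Y * A ≤ Y) : D * kst A ≤ Y := by
  unfold kst; rw [mul_gsum]
  refine gsum_le fun n => ?_
  induction n with
  | zero => exact k_nonneg _
  | succ n ih =>
    rw [sum_range_succ', pow_zero, mul_one, add_comm]
    refine le_trans ?_ h
    simp_rw [pow_succ, ← mul_assoc]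
    rw [← sum_mul]; gcongr

theorem kst_shift (A B : IA) : kst (A * B) * A = A * kst (B * A) := by
  unfold kst; rw [gsum_mul, mul_gsum]
  congr 1; funext j
  induction j with
  | zero => simp
  | succ j ih => rw [pow_succ', mul_assoc, ih, pow_succ', mul_assoc, mul_assoc]

theorem kst_add (A B : IA) : kst (A + B) = kst (kst A * B) * kst A := by
  apply le_antisymm
  · have e : kst (kst A * B) * kst A = kst A * kst (B * kst A) := kst_shift _ _
    rw [e, ← mul_one (kst (A + B))]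
    refine kst_le (le_of_eq ?_)
    have h1 := kst_eq A
    have h2 := kst_eq (B * kst A)
    generalize kst (B * kst A) = S at h2 ⊢
    generalize kst A = T at h1 h2 ⊢
    calc 1 + (A + B) * (T * S) = (1 + B * T * S) + A * T * S := by noncomm_ring
      _ = (1 + A * T) * S := by rw [← h2]; noncomm_ring
      _ = _ := by rw [← h1]
  · refine kst_le ?_
    rw [mul_assoc, ← mul_one_add]
    refine kst_le (le_of_eq ?_)
    conv_rhs => rw [kst_eq (A + B)]
    rw [add_mul]; abel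

/-- the part of a kernel on lengths `< L` -/
noncomputable def klo (L : ℕ) (A : IA) : IA := kmk fun p q => if q - p < L then A p q else 0

/-- the part of a kernel on lengths `≥ L` -/
noncomputable def khi (L : ℕ) (A : IA) : IA := kmk fun p q => if q - p < L then 0 else A p q

theorem klo_add_khi (L : ℕ) (A : IA) : klo L A + khi L A = A := by
  ext p q h
  rw [k_add, klo, khi, kmk_of_le _ h, kmk_of_le _ h]
  split_ifs <;> simp

/-- convolution of sequences -/
noncomputable def cv (a b : ℕ → ℝ≥0∞) (n : ℕ) : ℝ≥0∞ := ∑ x ∈ antidiagonal n, a x.1 * b x.2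

theorem cv_mono {a a' b b' : ℕ → ℝ≥0∞} (h : ∀ n, a n ≤ a' n) (h' : ∀ n, b n ≤ b' n) (n : ℕ) :
    cv a b n ≤ cv a' b' n := sum_le_sum fun _ _ => mul_le_mul' (h _) (h' _)

theorem cv_eq (a b : ℕ → ℝ≥0∞) (n : ℕ) :
    cv a b n = PowerSeries.coeff n (PowerSeries.mk a * PowerSeries.mk b) := by
  simp [cv, PowerSeries.coeff_mul]

theorem tsum_cv (a b : ℕ → ℝ≥0∞) : ∑' n, cv a b n = (∑' n, a n) * ∑' n, b n := by
  unfold cv
  rw [← ENNReal.tsum_mul_right]
  simp_rw [← ENNReal.tsum_mul_left]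
  rw [← ENNReal.tsum_prod' (f := fun x : ℕ × ℕ => a x.1 * b x.2),
    ← Finset.HasAntidiagonal.sigmaAntidiagonalEquivProd.tsum_eq, ENNReal.tsum_sigma']
  refine tsum_congr fun z => ?_
  rw [← Finset.sum_coe_sort (antidiagonal z), tsum_fintype]
  rfl

/-- translation invariant kernel -/
noncomputable def tk (a : ℕ → ℝ≥0∞) : IA := kmk fun p q => a (q - p)

theorem tk_add (a : ℕ → ℝ≥0∞) (p n : ℕ) : tk a p (p + n) = a n := by
  rw [tk, kmk_add, Nat.add_sub_cancel_left]

theorem tk_mul (a b : ℕ → ℝ≥0∞) : tk a * tk b = tk (cv a b) := by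
  ext p q h
  obtain ⟨n, rfl⟩ := Nat.exists_eq_add_of_le h
  rw [k_mul_add, tk_add]; simp only [tk_add, cv]

theorem tk_mono {a b : ℕ → ℝ≥0∞} (h : ∀ n, a n ≤ b n) : tk a ≤ tk b :=
  le_of_le fun p q hpq => by rw [tk, tk, kmk_of_le _ hpq, kmk_of_le _ hpq]; exact h _

theorem le_tk {A : IA} {a : ℕ → ℝ≥0∞} : A ≤ tk a ↔ ∀ p n, A p (p + n) ≤ a n :=
  ⟨fun h p n => by rw [← tk_add a p n]; exact h _ _, fun h => le_of_le fun p q hpq => by
    obtain ⟨n, rfl⟩ := Nat.exists_eq_add_of_le hpq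
    rw [tk_add]; exact h p n⟩

theorem tk_plus (a b : ℕ → ℝ≥0∞) : tk a + tk b = tk fun n => a n + b n := by
  ext p q h
  obtain ⟨n, rfl⟩ := Nat.exists_eq_add_of_le h
  rw [k_add, tk_add, tk_add, tk_add]

theorem tk_gsum (a : ℕ → ℕ → ℝ≥0∞) : (gsum fun j => tk (a j)) = tk fun n => ∑' j, a j n := by
  ext p q h
  obtain ⟨n, rfl⟩ := Nat.exists_eq_add_of_le h
  simp only [gsum_apply, tk_add]

/-- supersolutions of the renewal inequality dominate the star -/
theorem kst_le_tk {A D : IA} {a d φ : ℕ → ℝ≥0∞} (hA : A ≤ tk a) (hD : D ≤ tk d)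
    (h : ∀ n, d n + cv a φ n ≤ φ n) : kst A * D ≤ tk φ := by
  refine kst_le (le_trans (add_le_add hD (mul_le_mul_left hA _)) ?_)
  rw [tk_mul, tk_plus]; exact tk_mono h

theorem tk_one : tk (fun n => if n = 0 then 1 else 0) = 1 := by
  ext p q h
  obtain ⟨n, rfl⟩ := Nat.exists_eq_add_of_le h
  rw [tk_add, k_one]; simp

theorem tk_pow (a : ℕ → ℝ≥0∞) (j : ℕ) : tk a ^ j = tk fun n => (tk a ^ j) 0 n := by
  have : ∃ b, tk a ^ j = tk b := by
    induction j with
    | zero => exact ⟨_, by rw [pow_zero, tk_one]⟩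
    | succ j ih => obtain ⟨b, hb⟩ := ih; exact ⟨_, by rw [pow_succ, hb, tk_mul]⟩
  obtain ⟨b, hb⟩ := this
  rw [hb]
  exact congrArg tk (funext fun n => by simpa using (tk_add b 0 n).symm)

theorem kst_tk (a : ℕ → ℝ≥0∞) : kst (tk a) = tk fun n => kst (tk a) 0 n := by
  conv_lhs => unfold kst
  rw [show (fun j => tk a ^ j) = fun j => tk fun n => (tk a ^ j) 0 n from funext (tk_pow a),
    tk_gsum]
  rfl

/-- supremum over the starting point -/
noncomputable def sq (A : IA) (n : ℕ) : ℝ≥0∞ := ⨆ p, A p (p + n)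

theorem le_tk_sq (A : IA) : A ≤ tk (sq A) :=
  le_tk.2 fun p n => le_iSup (fun p => A p (p + n)) p

theorem sq_le {A : IA} {a : ℕ → ℝ≥0∞} (h : A ≤ tk a) (n : ℕ) : sq A n ≤ a n :=
  iSup_le fun p => le_tk.1 h p n

theorem le_tk_of_sq {A : IA} {a : ℕ → ℝ≥0∞} (h : ∀ n, sq A n ≤ a n) : A ≤ tk a :=
  (le_tk_sq A).trans (tk_mono h)

theorem sq_mono {A B : IA} (h : A ≤ B) (n : ℕ) : sq A n ≤ sq B n := sq_le (h.trans (le_tk_sq B)) n

theorem sq_mul (A B : IA) (n : ℕ) : sq (A * B) n ≤ cv (sq A) (sq B) n :=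
  sq_le (by rw [← tk_mul]; exact mul_le_mul' (le_tk_sq A) (le_tk_sq B)) n

theorem sq_add (A B : IA) (n : ℕ) : sq (A + B) n ≤ sq A n + sq B n :=
  sq_le (a := fun n => sq A n + sq B n)
    (by rw [← tk_plus]; exact add_le_add (le_tk_sq A) (le_tk_sq B)) n

theorem sq_gsum (A : ℕ → IA) (n : ℕ) : sq (gsum A) n ≤ ∑' j, sq (A j) n :=
  sq_le (a := fun n => ∑' j, sq (A j) n)
    (by rw [← tk_gsum]; exact gsum_mono fun j => le_tk_sq _) n

theorem sq_sum {ι : Type*} (s : Finset ι) (A : ι → IA) (n : ℕ) :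
    sq (∑ i ∈ s, A i) n ≤ ∑ i ∈ s, sq (A i) n :=
  iSup_le fun p => by
    rw [k_sum]; exact sum_le_sum fun i _ => le_iSup (fun p => A i p (p + n)) p

theorem tsum_sq_one : ∑' n, sq 1 n ≤ 1 := by
  refine (ENNReal.tsum_le_tsum (sq_le tk_one.ge)).trans ?_
  simp

/-- total mass of a star -/
theorem tsum_sq_kst (A : IA) : ∑' n, sq (kst A) n ≤ (1 - ∑' n, sq A n)⁻¹ := by
  refine (ENNReal.tsum_le_tsum (sq_gsum _)).trans ?_
  rw [ENNReal.tsum_comm, ← ENNReal.tsum_geometric]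
  refine ENNReal.tsum_le_tsum fun j => ?_
  induction j with
  | zero => simpa using tsum_sq_one
  | succ j ih =>
    rw [pow_succ, pow_succ]
    refine (ENNReal.tsum_le_tsum (sq_mul _ _)).trans ?_
    rw [tsum_cv]; exact mul_le_mul_left ih _

theorem meas_tsum {Ω : Type} (m : MeasurableSpace Ω) {f : ℕ → Ω → ℝ≥0∞}
    (h : ∀ j, Measurable[m] (f j)) : Measurable[m] fun ω => ∑' j, f j ω := Measurable.tsum h

/-- a family of independent fields indexed by sets of sites -/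
structure Fld {Ω : Type} [m : MeasurableSpace Ω] (P : Measure Ω) where
  s : Set ℕ → MeasurableSpace Ω
  mono : ∀ S T, S ⊆ T → s S ≤ s T
  le : ∀ S, s S ≤ m
  ind : ∀ S T, Disjoint S T → Indep (s S) (s T) P

section
variable {Ω : Type} [m : MeasurableSpace Ω] {P : Measure Ω} (F : Fld P)

/-- the entry `(p, q)` only depends on the sites in `[p, q)` -/
def Ad (A : Ω → IA) : Prop := ∀ p q, Measurable[F.s (Set.Ico p q)] fun ω => A ω p q

theorem Fld.mul [IsProbabilityMeasure P] {S T : Set ℕ} (h : Disjoint S T) {f g : Ω → ℝ≥0∞}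
    (hf : Measurable[F.s S] f) (hg : Measurable[F.s T] g) :
    ∫⁻ ω, f ω * g ω ∂P = (∫⁻ ω, f ω ∂P) * ∫⁻ ω, g ω ∂P :=
  lintegral_mul_eq_lintegral_mul_lintegral_of_independent_measurableSpace
    (F.le S) (F.le T) (F.ind S T h) hf hg

theorem Fld.up {S T : Set ℕ} (h : S ⊆ T) {f : Ω → ℝ≥0∞} (hf : Measurable[F.s S] f) :
    Measurable[F.s T] f := hf.mono (F.mono S T h) le_rfl

theorem Fld.meas {S : Set ℕ} {f : Ω → ℝ≥0∞} (hf : Measurable[F.s S] f) : Measurable f :=
  hf.mono (F.le S) le_rfl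

variable {F}

theorem Ad.const (A : IA) : Ad F fun _ => A := fun _ _ => measurable_const

theorem Ad.add {A B : Ω → IA} (hA : Ad F A) (hB : Ad F B) : Ad F fun ω => A ω + B ω :=
  fun p q => (hA p q).add (hB p q)

theorem Ad.mul {A B : Ω → IA} (hA : Ad F A) (hB : Ad F B) : Ad F fun ω => A ω * B ω := by
  intro p q
  simp only [k_mul]
  refine Finset.measurable_sum _ fun r hr => ?_
  have := mem_Icc.1 hr
  exact (F.up (Set.Ico_subset_Ico_right this.2) (hA p r)).mul
    (F.up (Set.Ico_subset_Ico_left this.1) (hB r q))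

theorem Ad.sum {ι : Type*} (s : Finset ι) {A : ι → Ω → IA} (h : ∀ i ∈ s, Ad F (A i)) :
    Ad F fun ω => ∑ i ∈ s, A i ω := by
  intro p q
  simp only [k_sum]
  exact Finset.measurable_sum _ fun i hi => h i hi p q

theorem Ad.gsum {A : ℕ → Ω → IA} (h : ∀ j, Ad F (A j)) : Ad F fun ω => gsum fun j => A j ω :=
  fun p q => meas_tsum (F.s (Set.Ico p q)) fun j => h j p q

theorem Ad.pow {A : Ω → IA} (h : Ad F A) (j : ℕ) : Ad F fun ω => A ω ^ j := by
  induction j with
  | zero => simpa using Ad.const (F := F) 1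
  | succ j ih => simpa only [pow_succ] using ih.mul h

theorem Ad.kst {A : Ω → IA} (h : Ad F A) : Ad F fun ω => kst (A ω) := Ad.gsum h.pow

theorem Ad.kmk {f : Ω → ℕ → ℕ → ℝ≥0∞}
    (h : ∀ p q, p ≤ q → Measurable[F.s (Set.Ico p q)] fun ω => f ω p q) :
    Ad F fun ω => kmk (f ω) := by
  intro p q
  simp only [kmk_apply]
  split_ifs with h1
  · exact h p q h1
  · exact measurable_const

theorem Ad.klo {A : Ω → IA} (h : Ad F A) (L : ℕ) : Ad F fun ω => klo L (A ω) :=
  Ad.kmk fun p q _ => by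
    split_ifs
    · exact h p q
    · exact measurable_const

theorem Ad.khi {A : Ω → IA} (h : Ad F A) (L : ℕ) : Ad F fun ω => khi L (A ω) :=
  Ad.kmk fun p q _ => by
    split_ifs
    · exact measurable_const
    · exact h p q

end

section
variable {Ω : Type} [m : MeasurableSpace Ω] (P : Measure Ω)

/-- kernel of the moments of order `t` -/
noncomputable def Nk (t : ℝ) (A : Ω → IA) : IA := kmk fun p q => ∫⁻ ω, A ω p q ^ t ∂P

variable {P} {F : Fld P} {t : ℝ}

theorem Nk_mono (ht : 0 ≤ t) {A B : Ω → IA} (h : ∀ ω, A ω ≤ B ω) : Nk P t A ≤ Nk P t B :=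
  le_of_le fun p q hpq => by
    rw [Nk, Nk, kmk_of_le _ hpq, kmk_of_le _ hpq]
    exact lintegral_mono fun ω => ENNReal.rpow_le_rpow (h ω p q) ht

theorem rpow_sum_le {ι : Type*} (s : Finset ι) (f : ι → ℝ≥0∞) (h0 : 0 < t) (h1 : t ≤ 1) :
    (∑ i ∈ s, f i) ^ t ≤ ∑ i ∈ s, f i ^ t := by
  classical
  induction s using Finset.induction_on with
  | empty => simp [h0]
  | insert a s ha ih =>
    rw [sum_insert ha, sum_insert ha]
    exact (ENNReal.rpow_add_le_add_rpow _ _ h0.le h1).trans (add_le_add_right ih _)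

theorem rpow_tsum_le (f : ℕ → ℝ≥0∞) (h0 : 0 < t) (h1 : t ≤ 1) :
    (∑' i, f i) ^ t ≤ ∑' i, f i ^ t := by
  rw [← ENNReal.le_rpow_inv_iff h0, ENNReal.tsum_eq_iSup_nat]
  refine iSup_le fun n => ?_
  rw [ENNReal.le_rpow_inv_iff h0]
  exact (rpow_sum_le _ f h0 h1).trans (ENNReal.sum_le_tsum _)

theorem Nk_add (h0 : 0 < t) (h1 : t ≤ 1) {A B : Ω → IA} (hA : Ad F A) :
    Nk P t (fun ω => A ω + B ω) ≤ Nk P t A + Nk P t B :=
  le_of_le fun p q hpq => by
    rw [k_add, Nk, Nk, Nk, kmk_of_le _ hpq, kmk_of_le _ hpq, kmk_of_le _ hpq,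
      ← lintegral_add_left ((F.meas (hA p q)).pow_const t)]
    exact lintegral_mono fun ω => ENNReal.rpow_add_le_add_rpow _ _ h0.le h1

theorem Nk_sum (h0 : 0 < t) (h1 : t ≤ 1) {ι : Type*} (s : Finset ι) {A : ι → Ω → IA}
    (hA : ∀ i ∈ s, Ad F (A i)) :
    Nk P t (fun ω => ∑ i ∈ s, A i ω) ≤ ∑ i ∈ s, Nk P t (A i) :=
  le_of_le fun p q hpq => by
    simp only [k_sum, Nk, kmk_of_le _ hpq]
    rw [← lintegral_finsetSum _ fun i hi => (F.meas (hA i hi p q)).pow_const t]
    exact lintegral_mono fun ω => rpow_sum_le _ _ h0 h1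

theorem Nk_gsum (h0 : 0 < t) (h1 : t ≤ 1) {A : ℕ → Ω → IA} (hA : ∀ j, Ad F (A j)) :
    Nk P t (fun ω => gsum fun j => A j ω) ≤ gsum fun j => Nk P t (A j) :=
  le_of_le fun p q hpq => by
    simp only [gsum_apply, Nk, kmk_of_le _ hpq]
    rw [← lintegral_tsum fun j => ((F.meas (hA j p q)).pow_const t).aemeasurable]
    exact lintegral_mono fun ω => rpow_tsum_le _ h0 h1

variable [IsProbabilityMeasure P]

theorem Nk_mul (h0 : 0 < t) (h1 : t ≤ 1) {A B : Ω → IA} (hA : Ad F A) (hB : Ad F B) :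
    Nk P t (fun ω => A ω * B ω) ≤ Nk P t A * Nk P t B :=
  le_of_le fun p q hpq => by
    simp only [k_mul, Nk, kmk_of_le _ hpq]
    have e : ∀ r ∈ Icc p q, (kmk (fun p q => ∫⁻ ω, A ω p q ^ t ∂P) p r
        * kmk (fun p q => ∫⁻ ω, B ω p q ^ t ∂P) r q)
        = ∫⁻ ω, (A ω p r * B ω r q) ^ t ∂P := fun r hr => by
      have := mem_Icc.1 hr
      rw [kmk_of_le _ this.1, kmk_of_le _ this.2, ← F.mul (S := Set.Ico p r) (T := Set.Ico r q)
        (Set.Ico_disjoint_Ico_same) ((hA p r).pow_const t) ((hB r q).pow_const t)]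
      simp only [ENNReal.mul_rpow_of_nonneg _ _ h0.le]
    rw [sum_congr rfl e, ← lintegral_finsetSum _ (f := fun r ω => (A ω p r * B ω r q) ^ t)
      fun r _ => ((F.meas (hA p r)).mul (F.meas (hB r q))).pow_const t]
    exact lintegral_mono fun ω => rpow_sum_le _ _ h0 h1

theorem Nk_one (h0 : 0 < t) : Nk P t (fun _ => 1) = 1 := by
  ext p q h
  rw [Nk, kmk_of_le _ h, k_one]
  split_ifs <;> simp [h0]

theorem Nk_kst (h0 : 0 < t) (h1 : t ≤ 1) {A : Ω → IA} (hA : Ad F A) :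
    Nk P t (fun ω => kst (A ω)) ≤ kst (Nk P t A) := by
  refine (Nk_gsum h0 h1 hA.pow).trans (gsum_mono fun j => ?_)
  induction j with
  | zero => simp only [pow_zero]; exact (Nk_one h0).le
  | succ j ih =>
    simp only [pow_succ]
    exact (Nk_mul h0 h1 (hA.pow j) hA).trans (mul_le_mul_left ih _)

theorem lint_rpow_le (h0 : 0 < t) (h1 : t ≤ 1) {f : Ω → ℝ≥0∞} (hf : Measurable f) :
    ∫⁻ ω, f ω ^ t ∂P ≤ (∫⁻ ω, f ω ∂P) ^ t := by
  have := ENNReal.lintegral_mul_norm_pow_le (μ := P) hf.aemeasurable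
    (g := fun _ => 1) aemeasurable_const h0.le (sub_nonneg.2 h1) (add_sub_cancel t 1)
  simpa using this

/-- Jensen: moments of order `t ≤ 1` against first moments -/
theorem Nk_jensen (h0 : 0 < t) (h1 : t ≤ 1) {A : Ω → IA} (hA : Ad F A) {a : ℕ → ℝ≥0∞}
    (h : Nk P 1 A ≤ tk a) : Nk P t A ≤ tk fun n => a n ^ t :=
  le_tk.2 fun p n => by
    have := le_tk.1 h p n
    rw [Nk, kmk_add] at this ⊢
    simp only [ENNReal.rpow_one] at this
    exact (lint_rpow_le h0 h1 (F.meas (hA _ _))).trans (ENNReal.rpow_le_rpow this h0.le)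

end

/-- moments of order `t`, supremum over the starting point -/
noncomputable def Nm {Ω : Type} [MeasurableSpace Ω] (P : Measure Ω) (t : ℝ) (A : Ω → IA)
    (n : ℕ) : ℝ≥0∞ := sq (Nk P t A) n

/-- law of the charges, indexed from zero -/
noncomputable abbrev PP (μ : Measure ℝ) : Measure (ℕ → ℝ) := Measure.infinitePi fun _ : ℕ => μ

/-- hypotheses on the law of the charges -/
def Ch (μ : Measure ℝ) : Prop :=
  ∫ x, x ∂μ = 0 ∧ ∫ x, x ^ 2 ∂μ = 1 ∧ ∀ t : ℝ, Integrable (fun x => Real.exp (t * x)) μ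

theorem ind_ev (μ : Measure ℝ) [IsProbabilityMeasure μ] :
    iIndepFun (fun (i : ℕ) (x : ℕ → ℝ) => x i) (PP μ) :=
  iIndepFun_infinitePi (X := fun _ x => x) (fun _ => measurable_id)

/-- fields of the blocks of `k` sites -/
noncomputable def fld (μ : Measure ℝ) [IsProbabilityMeasure μ] (k : ℕ) : Fld (PP μ) where
  s S := ⨆ n ∈ {n : ℕ | n / k ∈ S}, MeasurableSpace.comap (fun x : ℕ → ℝ => x n) inferInstance
  mono _ _ h := biSup_mono fun _ hn => h hn
  le _ := iSup₂_le fun n _ => (measurable_pi_apply n).comap_le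
  ind _ _ h := indep_iSup_of_disjoint (fun i => (measurable_pi_apply i).comap_le)
    ((iIndepFun_iff_iIndep _ _ _).1 (ind_ev μ))
    (Set.disjoint_left.2 fun _ ha hb => Set.disjoint_left.1 h ha hb)

section
variable (μ : Measure ℝ) [IsProbabilityMeasure μ]

theorem fld_ev {k n : ℕ} {S : Set ℕ} (h : n / k ∈ S) :
    Measurable[(fld μ k).s S] fun x : ℕ → ℝ => x n :=
  Measurable.of_comap_le (le_iSup₂_of_le (f := fun (j : ℕ) (_ : j ∈ {n : ℕ | n / k ∈ S}) =>
    MeasurableSpace.comap (fun x : ℕ → ℝ => x j) inferInstance) n h le_rfl)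

theorem fld_scale {k : ℕ} (hk : 1 ≤ k) (p q : ℕ) :
    (fld μ 1).s (Set.Ico (p * k) (q * k)) ≤ (fld μ k).s (Set.Ico p q) :=
  biSup_mono fun n hn => by
    simp only [Nat.div_one, Set.mem_ofPred_eq, Set.mem_Ico] at hn ⊢
    exact ⟨(Nat.le_div_iff_mul_le hk).2 hn.1, (Nat.div_lt_iff_lt_mul hk).2 hn.2⟩

end

/-- weight of a negative stretch over the sites of `[i, j)` -/
noncomputable def XX (lam h : ℝ) (x : ℕ → ℝ) (i j : ℕ) : ℝ≥0∞ :=
  ENNReal.ofReal (Real.exp (-2 * lam * ∑ n ∈ Ico i j, (x n + h)))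

theorem XX_self (lam h : ℝ) (x : ℕ → ℝ) (i : ℕ) : XX lam h x i i = 1 := by simp [XX]

theorem XX_ne_top (lam h : ℝ) (x : ℕ → ℝ) (i j : ℕ) : XX lam h x i j ≠ ⊤ := ENNReal.ofReal_ne_top

theorem XX_mul (lam h : ℝ) (x : ℕ → ℝ) {i j l : ℕ} (h1 : i ≤ j) (h2 : j ≤ l) :
    XX lam h x i j * XX lam h x j l = XX lam h x i l := by
  unfold XX
  rw [← ENNReal.ofReal_mul (Real.exp_pos _).le, ← Real.exp_add, ← mul_add,
    sum_Ico_consecutive _ h1 h2]

theorem XX_rpow (lam h t : ℝ) (x : ℕ → ℝ) (i j : ℕ) : XX lam h x i j ^ t = XX (lam * t) h x i j := by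
  unfold XX
  rw [ENNReal.ofReal_rpow_of_pos (Real.exp_pos _), ← Real.exp_mul]
  congr 2; ring

section
variable (μ : Measure ℝ) [IsProbabilityMeasure μ]

theorem sum_meas (f : ℕ → ℝ → ℝ) (hf : ∀ n, Measurable (f n)) (i j : ℕ) :
    Measurable[(fld μ 1).s (Set.Ico i j)] fun x : ℕ → ℝ => ∑ n ∈ Ico i j, f n (x n) :=
  Finset.measurable_sum _ fun n hn => (hf n).comp (fld_ev μ (by simpa using hn))

theorem XX_meas (lam h : ℝ) (i j : ℕ) :
    Measurable[(fld μ 1).s (Set.Ico i j)] fun x => XX lam h x i j :=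
  ENNReal.measurable_ofReal.comp (Real.measurable_exp.comp
    ((sum_meas μ (fun _ y => y + h) (fun _ => by fun_prop) i j).const_mul _))

theorem XX_mom (lam h : ℝ) (i j : ℕ) : ∫⁻ x, XX lam h x i j ∂(PP μ)
    = (∫⁻ y, ENNReal.ofReal (Real.exp (-2 * lam * (y + h))) ∂μ) ^ (j - i) := by
  unfold XX
  simp_rw [mul_sum, Real.exp_sum, ENNReal.ofReal_prod_of_nonneg fun i _ => (Real.exp_pos _).le]
  have mf : Measurable fun y : ℝ => ENNReal.ofReal (Real.exp (-2 * lam * (y + h))) := by fun_prop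
  rw [lintegral_prod_eq_prod_lintegral_of_indepFun (Ico i j)
    (fun i (x : ℕ → ℝ) => ENNReal.ofReal (Real.exp (-2 * lam * (x i + h))))
    ((ind_ev μ).comp _ fun _ => mf) (fun i => by fun_prop)]
  rw [prod_congr rfl fun i _ =>
    (measurePreserving_eval_infinitePi (fun _ : ℕ => μ) i).lintegral_comp mf, prod_const,
    Nat.card_Ico]

end

/-- Gaussian behaviour of the moment generating function near zero -/
def Mg (μ : Measure ℝ) (t0 u : ℝ) : Prop := ∀ t : ℝ, |t| ≤ t0 →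
  Real.exp (t ^ 2 / 2 * (1 - u)) ≤ ∫ x, Real.exp (t * x) ∂μ ∧
    ∫ x, Real.exp (t * x) ∂μ ≤ Real.exp (t ^ 2 / 2 * (1 + u))

section
variable {μ : Measure ℝ} [IsProbabilityMeasure μ] (hμ : Ch μ)
include hμ

theorem XX_real (lam h t : ℝ) (i j : ℕ) : ∫⁻ x, XX lam h x i j ^ t ∂(PP μ) = ENNReal.ofReal
    ((Real.exp (-2 * lam * t * h) * ∫ y, Real.exp (-2 * lam * t * y) ∂μ) ^ (j - i)) := by
  simp_rw [XX_rpow]
  have p : 0 ≤ ∫ y, Real.exp (-2 * lam * t * y) ∂μ := integral_nonneg fun _ => (Real.exp_pos _).le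
  rw [XX_mom, ENNReal.ofReal_pow (by positivity), ← integral_const_mul,
    ofReal_integral_eq_lintegral_ofReal ((hμ.2.2 _).const_mul _)
      (Filter.Eventually.of_forall fun _ => by positivity)]
  congr 2; funext y
  rw [← Real.exp_add]; congr 2; ring

theorem XX_fin (lam h t : ℝ) (i j : ℕ) : ∫⁻ x, XX lam h x i j ^ t ∂(PP μ) ≠ ⊤ := by
  rw [XX_real hμ]; exact ENNReal.ofReal_ne_top

theorem XX_up {t0 u : ℝ} (hM : Mg μ t0 u) {lam t : ℝ} (h1 : |2 * lam * t| ≤ t0) (h : ℝ)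
    (i j : ℕ) : ∫⁻ x, XX lam h x i j ^ t ∂(PP μ) ≤ ENNReal.ofReal
      (Real.exp ((2 * lam ^ 2 * t ^ 2 * (1 + u) - 2 * lam * t * h) * (j - i : ℕ))) := by
  rw [XX_real hμ, mul_comm _ ((j - i : ℕ) : ℝ), Real.exp_nat_mul]
  have p : 0 ≤ ∫ y, Real.exp (-2 * lam * t * y) ∂μ := integral_nonneg fun _ => (Real.exp_pos _).le
  refine ENNReal.ofReal_le_ofReal (pow_le_pow_left₀ (by positivity) ?_ _)
  have := (hM (-2 * lam * t) (by rw [← abs_neg]; convert h1 using 2; ring)).2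
  refine (mul_le_mul_of_nonneg_left this (Real.exp_pos _).le).trans (le_of_eq ?_)
  rw [← Real.exp_add]; congr 1; ring

theorem XX_lo {t0 u : ℝ} (hM : Mg μ t0 u) {lam t : ℝ} (h1 : |2 * lam * t| ≤ t0) (h : ℝ)
    (i j : ℕ) : ENNReal.ofReal
      (Real.exp ((2 * lam ^ 2 * t ^ 2 * (1 - u) - 2 * lam * t * h) * (j - i : ℕ)))
      ≤ ∫⁻ x, XX lam h x i j ^ t ∂(PP μ) := by
  rw [XX_real hμ, mul_comm _ ((j - i : ℕ) : ℝ), Real.exp_nat_mul]
  refine ENNReal.ofReal_le_ofReal (pow_le_pow_left₀ (by positivity) ?_ _)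
  have := (hM (-2 * lam * t) (by rw [← abs_neg]; convert h1 using 2; ring)).1
  refine le_trans (le_of_eq ?_) (mul_le_mul_of_nonneg_left this (Real.exp_pos _).le)
  rw [← Real.exp_add]; congr 1; ring

end

end Pool.Agent.MP_c26281_pr.SA
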