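import Pool.Agent.MP_c26281_pr.SA.Old

section

open MeasureTheory ProbabilityTheory Finset Filter Topology
open scoped ENNReal

namespace Pool.Agent.MP_c26281_pr.SA

theorem sq_Seq (x : ℝ≥0∞) : 1 ≤ (1 - x) ^ 2 + 2 * x := by
  rcases le_total x 1 with h | h
  · have e : 1 - x + x = 1 := tsub_add_cancel_of_le h
    calc (1 : ℝ≥0∞) = (1 - x + x) ^ 2 := by rw [e, one_pow]
      _ ≤ (1 - x + x) ^ 2 + x * x := le_self_add
      _ = (1 - x) ^ 2 + 2 * x * (1 - x + x) := by ring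
      _ = _ := by rw [e, mul_one]
  · exact (h.trans (by rw [two_mul]; exact le_self_add)).trans le_add_self

theorem pi_Seq (x : ℕ → ℝ≥0∞) (R : ℕ) : ∏ ρ ∈ range R, (1 - x ρ) ≤ 1 :=
  prod_le_one' fun _ _ => tsub_le_self

theorem inv_Seq (x y w : ℕ → ℝ≥0∞) (e : ℝ≥0∞) (h0 : e + 2 * y 0 ≤ 1) (h1 : ∀ ρ, w ρ + x ρ = y ρ)
    (h2 : ∀ ρ, y (ρ + 1) ≤ w ρ * (1 - x ρ)⁻¹ ^ 2) (R : ℕ) :
    e + 2 * y R * (∏ ρ ∈ range R, (1 - x ρ)) ^ 2 ≤ (∏ ρ ∈ range R, (1 - x ρ)) ^ 2 := by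
  induction R with
  | zero => simpa using h0
  | succ R ih =>
    have hp := pi_Seq x R
    rw [prod_range_succ]
    generalize ∏ ρ ∈ range R, (1 - x ρ) = π at ih hp
    rw [← h1, mul_add, add_mul, ← add_assoc] at ih
    have h3 : y (R + 1) * (1 - x R) ^ 2 ≤ w R :=
      calc _ ≤ w R * (1 - x R)⁻¹ ^ 2 * (1 - x R) ^ 2 := by gcongr; exact h2 R
        _ = w R * ((1 - x R)⁻¹ * (1 - x R)) ^ 2 := by ring
        _ ≤ w R * 1 ^ 2 := by gcongr; exact ENNReal.inv_mul_le_one _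
        _ = _ := by simp
    have h4 : 2 * x R * π ^ 2 ≠ ⊤ :=
      ne_top_of_le_ne_top ENNReal.one_ne_top ((le_add_self.trans ih).trans (pow_le_one' hp 2))
    calc _ = e + 2 * (y (R + 1) * (1 - x R) ^ 2) * π ^ 2 := by ring
      _ ≤ e + 2 * w R * π ^ 2 := by gcongr
      _ ≤ _ := by
        refine (ENNReal.add_le_add_iff_right h4).1 (ih.trans ?_)
        calc π ^ 2 = π ^ 2 * 1 := (mul_one _).symm
          _ ≤ π ^ 2 * ((1 - x R) ^ 2 + 2 * x R) := by gcongr; exact sq_Seq _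
          _ = _ := by ring

theorem mass_Seq (x m m1 k : ℕ → ℝ≥0∞) (M : ℝ≥0∞) (h0 : m 0 ≤ M) (h1 : ∀ ρ, m ρ = k ρ + m1 ρ)
    (h2 : ∀ ρ, m (ρ + 1) ≤ m1 ρ * (1 - x ρ)⁻¹) (R : ℕ) :
    (∏ ρ ∈ range R, (1 - x ρ)) * m R + ∑ ρ ∈ range R, (∏ i ∈ range ρ, (1 - x i)) * k ρ ≤ M := by
  induction R with
  | zero => simpa using h0
  | succ R ih =>
    rw [prod_range_succ, sum_range_succ]
    refine le_trans ?_ ih
    have h3 : (1 - x R) * m (R + 1) ≤ m1 R :=
      calc _ ≤ (1 - x R) * (m1 R * (1 - x R)⁻¹) := by gcongr; exact h2 R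
        _ = m1 R * ((1 - x R)⁻¹ * (1 - x R)) := by ring
        _ ≤ m1 R * 1 := by gcongr; exact ENNReal.inv_mul_le_one _
        _ = _ := mul_one _
    rw [h1 R, mul_assoc]
    calc _ ≤ (∏ ρ ∈ range R, (1 - x ρ)) * m1 R + (∑ ρ ∈ range R, (∏ i ∈ range ρ, (1 - x i)) * k ρ +
          (∏ ρ ∈ range R, (1 - x ρ)) * k R) := by gcongr
      _ = _ := by ring

theorem pSeq (hJ : SJn) : SSeq := by
  intro g M p0 e he _ _ _ hM hy
  have hi : ENNReal.ofReal (1 / e) = (ENNReal.ofReal e)⁻¹ := by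
    rw [one_div, ENNReal.ofReal_inv_of_pos he]
  have key : ∀ R, ENNReal.ofReal e ≤ ∏ ρ ∈ range R, (1 - g * ∑' z, Pm g p0 ρ (z + 1)) := by
    intro R
    have h := inv_Seq (fun ρ => g * ∑' z, Pm g p0 ρ (z + 1))
      (fun ρ => g * ∑' z : ℕ, (z : ℝ≥0∞) * Pm g p0 ρ z)
      (fun ρ => g * ∑' z : ℕ, (z : ℝ≥0∞) * Pm g p0 ρ (z + 1)) (ENNReal.ofReal e) ?_ ?_ ?_ R
    · refine (le_self_add.trans h).trans ?_
      rw [pow_two]
      exact mul_le_of_le_one_left' (pi_Seq _ R)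
    · calc _ ≤ ENNReal.ofReal e + ENNReal.ofReal (1 - e) := by
            rw [← mul_assoc]
            exact add_le_add le_rfl hy
        _ = 1 := by rw [← ENNReal.ofReal_add he.le (by linarith)]; simp
    · intro ρ
      rw [← mul_add, ← ENNReal.tsum_add,
        tsum_eq_zero_add' (f := fun z : ℕ => (z : ℝ≥0∞) * Pm g p0 ρ z) ENNReal.summable]
      simp [add_mul]
    · intro ρ
      rw [mul_assoc]
      exact mul_le_mul_right (hJ g fun z => Pm g p0 ρ (z + 1)).2 g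
  refine ⟨fun R => ?_, ?_⟩
  · rw [← ENNReal.prod_inv_distrib fun i _ j _ _ =>
      Or.inr (ne_top_of_le_ne_top ENNReal.one_ne_top tsub_le_self), hi]
    exact ENNReal.inv_le_inv.2 (key R)
  · rw [ENNReal.tsum_eq_iSup_nat, hi]
    refine iSup_le fun R => ?_
    have h := mass_Seq (fun ρ => g * ∑' z, Pm g p0 ρ (z + 1)) (fun ρ => ∑' z, Pm g p0 ρ z)
      (fun ρ => ∑' z, Pm g p0 ρ (z + 1)) (fun ρ => Pm g p0 ρ 0) M hM
      (fun ρ => tsum_eq_zero_add' ENNReal.summable)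
      (fun ρ => (hJ g fun z => Pm g p0 ρ (z + 1)).1) R
    rw [← div_eq_mul_inv, ENNReal.le_div_iff_mul_le (Or.inl (ENNReal.ofReal_pos.2 he).ne')
      (Or.inl ENNReal.ofReal_ne_top), sum_mul]
    refine le_trans (sum_le_sum fun ρ _ => ?_) (le_add_self.trans h)
    rw [mul_comm]
    exact mul_le_mul_left (key ρ) _

end Pool.Agent.MP_c26281_pr.SA

end

section

open MeasureTheory ProbabilityTheory Finset Filter Topology
open scoped ENNReal

namespace Pool.Agent.MP_c26281_pr.SA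

section
variable {Ω : Type} [MeasurableSpace Ω] {P : Measure Ω} {F : Fld P} {E : Ω → IA} {C : ℕ → Ω → IA}

theorem ad_Join (hE : Ad F E) (hC : ∀ z, Ad F (C z)) (j : ℕ) :
    ∀ z, Ad F fun ω => gD (E ω) (fun y => C y ω) j z := by
  induction j with
  | zero => exact hC
  | succ j ih =>
    intro z
    exact Ad.sum (antidiagonal z) (A := fun x ω => C x.1 ω * E ω * gD (E ω) (fun y => C y ω) j x.2)
      fun x _ => ((hC x.1).mul hE).mul (ih x.2)

theorem term_Join (f : ℕ → ℕ → ℝ≥0∞) (e e0 c d : ℕ → ℝ≥0∞)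
    (hf : ∀ n1 l n2 z1 z2, f (n1 + l + n2) (z1 + z2) * e0 l ≤ f n1 z1 * e l * f n2 z2)
    (n z1 z2 : ℕ) : f n (z1 + z2) * cv (cv c e0) d n
      ≤ cv (cv (fun m => f m z1 * c m) e) (fun m => f m z2 * d m) n := by
  unfold cv
  rw [mul_sum]
  refine sum_le_sum fun x hx => ?_
  rw [sum_mul, sum_mul, mul_sum]
  refine sum_le_sum fun y hy => ?_
  have h1 := mem_antidiagonal.1 hx
  have h2 := mem_antidiagonal.1 hy
  have h3 := hf y.1 y.2 x.2 z1 z2
  rw [h2, h1] at h3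
  calc f n (z1 + z2) * (c y.1 * e0 y.2 * d x.2)
      = (f n (z1 + z2) * e0 y.2) * (c y.1 * d x.2) := by ring
    _ ≤ (f y.1 z1 * e y.2 * f x.2 z2) * (c y.1 * d x.2) := mul_le_mul_left h3 _
    _ = _ := by ring

variable [IsProbabilityMeasure P]

theorem main_Join (hE : Ad F E) (hC : ∀ z, Ad F (C z)) {t : ℝ} {f : ℕ → ℕ → ℝ≥0∞}
    {e p : ℕ → ℝ≥0∞} {g : ℝ≥0∞} (h0 : 0 < t) (h1 : t ≤ 1)
    (hf : ∀ n1 l n2 z1 z2, f (n1 + l + n2) (z1 + z2) * Nm P t E l ≤ f n1 z1 * e l * f n2 z2)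
    (he : ∑' l, e l ≤ g) (hp : ∀ z, ∑' n, f n z * Nm P t (C z) n ≤ p z) (j : ℕ) :
    ∀ z, ∑' n, f n z * Nm P t (fun ω => gD (E ω) (fun y => C y ω) j z) n ≤ jD g p j z := by
  induction j with
  | zero => exact hp
  | succ j ih =>
    intro z
    have hb : ∀ n, Nm P t (fun ω => gD (E ω) (fun y => C y ω) (j + 1) z) n
        ≤ ∑ x ∈ antidiagonal z, cv (cv (Nm P t (C x.1)) (Nm P t E))
          (Nm P t fun ω => gD (E ω) (fun y => C y ω) j x.2) n := fun n => by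
      have a1 := Nk_sum (P := P) h0 h1 (antidiagonal z)
        (A := fun x ω => C x.1 ω * E ω * gD (E ω) (fun y => C y ω) j x.2)
        fun x _ => ((hC x.1).mul hE).mul (ad_Join hE hC j x.2)
      refine (sq_mono a1 n).trans ((sq_sum _ _ n).trans (sum_le_sum fun x _ => ?_))
      refine (sq_mono (Nk_mul h0 h1 ((hC x.1).mul hE) (ad_Join hE hC j x.2)) n).trans ?_
      refine (sq_mul _ _ n).trans (cv_mono (fun m => ?_) (fun _ => le_rfl) n)
      exact (sq_mono (Nk_mul h0 h1 (hC x.1) hE) m).trans (sq_mul _ _ m)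
    refine (ENNReal.tsum_le_tsum fun n => mul_le_mul_right (hb n) _).trans ?_
    simp_rw [mul_sum]
    rw [Summable.tsum_finsetSum fun _ _ => ENNReal.summable]
    show _ ≤ g * cv p (jD g p j) z
    rw [cv, mul_sum]
    refine sum_le_sum fun x hx => ?_
    rw [← mem_antidiagonal.1 hx]
    refine (ENNReal.tsum_le_tsum fun n => term_Join f e _ _ _ hf n x.1 x.2).trans ?_
    rw [tsum_cv, tsum_cv]
    refine (mul_le_mul' (mul_le_mul' (hp x.1) he) (ih x.2)).trans (le_of_eq ?_)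
    ring

end

theorem pJoin : SJoin := by
  intro Ω _ P _ F E C hE hC
  refine ⟨fun z => Ad.gsum (A := fun j ω => gD (E ω) (fun y => C y ω) j z)
    fun j => ad_Join hE hC j z, ?_⟩
  intro t f e p g h0 h1 hf he hp z
  have hb : ∀ n, Nm P t (fun ω => gj (E ω) (fun y => C y ω) z) n
      ≤ ∑' j, Nm P t (fun ω => gD (E ω) (fun y => C y ω) j z) n := fun n =>
    (sq_mono (Nk_gsum (P := P) h0 h1 (A := fun j ω => gD (E ω) (fun y => C y ω) j z)
      fun j => ad_Join hE hC j z) n).trans (sq_gsum _ n)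
  refine (ENNReal.tsum_le_tsum fun n => mul_le_mul_right (hb n) _).trans ?_
  simp_rw [← ENNReal.tsum_mul_left]
  rw [ENNReal.tsum_comm]
  exact ENNReal.tsum_le_tsum fun j => main_Join hE hC h0 h1 hf he hp j z

end Pool.Agent.MP_c26281_pr.SA

end

section

open MeasureTheory ProbabilityTheory Finset Filter Topology
open scoped ENNReal

namespace Pool.Agent.MP_c26281_pr.SA

theorem anti_Kill (f g : ℕ → ℝ≥0∞) (c e : ℝ≥0∞) (n : ℕ) {F : ℕ × ℕ → ℝ≥0∞}
    (h : ∀ x ∈ antidiagonal n, F x ≤ c * f x.1 + e * g x.2) :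
    ∑ x ∈ antidiagonal n, F x ≤ c * ∑' i, f i + e * ∑' i, g i := by
  refine (sum_le_sum h).trans ?_
  rw [sum_add_distrib, ← mul_sum, ← mul_sum, ← Finset.Nat.sum_antidiagonal_swap (f := fun x => g x.2)]
  simp only [Prod.snd_swap, Finset.Nat.sum_antidiagonal_eq_sum_range_succ_mk]
  gcongr <;> exact ENNReal.sum_le_tsum _

theorem third_Kill {A α : ℝ} {L n i : ℕ} (hA : 0 ≤ A) (h0 : 0 < α) (h1 : α ≤ 1) (hn : 1 ≤ n)
    (h : n ≤ 3 * i) : pwL A α L i ≤ ENNReal.ofReal (9 * A * (n : ℝ) ^ (-(1 + α))) := by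
  unfold pwL pw
  split_ifs
  swap
  · exact zero_le
  have hi : (0 : ℝ) < i := Nat.cast_pos.2 (by omega)
  have hn0 : (0 : ℝ) < n := Nat.cast_pos.2 hn
  have p1 : (n : ℝ) ^ (1 + α) ≤ 9 * (i : ℝ) ^ (1 + α) := by
    have a : (n : ℝ) ≤ 3 * i := by exact_mod_cast h
    have b : (3 : ℝ) ^ (1 + α) ≤ 9 := (Real.rpow_le_rpow_of_exponent_le (by norm_num)
      (show 1 + α ≤ 2 by linarith)).trans_eq (by norm_num)
    calc _ ≤ (3 * i : ℝ) ^ (1 + α) := by gcongr
      _ ≤ _ := by rw [Real.mul_rpow (by norm_num) hi.le]; gcongr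
  refine ENNReal.ofReal_le_ofReal ?_
  rw [mul_comm 9, mul_assoc, Real.rpow_neg hi.le, Real.rpow_neg hn0.le]
  refine mul_le_mul_of_nonneg_left ?_ hA
  rw [← div_eq_mul_inv, le_div_iff₀ (by positivity), inv_mul_le_iff₀ (by positivity)]
  linarith

theorem pKill (hS : SSum) : SKill := by
  intro α η A β L a b h0 h1 hη hη1 hA hβ hL ha hb hv n
  set v := 108 / η ^ 2 * (A / α) * β with hvd
  have hv0 : 0 ≤ v := by positivity
  have hL0 : (0 : ℝ) < L := Nat.cast_pos.2 hL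
  rcases lt_or_ge n L with hn | hn
  · have h : ∀ i ≤ n, a i = 0 := fun i hi => le_zero_iff.1 ((ha i).trans_eq (if_neg (by omega)))
    have : cv (cv a b) (pwL (A * (1 + v)) α L) n = 0 := sum_eq_zero fun x hx => by
      rw [show cv a b x.1 = 0 from sum_eq_zero fun y hy => by
        have := mem_antidiagonal.1 hx
        have := mem_antidiagonal.1 hy
        rw [h _ (by omega), zero_mul], zero_mul]
    rw [this, h n le_rfl, add_zero]
    exact zero_le
  have hn1 : 1 ≤ n := hL.trans hn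
  have hn0 : (0 : ℝ) < n := Nat.cast_pos.2 hn1
  have hLn : (L : ℝ) ≤ n := by exact_mod_cast hn
  set N : ℝ := (n : ℝ) ^ (-(1 + α)) with hN
  have hN0 : 0 < N := by positivity
  have hs : ∀ B : ℝ, 0 ≤ B → ∑' i, pwL B α L i ≤ ENNReal.ofReal (2 * B * ((L : ℝ) ^ (-α) / α)) :=
    fun B hB => (hS.1 B α L hB h0 hL).trans (ENNReal.ofReal_le_ofReal (by
      have p1 : (L : ℝ) ^ (-(1 + α)) ≤ (L : ℝ) ^ (-α) :=
        Real.rpow_le_rpow_of_exponent_le (by exact_mod_cast hL) (by linarith)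
      have p2 : (L : ℝ) ^ (-α) ≤ (L : ℝ) ^ (-α) / α := le_div_self (by positivity) h0 h1
      nlinarith [mul_le_mul_of_nonneg_left (p1.trans p2) hB]))
  have hb' : ∑' i, b i ≤ ENNReal.ofReal (β * (L : ℝ) ^ α) := le_trans (ENNReal.tsum_le_tsum fun i =>
    le_mul_of_one_le_left' (ENNReal.one_le_ofReal.2 (one_le_pow₀
      (le_add_of_nonneg_right (by positivity))))) hb
  have h2 : ∀ k, 2 * n ≤ 3 * k → cv a b k ≤
      ENNReal.ofReal (18 / η ^ 2 * A * N * (β * (L : ℝ) ^ α)) := fun k hk => by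
    refine (le_trans (le_of_eq (Finset.Nat.sum_antidiagonal_swap (n := k)
      (f := fun x => a x.1 * b x.2)).symm) (sum_le_sum
      (g := fun x => ENNReal.ofReal (9 / η ^ 2 * A * N) * (ENNReal.ofReal ((1 + η * x.1 / L) ^ 2) *
        b x.1) + ENNReal.ofReal (9 / η ^ 2 * A * N) * b x.1) fun x hx => ?_)).trans ?_
    · have := mem_antidiagonal.1 hx
      simp only [Prod.fst_swap, Prod.snd_swap]
      rcases le_total n (3 * x.2) with h | h
      · refine le_add_left (mul_le_mul_left ((ha _).trans ((third_Kill hA h0 h1 hn1 h).trans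
          (ENNReal.ofReal_le_ofReal ?_))) _)
        gcongr
        exact le_div_self (by norm_num) (by positivity) (pow_le_one₀ hη.le hη1)
      · refine le_add_right ?_
        rw [← mul_assoc, ← ENNReal.ofReal_mul (by positivity)]
        refine mul_le_mul_left ((ha _).trans ?_) _
        unfold pwL pw
        split_ifs with hi
        swap
        · exact zero_le
        refine ENNReal.ofReal_le_ofReal ?_
        have p1 : (n : ℝ) ≤ 3 * x.1 := by exact_mod_cast (by omega : n ≤ 3 * x.1)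
        have p2 : (L : ℝ) ^ (1 - α) ≤ (n : ℝ) ^ (1 - α) := by gcongr
        have e : ∀ y : ℝ, 0 < y → y ^ (-(1 + α)) = y ^ (1 - α) / y ^ 2 := fun y hy => by
          rw [← Real.rpow_two, ← Real.rpow_sub hy]
          congr 1
          ring
        calc _ ≤ A * (L : ℝ) ^ (-(1 + α)) := mul_le_mul_of_nonneg_left
              (Real.rpow_le_rpow_of_nonpos hL0 (by exact_mod_cast hi) (by linarith)) hA
          _ ≤ A * ((n : ℝ) ^ (1 - α) / L ^ 2) := by rw [e _ hL0]; gcongr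
          _ = 9 / η ^ 2 * A * N * (η * (n / 3) / L) ^ 2 := by rw [hN, e _ hn0]; field_simp; norm_num
          _ ≤ _ := by
              gcongr
              refine le_add_of_nonneg_of_le zero_le_one ?_
              gcongr
              linarith
    · rw [sum_add_distrib, ← mul_sum, ← mul_sum]
      simp only [Finset.Nat.sum_antidiagonal_eq_sum_range_succ_mk]
      refine (add_le_add (mul_le_mul_right ((ENNReal.sum_le_tsum _).trans hb) _)
        (mul_le_mul_right ((ENNReal.sum_le_tsum _).trans hb') _)).trans (le_of_eq ?_)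
      rw [← ENNReal.ofReal_mul (by positivity), ← ENNReal.ofReal_add (by positivity) (by positivity)]
      congr 1
      ring
  have hA' : 0 ≤ A * (1 + v) := by positivity
  have h3 := anti_Kill (cv a b) (pwL (A * (1 + v)) α L) (ENNReal.ofReal (9 * (A * (1 + v)) * N))
    (ENNReal.ofReal (18 / η ^ 2 * A * N * (β * (L : ℝ) ^ α))) n
    (F := fun x => cv a b x.1 * pwL (A * (1 + v)) α L x.2) fun x hx => by
      have := mem_antidiagonal.1 hx
      rcases le_total n (3 * x.2) with h | h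
      · rw [mul_comm]
        exact le_add_right (mul_le_mul_left (third_Kill hA' h0 h1 hn1 h) _)
      · exact le_add_left (mul_le_mul_left (h2 _ (by omega)) _)
  rw [tsum_cv] at h3
  refine (add_le_add (ha n) (h3.trans (add_le_add (mul_le_mul_right (mul_le_mul'
    ((ENNReal.tsum_le_tsum ha).trans (hs A hA)) hb') _) (mul_le_mul_right (hs _ hA') _)))).trans ?_
  rw [pwL, pwL, if_pos hn, if_pos hn, pw, pw, ← hN, ← ENNReal.ofReal_mul (by positivity),
    ← ENNReal.ofReal_mul (by positivity), ← ENNReal.ofReal_mul (by positivity),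
    ← ENNReal.ofReal_add (by positivity) (by positivity),
    ← ENNReal.ofReal_add (by positivity) (by positivity)]
  refine ENNReal.ofReal_le_ofReal ?_
  have e : (L : ℝ) ^ (-α) * (L : ℝ) ^ α = 1 := by rw [← Real.rpow_add hL0]; simp
  have p1 : (1 : ℝ) ≤ 1 / η ^ 2 := one_le_one_div (by positivity) (pow_le_one₀ hη.le hη1)
  calc _ = A * N + (1 + v) * (18 * 1 + 36 * (1 / η ^ 2)) * (A * N * (A / α * β)) *
        ((L : ℝ) ^ (-α) * (L : ℝ) ^ α) := by ring
    _ ≤ A * N + (1 + 1) * (18 * (1 / η ^ 2) + 36 * (1 / η ^ 2)) * (A * N * (A / α * β)) * 1 := by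
        rw [e]
        gcongr
    _ = _ := by rw [hvd]; ring

end Pool.Agent.MP_c26281_pr.SA

end

section

open MeasureTheory ProbabilityTheory Finset Filter Topology
open scoped ENNReal

namespace Pool.Agent.MP_c26281_pr.SA

theorem cv3_Wt (a b c : ℕ → ℝ≥0∞) (B : ℕ) : ∑ n ∈ range B, cv (cv a b) c n
    ≤ (∑' n, a n) * (∑ n ∈ range B, b n) * ∑' n, c n := by
  have e : ∑ n ∈ range B, b n = ∑' n, if n < B then b n else 0 := by
    rw [tsum_eq_sum (s := range B) fun n hn => if_neg (mem_range.not.1 hn)]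
    exact sum_congr rfl fun n hn => (if_pos (mem_range.1 hn)).symm
  rw [e, ← tsum_cv, ← tsum_cv]
  refine le_trans (sum_le_sum fun n hn => ?_) (ENNReal.sum_le_tsum (range B))
  unfold cv
  refine sum_le_sum fun x hx => mul_le_mul_left (sum_le_sum fun y hy => ?_) _
  have := mem_range.1 hn
  have := mem_antidiagonal.1 hx
  have := mem_antidiagonal.1 hy
  beta_reduce
  rw [if_pos (by omega)]

theorem pWt (hA : SAlg) (hJ : SJoin) : SWt := by
  intro Ω _ P _ F t B L g M H C t0 t1 aH aC hg hM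
  have aE := aH.klo L
  have aG := aH.khi L
  have aS : Ad F fun ω => gsum fun z => C z ω := Ad.gsum aC
  have aJ := (hJ Ω P F _ C aE aC).1
  have aW : Ad F fun ω => WW (khi L (H ω)) fun z => gj (klo L (H ω)) (fun y => C y ω) z :=
    aG.mul ((Ad.gsum aJ).mul aG).kst
  have mul : ∀ {X Y : Ω → IA}, Ad F X → Ad F Y → ∀ n,
      Nm P t (fun ω => X ω * Y ω) n ≤ cv (Nm P t X) (Nm P t Y) n := fun hX hY n =>
    (sq_mono (Nk_mul t0 t1 hX hY) n).trans (sq_mul _ _ n)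
  have mS : ∑' n, Nm P t (fun ω => gsum fun z => C z ω) n ≤ M := by
    refine le_trans (ENNReal.tsum_le_tsum fun n => (sq_mono (Nk_gsum t0 t1 aC) n).trans
      (sq_gsum _ n)) ?_
    rw [ENNReal.tsum_comm]; exact hM
  have st : ∀ {X : Ω → IA}, Ad F X → ∑' n, Nm P t X n ≤ g * M →
      ∑' n, Nm P t (fun ω => kst (X ω)) n ≤ (1 - g * M)⁻¹ := fun hX h =>
    (ENNReal.tsum_le_tsum fun n => sq_mono (Nk_kst t0 t1 hX) n).trans
      ((tsum_sq_kst _).trans (ENNReal.inv_le_inv.2 (tsub_le_tsub_left h 1)))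
  have s1 := st (aE.mul aS) ((ENNReal.tsum_le_tsum (mul aE aS)).trans
    (by rw [tsum_cv]; exact mul_le_mul' hg mS))
  have s2 := st (aS.mul aE) ((ENNReal.tsum_le_tsum (mul aS aE)).trans
    (by rw [tsum_cv, mul_comm]; exact mul_le_mul' hg mS))
  have a1 := (aE.mul aS).kst
  have a2 := (aS.mul aE).kst
  have pt : ∀ ω, WW (H ω) (fun z => C z ω) ≤
      kst (klo L (H ω) * gsum fun z => C z ω) * klo L (H ω)
      + kst (klo L (H ω) * gsum fun z => C z ω) *
        (WW (khi L (H ω)) fun z => gj (klo L (H ω)) (fun y => C y ω) z) *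
        kst ((gsum fun z => C z ω) * klo L (H ω)) := fun ω => by
    have := hA.2.2 (klo L (H ω)) (khi L (H ω)) (gsum fun z => C z ω)
    rw [klo_add_khi] at this
    refine this.trans (add_le_add_right (mul_le_mul_left (mul_le_mul_right (mul_le_mul_right
      (kst_mono (mul_le_mul_left (hA.1 _ _) _)) _) _) _) _)
  unfold Wt
  refine le_trans (sum_le_sum fun n _ => (sq_mono ((Nk_mono t0.le pt).trans
    (Nk_add t0 t1 (a1.mul aE))) n).trans ((sq_add _ _ n).trans (add_le_add (mul a1 aE n)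
      ((mul (a1.mul aW) a2 n).trans (cv_mono (mul a1 aW) (fun _ => le_rfl) n))))) ?_
  rw [sum_add_distrib]
  refine add_le_add ((ENNReal.sum_le_tsum _).trans ?_) ((cv3_Wt _ _ _ B).trans ?_)
  · rw [tsum_cv]; exact mul_le_mul' s1 hg
  · exact (mul_le_mul' (mul_le_mul_left s1 _) s2).trans (le_of_eq (by ring))

end Pool.Agent.MP_c26281_pr.SA

end

section

/-! One step of the renormalization. -/

open MeasureTheory ProbabilityTheory Finset Filter Topology
open scoped ENNReal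

namespace Pool.Agent.MP_c26281_pr.SA

theorem lo_Step {Ω : Type} [MeasurableSpace Ω] {P : Measure Ω} {H : Ω → IA} {a : ℕ → ℝ≥0∞}
    (h : Nk P 1 H ≤ tk a) (L : ℕ) :
    Nk P 1 (fun ω => klo L (H ω)) ≤ tk fun n => if n < L then a n else 0 :=
  le_tk.2 fun p n => by
    have := le_tk.1 h p n
    rw [Nk, kmk_add] at this ⊢
    simp only [klo, kmk_add, Nat.add_sub_cancel_left]
    split_ifs
    · exact this
    · simp

theorem hi_Step {Ω : Type} [MeasurableSpace Ω] {P : Measure Ω} {H : Ω → IA} {a : ℕ → ℝ≥0∞}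
    (h : Nk P 1 H ≤ tk a) (L : ℕ) :
    Nk P 1 (fun ω => khi L (H ω)) ≤ tk fun n => if n < L then 0 else a n :=
  le_tk.2 fun p n => by
    have := le_tk.1 h p n
    rw [Nk, kmk_add] at this ⊢
    simp only [khi, kmk_add, Nat.add_sub_cancel_left]
    split_ifs
    · simp
    · exact this

theorem sum_Step (hS : SSum) {c : ℝ} (hc : 0 ≤ c) {L M ρ0 : ℕ} (h0 : 2 ^ ρ0 ≤ L) (hM : M ≤ 2 * L)
    {u : ℕ → ℝ≥0∞} (h1 : ∀ n, L ≤ n → n < M → u n ≤ ENNReal.ofReal (c * (1 / n)))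
    (h2 : ∀ n, n < L ∨ M ≤ n → u n = 0) :
    ∑' n, u n ≤ ENNReal.ofReal (c * (Real.log 2 + 1 / 2 ^ ρ0)) := by
  have hL : 1 ≤ L := le_trans Nat.one_le_two_pow h0
  rw [tsum_eq_sum (s := Ico L M) fun n hn => h2 n (by rw [mem_Ico] at hn; omega)]
  refine (sum_le_sum fun n hn => h1 n (mem_Ico.1 hn).1 (mem_Ico.1 hn).2).trans ?_
  rw [← ENNReal.ofReal_sum_of_nonneg fun n _ => by positivity, ← mul_sum]
  refine ENNReal.ofReal_le_ofReal (mul_le_mul_of_nonneg_left ((hS.2.1 L M hL hM).trans ?_) hc)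
  have : ((2 : ℝ) ^ ρ0) ≤ L := by exact_mod_cast h0
  gcongr

theorem pwL_mono_Step {A A' α : ℝ} (h : A ≤ A') (L n : ℕ) : pwL A α L n ≤ pwL A' α L n := by
  unfold pwL pw
  split_ifs
  · exact ENNReal.ofReal_le_ofReal (mul_le_mul_of_nonneg_right h (by positivity))
  · exact le_rfl

theorem wt_Step {α η : ℝ} (hα : 0 < α) (hη : 0 < η) (ρ0 ρ n : ℕ) :
    ENNReal.ofReal ((1 + η * n / (LL ρ0 ρ : ℕ)) ^ 2)
      ≤ ENNReal.ofReal (((LL ρ0 ρ : ℕ) : ℝ) ^ α) * f1 α η ρ0 n (ρ + 0) := by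
  rw [f1, ← ENNReal.ofReal_mul (by positivity), add_zero, ← mul_assoc]
  refine ENNReal.ofReal_le_ofReal ?_
  have e : ((LL ρ0 ρ : ℕ) : ℝ) = 2 ^ max (ρ + 1) ρ0 := by simp [LL]
  have a1 : (2 : ℝ) ^ max ρ ρ0 ≤ 2 ^ max (ρ + 1) ρ0 :=
    pow_le_pow_right₀ (by norm_num) (max_le_max_right _ (Nat.le_succ _))
  have a2 : (2 : ℝ) ^ ρ ≤ 2 ^ max (ρ + 1) ρ0 :=
    pow_le_pow_right₀ (by norm_num) (le_trans (Nat.le_succ _) (le_max_left _ _))
  have a3 : (1 : ℝ) ≤ ((2 : ℝ) ^ max (ρ + 1) ρ0) ^ α * (2 : ℝ) ^ (-(α * ρ)) := by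
    have b1 : ((2 : ℝ) ^ ρ) ^ α ≤ ((2 : ℝ) ^ max (ρ + 1) ρ0) ^ α :=
      Real.rpow_le_rpow (by positivity) a2 hα.le
    have b2 : ((2 : ℝ) ^ ρ) ^ α * (2 : ℝ) ^ (-(α * ρ)) = 1 := by
      rw [← Real.rpow_natCast, ← Real.rpow_mul (by norm_num), ← Real.rpow_add (by norm_num),
        show (ρ : ℝ) * α + -(α * ρ) = 0 by ring, Real.rpow_zero]
    rw [← b2]; gcongr
  rw [e]
  calc (1 + η * n / 2 ^ max (ρ + 1) ρ0) ^ 2 ≤ (1 + η * n / 2 ^ max ρ ρ0) ^ 2 := by gcongr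
    _ ≤ _ := le_mul_of_one_le_left (by positivity) a3

theorem th_Step {A α : ℝ} (hA : 0 ≤ A) (hα : 0 < α) {n : ℕ} (hn : 1 ≤ n) :
    pw A α n ^ (1 / (1 + α)) = ENNReal.ofReal (A ^ (1 / (1 + α)) * (1 / n)) := by
  have h0 : (0 : ℝ) < n := by exact_mod_cast hn
  rw [pw, ENNReal.ofReal_rpow_of_nonneg (by positivity) (by positivity),
    Real.mul_rpow hA (by positivity), ← Real.rpow_mul h0.le,
    show -(1 + α) * (1 / (1 + α)) = -1 by field_simp, Real.rpow_neg_one, one_div (n : ℝ)]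

theorem one_Step {A α η : ℝ} (hA : 0 ≤ A) (hα : 0 < α) {r n : ℕ} (hn : 2 ^ r ≤ n) :
    ENNReal.ofReal ((2 : ℝ) ^ (α * r) * (1 + 2 * η) ^ 2) * pw A α n
      ≤ ENNReal.ofReal ((1 + 2 * η) ^ 2 * A * (1 / n)) := by
  have h1 : ((2 : ℝ) ^ r) ≤ n := by exact_mod_cast hn
  have h0 : (0 : ℝ) < n := lt_of_lt_of_le (by positivity) h1
  rw [pw, ← ENNReal.ofReal_mul (by positivity)]
  refine ENNReal.ofReal_le_ofReal ?_
  have b1 : (2 : ℝ) ^ (α * r) ≤ (n : ℝ) ^ α := by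
    rw [mul_comm, Real.rpow_mul (by norm_num), Real.rpow_natCast]
    exact Real.rpow_le_rpow (by positivity) h1 hα.le
  have b2 : (n : ℝ) ^ α * (n : ℝ) ^ (-(1 + α)) = 1 / n := by
    rw [← Real.rpow_add h0, show α + -(1 + α) = -1 by ring, Real.rpow_neg_one, one_div]
  rw [← b2]
  calc (2 : ℝ) ^ (α * r) * (1 + 2 * η) ^ 2 * (A * (n : ℝ) ^ (-(1 + α)))
      ≤ (n : ℝ) ^ α * (1 + 2 * η) ^ 2 * (A * (n : ℝ) ^ (-(1 + α))) := by gcongr
    _ = _ := by ring

theorem pStep (hS : SSum) (hA : SAlg) (hJ : SJoin) (hF : SF1) (hK : SKill) (hW : SWt) :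
    SStep := by
  intro Ω _ P _ F α η A A' ρ0 ρ g p H C hα hα1 hη hη1 hA0 hSt hp hk hA' hg1 hg2
  obtain ⟨aH, aC, h1, h2, h3⟩ := hSt
  have hA'0 : 0 ≤ A' := le_trans (by positivity) hA'
  have t0 : 0 < 1 / (1 + α) := by positivity
  have t1 : 1 / (1 + α) ≤ 1 := by rw [div_le_one (by positivity)]; linarith
  have l0 : 2 ^ ρ0 ≤ LL ρ0 ρ := Nat.pow_le_pow_right (by norm_num) (le_max_right _ _)
  have l1 : 2 ^ (ρ + 1) ≤ LL ρ0 ρ := Nat.pow_le_pow_right (by norm_num) (le_max_left _ _)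
  have l2 : LL ρ0 (ρ + 1) ≤ 2 * LL ρ0 ρ := by
    unfold LL
    rw [← pow_succ']
    exact Nat.pow_le_pow_right (by norm_num) (by omega)
  have l3 : LL ρ0 ρ ≤ LL ρ0 (ρ + 1) := Nat.pow_le_pow_right (by norm_num) (by omega)
  have l4 : 1 ≤ LL ρ0 ρ := le_trans Nat.one_le_two_pow l0
  have hw : ∑' n : ℕ, ENNReal.ofReal ((1 + η * n / (LL ρ0 ρ : ℕ)) ^ 2) * Nm P 1 (C 0) n
      ≤ ENNReal.ofReal ((p 0).toReal * ((LL ρ0 ρ : ℕ) : ℝ) ^ α) := by
    rw [ENNReal.ofReal_mul ENNReal.toReal_nonneg, ENNReal.ofReal_toReal hp, mul_comm (p 0)]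
    refine le_trans ?_ (mul_le_mul_right (h2 0) _)
    rw [← ENNReal.tsum_mul_left]
    refine ENNReal.tsum_le_tsum fun n => ?_
    rw [← mul_assoc]
    exact mul_le_mul_left (wt_Step hα hη ρ0 ρ n) _
  have hk1 := hK α η A (p 0).toReal (LL ρ0 ρ) (Nm P 1 H) (Nm P 1 (C 0)) hα hα1 hη hη1 hA0
    ENNReal.toReal_nonneg l4 h1 hw hk
  obtain ⟨H1, eH1⟩ : ∃ H1 : Ω → IA, H1 = fun ω => H ω * kst (C 0 ω * H ω) := ⟨_, rfl⟩
  have aH1 : Ad F H1 := by rw [eH1]; exact aH.mul ((aC 0).mul aH).kst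
  have n1 : Nk P 1 H1 ≤ tk (pwL A' α (LL ρ0 ρ)) := by
    have e : H1 = fun ω => kst (H ω * C 0 ω) * H ω := by
      rw [eH1]; funext ω; rw [kst_shift]
    rw [e]
    refine (Nk_mul one_pos le_rfl (aH.mul (aC 0)).kst aH).trans ?_
    refine (mul_le_mul_left (Nk_kst one_pos le_rfl (aH.mul (aC 0))) _).trans ?_
    refine (kst_le_tk ?_ (le_tk_sq _) hk1).trans (tk_mono fun n => pwL_mono_Step hA' _ n)
    refine (Nk_mul one_pos le_rfl aH (aC 0)).trans ?_
    rw [← tk_mul]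
    exact mul_le_mul' (le_tk_sq _) (le_tk_sq _)
  have aE := aH1.klo (LL ρ0 (ρ + 1))
  have nE := lo_Step n1 (LL ρ0 (ρ + 1))
  have nE1 : ∀ n, Nm P 1 (fun ω => klo (LL ρ0 (ρ + 1)) (H1 ω)) n
      ≤ if n < LL ρ0 (ρ + 1) then pwL A' α (LL ρ0 ρ) n else 0 := sq_le nE
  have nEt : ∀ n, Nm P (1 / (1 + α)) (fun ω => klo (LL ρ0 (ρ + 1)) (H1 ω)) n
      ≤ (if n < LL ρ0 (ρ + 1) then pwL A' α (LL ρ0 ρ) n else 0) ^ (1 / (1 + α)) :=
    sq_le (Nk_jensen t0 t1 aE nE)
  have z1 : ∀ n, n < LL ρ0 ρ ∨ LL ρ0 (ρ + 1) ≤ n →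
      (if n < LL ρ0 (ρ + 1) then pwL A' α (LL ρ0 ρ) n else 0) = 0 := fun n hn => by
    unfold pwL
    split_ifs
    · omega
    · rfl
    · rfl
  have z2 : ∀ n, LL ρ0 ρ ≤ n → n < LL ρ0 (ρ + 1) →
      (if n < LL ρ0 (ρ + 1) then pwL A' α (LL ρ0 ρ) n else 0) = pw A' α n := fun n a b => by
    rw [if_pos b, pwL, if_pos a]
  have sEt : ∑' n, Nm P (1 / (1 + α)) (fun ω => klo (LL ρ0 (ρ + 1)) (H1 ω)) n ≤ g := by
    refine le_trans (sum_Step hS (by positivity) l0 l2 (fun n a b => ?_) fun n hn => ?_) hg2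
    · refine (nEt n).trans (le_of_eq ?_)
      rw [z2 n a b, th_Step hA'0 hα (l4.trans a)]
    · refine le_antisymm ((nEt n).trans (le_of_eq ?_)) zero_le
      rw [z1 n hn, ENNReal.zero_rpow_of_pos t0]
  have sE1 : ∑' n, ENNReal.ofReal ((2 : ℝ) ^ (α * (ρ + 1 : ℕ)) * (1 + 2 * η) ^ 2) *
      Nm P 1 (fun ω => klo (LL ρ0 (ρ + 1)) (H1 ω)) n ≤ g := by
    refine le_trans (sum_Step hS (by positivity) l0 l2 (fun n a b => ?_) fun n hn => ?_) hg1
    · refine (mul_le_mul_right (nE1 n) _).trans ?_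
      rw [z2 n a b]
      exact one_Step hA'0 hα (l1.trans a)
    · rw [le_antisymm ((nE1 n).trans (z1 n hn).le) zero_le, mul_zero]
  obtain ⟨aJ, hJ2⟩ := hJ Ω P F (fun ω => klo (LL ρ0 (ρ + 1)) (H1 ω)) (fun z => C (z + 1)) aE
    fun z => aC (z + 1)
  refine ⟨fun ω => khi (LL ρ0 (ρ + 1)) (H1 ω),
    fun z ω => gj (klo (LL ρ0 (ρ + 1)) (H1 ω)) (fun y => C (y + 1) ω) z,
    ⟨aH1.khi _, aJ, fun n => ?_, ?_, ?_⟩, fun B => ?_⟩
  · refine (sq_le (hi_Step n1 (LL ρ0 (ρ + 1))) n).trans ?_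
    unfold pwL
    split_ifs
    · omega
    · exact le_rfl
    · exact le_rfl
    · omega
    · exact zero_le
    · exact le_rfl
  · refine hJ2 1 (fun n z => f1 α η ρ0 n (ρ + 1 + z)) _ (fun z => p (z + 1)) g one_pos le_rfl
      (fun n1 l n2 y1 y2 => ?_) sE1 fun z => ?_
    · rcases lt_or_ge l (LL ρ0 (ρ + 1)) with hl | hl
      · refine (mul_le_mul_left (hF α η ρ0 (ρ + 1) n1 l n2 y1 y2 hη.le (hl.le.trans l2)) _).trans
          (le_of_eq ?_)
        ring
      · rw [le_antisymm ((nE1 l).trans (z1 l (Or.inr hl)).le) zero_le, mul_zero]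
        exact zero_le
    · have := h2 (z + 1)
      rwa [show ρ + (z + 1) = ρ + 1 + z by omega] at this
  · have := hJ2 (1 / (1 + α)) (fun _ _ => 1) _ (fun z => p (z + 1)) g t0 t1
      (fun n1 l n2 y1 y2 => by simp) sEt fun z => by simpa only [one_mul] using h3 (z + 1)
    simpa only [one_mul] using this
  · refine le_trans ?_ (hW Ω P F (1 / (1 + α)) B (LL ρ0 (ρ + 1)) g (∑' z, p (z + 1)) H1
      (fun z => C (z + 1)) t0 t1 aH1 (fun z => aC (z + 1)) sEt
      (ENNReal.tsum_le_tsum fun z => h3 (z + 1)))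
    refine sum_le_sum fun n _ => sq_mono (Nk_mono t0.le fun ω => ?_) n
    rw [eH1]
    unfold WW
    rw [gsum_succ]
    exact hA.2.1 _ _ _

end Pool.Agent.MP_c26281_pr.SA

end

section

open MeasureTheory ProbabilityTheory Finset Filter Topology
open scoped ENNReal

namespace Pool.Agent.MP_c26281_pr.SA

theorem lt_LL_RG (ρ0 B : ℕ) : B < LL ρ0 B := by
  unfold LL
  calc B < 2 ^ B := Nat.lt_two_pow_self
    _ ≤ 2 ^ max (B + 1) ρ0 :=
      Nat.pow_le_pow_right (by norm_num) ((Nat.le_succ B).trans (le_max_left _ _))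

theorem wt_zero_RG {Ω : Type} [MeasurableSpace Ω] {P : Measure Ω} [IsProbabilityMeasure P]
    {F : Fld P} {α η A t : ℝ} {ρ0 B : ℕ} {p : ℕ → ℝ≥0∞} {H : Ω → IA} {C : ℕ → Ω → IA}
    (h0 : 0 < t) (h1 : t ≤ 1) (h : St F α η ρ0 B A p H C) : Wt P t B H C = 0 := by
  obtain ⟨hH, hC, hN, -, -⟩ := h
  have hj := Nk_jensen h0 h1 hH (le_tk_of_sq hN)
  have hz : ∀ i, i < B → sq (Nk P t H) i = 0 := fun i hi => by
    refine le_antisymm ((sq_le hj i).trans (le_of_eq ?_)) zero_le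
    have : ¬ LL ρ0 B ≤ i := by have := lt_LL_RG ρ0 B; omega
    simp only [pwL, if_neg this]
    exact ENNReal.zero_rpow_of_pos h0
  have hY : Ad F fun ω => kst (gsum (fun z => C z ω) * H ω) := ((Ad.gsum hC).mul hH).kst
  unfold Wt
  refine sum_eq_zero fun n hn => le_antisymm ?_ zero_le
  have hn' := mem_range.1 hn
  unfold Nm WW
  refine (sq_mono (Nk_mul h0 h1 hH hY) n).trans ((sq_mul _ _ n).trans (le_of_eq ?_))
  unfold cv
  refine sum_eq_zero fun x hx => ?_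
  have := mem_antidiagonal.1 hx
  rw [hz x.1 (by omega), zero_mul]

theorem alg_RG (R : ℕ) (g q x W W' W'' : ℝ≥0∞) (hx : 1 ≤ x)
    (h1 : W ≤ R * g * q ^ 2 + q ^ 2 * W') (h2 : W' ≤ x * g + x ^ 2 * W'') :
    W ≤ ((R + 1 : ℕ) : ℝ≥0∞) * g * (q * x) ^ 2 + (q * x) ^ 2 * W'' := by
  have e1 : x ≤ x ^ 2 := by
    calc x = x * 1 := (mul_one x).symm
      _ ≤ x * x := by gcongr
      _ = x ^ 2 := (pow_two x).symm
  have e2 : 1 ≤ x ^ 2 := hx.trans e1
  calc W ≤ R * g * q ^ 2 + q ^ 2 * W' := h1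
    _ ≤ R * g * q ^ 2 + q ^ 2 * (x * g + x ^ 2 * W'') := by gcongr
    _ = R * g * (q ^ 2 * 1) + q ^ 2 * (x * g + x ^ 2 * W'') := by rw [mul_one]
    _ ≤ R * g * (q ^ 2 * x ^ 2) + q ^ 2 * (x ^ 2 * g + x ^ 2 * W'') := by gcongr
    _ = ((R + 1 : ℕ) : ℝ≥0∞) * g * (q * x) ^ 2 + (q * x) ^ 2 * W'' := by
      push_cast; ring

theorem pRG (hS : SSeq) (hT : SStep) : SRG := by
  intro Ω _ P _ F α η A Ab e ρ0 g M p0 H C hα hα1 hη hη1 hA he he1 hM hg hSt hp0 hp1 hc1 hAb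
    hg1 hg2 B
  obtain ⟨hπ, hσ⟩ := hS g M p0 e he he1 hM hg hp0 hp1
  set c : ℝ := 108 / η ^ 2 * (Ab / α) with hc
  set m : ℝ := M.toReal / e with hm
  have hAb0 : 0 ≤ Ab := (mul_nonneg hA (Real.exp_pos _).le).trans hAb
  have hc0 : 0 ≤ c := by rw [hc]; positivity
  have hT0 : M * ENNReal.ofReal (1 / e) ≠ ⊤ := ENNReal.mul_ne_top hM ENNReal.ofReal_ne_top
  have hTr : (M * ENNReal.ofReal (1 / e)).toReal = m := by
    rw [ENNReal.toReal_mul, ENNReal.toReal_ofReal (by positivity), hm]; ring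
  have hfin : ∀ ρ, Pm g p0 ρ 0 ≠ ⊤ := fun ρ =>
    ne_top_of_le_ne_top hT0 ((ENNReal.le_tsum (f := fun ρ => Pm g p0 ρ 0) ρ).trans hσ)
  set σ : ℕ → ℝ := fun R => ∑ ρ ∈ range R, (Pm g p0 ρ 0).toReal with hσd
  have hσ0 : ∀ R, 0 ≤ σ R := fun R => sum_nonneg fun _ _ => ENNReal.toReal_nonneg
  have hσm : ∀ R, σ R ≤ m := fun R => by
    rw [← hTr, hσd]
    simp only
    rw [← ENNReal.toReal_sum fun ρ _ => hfin ρ]
    exact ENNReal.toReal_mono hT0 ((ENNReal.sum_le_tsum _).trans hσ)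
  have hσs : ∀ R, σ (R + 1) = σ R + (Pm g p0 R 0).toReal := fun R => sum_range_succ _ R
  set AA : ℕ → ℝ := fun R => A * Real.exp (c * σ R) with hAA
  have hA0 : ∀ R, 0 ≤ AA R := fun R => mul_nonneg hA (Real.exp_pos _).le
  have hAle : ∀ R, AA R ≤ Ab := fun R =>
    (mul_le_mul_of_nonneg_left
      (Real.exp_le_exp.2 (mul_le_mul_of_nonneg_left (hσm R) hc0)) hA).trans hAb
  have hl : 0 ≤ Real.log 2 + 1 / 2 ^ ρ0 := by
    have := Real.log_nonneg (show (1 : ℝ) ≤ 2 by norm_num)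
    positivity
  have ht0 : 0 < 1 / (1 + α) := by positivity
  have ht1 : 1 / (1 + α) ≤ 1 := by
    rw [div_le_one (by linarith)]; linarith
  have key : ∀ R : ℕ, ∃ (H' : Ω → IA) (C' : ℕ → Ω → IA),
      St F α η ρ0 R (AA R) (Pm g p0 R) H' C' ∧ ∀ B, Wt P (1 / (1 + α)) B H C ≤
        R * g * (∏ ρ ∈ range R, (1 - g * ∑' z, Pm g p0 ρ (z + 1))⁻¹) ^ 2 +
        (∏ ρ ∈ range R, (1 - g * ∑' z, Pm g p0 ρ (z + 1))⁻¹) ^ 2 *
          Wt P (1 / (1 + α)) B H' C' := by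
    intro R
    induction R with
    | zero =>
      refine ⟨H, C, ?_, fun B => by simp⟩
      have : AA 0 = A := by simp [hAA, hσd]
      rw [this]; exact hSt
    | succ R ih =>
      obtain ⟨H', C', s1, s2⟩ := ih
      have hp : 0 ≤ (Pm g p0 R 0).toReal := ENNReal.toReal_nonneg
      have hpm : (Pm g p0 R 0).toReal ≤ m := by
        have h1 := hσm (R + 1)
        have h2 := hσ0 R
        rw [hσs] at h1; linarith
      have hcc : 108 / η ^ 2 * (AA R / α) ≤ c := by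
        rw [hc]; have := hAle R; gcongr
      have hcp : 108 / η ^ 2 * (AA R / α) * (Pm g p0 R 0).toReal ≤ c * (Pm g p0 R 0).toReal :=
        mul_le_mul_of_nonneg_right hcc hp
      obtain ⟨H'', C'', r1, r2⟩ := hT Ω P F α η (AA R) (AA (R + 1)) ρ0 R g (Pm g p0 R) H' C'
        hα hα1 hη hη1 (hA0 R) s1 (hfin R)
        (hcp.trans ((mul_le_mul_of_nonneg_left hpm hc0).trans hc1))
        (by
          have e1 : AA (R + 1) = AA R * Real.exp (c * (Pm g p0 R 0).toReal) := by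
            simp only [hAA]
            rw [hσs, mul_add, Real.exp_add, mul_assoc A]
          rw [e1]
          refine mul_le_mul_of_nonneg_left ?_ (hA0 R)
          have := Real.add_one_le_exp (c * (Pm g p0 R 0).toReal)
          linarith)
        (le_trans (ENNReal.ofReal_le_ofReal (by have := hAle (R + 1); gcongr)) hg1)
        (le_trans (ENNReal.ofReal_le_ofReal (mul_le_mul_of_nonneg_right
          (Real.rpow_le_rpow (hA0 _) (hAle _) ht0.le) hl)) hg2)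
      refine ⟨H'', C'', r1, fun B => ?_⟩
      rw [prod_range_succ]
      exact alg_RG R g _ _ _ _ _ (ENNReal.one_le_inv.2 tsub_le_self) (s2 B) (r2 B)
  obtain ⟨H', C', s1, s2⟩ := key B
  have h3 := s2 B
  rw [wt_zero_RG ht0 ht1 s1, mul_zero, add_zero] at h3
  refine h3.trans ?_
  have := hπ B
  gcongr

end Pool.Agent.MP_c26281_pr.SA

end

section

open MeasureTheory ProbabilityTheory Finset Filter Topology
open scoped ENNReal

namespace Pool.Agent.MP_c26281_pr.SA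

section
variable {Ω : Type} [MeasurableSpace Ω] (P : Measure Ω) (H : Ω → IA) (L n : ℕ)

theorem hi_Zero : Nm P 1 (fun ω => khi L (H ω)) n ≤ if L ≤ n then Nm P 1 H n else 0 := by
  refine iSup_le fun p => ?_
  simp only [Nk, khi, kmk_add, Nat.add_sub_cancel_left]
  by_cases h : L ≤ n
  · rw [if_pos h]
    simp only [if_neg (not_lt.2 h)]
    refine le_iSup_of_le p ?_
    rw [Nk, kmk_add]
  · rw [if_neg h]
    simp [not_le.1 h]

theorem lo_Zero {t : ℝ} (ht : 0 < t) :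
    Nm P t (fun ω => klo L (H ω)) n ≤ if n < L then Nm P t H n else 0 := by
  refine iSup_le fun p => ?_
  simp only [Nk, klo, kmk_add, Nat.add_sub_cancel_left]
  by_cases h : n < L
  · simp only [if_pos h]
    refine le_iSup_of_le p ?_
    rw [Nk, kmk_add]
  · simp [h, ht]

end

theorem hol_Zero (a : ℕ → ℝ≥0∞) (α : ℝ) (L : ℕ) (hα : 0 < α) (ha : ∑' n, a n ≤ 3)
    (hL : (L : ℝ) ^ α ≤ 9) : ∑ n ∈ range L, a n ^ (1 / (1 + α)) ≤ 27 := by
  have h1 := ENNReal.rpow_sum_le_const_mul_sum_rpow (range L) (fun n => a n ^ (1 / (1 + α)))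
    (p := 1 + α) (by linarith)
  have h2 : ∀ n, (a n ^ (1 / (1 + α))) ^ (1 + α) = a n := fun n => by
    rw [← ENNReal.rpow_mul, one_div_mul_cancel (by linarith), ENNReal.rpow_one]
  simp only [h2, card_range, add_sub_cancel_left] at h1
  have h3 : (L : ℝ≥0∞) ^ α ≤ 9 := by
    rw [← ENNReal.ofReal_natCast, ENNReal.ofReal_rpow_of_nonneg (Nat.cast_nonneg L) hα.le]
    exact (ENNReal.ofReal_le_ofReal hL).trans (le_of_eq (by simp))
  have h4 : (∑ n ∈ range L, a n ^ (1 / (1 + α))) ^ (1 + α) ≤ 27 := by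
    refine h1.trans ((mul_le_mul' h3 ((ENNReal.sum_le_tsum _).trans ha)).trans (le_of_eq ?_))
    norm_num
  rcases le_total (∑ n ∈ range L, a n ^ (1 / (1 + α))) 1 with h | h
  · exact h.trans (by norm_num)
  · refine le_trans ?_ h4
    conv_lhs => rw [← ENNReal.rpow_one (∑ n ∈ range L, a n ^ (1 / (1 + α)))]
    exact ENNReal.rpow_le_rpow_of_exponent_le h (by linarith)

theorem pZero (hJ : SJoin) (hF : SF1) (hW : SWt) : SZero := by
  intro Ω _ P _ F α η A ρ0 p H C hα hα1 hη hη1 hρ hH hC htail hsum hp1 hp2 h9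
  have t0 : 0 < 1 / (1 + α) := by positivity
  have t1 : 1 / (1 + α) ≤ 1 := by rw [div_le_one (by linarith)]; linarith
  have hE := hH.klo (2 ^ ρ0)
  obtain ⟨j1, j2⟩ := hJ Ω P F (fun ω => klo (2 ^ ρ0) (H ω)) C hE hC
  have hth : ∑' n, Nm P (1 / (1 + α)) (fun ω => klo (2 ^ ρ0) (H ω)) n ≤ 27 := by
    have b1 : ∀ n, Nm P (1 / (1 + α)) (fun ω => klo (2 ^ ρ0) (H ω)) n
        ≤ if n ∈ range (2 ^ ρ0) then Nm P 1 H n ^ (1 / (1 + α)) else 0 := fun n => by
      refine (lo_Zero P H _ n t0).trans ?_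
      simp only [mem_range]
      split_ifs
      · exact sq_le (Nk_jensen t0 t1 hH (le_tk_sq _)) n
      · exact le_rfl
    refine (ENNReal.tsum_le_tsum b1).trans ?_
    rw [tsum_eq_sum (s := range (2 ^ ρ0)) fun n hn => if_neg hn,
      sum_congr rfl fun n hn => if_pos hn]
    exact hol_Zero _ α _ hα hsum (by push_cast; exact h9)
  refine ⟨fun ω => khi (2 ^ ρ0) (H ω),
    fun z ω => gj (klo (2 ^ ρ0) (H ω)) (fun y => C y ω) z, ⟨hH.khi _, j1, ?_, ?_, ?_⟩, ?_⟩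
  · intro n
    refine (hi_Zero P H _ n).trans ?_
    rw [LL, zero_add, max_eq_right hρ, pwL]
    split_ifs with h
    · exact htail n h
    · exact le_rfl
  · refine j2 1 (fun n z => f1 α η ρ0 n (0 + z))
      (fun l => 9 * Nm P 1 (fun ω => klo (2 ^ ρ0) (H ω)) l) p 27 one_pos le_rfl ?_ ?_ ?_
    · intro n1 l n2 z1 z2
      by_cases hl : l < 2 ^ ρ0
      · have h1 := hF α η ρ0 0 n1 l n2 z1 z2 hη.le (by rw [Nat.zero_max]; omega)
        have h2 : ENNReal.ofReal ((2 : ℝ) ^ (α * (0 : ℕ)) * (1 + 2 * η) ^ 2) ≤ 9 := by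
          refine (ENNReal.ofReal_le_ofReal (q := 9) ?_).trans (le_of_eq (by simp))
          rw [Nat.cast_zero, mul_zero, Real.rpow_zero, one_mul]
          nlinarith
        refine (mul_le_mul_left (h1.trans (mul_le_mul_left (mul_le_mul_right h2 _) _)) _).trans
          (le_of_eq ?_)
        ring
      · have h1 := lo_Zero P H (2 ^ ρ0) l one_pos
        rw [if_neg hl] at h1
        rw [le_antisymm h1 zero_le, mul_zero]
        exact zero_le
    · rw [ENNReal.tsum_mul_left]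
      have b1 : ∀ n, Nm P 1 (fun ω => klo (2 ^ ρ0) (H ω)) n ≤ Nm P 1 H n := fun n => by
        refine (lo_Zero P H _ n one_pos).trans ?_
        split_ifs
        · exact le_rfl
        · exact zero_le
      refine (mul_le_mul_right ((ENNReal.tsum_le_tsum b1).trans hsum) _).trans (le_of_eq ?_)
      norm_num
    · intro z
      simpa only [zero_add] using hp1 z
  · intro z
    have := j2 (1 / (1 + α)) (fun _ _ => 1)
      (Nm P (1 / (1 + α)) fun ω => klo (2 ^ ρ0) (H ω)) p 27 t0 t1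
      (fun _ _ _ _ _ => by simp) hth (fun z => by simpa only [one_mul] using hp2 z) z
    simpa only [one_mul] using this
  · intro B
    exact hW Ω P F _ B (2 ^ ρ0) 27 _ H C t0 t1 hH hC hth (ENNReal.tsum_le_tsum hp2)

end Pool.Agent.MP_c26281_pr.SA

end

section

open MeasureTheory ProbabilityTheory Finset Filter Topology
open scoped ENNReal

namespace Pool.Agent.MP_c26281_pr.SA

theorem exp_le_ParU {y : ℝ} (h0 : 0 ≤ y) (h1 : y ≤ 1 / 2) : Real.exp y ≤ 1 + 2 * y := by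
  have a1 : -y + 1 ≤ Real.exp (-y) := Real.add_one_le_exp (-y)
  have a2 : Real.exp y * Real.exp (-y) = 1 := by rw [← Real.exp_add]; simp
  have a3 : 0 < Real.exp y := Real.exp_pos y
  have a4 : Real.exp y * (1 - y) ≤ 1 := by nlinarith
  by_contra hc
  push Not at hc
  nlinarith

theorem pow_ten_ParU {η : ℝ} (h0 : 0 ≤ η) (h1 : η ≤ 1 / 100) : (1 + 2 * η) ^ 10 ≤ 1 + 40 * η := by
  have a1 : 1 + 2 * η ≤ Real.exp (2 * η) := by linarith [Real.add_one_le_exp (2 * η)]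
  have a2 : (1 + 2 * η) ^ 10 ≤ Real.exp (2 * η) ^ 10 := by gcongr
  have a3 : Real.exp (2 * η) ^ 10 = Real.exp (20 * η) := by
    rw [← Real.exp_nat_mul]; congr 1; push_cast; ring
  have a4 := exp_le_ParU (y := 20 * η) (by linarith) (by linarith)
  linarith

theorem th_le_ParU {α x η : ℝ} (hα : 0 < α) (h1 : α / 2 ≤ x) (h2 : x ≤ 1)
    (h3 : (2 / α) ^ α ≤ 1 + η) : x ^ (1 / (1 + α)) ≤ x * (1 + η) := by
  have hx : 0 < x := by linarith
  have a1 : x ^ (1 / (1 + α)) ≤ x ^ (1 + -α) := by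
    refine Real.rpow_le_rpow_of_exponent_ge hx h2 ?_
    rw [le_div_iff₀ (by linarith)]
    nlinarith
  have a2 : x ^ (1 + -α) = x * x⁻¹ ^ α := by
    rw [Real.rpow_add hx, Real.rpow_one, Real.rpow_neg hx.le, Real.inv_rpow hx.le]
  have a3 : x⁻¹ ≤ 2 / α := by
    rw [inv_eq_one_div, div_le_div_iff₀ hx hα]; linarith
  have a4 : x⁻¹ ^ α ≤ (2 / α) ^ α := Real.rpow_le_rpow (inv_nonneg.2 hx.le) a3 hα.le
  calc x ^ (1 / (1 + α)) ≤ x * x⁻¹ ^ α := a2 ▸ a1
    _ ≤ x * (1 + η) := by gcongr; exact a4.trans h3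

theorem root_le_ParU {s d : ℝ} (hs : 0 < s) (h : s ^ 4 ≤ d) : d ^ (-(1 / 4 : ℝ)) ≤ s⁻¹ := by
  have a1 : d ^ (-(1 / 4 : ℝ)) ≤ (s ^ 4) ^ (-(1 / 4 : ℝ)) :=
    Real.rpow_le_rpow_of_nonpos (by positivity) h (by norm_num)
  have a2 : (s ^ 4) ^ (-(1 / 4 : ℝ)) = s⁻¹ := by
    rw [← Real.rpow_natCast, ← Real.rpow_mul hs.le, ← Real.rpow_neg_one]
    norm_num
  exact a2 ▸ a1

theorem small_ParU {α η : ℝ} (hα : 0 < α) (hα4 : α ≤ 1 / 4) (hη0 : 0 < η) (hη1 : η ≤ 1 / 100) :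
    (1 + η) ^ 2 ≤ 3 / 2 ∧ α / 2 ≤ α / 2 * (1 + η) ∧ α / 2 * (1 + η) ≤ 1 ∧
    α / 2 ≤ 2 * α * (1 + η) ^ 2 ∧ 2 * α * (1 + η) ^ 2 ≤ 1 ∧ α / 2 * (1 + η) ^ 3 ≤ α := by
  have hq2 : (1 + η) ^ 2 ≤ 3 / 2 := by nlinarith
  have hq3 : (1 + η) ^ 3 ≤ 2 := by
    have : (1 + η) ^ 3 = (1 + η) ^ 2 * (1 + η) := by ring
    nlinarith
  have b0 : 1 ≤ (1 + η) ^ 2 := one_le_pow₀ (by linarith)
  exact ⟨hq2, by nlinarith, by nlinarith, by nlinarith, by nlinarith, by nlinarith⟩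

theorem dle_ParU {α L ε d : ℝ} (hL : 1 / 2 ≤ L) (hε : 0 < ε) (hd : 2 * α ^ 2 * L * (1 + ε) ≤ d) :
    α ^ 2 ≤ d := by
  refine le_trans ?_ hd
  have b1 : 1 ≤ 2 * L * (1 + ε) := by nlinarith
  nlinarith [sq_nonneg α]

theorem pParU (hm : SSm) : SParU := by
  intro ε hε
  obtain ⟨η, hη0, hη1, hη2⟩ : ∃ η : ℝ, 0 < η ∧ η ≤ 1 / 100 ∧ η ≤ ε / 100 :=
    ⟨min (1 / 100) (ε / 100), lt_min (by norm_num) (by positivity), min_le_left _ _,
      min_le_right _ _⟩
  obtain ⟨e, he0, he1, he2⟩ : ∃ e : ℝ, 0 < e ∧ e ≤ 1 ∧ (1 - e) * (1 + ε) = 1 + ε / 2 := by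
    refine ⟨ε / (2 * (1 + ε)), by positivity, ?_, ?_⟩
    · rw [div_le_one (by positivity)]; linarith
    · field_simp; ring
  refine ⟨η, e, hη0, hη1, he0, he1, fun B1 => ?_⟩
  obtain ⟨C, hC1, hC2, hC3⟩ : ∃ C : ℝ, B1 ≤ C ∧ 1 / η ≤ C ∧ 2 ≤ C :=
    ⟨max (max B1 (1 / η)) 2, (le_max_left _ _).trans (le_max_left _ _),
      (le_max_right _ _).trans (le_max_left _ _), le_max_right _ _⟩
  obtain ⟨a1, ha1, H1⟩ := hm 8 (2 * C) 1 (by norm_num) (by linarith) one_pos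
  obtain ⟨a2, ha2, H2⟩ := hm η 2 1 hη0 two_pos one_pos
  have hs0 : 0 < η ^ 3 * e / 6480 := by positivity
  refine ⟨min (min a1 a2) ((η ^ 3 * e / 6480) ^ 2), lt_min (lt_min ha1 ha2) (by positivity),
    fun α hα hlt d hd => ?_⟩
  have K1 := H1 α hα (hlt.trans_le ((min_le_left _ _).trans (min_le_left _ _)))
  have K2 := H2 α hα (hlt.trans_le ((min_le_left _ _).trans (min_le_right _ _)))
  rw [one_mul] at K1 K2
  obtain ⟨s, hs, hsα, hss⟩ : ∃ s : ℝ, 0 < s ∧ s ^ 2 = α ∧ s ≤ η ^ 3 * e / 6480 := by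
    refine ⟨Real.sqrt α, Real.sqrt_pos.2 hα, Real.sq_sqrt hα.le, ?_⟩
    exact Real.sqrt_le_iff.2 ⟨hs0.le, (hlt.trans_le (min_le_right _ _)).le⟩
  have hη3 : η ^ 2 * e ≤ 1 := by
    have : η ^ 2 ≤ 1 := by nlinarith
    nlinarith
  have hs1 : s ≤ η / 6480 := by
    refine hss.trans ?_
    have : η ^ 3 * e = η * (η ^ 2 * e) := by ring
    rw [this]
    have : η * (η ^ 2 * e) ≤ η * 1 := by gcongr
    linarith
  have hα4 : α ≤ 1 / 4 := by
    have : s ≤ 1 / 2 := by linarith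
    nlinarith
  have hL1 : (1 : ℝ) / 2 ≤ Real.log 2 := by linarith [Real.log_two_gt_d9]
  have hL0 : 0 < Real.log 2 := by linarith
  obtain ⟨hq2, q1, q2, q3, q4, q5⟩ := small_ParU hα hα4 hη0 hη1
  have hCα : 1 ≤ C / α := by rw [le_div_iff₀ hα]; linarith
  obtain ⟨n, hn1, hn2⟩ := exists_nat_pow_near hCα (one_lt_two (α := ℝ))
  have hρ : 1 / (2 : ℝ) ^ (n + 1) ≤ η := by
    rw [div_le_iff₀ (by positivity)]
    have b1 : C ≤ C / α := le_div_self (by linarith) hα (by linarith)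
    have b2 : 1 / η ≤ 2 ^ (n + 1) := by linarith
    rw [div_le_iff₀ hη0] at b2
    linarith
  have hLρ : Real.log 2 + 1 / (2 : ℝ) ^ (n + 1) ≤ (1 + 2 * η) * Real.log 2 := by
    have : η * (1 / 2) ≤ η * Real.log 2 := by gcongr
    linarith
  have hdα : α ^ 2 ≤ d := dle_ParU hL1 hε hd
  have hd0 : 0 < d := lt_of_lt_of_le (by positivity) hdα
  have hroot : d ^ (-(1 / 4 : ℝ)) ≤ s⁻¹ := root_le_ParU hs (by
    have : s ^ 4 = α ^ 2 := by rw [← hsα]; ring
    rw [this]; exact hdα)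
  have hq : 5 * (α / 2 * (1 + η) ^ 3) * d ^ (-(1 / 4 : ℝ)) ≤ 5 * s := by
    calc 5 * (α / 2 * (1 + η) ^ 3) * d ^ (-(1 / 4 : ℝ)) ≤ 5 * α * s⁻¹ := by gcongr
      _ = 5 * s := by rw [← hsα]; field_simp
  have hy : 108 / η ^ 2 * (2 * α * (1 + η) ^ 2 / α) * (10 * s / e) ≤ η / 2 := by
    have b1 : 2 * α * (1 + η) ^ 2 / α = 2 * (1 + η) ^ 2 := by field_simp
    rw [b1]
    calc 108 / η ^ 2 * (2 * (1 + η) ^ 2) * (10 * s / e)
        ≤ 108 / η ^ 2 * (2 * (3 / 2)) * (10 * (η ^ 3 * e / 6480) / e) := by gcongr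
      _ = η / 2 := by field_simp; ring
  have hm2 : 1 + η ≤ 1 + 2 * η := by linarith
  have hm1 : 1 ≤ 1 + 2 * η := by linarith
  refine ⟨n + 1, 2 * α * (1 + 2 * η) ^ 5 * Real.log 2, 10 * s, by linarith, by omega, ?_, ?_,
    by positivity, ?_, by linarith, by linarith, ?_, by linarith, ?_, ?_, ?_⟩
  · refine le_trans ?_ hn2.le
    gcongr
  · have b1 : (2 : ℝ) ^ (n + 1) ≤ 2 * C / α := by
      rw [pow_succ, mul_div_assoc]; linarith
    have b2 : ((2 : ℝ) ^ (n + 1)) ^ α ≤ (2 * C / α) ^ α :=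
      Real.rpow_le_rpow (by positivity) b1 hα.le
    linarith
  · have b1 := th_le_ParU hα q1 q2 K2
    refine b1.trans ?_
    have b2 : (1 + η) ^ 2 ≤ (1 + η) ^ 3 := pow_le_pow_right₀ (by linarith) (by norm_num)
    calc α / 2 * (1 + η) * (1 + η) = α / 2 * (1 + η) ^ 2 := by ring
      _ ≤ α / 2 * (1 + η) ^ 3 := by gcongr
  · have b1 : (1 + 2 * η) ^ 10 ≤ (1 - e) * (1 + ε) := by
      rw [he2]; linarith [pow_ten_ParU hη0.le hη1]
    have b2 : 2 * (2 * α * (1 + 2 * η) ^ 5 * Real.log 2) *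
        (α / 2 * (1 + η) ^ 3 / d * (1 + η) ^ 2) =
        2 * α ^ 2 * Real.log 2 * ((1 + 2 * η) ^ 5 * (1 + η) ^ 5) / d := by ring
    rw [b2, div_le_iff₀ hd0]
    calc 2 * α ^ 2 * Real.log 2 * ((1 + 2 * η) ^ 5 * (1 + η) ^ 5)
        ≤ 2 * α ^ 2 * Real.log 2 * ((1 + 2 * η) ^ 5 * (1 + 2 * η) ^ 5) := by gcongr
      _ = 2 * α ^ 2 * Real.log 2 * (1 + 2 * η) ^ 10 := by ring
      _ ≤ 2 * α ^ 2 * Real.log 2 * ((1 - e) * (1 + ε)) := by gcongr
      _ = (1 - e) * (2 * α ^ 2 * Real.log 2 * (1 + ε)) := by ring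
      _ ≤ (1 - e) * d := mul_le_mul_of_nonneg_left hd (by linarith)
  · have b1 := (Real.exp_le_exp.2 hy).trans (exp_le_ParU (y := η / 2) (by linarith) (by linarith))
    have b2 : 1 + 2 * (η / 2) = 1 + η := by ring
    rw [b2] at b1
    calc _ ≤ 2 * α * (1 + η) * (1 + η) := mul_le_mul_of_nonneg_left b1 (by positivity)
      _ = 2 * α * (1 + η) ^ 2 := by ring
  · calc (1 + 2 * η) ^ 2 * (2 * α * (1 + η) ^ 2) * (Real.log 2 + 1 / 2 ^ (n + 1))
        ≤ (1 + 2 * η) ^ 2 * (2 * α * (1 + 2 * η) ^ 2) * ((1 + 2 * η) * Real.log 2) := by gcongr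
      _ = 2 * α * (1 + 2 * η) ^ 5 * Real.log 2 := by ring
  · have b1 := th_le_ParU hα q3 q4 K2
    have b2 : (1 + 2 * η) ^ 4 ≤ (1 + 2 * η) ^ 5 := pow_le_pow_right₀ hm1 (by norm_num)
    calc (2 * α * (1 + η) ^ 2) ^ (1 / (1 + α)) * (Real.log 2 + 1 / 2 ^ (n + 1))
        ≤ (2 * α * (1 + η) ^ 2 * (1 + η)) * ((1 + 2 * η) * Real.log 2) := by gcongr
      _ ≤ (2 * α * (1 + 2 * η) ^ 2 * (1 + 2 * η)) * ((1 + 2 * η) * Real.log 2) := by gcongr
      _ = 2 * α * (1 + 2 * η) ^ 4 * Real.log 2 := by ring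
      _ ≤ 2 * α * (1 + 2 * η) ^ 5 * Real.log 2 := by gcongr

end Pool.Agent.MP_c26281_pr.SA

end

section

open MeasureTheory ProbabilityTheory Finset Filter Topology
open scoped ENNReal

namespace Pool.Agent.MP_c26281_pr.SA

theorem pw_zero_AbsU (A : ℝ) {α : ℝ} (hα : 0 < α) : pw A α 0 = 0 := by
  have : (-(1 + α)) ≠ 0 := by linarith
  simp only [pw, Nat.cast_zero, Real.zero_rpow this, mul_zero, ENNReal.ofReal_zero]

theorem first_AbsU {α η : ℝ} (d : ℝ) (ρ0 z : ℕ) (hα : 0 < α) (hη : 0 < η) :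
    f1 α η ρ0 z z * (pw (α / 2 * (1 + η)) α z *
      ENNReal.ofReal (Real.exp (-(d * z)) * (2 : ℝ) ^ (α * z))) ≤ nu (α / 2 * (1 + η) ^ 3) d z := by
  rcases Nat.eq_zero_or_pos z with rfl | hz
  · rw [pw_zero_AbsU _ hα]; simp
  have hz1 : (1 : ℝ) ≤ z := by exact_mod_cast hz
  have hz0 : (0 : ℝ) < z := by linarith
  unfold f1 pw nu
  rw [← ENNReal.ofReal_mul (by positivity), ← ENNReal.ofReal_mul (by positivity)]
  apply ENNReal.ofReal_le_ofReal
  have h1 : (z : ℝ) ≤ 2 ^ max z ρ0 := by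
    have a1 : z ≤ 2 ^ max z ρ0 :=
      (Nat.lt_two_pow_self.le).trans (Nat.pow_le_pow_right two_pos (le_max_left _ _))
    exact_mod_cast a1
  have h2 : η * z / 2 ^ max z ρ0 ≤ η := by
    rw [div_le_iff₀ (by positivity)]
    gcongr
  have h3 : (z : ℝ) ^ (-(1 + α)) ≤ (z : ℝ)⁻¹ := by
    rw [← Real.rpow_neg_one]
    exact Real.rpow_le_rpow_of_exponent_le hz1 (by linarith)
  have h4 : (2 : ℝ) ^ (-(α * z)) * (2 : ℝ) ^ (α * z) = 1 := by
    rw [← Real.rpow_add two_pos]; simp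
  calc (2 : ℝ) ^ (-(α * z)) * (1 + η * z / 2 ^ max z ρ0) ^ 2 *
        (α / 2 * (1 + η) * (z : ℝ) ^ (-(1 + α)) * (Real.exp (-(d * z)) * (2 : ℝ) ^ (α * z)))
      ≤ (2 : ℝ) ^ (-(α * z)) * (1 + η) ^ 2 *
        (α / 2 * (1 + η) * (z : ℝ)⁻¹ * (Real.exp (-(d * z)) * (2 : ℝ) ^ (α * z))) := by gcongr
    _ = ((2 : ℝ) ^ (-(α * z)) * (2 : ℝ) ^ (α * z)) *
        (α / 2 * (1 + η) ^ 3 * Real.exp (-(d * z)) / z) := by ring
    _ = _ := by rw [h4, one_mul]

theorem second_AbsU {α A a : ℝ} (d : ℝ) (z : ℕ) (hα : 0 < α) (hA : 0 ≤ A)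
    (ha : A ^ (1 / (1 + α)) ≤ a) :
    pw A α z ^ (1 / (1 + α)) * ENNReal.ofReal (Real.exp (-(d * z))) ≤ nu a d z := by
  have ht : 0 < 1 / (1 + α) := by positivity
  rcases Nat.eq_zero_or_pos z with rfl | hz
  · rw [pw_zero_AbsU _ hα, ENNReal.zero_rpow_of_pos ht]; simp
  have hz0 : (0 : ℝ) < z := by exact_mod_cast hz
  unfold pw nu
  rw [ENNReal.ofReal_rpow_of_nonneg (by positivity) ht.le, ← ENNReal.ofReal_mul (by positivity)]
  apply ENNReal.ofReal_le_ofReal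
  have e : -(1 + α) * (1 / (1 + α)) = -1 := by field_simp
  rw [Real.mul_rpow hA (by positivity), ← Real.rpow_mul hz0.le, e, Real.rpow_neg_one]
  calc A ^ (1 / (1 + α)) * (z : ℝ)⁻¹ * Real.exp (-(d * z))
      ≤ a * (z : ℝ)⁻¹ * Real.exp (-(d * z)) := by gcongr
    _ = _ := by ring

theorem tsum_if_AbsU {f g : ℕ → ℝ≥0∞} {z : ℕ} {c : ℝ≥0∞}
    (h : ∀ n, g n ≤ if n = z then c else 0) : ∑' n, f n * g n ≤ f z * c := by
  calc ∑' n, f n * g n ≤ ∑' n, if n = z then f z * c else 0 := by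
        refine ENNReal.tsum_le_tsum fun n => ?_
        have := h n
        split_ifs at this ⊢ with hn
        · rw [hn] at this ⊢; gcongr
        · rw [nonpos_iff_eq_zero.mp this, mul_zero]
    _ = f z * c := tsum_ite_eq z _

theorem inv_AbsU {x : ℝ≥0∞} {η : ℝ} (h0 : 0 < η) (h1 : η ≤ 1) (hx : x ≤ ENNReal.ofReal (η / 2)) :
    (1 - x)⁻¹ ≤ ENNReal.ofReal (1 + η) := by
  have a1 : ENNReal.ofReal (1 - η / 2) ≤ 1 - x := by
    rw [ENNReal.ofReal_sub _ (by positivity), ENNReal.ofReal_one]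
    gcongr
  calc (1 - x)⁻¹ ≤ (ENNReal.ofReal (1 - η / 2))⁻¹ := ENNReal.inv_le_inv.mpr a1
    _ = ENNReal.ofReal ((1 - η / 2)⁻¹) := (ENNReal.ofReal_inv_of_pos (by linarith)).symm
    _ ≤ ENNReal.ofReal (1 + η) := by
      apply ENNReal.ofReal_le_ofReal
      rw [inv_le_comm₀ (by linarith) (by linarith), inv_le_iff_one_le_mul₀ (by linarith)]
      nlinarith

theorem pAbsU (hN : SNu) (hJ : SJn) (hR : SRG) (hZ : SZero) (hP : SParU) : SAbsU := by
  intro ε hε
  obtain ⟨η, e, hη, hη1, he, he1, hP⟩ := hP ε hε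
  refine ⟨η, hη, hη1, fun B1 => ?_⟩
  obtain ⟨a0, ha0, hP⟩ := hP B1
  refine ⟨a0, ha0, ?_⟩
  intro α hα hαa d hd Ω _ P _ F H C hH hC h1 h2 h3 h4
  obtain ⟨ρ0, g, M, p1, p2, p3, p4, p5, p6, p7, p8, p9, p10, p11, p12, p13⟩ := hP α hα hαa d hd
  have hd0 : 0 < d := lt_of_lt_of_le (by have := Real.log_pos one_lt_two; positivity) hd
  set a : ℝ := α / 2 * (1 + η) ^ 3 with ha
  have ha0' : 0 ≤ a := by positivity
  have hη' : η ≤ 1 := by linarith
  obtain ⟨n1, n2⟩ := hN a d ha0' hd0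
  obtain ⟨H', C', hSt, hW⟩ := hZ Ω P F α η (2 * α * (1 + η)) ρ0 (nu a d) H C hα p1 hη hη' p2 hH hC
    (fun n hn => h1 n (p3.trans (by exact_mod_cast hn))) h2
    (fun z => (tsum_if_AbsU (h3 z)).trans (first_AbsU d ρ0 z hα hη))
    (fun z => by
      have := tsum_if_AbsU (f := fun _ => 1) (h4 z)
      simp only [one_mul] at this
      exact this.trans (second_AbsU d z hα (by positivity) p6)) p4
  set S : ℝ := 5 * a * d ^ (-(1 / 4 : ℝ)) with hS
  have hS0 : 0 ≤ S := by positivity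
  have x0 : 27 * ∑' z, nu a d z ≤ ENNReal.ofReal (η / 2) := by
    calc 27 * ∑' z, nu a d z ≤ 27 * ENNReal.ofReal S := by gcongr
      _ = ENNReal.ofReal (27 * S) := by
        rw [ENNReal.ofReal_mul (p := 27) (q := S) (by norm_num)]; simp
      _ ≤ _ := ENNReal.ofReal_le_ofReal p7
  have x1 := inv_AbsU hη hη' x0
  have x2 : (1 - 27 * ∑' z, nu a d z)⁻¹ ≤ 2 := x1.trans (by
    rw [← ENNReal.ofReal_ofNat 2]
    exact ENNReal.ofReal_le_ofReal (by linarith))
  obtain ⟨j1, j2⟩ := hJ 27 (nu a d)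
  have hM : 0 ≤ M := le_trans (by positivity) p8
  have k1 : ∑' z, jn 27 (nu a d) z ≤ ENNReal.ofReal M := by
    calc _ ≤ _ := j1
      _ ≤ ENNReal.ofReal S * 2 := by gcongr
      _ = ENNReal.ofReal (2 * S) := by
        rw [ENNReal.ofReal_mul (p := 2) (q := S) (by norm_num), mul_comm]; simp
      _ ≤ _ := ENNReal.ofReal_le_ofReal p8
  have k2 : 2 * ENNReal.ofReal g * ∑' z : ℕ, (z : ℝ≥0∞) * jn 27 (nu a d) z
      ≤ ENNReal.ofReal (1 - e) := by
    calc _ ≤ 2 * ENNReal.ofReal g * (ENNReal.ofReal (a / d) * ENNReal.ofReal (1 + η) ^ 2) := by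
          gcongr
          exact j2.trans (by gcongr)
      _ = ENNReal.ofReal (2 * g * (a / d * (1 + η) ^ 2)) := by
          rw [ENNReal.ofReal_mul (p := 2 * g) (by positivity),
            ENNReal.ofReal_mul (p := 2) (q := g) (by norm_num),
            ENNReal.ofReal_mul (p := a / d) (by positivity), ENNReal.ofReal_pow (by positivity)]
          simp
      _ ≤ _ := ENNReal.ofReal_le_ofReal p9
  have k3 := hR Ω P F α η (2 * α * (1 + η)) (2 * α * (1 + η) ^ 2) e ρ0 (ENNReal.ofReal g)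
    (ENNReal.ofReal M) (jn 27 (nu a d)) H' C' hα p1 hη hη' (by positivity) he he1
    ENNReal.ofReal_ne_top ENNReal.ofReal_ne_top hSt k1 k2
    (by rw [ENNReal.toReal_ofReal hM]; exact p10) (by rw [ENNReal.toReal_ofReal hM]; exact p11)
    (ENNReal.ofReal_le_ofReal p12) (ENNReal.ofReal_le_ofReal p13)
  refine ⟨54 + 4 * ENNReal.ofReal g * ENNReal.ofReal (1 / e) ^ 2, ?_, fun B => ?_⟩
  · exact ENNReal.add_ne_top.mpr ⟨by simp, ENNReal.mul_ne_top
      (ENNReal.mul_ne_top (by simp) ENNReal.ofReal_ne_top) (ENNReal.pow_ne_top ENNReal.ofReal_ne_top)⟩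
  calc _ ≤ _ := hW B
    _ ≤ 2 * 27 + 2 ^ 2 * (B * ENNReal.ofReal g * ENNReal.ofReal (1 / e) ^ 2) := by
        gcongr
        exact k3 B
    _ = 54 * 1 + 4 * ENNReal.ofReal g * ENNReal.ofReal (1 / e) ^ 2 * B := by ring
    _ ≤ 54 * (B + 1) + 4 * ENNReal.ofReal g * ENNReal.ofReal (1 / e) ^ 2 * (B + 1) := by
        gcongr
        · exact le_add_self
        · exact le_self_add
    _ = _ := by ring

end Pool.Agent.MP_c26281_pr.SA

end

section

/-! The tail of a convolution with a rapidly decreasing sequence. -/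

open MeasureTheory ProbabilityTheory Finset Filter Topology
open scoped ENNReal

namespace Pool.Agent.MP_c26281_pr.SA

theorem near_Tq {s α m n : ℝ} (hs : 0 < s) (hs1 : s ≤ 1 / 8) (hα : 0 < α) (hα1 : α ≤ 1)
    (hn : 0 < n) (hm : (1 - s) * n ≤ m) : m ^ (-(1 + α)) ≤ (1 + 4 * s) * n ^ (-(1 + α)) := by
  have h1 : 0 < 1 - s := by linarith
  refine (Real.rpow_le_rpow_of_nonpos (mul_pos h1 hn) hm (by linarith)).trans ?_
  rw [Real.mul_rpow h1.le hn.le]
  refine mul_le_mul_of_nonneg_right ((Real.rpow_le_rpow_of_exponent_ge (z := -2) h1 (by linarith)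
    (by linarith)).trans ?_) (by positivity)
  rw [Real.rpow_neg h1.le, Real.rpow_two, inv_le_iff_one_le_mul₀ (by positivity)]
  nlinarith [mul_pos hs hs, mul_pos hs (mul_pos hs hs)]

theorem far_Tq {s ζ α n : ℝ} (hs : 0 < s) (hζ : 0 < ζ) (hα1 : α ≤ 1) (hn : 1 ≤ n)
    (h : 120 ≤ ζ * s ^ 3 * n) : 10 * Real.exp (-(s * n)) ≤ ζ / 2 * n ^ (-(1 + α)) := by
  have h0 : 0 < n := by linarith
  have h1 := Real.pow_div_factorial_le_exp (s * n) (by positivity) 3
  refine le_trans ?_ (mul_le_mul_of_nonneg_left (Real.rpow_le_rpow_of_exponent_le (y := -2) hn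
    (by linarith)) (by positivity))
  rw [Real.rpow_neg h0.le, Real.rpow_two, Real.exp_neg, ← div_eq_mul_inv, ← div_eq_mul_inv,
    div_le_div_iff₀ (Real.exp_pos _) (by positivity)]
  have h2 := mul_le_mul_of_nonneg_left h1 (by positivity : 0 ≤ ζ / 2)
  have h3 := mul_le_mul_of_nonneg_right h (sq_nonneg n)
  norm_num [Nat.factorial] at h2
  nlinarith

theorem pTq : STq := by
  intro ζ hζ
  obtain ⟨s, hs, hs1, hs2⟩ : ∃ s : ℝ, 0 < s ∧ s ≤ 1 / 8 ∧ 4 * s ≤ ζ / 2 :=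
    ⟨min ζ 1 / 8, by positivity, by linarith [min_le_right ζ 1], by linarith [min_le_left ζ 1]⟩
  obtain ⟨n1, h1⟩ := exists_nat_ge (120 / (ζ * s ^ 3) + 1)
  refine ⟨n1, fun α A J j a hα hα1 hA hJ hj he ha n hn => ?_⟩
  have h2 : 120 / (ζ * s ^ 3) + 1 ≤ n := h1.trans (by exact_mod_cast hn)
  have h3 : (1 : ℝ) ≤ n := le_trans (le_add_of_nonneg_left (by positivity)) h2
  have h4 : 120 ≤ ζ * s ^ 3 * n := (div_le_iff₀' (by positivity)).1 (by linarith)
  have h5 := far_Tq hs hζ hα1 h3 h4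
  have h6 : 0 ≤ (n : ℝ) ^ (-(1 + α)) := by positivity
  have key : ∀ x ∈ antidiagonal n, j x.1 * a x.2 ≤
      j x.1 * ENNReal.ofReal (A * ((1 + ζ / 2) * (n : ℝ) ^ (-(1 + α)))) +
        ENNReal.ofReal (Real.exp x.1) * j x.1 * ENNReal.ofReal (A * Real.exp (-(s * n))) := by
    intro x hx
    have e : (x.1 : ℝ) + x.2 = n := by exact_mod_cast mem_antidiagonal.1 hx
    rcases le_total (x.1 : ℝ) (s * n) with h | h
    · refine le_add_right (mul_le_mul' le_rfl ((ha _).trans (ENNReal.ofReal_le_ofReal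
        (mul_le_mul_of_nonneg_left ((near_Tq hs hs1 hα hα1 (by linarith) (by linarith)).trans
          (mul_le_mul_of_nonneg_right (by linarith) h6)) hA))))
    · refine le_add_left ?_
      rw [mul_comm _ (j x.1), mul_assoc, ← ENNReal.ofReal_mul (Real.exp_pos _).le]
      refine mul_le_mul' le_rfl ((ha _).trans (ENNReal.ofReal_le_ofReal ?_))
      rw [mul_left_comm, ← Real.exp_add]
      refine mul_le_mul_of_nonneg_left (le_trans ?_ (Real.one_le_exp (by linarith))) hA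
      rcases Nat.eq_zero_or_pos x.2 with h0 | h0
      · rw [h0, Nat.cast_zero, Real.zero_rpow (by linarith)]
        exact zero_le_one
      · exact Real.rpow_le_one_of_one_le_of_nonpos (by exact_mod_cast h0) (by linarith)
  have sm : ∀ f : ℕ → ℝ≥0∞, ∑ x ∈ antidiagonal n, f x.1 ≤ ∑' i, f i := fun f =>
    (Finset.Nat.sum_antidiagonal_eq_sum_range_succ (fun i _ => f i) n).trans_le
      (ENNReal.sum_le_tsum _)
  refine (sum_le_sum key).trans ?_
  rw [sum_add_distrib, ← sum_mul, ← sum_mul]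
  refine (add_le_add (mul_le_mul' ((sm j).trans hj) le_rfl) (mul_le_mul'
    ((sm fun i => ENNReal.ofReal (Real.exp i) * j i).trans he) le_rfl)).trans ?_
  rw [← ENNReal.ofReal_ofNat, ← ENNReal.ofReal_mul (by linarith), ← ENNReal.ofReal_mul (by norm_num),
    ← ENNReal.ofReal_add (by positivity) (by positivity)]
  refine ENNReal.ofReal_le_ofReal ?_
  have h7 := mul_le_mul_of_nonneg_left h5 hA
  have h8 := mul_le_mul_of_nonneg_right hJ (by positivity : 0 ≤ A * (ζ / 2 * (n : ℝ) ^ (-(1 + α))))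
  linarith

end Pool.Agent.MP_c26281_pr.SA

end

section

/-! Tail of the renewal function of a heavy tailed defective law. -/

open MeasureTheory ProbabilityTheory Finset Filter Topology
open scoped ENNReal

namespace Pool.Agent.MP_c26281_pr.SA

theorem scale_Tail {α s m n : ℝ} (h0 : 0 < α) (h1 : α ≤ 1) (hs : 0 < s) (hs1 : s ≤ 1) (hn : 0 < n)
    (h : s * n ≤ m) : s ^ 2 * m ^ (-(1 + α)) ≤ n ^ (-(1 + α)) := by
  have a1 : m ^ (-(1 + α)) ≤ (s * n) ^ (-(1 + α)) :=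
    Real.rpow_le_rpow_of_nonpos (mul_pos hs hn) h (by linarith)
  have a2 : s ^ 2 * s ^ (-(1 + α)) ≤ 1 := by
    rw [← Real.rpow_natCast, ← Real.rpow_add hs]
    exact Real.rpow_le_one hs.le hs1 (by push_cast; linarith)
  rw [Real.mul_rpow hs.le hn.le] at a1
  have a3 : 0 ≤ n ^ (-(1 + α)) := Real.rpow_nonneg hn.le _
  calc s ^ 2 * m ^ (-(1 + α)) ≤ s ^ 2 * (s ^ (-(1 + α)) * n ^ (-(1 + α))) := by gcongr
    _ = (s ^ 2 * s ^ (-(1 + α))) * n ^ (-(1 + α)) := by ring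
    _ ≤ 1 * n ^ (-(1 + α)) := by gcongr
    _ = _ := one_mul _

theorem scale2_Tail {α s m n a b : ℝ} (h0 : 0 < α) (h1 : α ≤ 1) (hs : 0 < s) (hs1 : s ≤ 1)
    (hn : 0 < n) (h : s * n ≤ m) (ha : 0 ≤ a) (hb : 0 ≤ b) :
    s ^ 3 * ((a + b / m) * m ^ (-(1 + α))) ≤ (a + b / n) * n ^ (-(1 + α)) := by
  have hm : 0 < m := (mul_pos hs hn).trans_le h
  have a1 := scale_Tail h0 h1 hs hs1 hn h
  have a2 : s * (a + b / m) ≤ a + b / n := by
    have : s * (b / m) ≤ b / n := by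
      rw [← mul_div_assoc, div_le_div_iff₀ hm hn]
      nlinarith
    nlinarith
  have a3 : 0 ≤ m ^ (-(1 + α)) := Real.rpow_nonneg hm.le _
  calc s ^ 3 * ((a + b / m) * m ^ (-(1 + α)))
      = (s * (a + b / m)) * (s ^ 2 * m ^ (-(1 + α))) := by ring
    _ ≤ _ := by gcongr

theorem low_Tail {α n : ℝ} (h1 : α ≤ 1) (hn : 1 ≤ n) : 1 / n ^ 2 ≤ n ^ (-(1 + α)) := by
  rw [one_div, ← Real.rpow_natCast, ← Real.rpow_neg (by linarith)]
  exact Real.rpow_le_rpow_of_exponent_le hn (by push_cast; linarith)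

theorem up_Tail {α n : ℝ} (h0 : 0 < α) (hn : 1 ≤ n) : n ^ (-(1 + α)) ≤ 1 / n := by
  rw [one_div, ← Real.rpow_neg_one]
  exact Real.rpow_le_rpow_of_exponent_le hn (by linarith)

theorem core_Tail {u α B : ℝ} {n1 n2 : ℕ} (hu : 0 < u) (hu1 : u ≤ 1 / 100) (h0 : 0 < α)
    (hα : α ≤ u ^ 5 / 2) (hn2 : (n1 : ℝ) + 1 ≤ u * n2) (hB : 3 * (n2 : ℝ) ^ 3 + 480 ≤ B)
    (Q Φ J : ℕ → ℝ) (Q0 : ∀ n, 0 ≤ Q n) (Φ0 : ∀ n, 0 ≤ Φ n) (hQ0 : Q 0 = 0)
    (hQ : ∀ N, ∑ i ∈ range N, Q i ≤ 1 / 2 + 2 * u) (hΦ : ∀ N, ∑ i ∈ range N, Φ i ≤ 2 + 12 * u)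
    (hrec : ∀ n, Φ n = J n + ∑ x ∈ antidiagonal n, Q x.1 * Φ x.2)
    (hJ : ∀ n : ℕ, 1 ≤ n → J n ≤ 60 / (n : ℝ) ^ 3)
    (hq : ∀ i : ℕ, n1 ≤ i → Q i ≤ α * (1 / 2 + 2 * u) * (i : ℝ) ^ (-(1 + α))) (n : ℕ) :
    1 ≤ n → Φ n ≤ (α * (2 + 80 * u) + B / n) * (n : ℝ) ^ (-(1 + α)) := by
  have hu5 : u ^ 5 ≤ 1 := pow_le_one₀ hu.le (by linarith)
  have h1 : α ≤ 1 := by linarith
  have hB0 : 480 ≤ B := by have : 0 ≤ (n2 : ℝ) ^ 3 := by positivity
                           linarith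
  induction n using Nat.strong_induction_on with
  | _ n ih =>
  intro hn
  have hn' : (1 : ℝ) ≤ n := by exact_mod_cast hn
  have hnp : (0 : ℝ) < n := by linarith
  have hlow := low_Tail h1 hn'
  obtain ⟨g, hg⟩ : ∃ g, g = (n : ℝ) ^ (-(1 + α)) := ⟨_, rfl⟩
  obtain ⟨ψ, hψ⟩ : ∃ ψ, ψ = (α * (2 + 80 * u) + B / n) * g := ⟨_, rfl⟩
  have ha : 0 ≤ α * (2 + 80 * u) := by positivity
  rw [← hg] at hlow
  have g0 : 0 ≤ g := le_trans (by positivity) hlow
  have ψ0 : 0 ≤ ψ := by rw [hψ]; positivity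
  have hcube : 1 / (n : ℝ) ^ 3 ≤ g / n := by
    rw [show 1 / (n : ℝ) ^ 3 = 1 / n ^ 2 / n by field_simp]
    gcongr
  rw [← hg, ← hψ]
  rcases le_or_gt n n2 with hle | hlt
  · have a1 : Φ n ≤ 2 + 12 * u :=
      (single_le_sum (fun i _ => Φ0 i) (self_mem_range_succ n)).trans (hΦ (n + 1))
    have a2 : (n : ℝ) ^ 3 ≤ (n2 : ℝ) ^ 3 := by gcongr
    have a3 : 3 ≤ B * (1 / (n : ℝ) ^ 3) := by
      rw [mul_one_div, le_div_iff₀ (by positivity)]
      linarith
    have a4 : B * (1 / (n : ℝ) ^ 3) ≤ B * (g / n) := by gcongr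
    have a5 : ψ = α * (2 + 80 * u) * g + B * (g / n) := by rw [hψ]; ring
    have a6 : 0 ≤ α * (2 + 80 * u) * g := by positivity
    linarith
  · have hun : (n1 : ℝ) + 1 ≤ u * n := hn2.trans (by gcongr)
    have hn10 : (0 : ℝ) ≤ n1 := by positivity
    have hsc : ∀ (s : ℝ) (m : ℕ), 0 < s → s ≤ 1 → s * n ≤ m → m < n → s ^ 3 * Φ m ≤ ψ := by
      intro s m hs hs1 hm hmn
      have hm1 : 1 ≤ m := by
        have : (0 : ℝ) < m := (mul_pos hs hnp).trans_le hm
        exact_mod_cast this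
      rw [hψ, hg]
      exact le_trans (by gcongr; exact ih m hmn hm1)
        (scale2_Tail h0 h1 hs hs1 hnp hm ha (by linarith))
    have h3 : 1 ≤ (1 + 4 * u) * (1 - u) ^ 3 := by
      have := one_add_mul_le_pow (show -2 ≤ -u by linarith) 3
      rw [← sub_eq_add_neg] at this
      push_cast at this
      nlinarith
    have h2 : 1 ≤ (1 + 4 * u) * (1 - u) ^ 2 := by nlinarith
    have term : ∀ x ∈ antidiagonal n, Q x.1 * Φ x.2 ≤ Q x.1 * ((1 + 4 * u) * ψ) +
        (u / 2 * ψ / n + α * (1 / 2 + 2 * u) * (1 + 4 * u) * g * Φ x.2) := by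
      rintro ⟨i, m⟩ hx
      have hx := mem_antidiagonal.1 hx
      have hxr : (i : ℝ) + m = n := by exact_mod_cast hx
      have t1 : 0 ≤ Q i * ((1 + 4 * u) * ψ) := by have := Q0 i; positivity
      have t2 : 0 ≤ u / 2 * ψ / n := by positivity
      have t3 : 0 ≤ α * (1 / 2 + 2 * u) * (1 + 4 * u) * g * Φ m := by have := Φ0 m; positivity
      simp only at hx ⊢
      rcases le_or_gt (i : ℝ) (u * n) with c1 | c1
      · rcases Nat.eq_zero_or_pos i with rfl | hi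
        · rw [hQ0]; linarith
        · have a1 := hsc (1 - u) m (by linarith) (by linarith) (by linarith) (by omega)
          have a2 : Φ m ≤ (1 + 4 * u) * ψ := by
            have := Φ0 m
            calc Φ m ≤ ((1 + 4 * u) * (1 - u) ^ 3) * Φ m := le_mul_of_one_le_left this h3
              _ = (1 + 4 * u) * ((1 - u) ^ 3 * Φ m) := by ring
              _ ≤ _ := by gcongr
          have := mul_le_mul_of_nonneg_left a2 (Q0 i)
          linarith
      · have hi1 : n1 ≤ i := by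
          have : (n1 : ℝ) ≤ i := by linarith
          exact_mod_cast this
        have hi2 : (1 : ℝ) ≤ i := by linarith
        have hqi := hq i hi1
        rcases le_or_gt (u * n) m with c2 | c2
        · have hi0 : 0 < i := by exact_mod_cast (by linarith : (0 : ℝ) < i)
          have a1 := hsc u m hu (by linarith) c2 (by omega)
          have a2 : Q i ≤ u ^ 4 / 2 / n := by
            have b1 : (i : ℝ) ^ (-(1 + α)) ≤ 1 / (u * n) :=
              (up_Tail h0 hi2).trans (one_div_le_one_div_of_le (by positivity) c1.le)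
            calc Q i ≤ u ^ 5 / 2 * 1 * (1 / (u * n)) := by
                  refine hqi.trans ?_
                  gcongr
                  linarith
              _ = _ := by field_simp
          have a3 : Q i * Φ m ≤ u / 2 * ψ / n :=
            calc Q i * Φ m ≤ u ^ 4 / 2 / n * Φ m := mul_le_mul_of_nonneg_right a2 (Φ0 m)
              _ = u / 2 * (u ^ 3 * Φ m) / n := by ring
              _ ≤ _ := by gcongr
          linarith
        · have a1 := scale_Tail (s := 1 - u) (m := i) h0 h1 (by linarith) (by linarith) hnp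
            (by linarith)
          rw [← hg] at a1
          have b0 : 0 ≤ (i : ℝ) ^ (-(1 + α)) := by positivity
          have a2 : (i : ℝ) ^ (-(1 + α)) ≤ (1 + 4 * u) * g :=
            calc (i : ℝ) ^ (-(1 + α)) ≤ ((1 + 4 * u) * (1 - u) ^ 2) * (i : ℝ) ^ (-(1 + α)) :=
                  le_mul_of_one_le_left b0 h2
              _ = (1 + 4 * u) * ((1 - u) ^ 2 * (i : ℝ) ^ (-(1 + α))) := by ring
              _ ≤ _ := by gcongr
          have a3 : Q i ≤ α * (1 / 2 + 2 * u) * (1 + 4 * u) * g := by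
            rw [mul_assoc _ (1 + 4 * u)]
            exact hqi.trans (by gcongr)
          have := mul_le_mul_of_nonneg_right a3 (Φ0 m)
          linarith
    have s1 := sum_le_sum term
    rw [sum_add_distrib, sum_add_distrib, ← sum_mul, ← mul_sum, sum_const, Nat.card_antidiagonal,
      nsmul_eq_mul, Finset.Nat.sum_antidiagonal_eq_sum_range_succ (fun i _ => Q i),
      ← Finset.Nat.sum_antidiagonal_swap (f := fun x => Φ x.2)] at s1
    simp only [Prod.snd_swap] at s1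
    rw [Finset.Nat.sum_antidiagonal_eq_sum_range_succ (fun i _ => Φ i)] at s1
    have s2 : (∑ i ∈ range n.succ, Q i) * ((1 + 4 * u) * ψ) ≤
        (1 / 2 + 2 * u) * ((1 + 4 * u) * ψ) := by gcongr; exact hQ _
    have s3 : ((n + 1 : ℕ) : ℝ) * (u / 2 * ψ / n) ≤ u * ψ := by
      calc ((n + 1 : ℕ) : ℝ) * (u / 2 * ψ / n) ≤ (2 * n) * (u / 2 * ψ / n) := by
            gcongr; push_cast; linarith
        _ = _ := by field_simp
    have s4 : α * (1 / 2 + 2 * u) * (1 + 4 * u) * g * ∑ i ∈ range n.succ, Φ i ≤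
        α * (1 / 2 + 2 * u) * (1 + 4 * u) * g * (2 + 12 * u) := by gcongr; exact hΦ _
    have s5 : J n ≤ 60 * (g / n) := (hJ n hn).trans (by rw [div_eq_mul_one_div]; gcongr)
    have s6 : ψ = (2 + 80 * u) * (α * g) + B * (g / n) := by rw [hψ]; ring
    have s7 : (1 / 2 + 2 * u) * ((1 + 4 * u) * ψ) + u * ψ ≤ (1 / 2 + 6 * u) * ψ := by
      have : (1 / 2 + 2 * u) * (1 + 4 * u) + u ≤ 1 / 2 + 6 * u := by nlinarith
      nlinarith
    have s8 : α * (1 / 2 + 2 * u) * (1 + 4 * u) * g * (2 + 12 * u) ≤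
        (1 / 2 - 6 * u) * (2 + 80 * u) * (α * g) := by
      have b1 : (1 / 2 + 2 * u) * (1 + 4 * u) * (2 + 12 * u) ≤ (1 / 2 - 6 * u) * (2 + 80 * u) := by
        nlinarith [mul_pos hu hu, mul_pos hu (mul_pos hu hu)]
      have b2 : 0 ≤ α * g := by positivity
      nlinarith
    have s9 : 60 * (g / n) ≤ (1 / 2 - 6 * u) * B * (g / n) := by
      gcongr; nlinarith
    rw [hrec n]
    nlinarith

theorem pTail (hS : SSum) (hq : STq) : STail := by
  intro η hη
  obtain ⟨u, hu, hu1, huη⟩ : ∃ u : ℝ, 0 < u ∧ u ≤ 1 / 100 ∧ u ≤ η / 100 :=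
    ⟨min η 1 / 100, by positivity, by gcongr; exact min_le_right _ _,
      by gcongr; exact min_le_left _ _⟩
  obtain ⟨n1, hn1⟩ := hq u hu
  obtain ⟨n2, hn2⟩ := exists_nat_ge (((n1 : ℝ) + 1) / u)
  rw [div_le_iff₀ hu, mul_comm] at hn2
  obtain ⟨B, hB⟩ : ∃ B : ℝ, B = 3 * (n2 : ℝ) ^ 3 + 480 := ⟨_, rfl⟩
  have hB0 : 0 < B := by rw [hB]; positivity
  refine ⟨u, B / u, u ^ 5 / 2, hu, by linarith, by linarith, by positivity,
    fun α h0 hα j a hj hje ha => ?_⟩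
  have hαu : α ≤ u := by
    have : u ^ 5 ≤ u ^ 1 := pow_le_pow_of_le_one hu.le (by linarith) (by norm_num)
    linarith
  have hc : (1 + u) ^ 3 / 2 ≤ 1 / 2 + 2 * u := by nlinarith [mul_pos hu hu]
  have ha0 : a 0 = 0 := by
    have := ha 0
    rwa [pw, Nat.cast_zero, Real.zero_rpow (by linarith), mul_zero, ENNReal.ofReal_zero,
      nonpos_iff_eq_zero] at this
  have has : ∑' n, a n ≤ ENNReal.ofReal ((1 + u) ^ 2 / 2) := by
    refine (ENNReal.tsum_le_tsum (g := pwL (α / 2 * (1 + u)) α 1) fun n => ?_).trans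
      ((hS.1 _ α 1 (by positivity) h0 le_rfl).trans (ENNReal.ofReal_le_ofReal ?_))
    · rw [pwL]
      split_ifs with h
      · exact ha n
      · rw [show n = 0 by omega, ha0]
    · rw [Nat.cast_one, Real.one_rpow, Real.one_rpow,
        show α / 2 * (1 + u) * (1 + 1 / α) = (1 + u) * (1 + α) / 2 by field_simp; ring]
      nlinarith
  obtain ⟨q, hqd⟩ : ∃ q, q = cv j a := ⟨_, rfl⟩
  have hqs : ∑' n, q n ≤ ENNReal.ofReal (1 / 2 + 2 * u) := by
    rw [hqd, tsum_cv]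
    refine (mul_le_mul' hj has).trans ?_
    rw [← ENNReal.ofReal_mul (by linarith)]
    exact ENNReal.ofReal_le_ofReal (by linarith)
  obtain ⟨κ, hκ⟩ : ∃ κ : ℕ → ℝ≥0∞, κ = fun n => kst (tk q) 0 n := ⟨_, rfl⟩
  have hκ' : kst (tk q) = tk κ := hκ ▸ kst_tk q
  have hrec : ∀ n, cv κ j n = j n + cv q (cv κ j) n := by
    intro n
    have e : kst (tk q) * tk j = tk j + tk q * (kst (tk q) * tk j) := by
      conv_lhs => rw [kst_eq]
      rw [add_mul, one_mul, mul_assoc]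
    rw [hκ', tk_mul, tk_mul, tk_plus] at e
    simpa only [tk_add] using congrArg (fun A : IA => A 0 (0 + n)) e
  have hφs : ∑' n, cv κ j n ≤ ENNReal.ofReal (2 + 12 * u) := by
    have b1 : ∑' n, κ n ≤ (1 - ENNReal.ofReal (1 / 2 + 2 * u))⁻¹ := by
      refine (ENNReal.tsum_le_tsum fun n => ?_).trans ((tsum_sq_kst (tk q)).trans ?_)
      · rw [hκ', ← tk_add κ 0 n]
        exact le_iSup (fun p => tk κ p (p + n)) 0
      · exact ENNReal.inv_le_inv.2 (tsub_le_tsub_left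
          ((ENNReal.tsum_le_tsum (sq_le le_rfl)).trans hqs) _)
    rw [← ENNReal.ofReal_one, ← ENNReal.ofReal_sub _ (by linarith),
      ← ENNReal.ofReal_inv_of_pos (by linarith)] at b1
    rw [tsum_cv]
    refine (mul_le_mul' b1 hj).trans ?_
    rw [← ENNReal.ofReal_mul (inv_nonneg.2 (by linarith))]
    refine ENNReal.ofReal_le_ofReal ?_
    rw [inv_mul_le_iff₀ (by linarith)]
    nlinarith
  have fin : ∀ (f : ℕ → ℝ≥0∞) (c : ℝ), 0 ≤ c → ∑' n, f n ≤ ENNReal.ofReal c →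
      (∀ n, f n ≠ ⊤) ∧ ∀ N, ∑ i ∈ range N, (f i).toReal ≤ c := by
    intro f c hc h
    have b1 : ∀ n, f n ≠ ⊤ := fun n =>
      ne_top_of_le_ne_top ENNReal.ofReal_ne_top ((ENNReal.le_tsum n).trans h)
    refine ⟨b1, fun N => ?_⟩
    rw [← ENNReal.toReal_sum fun i _ => b1 i]
    exact ENNReal.toReal_le_of_le_ofReal hc ((ENNReal.sum_le_tsum _).trans h)
  obtain ⟨q1, q2⟩ := fin q _ (by linarith) hqs
  obtain ⟨φ1, φ2⟩ := fin _ _ (by linarith) hφs
  obtain ⟨j1, -⟩ := fin j _ (by linarith) hj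
  have key := core_Tail hu hu1 h0 hα.le hn2 hB.ge (fun n => (q n).toReal)
    (fun n => (cv κ j n).toReal) (fun n => (j n).toReal) (fun _ => ENNReal.toReal_nonneg)
    (fun _ => ENNReal.toReal_nonneg) (by simp [hqd, cv, ha0]) q2 φ2
    (fun n => by
      rw [hrec n, ENNReal.toReal_add (j1 n) (by
        have := φ1 n
        rw [hrec n] at this
        exact (ENNReal.add_ne_top.1 this).2), cv,
        ENNReal.toReal_sum fun x _ => ENNReal.mul_ne_top (q1 _) (φ1 _)]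
      simp only [ENNReal.toReal_mul])
    (fun n hn => by
      have hn' : (0 : ℝ) < n := by exact_mod_cast hn
      have b1 := ENNReal.toReal_mono (by simp)
        ((ENNReal.le_tsum (f := fun n : ℕ => ENNReal.ofReal (Real.exp n) * j n) n).trans hje)
      rw [ENNReal.toReal_mul, ENNReal.toReal_ofReal (Real.exp_pos _).le] at b1
      have b2 := Real.pow_div_factorial_le_exp (n : ℝ) hn'.le 3
      have b3 : (0 : ℝ) ≤ (j n).toReal := ENNReal.toReal_nonneg
      norm_num [Nat.factorial] at b1 b2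
      rw [le_div_iff₀ (by positivity)]
      nlinarith)
    (fun i hi => by
      have b1 := hn1 α _ (1 + u) j a h0 (by linarith) (by positivity) (by linarith) hj hje ha i hi
      rw [← hqd, pw] at b1
      refine (ENNReal.toReal_le_of_le_ofReal (by positivity) b1).trans
        (mul_le_mul_of_nonneg_right ?_ (by positivity))
      calc _ = α * ((1 + u) ^ 3 / 2) := by ring
        _ ≤ _ := by gcongr)
  refine ⟨cv κ j, fun n => by rw [← hqd, ← hrec n],
    hφs.trans (ENNReal.ofReal_le_ofReal (by linarith)), fun n hn => ?_⟩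
  have hn0 : (0 : ℝ) < n := lt_of_lt_of_le (by positivity) hn
  rw [← ENNReal.ofReal_toReal (φ1 n), pw]
  refine ENNReal.ofReal_le_ofReal ((key n (by exact_mod_cast hn0)).trans ?_)
  have b1 : B / n ≤ u * α := by
    rw [div_div, div_le_iff₀ (by positivity)] at hn
    rw [div_le_iff₀ hn0]
    linarith
  gcongr
  nlinarith

end Pool.Agent.MP_c26281_pr.SA

end

section

open MeasureTheory ProbabilityTheory Finset Filter Topology
open scoped ENNReal

namespace Pool.Agent.MP_c26281_pr.SA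

theorem tilt_Short (a w : ℕ → ℝ≥0∞) (h0 : w 0 = 1) (hw : ∀ i j, w (i + j) = w i * w j) :
    ∑' n, w n * kst (tk a) 0 n ≤ (1 - ∑' n, w n * a n)⁻¹ := by
  have h : ∀ p : ℕ, ∑' n, w n * (tk a ^ p) 0 n ≤ (∑' n, w n * a n) ^ p := by
    intro p
    induction p with
    | zero =>
      rw [pow_zero, pow_zero, tsum_eq_single 0 fun n hn => by rw [k_one, if_neg hn.symm, mul_zero],
        k_one, if_pos rfl, h0, mul_one]
    | succ p ih =>
      have e : ∀ n, w n * (tk a ^ (p + 1)) 0 n =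
          cv (fun n => w n * (tk a ^ p) 0 n) (fun n => w n * a n) n := by
        intro n
        have e1 := tk_add (cv (fun n => (tk a ^ p) 0 n) a) 0 n
        rw [zero_add, ← tk_mul, ← tk_pow, ← pow_succ] at e1
        rw [e1, cv, cv, mul_sum]
        refine sum_congr rfl fun x hx => ?_
        rw [← mem_antidiagonal.mp hx, hw, mul_mul_mul_comm]
      rw [tsum_congr e, tsum_cv, pow_succ]
      exact mul_le_mul_left ih _
  have e : ∀ n, w n * kst (tk a) 0 n = ∑' p : ℕ, w n * (tk a ^ p) 0 n := fun n =>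
    ENNReal.tsum_mul_left.symm
  rw [tsum_congr e, ENNReal.tsum_comm, ← ENNReal.tsum_geometric]
  exact ENNReal.tsum_le_tsum h

theorem blk_Short (k : ℕ) (F : ℕ → ℝ≥0∞) :
    ∑' n, ∑ b ∈ range k, F (n * k + b) ≤ ∑' i, F i := by
  rw [ENNReal.tsum_eq_iSup_nat]
  refine iSup_le fun N => le_trans (le_of_eq ?_) (ENNReal.sum_le_tsum (range (N * k)))
  induction N with
  | zero => simp
  | succ N ih => rw [sum_range_succ, ih, Nat.succ_mul, sum_range_add]

theorem shift_Short (G : ℕ → ℝ≥0∞) (a : ℕ) : ∑' i, tk G a i = ∑' i, G i := by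
  rw [← Summable.sum_add_tsum_nat_add' (k := a) ENNReal.summable,
    sum_eq_zero fun i hi => k_zero _ (mem_range.mp hi), zero_add]
  exact tsum_congr fun i => by rw [add_comm, tk_add]

/-- the sequence of the coarse grained kernel -/
noncomputable def jj_Short (k : ℕ) (κ : ℝ≥0∞) (U : ℕ → ℝ≥0∞) : ℕ → ℝ≥0∞
  | 0 => 0
  | n + 1 => ∑ a ∈ range k, ∑ b ∈ range k, κ * tk U a (n * k + b)

theorem cg_Short (k : ℕ) (κ : ℝ≥0∞) (U : ℕ → ℝ≥0∞) :
    cg k (fun _ => 1) (fun _ => κ) (tk U) ≤ tk (jj_Short k κ U) := by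
  refine le_tk.2 fun q n => ?_
  rw [cg, kmk_add]
  rcases n with _ | n
  · simp
  rw [if_pos (by omega), jj_Short, blk, blk, sum_Ico_eq_sum_range,
    show (q + 1) * k - q * k = k by rw [Nat.succ_mul, Nat.add_sub_cancel_left]]
  refine sum_le_sum fun a _ => ?_
  rw [sum_Ico_eq_sum_range, show q + (n + 1) - 1 = q + n from rfl,
    show (q + n + 1) * k - (q + n) * k = k by rw [Nat.succ_mul, Nat.add_sub_cancel_left]]
  refine sum_le_sum fun b _ => le_of_eq ?_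
  rw [mul_one, tk, kmk_apply, kmk_apply, add_mul, add_assoc, Nat.add_sub_add_left]
  simp only [add_le_add_iff_left]

theorem wt_Short (k : ℕ) (κ : ℝ≥0∞) (U c c' : ℕ → ℝ≥0∞)
    (h : ∀ n a b, a < k → a ≤ n * k + b → c (n + 1) ≤ c' (n * k + b - a)) :
    ∑' n, c n * jj_Short k κ U n ≤ k * κ * ∑' i, c' i * U i := by
  rw [tsum_eq_zero_add' ENNReal.summable, jj_Short, mul_zero, zero_add]
  calc ∑' n, c (n + 1) * jj_Short k κ U (n + 1)
      ≤ ∑' n, ∑ a ∈ range k, κ * ∑ b ∈ range k, tk (fun i => c' i * U i) a (n * k + b) := by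
        refine ENNReal.tsum_le_tsum fun n => ?_
        rw [jj_Short, mul_sum]
        refine sum_le_sum fun a ha => ?_
        rw [mul_sum, mul_sum]
        refine sum_le_sum fun b _ => ?_
        rw [mul_left_comm, tk, tk, kmk_apply, kmk_apply]
        refine mul_le_mul_right ?_ _
        split_ifs with h1
        · exact mul_le_mul_left (h n a b (mem_range.mp ha) h1) _
        · simp
    _ = ∑ a ∈ range k, κ * ∑' n, ∑ b ∈ range k, tk (fun i => c' i * U i) a (n * k + b) := by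
        rw [Summable.tsum_finsetSum fun _ _ => ENNReal.summable]
        exact sum_congr rfl fun a _ => ENNReal.tsum_mul_left
    _ ≤ ∑ _a ∈ range k, κ * ∑' i, c' i * U i :=
        sum_le_sum fun a _ => mul_le_mul_right ((blk_Short k _).trans_eq (shift_Short _ a)) _
    _ = _ := by rw [sum_const, card_range, nsmul_eq_mul, mul_assoc]

theorem exp2_Short : Real.exp 2 ≤ 37 / 5 := by
  have h := Real.exp_one_lt_d9
  have h0 := Real.exp_pos 1
  rw [show (2 : ℝ) = 1 + 1 by norm_num, Real.exp_add]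
  nlinarith

theorem exp_Short {x : ℝ} (h0 : 0 ≤ x) (h : x ≤ 4) : Real.exp x ≤ 1 + 55 * x := by
  have h1 : Real.exp x ≤ 55 := by
    refine (Real.exp_le_exp.mpr h).trans ?_
    have h2 := exp2_Short
    have h3 := Real.exp_pos 2
    rw [show (4 : ℝ) = 2 + 2 by norm_num, Real.exp_add]
    nlinarith
  have h2 := mul_le_mul_of_nonneg_right (Real.add_one_le_exp (-x)) (Real.exp_pos x).le
  rw [← Real.exp_add, neg_add_cancel, Real.exp_zero] at h2
  nlinarith

theorem pShort : SShort := by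
  intro v hv hv1
  refine ⟨v / 1200, by positivity, fun α hα hα1 K u κ k hK => ?_⟩
  obtain ⟨hk, hκ, hK0, -, hS, -, hM, -⟩ := hK
  have hk' : (0 : ℝ) < k := by exact_mod_cast hk
  have hκk := mul_pos hκ hk'
  let a : ℕ → ℝ≥0∞ := fun n => if n ≤ 2 * k then ENNReal.ofReal (K n * Real.exp (n / k)) else 0
  let w : ℕ → ℝ≥0∞ := fun n => ENNReal.ofReal (Real.exp (n / k))
  have ea : klo (2 * k + 1) (Kbar K k) = tk a := by
    ext p q h
    rw [klo, Kbar, tk, tk, kmk_of_le _ h, kmk_of_le _ h, kmk_of_le _ h]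
    by_cases h1 : q - p ≤ 2 * k
    · simp only [a, if_pos h1, if_pos (Nat.lt_succ_of_le h1)]
    · simp only [a, if_neg h1, if_neg (mt Nat.lt_succ_iff.mp h1)]
  have h1 : ∑ n ∈ range (2 * k + 1), K n * Real.exp (2 * (n / k)) ≤ 1 - κ * k * (1 - 550 * α) := by
    have b1 : ∀ n ∈ range (2 * k + 1), K n * Real.exp (2 * (n / k)) ≤ K n + 110 / k * (n * K n) := by
      intro n hn
      have b2 : (n : ℝ) ≤ 2 * k := by exact_mod_cast Nat.lt_succ_iff.mp (mem_range.mp hn)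
      have b3 : (n : ℝ) / k ≤ 2 := (div_le_iff₀ hk').mpr b2
      refine (mul_le_mul_of_nonneg_left (exp_Short (by positivity) (by linarith)) (hK0 n)).trans_eq ?_
      ring
    refine (sum_le_sum b1).trans ?_
    rw [sum_add_distrib, ← mul_sum, hS]
    have b4 := mul_le_mul_of_nonneg_left hM (by positivity : (0 : ℝ) ≤ 110 / k)
    have b5 : 110 / k * (5 * α * κ * k ^ 2) = 550 * α * κ * k := by
      field_simp
      ring
    linarith
  have h2 : ∑' n, w n * a n ≤ ENNReal.ofReal (1 - κ * k * (1 - 550 * α)) := by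
    rw [tsum_eq_sum (s := range (2 * k + 1)) fun n hn => by
      simp only [a, if_neg (mt (fun h => mem_range.mpr (Nat.lt_succ_of_le h)) hn), mul_zero]]
    refine le_trans (le_of_eq ?_) (ENNReal.ofReal_le_ofReal h1)
    rw [ENNReal.ofReal_sum_of_nonneg fun n _ => mul_nonneg (hK0 n) (Real.exp_pos _).le]
    refine sum_congr rfl fun n hn => ?_
    simp only [a, w, if_pos (Nat.lt_succ_iff.mp (mem_range.mp hn))]
    rw [← ENNReal.ofReal_mul (Real.exp_pos _).le, two_mul, Real.exp_add]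
    congr 1
    ring
  have ht : 0 < κ * k * (1 - 550 * α) := mul_pos hκk (by linarith)
  have h3 : ∑' n, w n * kst (tk a) 0 n ≤ ENNReal.ofReal ((1 + v) / (κ * k)) := by
    refine (tilt_Short a w (by simp [w]) fun i j => ?_).trans ?_
    · simp only [w]
      rw [← ENNReal.ofReal_mul (Real.exp_pos _).le, ← Real.exp_add, Nat.cast_add, add_div]
    have b0 : 0 ≤ 1 - κ * k * (1 - 550 * α) :=
      (sum_nonneg fun n _ => mul_nonneg (hK0 n) (Real.exp_pos _).le).trans h1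
    have b1 : ENNReal.ofReal (κ * k * (1 - 550 * α)) ≤ 1 - ∑' n, w n * a n := by
      refine le_trans (le_of_eq ?_) (tsub_le_tsub_left h2 1)
      rw [← ENNReal.ofReal_one, ← ENNReal.ofReal_sub _ b0, sub_sub_cancel]
    refine (ENNReal.inv_le_inv.mpr b1).trans ?_
    rw [← ENNReal.ofReal_inv_of_pos ht]
    refine ENNReal.ofReal_le_ofReal ?_
    rw [inv_eq_one_div, div_le_div_iff₀ ht hκk]
    have b2 : 1 ≤ (1 + v) * (1 - 550 * α) := by nlinarith
    nlinarith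
  have h4 : (k : ℝ≥0∞) * ENNReal.ofReal κ * ENNReal.ofReal ((1 + v) / (κ * k)) =
      ENNReal.ofReal (1 + v) := by
    rw [← ENNReal.ofReal_natCast, ← ENNReal.ofReal_mul hk'.le,
      ← ENNReal.ofReal_mul (by positivity)]
    congr 1
    field_simp
  refine ⟨jj_Short k (ENNReal.ofReal κ) fun n => kst (tk a) 0 n, ?_, ?_, ?_⟩
  · rw [ea, kst_tk]
    exact cg_Short _ _ _
  · have b1 := wt_Short k (ENNReal.ofReal κ) (fun n => kst (tk a) 0 n) (fun _ => 1) w
      fun n a b _ _ => ENNReal.one_le_ofReal.mpr (Real.one_le_exp (by positivity))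
    simp only [one_mul] at b1
    exact b1.trans ((mul_le_mul_right h3 _).trans_eq h4)
  · refine (wt_Short k (ENNReal.ofReal κ) (fun n => kst (tk a) 0 n) _
      (fun i => ENNReal.ofReal (Real.exp 2) * w i) fun n a b ha hab => ?_).trans ?_
    · simp only [w]
      rw [← ENNReal.ofReal_mul (Real.exp_pos _).le, ← Real.exp_add]
      refine ENNReal.ofReal_le_ofReal (Real.exp_le_exp.mpr ?_)
      have b1 : (a : ℝ) ≤ k := by exact_mod_cast ha.le
      have b2 : (n : ℝ) - 1 ≤ ((n * k + b - a : ℕ) : ℝ) / k := by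
        rw [le_div_iff₀ hk', Nat.cast_sub hab]
        push_cast
        have : (0 : ℝ) ≤ b := Nat.cast_nonneg b
        linarith
      push_cast
      linarith
    · simp only [mul_assoc (ENNReal.ofReal (Real.exp 2))]
      rw [ENNReal.tsum_mul_left, mul_left_comm]
      refine (mul_le_mul_right ((mul_le_mul_right h3 _).trans_eq h4) _).trans ?_
      rw [← ENNReal.ofReal_mul (Real.exp_pos _).le, ← ENNReal.ofReal_ofNat 10]
      refine ENNReal.ofReal_le_ofReal ?_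
      have b1 := exp2_Short
      have b2 := Real.exp_pos 2
      nlinarith

end Pool.Agent.MP_c26281_pr.SA

end

section

open MeasureTheory ProbabilityTheory Finset Filter Topology
open scoped ENNReal

namespace Pool.Agent.MP_c26281_pr.SA

theorem blk_Green {k i j : ℕ} (hk : 1 ≤ k) (h : 2 * k < j - i) :
    i / k + 1 < j / k ∧ (j / k - (i / k + 1)) * k ≤ j - i := by
  have a1 := Nat.lt_div_mul_add (a := i) hk
  have a2 := Nat.div_mul_le_self j k
  constructor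
  · refine lt_of_lt_of_le (Nat.lt_succ_self _) ((Nat.le_div_iff_mul_le hk).2 ?_)
    have := Nat.div_mul_le_self i k
    rw [Nat.succ_eq_add_one, add_mul, add_mul]; omega
  · rw [Nat.sub_mul, add_mul]; omega

theorem K_le_Green {K : ℕ → ℝ} {α u κ : ℝ} {k n m : ℕ} (ha : 0 < α) (hu : 0 ≤ u)
    (H : KA K α u κ k) (hn : 1 ≤ n) (hm : n * k ≤ m) :
    K m / 2 ≤ κ * (α / 2 * (1 + u) * (n : ℝ) ^ (-(1 + α))) := by
  obtain ⟨hk, hκ, -, -, -, h1, -⟩ := H
  have km : k ≤ m := le_trans (Nat.le_mul_of_pos_left k hn) hm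
  have np : (0 : ℝ) < n := by exact_mod_cast hn
  have mp : (0 : ℝ) < m := by exact_mod_cast (by omega : 0 < m)
  have h2 : ((k : ℝ) / m) ^ (1 + α) ≤ (n : ℝ) ^ (-(1 + α)) := by
    rw [Real.rpow_neg np.le, ← Real.inv_rpow np.le]
    refine Real.rpow_le_rpow (by positivity) ?_ (by linarith)
    rw [div_le_iff₀ mp, inv_mul_eq_div, le_div_iff₀ np, mul_comm]
    exact_mod_cast hm
  have := (h1 m km).2.trans (mul_le_mul_of_nonneg_left h2 (by positivity))
  linarith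

theorem pGreen (hC : SCG) (hT : STail) (hS : SShort) : SGreen := by
  intro η hη
  obtain ⟨u, B1, a1, u0, u1, u2, a1p, hT⟩ := hT η hη
  obtain ⟨a2, a2p, hS⟩ := hS u u0 u1
  refine ⟨u, B1, min a1 a2, u0, u1, u2, lt_min a1p a2p, fun α h0 h1 K κ k H => ?_⟩
  obtain ⟨j, j1, j2, j3⟩ := hS α h0 (h1.trans_le (min_le_right _ _)) K u κ k H
  obtain ⟨φ, f1, f2, f3⟩ := hT α h0 (h1.trans_le (min_le_left _ _)) j (pw (α / 2 * (1 + u)) α)
    j2 j3 fun _ => le_rfl
  refine ⟨φ, ?_, f2, f3⟩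
  obtain ⟨c1, c2⟩ := hC k H.1 (fun _ => 1) fun _ => ENNReal.ofReal κ
  have e : khi (2 * k + 1) (Kbar K k)
      ≤ ex k (fun _ => 1) (fun _ => ENNReal.ofReal κ) (tk (pw (α / 2 * (1 + u)) α)) := by
    refine le_of_le fun p q hpq => ?_
    rw [khi, kmk_of_le _ hpq]
    split_ifs with h
    · exact zero_le
    · obtain ⟨b1, b2⟩ := blk_Green (i := p) (j := q) H.1 (by omega)
      rw [ex, kmk_of_le _ hpq, Kbar, tk, tk, kmk_of_le _ hpq, kmk_of_le _ b1.le, if_neg (by omega),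
        one_mul, pw, mul_comm, ← ENNReal.ofReal_mul H.2.1.le]
      exact ENNReal.ofReal_le_ofReal (K_le_Green h0 u0.le H (by omega) b2)
  rw [← klo_add_khi (2 * k + 1) (Kbar K k), kst_add]
  refine (c1 _ _ (mul_le_mul_left (kst_mono (mul_le_mul_right e _)) _)).trans ?_
  rw [c2]
  refine kst_le_tk ?_ j1 f1
  rw [← tk_mul]; exact mul_le_mul_left j1 _

end Pool.Agent.MP_c26281_pr.SA

end

section

open MeasureTheory ProbabilityTheory Finset Filter Topology
open scoped ENNReal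

namespace Pool.Agent.MP_c26281_pr.SA

theorem pHC (hC : SCG) (hA : SAdcg) : SHC := by
  intro μ _ K k κ lam h hk hK hκ
  have hk0 : (0 : ℝ) < k := Nat.cast_pos.2 hk
  have a1 : Ad (fld μ 1) (Kp K k lam h) := Ad.kmk fun p q _ => by
    split_ifs
    · exact ((XX_meas μ lam h p q).const_add _).const_mul _
    · exact measurable_const
  refine ⟨⟨(hA μ k κ lam h hk).1 _ a1.kst, fun r φ hr hrk hM hφ n => ?_⟩, fun a α => ⟨fun z =>
    Ad.kmk fun p q _ => ?_, fun t r ht hM z n => iSup_le fun p => ?_⟩⟩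
  · have a2 : Nk (PP μ) 1 (Kp K k lam h) ≤ Kbar K k := le_tk.2 fun p n => by
      have hK2 : 0 ≤ K n / 2 := by linarith [hK n]
      simp only [Nk, Kp, kmk_add, ENNReal.rpow_one, Nat.add_sub_cancel_left]
      split_ifs
      · have m := (fld μ 1).meas (XX_meas μ lam h p (p + n))
        have p1 := hM p (p + n)
        simp only [ENNReal.rpow_one, Nat.add_sub_cancel_left] at p1
        rw [lintegral_const_mul _ (m.const_add _), lintegral_add_left measurable_const,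
          lintegral_const, measure_univ, mul_one]
        refine (mul_le_mul_right (add_le_add_right p1 _) _).trans ?_
        rw [← ENNReal.ofReal_one, ← ENNReal.ofReal_add zero_le_one (Real.exp_pos _).le,
          ← ENNReal.ofReal_mul hK2]
        refine ENNReal.ofReal_le_ofReal ?_
        have p2 : Real.exp (r * n) ≤ Real.exp (n / k) := by
          refine Real.exp_le_exp.2 ?_
          rw [le_div_iff₀ hk0, mul_right_comm]
          exact mul_le_of_le_one_left (Nat.cast_nonneg n) hrk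
        have p3 : 1 ≤ Real.exp (n / k) := Real.one_le_exp (by positivity)
        nlinarith
      · simp
    refine iSup_le fun p => ((hA μ k κ lam h hk).2 1 r _ one_pos le_rfl hr hM hκ a1.kst p
      (p + n)).trans (mul_le_mul_right ?_ _)
    simp only [ENNReal.rpow_one]
    exact le_tk.1 (((hC k hk _ _).1 _ _ ((Nk_kst one_pos le_rfl a1).trans (kst_mono a2))).trans hφ)
      p n
  · split_ifs
    · exact ((XX_meas μ lam h _ _).mono (fld_scale μ hk p q) le_rfl).const_mul _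
    · exact measurable_const
  · simp only [Nk, CU, kmk_add, Nat.add_sub_cancel_left]
    split_ifs with e
    · subst e
      simp only [ENNReal.mul_rpow_of_nonneg _ _ ht.le]
      rw [lintegral_const_mul _ (((fld μ 1).meas (XX_meas μ lam h _ _)).pow_const t)]
      refine mul_le_mul_right ((hM _ _).trans_eq ?_) _
      rw [add_mul, Nat.add_sub_cancel_left]
      push_cast
      ring_nf
    · simp [ht]

end Pool.Agent.MP_c26281_pr.SA

end

section

open MeasureTheory ProbabilityTheory Finset Filter Topology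
open scoped ENNReal

namespace Pool.Agent.MP_c26281_pr.SA

theorem split_ZcU (K : ℕ → ℝ) (k : ℕ) (lam h : ℝ) (x : ℕ → ℝ) :
    Kall K lam h x = Kp K k lam h x + Kn K k lam h x := by
  ext i j hij
  rw [k_add, Kall, Kp, Kn, kmk_of_le _ hij, kmk_of_le _ hij, kmk_of_le _ hij]
  split_ifs
  · rw [add_zero]
  · rw [add_zero, mul_add]

theorem long_ZcU {K : ℕ → ℝ} {k : ℕ} {α u a κ : ℝ} (lam h : ℝ) (x : ℕ → ℝ) (hα : 0 < α)
    (hu : 0 ≤ u) (hK : KA K α u κ k) (ha : α / 2 * (1 + u) ≤ a) :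
    Kn K k lam h x ≤
      ex k (ll k lam h x) (rr k κ lam h x) (gsum fun z => CU a α k lam h z x) := by
  obtain ⟨hk, hκ, -, -, -, hb, -⟩ := hK
  refine le_of_le fun i j hij => ?_
  rw [Kn, ex, kmk_of_le _ hij, kmk_of_le _ hij]
  split_ifs with h1
  · exact zero_le
  have a1 := Nat.div_mul_le_self i k
  have a2 := Nat.div_mul_le_self j k
  have a3 := Nat.lt_div_mul_add (a := i) hk
  have a4 := Nat.lt_div_mul_add (a := j) hk
  have a5 : i / k + 1 < j / k := by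
    refine lt_of_mul_lt_mul_right (a := k) ?_ (Nat.zero_le _)
    rw [add_one_mul]
    omega
  obtain ⟨n, hn⟩ := Nat.exists_eq_add_of_lt a5
  have a6 : j / k * k = (i / k + 1) * k + (n + 1) * k := by rw [hn]; ring
  have a7 : (i / k + 1) * k = i / k * k + k := add_one_mul _ _
  have b1 := le_def.1 (le_gsum (fun z => CU a α k lam h z x) (n + 1)) (i / k + 1) (j / k)
  rw [CU, kmk_of_le _ a5.le, if_pos (by omega)] at b1
  refine le_trans ?_ (mul_le_mul_left (mul_le_mul_right b1 _) _)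
  have b2 : ENNReal.ofReal (K (j - i) / 2) ≤ ENNReal.ofReal κ * pw a α (n + 1) := by
    rw [pw, ← ENNReal.ofReal_mul hκ.le]
    refine ENNReal.ofReal_le_ofReal ?_
    have c0 : (0 : ℝ) < (n + 1 : ℕ) := by positivity
    have c1 : (0 : ℝ) < (j - i : ℕ) := by exact_mod_cast (by omega : 0 < j - i)
    have c2 : ((k : ℝ) / (j - i : ℕ)) ≤ ((n + 1 : ℕ) : ℝ)⁻¹ := by
      rw [div_le_iff₀ c1, le_inv_mul_iff₀ c0]
      exact_mod_cast (by omega : (n + 1) * k ≤ j - i)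
    have c3 := Real.rpow_le_rpow (by positivity) c2 (by linarith : 0 ≤ 1 + α)
    rw [Real.inv_rpow c0.le, ← Real.rpow_neg c0.le] at c3
    have c4 := (hb (j - i) (by omega)).2
    have c5 : 0 ≤ ((n + 1 : ℕ) : ℝ) ^ (-(1 + α)) := by positivity
    have c6 := mul_le_mul_of_nonneg_left c3 (by positivity : 0 ≤ κ * α * (1 + u))
    have c7 := mul_le_mul_of_nonneg_left (mul_le_mul_of_nonneg_right ha c5) hκ.le
    linarith
  rw [← XX_mul lam h x (by omega : i ≤ (i / k + 1) * k) (by omega : (i / k + 1) * k ≤ j),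
    ← XX_mul lam h x (by omega : (i / k + 1) * k ≤ j / k * k) a2, ll, rr]
  exact (mul_le_mul_left b2 _).trans (le_of_eq (by ring))

theorem dom_ZcU (hC : SCG) {K : ℕ → ℝ} {k : ℕ} {α u a κ : ℝ} (lam h : ℝ) (x : ℕ → ℝ)
    (hα : 0 < α) (hu : 0 ≤ u) (hK : KA K α u κ k) (ha : α / 2 * (1 + u) ≤ a) (j : ℕ) :
    ENNReal.ofReal κ * (Zk K lam h x 0 j * XX lam h x j ((j / k + 1) * k)) ≤
      WW (HU K k κ lam h x) (fun z => CU a α k lam h z x) 0 (j / k + 1) := by
  have hk := hK.1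
  obtain ⟨c1, c2⟩ := hC k hk (ll k lam h x) (rr k κ lam h x)
  have b1 := long_ZcU lam h x hα hu hK ha
  have b2 : cg k (ll k lam h x) (rr k κ lam h x) (Zk K lam h x) ≤
      WW (HU K k κ lam h x) fun z => CU a α k lam h z x := by
    rw [WW, ← kst_shift, HU, ← c2, Zk, split_ZcU K k, kst_add]
    exact c1 _ _ (mul_le_mul_left (kst_mono (mul_le_mul_right b1 _)) _)
  refine le_trans ?_ (le_def.1 b2 0 _)
  rw [cg, kmk_of_le _ (Nat.zero_le _), if_pos (Nat.succ_pos _), Nat.add_sub_cancel]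
  refine le_trans ?_ (single_le_sum (f := fun z => ∑ w ∈ blk k (j / k),
    rr k κ lam h x z * Zk K lam h x z w * ll k lam h x w) (fun _ _ => zero_le)
    (a := 0) (by simp only [blk, mem_Ico]; omega))
  refine le_trans ?_ (single_le_sum (f := fun w =>
    rr k κ lam h x 0 * Zk K lam h x 0 w * ll k lam h x w) (fun _ _ => zero_le) (a := j) ?_)
  · simp only [rr, ll, Nat.zero_div, zero_mul, XX_self, mul_one, mul_assoc, le_refl]
  · rw [blk, mem_Ico, add_one_mul]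
    exact ⟨Nat.div_mul_le_self j k, Nat.lt_div_mul_add hk⟩

theorem pZcU (hC : SCG) : SZcU := by
  intro μ _ hμ K k α u a κ lam h t D hα hu hK ha t0 t1 hD hW
  have hk := hK.1
  have hκ := hK.2.1
  obtain ⟨m, hm⟩ : ∃ m, m = Real.exp (-2 * lam * t * h) * ∫ y, Real.exp (-2 * lam * t * y) ∂μ :=
    ⟨_, rfl⟩
  have m0 : 0 < m := hm ▸ mul_pos (Real.exp_pos _) (integral_exp_pos (hμ.2.2 _))
  have m1 : 0 < min 1 m := lt_min one_pos m0
  obtain ⟨c, hc⟩ : ∃ c, c = ENNReal.ofReal κ ^ t * ENNReal.ofReal (min 1 m ^ k) := ⟨_, rfl⟩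
  have c0 : c ≠ 0 := hc ▸ mul_ne_zero
    (ENNReal.rpow_pos (ENNReal.ofReal_pos.2 hκ) ENNReal.ofReal_ne_top).ne'
    (ENNReal.ofReal_pos.2 (pow_pos m1 k)).ne'
  have c1 : c ≠ ⊤ := hc ▸ ENNReal.mul_ne_top
    (ENNReal.rpow_ne_top_of_nonneg t0.le ENNReal.ofReal_ne_top) ENNReal.ofReal_ne_top
  have hZ : Ad (fld μ 1) (Zk K lam h) := Ad.kst (Ad.kmk fun p q _ =>
    ((XX_meas μ lam h p q).const_add 1).const_mul _)
  refine ⟨c⁻¹ * (D * 3), ENNReal.mul_ne_top (ENNReal.inv_ne_top.2 c0)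
    (ENNReal.mul_ne_top hD ENNReal.ofNat_ne_top), fun j => ?_⟩
  rw [zero_add, mul_assoc, ← ENNReal.mul_le_iff_le_inv c0 c1]
  have a1 := Nat.div_mul_le_self j k
  have a2 : (j / k + 1) * k = j / k * k + k := add_one_mul _ _
  have e1 : ENNReal.ofReal (min 1 m ^ k) ≤
      ∫⁻ x, XX lam h x j ((j / k + 1) * k) ^ t ∂(PP μ) := by
    rw [XX_real hμ, ← hm]
    exact ENNReal.ofReal_le_ofReal ((pow_le_pow_of_le_one m1.le (min_le_left _ _) (by omega)).trans
      (pow_le_pow_left₀ m1.le (min_le_right _ _) _))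
  have f1 := (hZ 0 j).pow_const t
  have f2 := (XX_meas μ lam h j ((j / k + 1) * k)).pow_const t
  calc c * ∫⁻ x, Zk K lam h x 0 j ^ t ∂(PP μ)
      ≤ ENNReal.ofReal κ ^ t * ((∫⁻ x, Zk K lam h x 0 j ^ t ∂(PP μ)) *
        ∫⁻ x, XX lam h x j ((j / k + 1) * k) ^ t ∂(PP μ)) := by
        rw [hc, mul_assoc, mul_comm (ENNReal.ofReal (min 1 m ^ k))]
        gcongr
    _ = ∫⁻ x, (ENNReal.ofReal κ * (Zk K lam h x 0 j * XX lam h x j ((j / k + 1) * k))) ^ t
        ∂(PP μ) := by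
        simp only [ENNReal.mul_rpow_of_nonneg _ _ t0.le]
        rw [← (fld μ 1).mul Set.Ico_disjoint_Ico_same f1 f2]
        exact (lintegral_const_mul _ (((fld μ 1).meas f1).mul ((fld μ 1).meas f2))).symm
    _ ≤ Nk (PP μ) t (fun x => WW (HU K k κ lam h x) fun z => CU a α k lam h z x) 0
        (0 + (j / k + 1)) := by
        rw [Nk, kmk_add, zero_add]
        exact lintegral_mono fun x =>
          ENNReal.rpow_le_rpow (dom_ZcU hC lam h x hα hu hK ha j) t0.le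
    _ ≤ Wt (PP μ) t (j / k + 1 + 1) (HU K k κ lam h) (CU a α k lam h) :=
        (le_tk.1 (le_tk_sq _) 0 _).trans (single_le_sum (f := Nm (PP μ) t
          fun x => WW (HU K k κ lam h x) fun z => CU a α k lam h z x) (fun _ _ => zero_le)
          (self_mem_range_succ _))
    _ ≤ D * 3 * (j + 1) := by
        refine (hW _).trans ?_
        rw [mul_assoc]
        have := Nat.div_le_self j k
        exact mul_le_mul_right (by exact_mod_cast (by omega : j / k + 1 + 1 + 1 ≤ 3 * (j + 1))) _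

end Pool.Agent.MP_c26281_pr.SA

end

section

open MeasureTheory ProbabilityTheory Finset Filter Topology
open scoped ENNReal

namespace Pool.Agent.MP_c26281_pr.SA

theorem mono_Up {μ : Measure ℝ} {lam h t r r' : ℝ} (H : Mo μ lam h t r) (hr : r ≤ r') :
    Mo μ lam h t r' := fun i j =>
  (H i j).trans (ENNReal.ofReal_le_ofReal (Real.exp_le_exp.2
    (mul_le_mul_of_nonneg_right hr (Nat.cast_nonneg _))))

theorem scale_Up {b e lam : ℝ} {k0 : ℕ} (hb : 0 < b) (e1 : e ≤ 1) (h0 : 0 < lam)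
    (h1 : lam < Real.sqrt (e * b / (2 * (k0 + 1)))) :
    ∃ k : ℕ, k0 ≤ k ∧ b * (1 - e) ≤ 2 * (lam ^ 2 * k) ∧ 2 * (lam ^ 2 * k) ≤ b := by
  have a0 : 0 < 2 * lam ^ 2 := by positivity
  have a1 : lam ^ 2 * (2 * (k0 + 1)) < e * b := by
    rw [← lt_div_iff₀ (by positivity)]
    exact (Real.lt_sqrt h0.le).1 h1
  have a2 : (0 : ℝ) ≤ k0 := Nat.cast_nonneg _
  have a3 : e * b ≤ b := mul_le_of_le_one_left hb.le e1
  have a4 : 0 ≤ lam ^ 2 * k0 := by positivity
  refine ⟨⌊b / (2 * lam ^ 2)⌋₊, Nat.le_floor ?_, ?_, ?_⟩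
  · rw [le_div_iff₀ a0]
    nlinarith
  · have := Nat.lt_floor_add_one (b / (2 * lam ^ 2))
    rw [div_lt_iff₀ a0] at this
    nlinarith
  · have := Nat.floor_le (show 0 ≤ b / (2 * lam ^ 2) by positivity)
    rw [le_div_iff₀ a0] at this
    linarith

theorem pUp (hMg : SMg) (hKA : SKA) (hB : SBridge) (hF : SFree) (hA : SAbsU) (hG : SGreen)
    (hH : SHC) (hZ : SZcU) (hP : SParM) : SUp := by
  suffices H : ∀ ε : ℝ, 0 < ε → ε ≤ 1 → ∃ a0 > 0, ∀ α : ℝ, 0 < α → α < a0 →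
      ∀ (K : ℕ → ℝ) (c : ℝ), KH K α c →
      ∀ (ν : Measure (ℕ × Bool)) [IsProbabilityMeasure ν], (∀ m s, ν.real {(m, s)} = K m / 2) →
      ∀ (μ : Measure ℝ) [IsProbabilityMeasure μ], Ch μ → ∃ lam0 > 0, ∀ lam : ℝ, 0 < lam →
      lam < lam0 → ∀ h : ℝ, (1 / (1 + α) + (2 + ε) * α ^ 2) * lam ≤ h →
      Tendsto (fun N : ℕ => (1 / (N : ℝ)) * ∫ ω, Real.log (Z ν lam h N ω) ∂(PP μ)) atTop (𝓝 0) by
    intro ε hε
    obtain ⟨a0, h0, h1⟩ := H (min ε 1) (lt_min hε one_pos) (min_le_right _ _)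
    refine ⟨a0, h0, fun α a1 a2 K c hK ν _ hν μ _ hμ => ?_⟩
    obtain ⟨l0, h2, h3⟩ := h1 α a1 a2 K c hK ν hν μ hμ
    refine ⟨l0, h2, fun lam b1 b2 h b3 => h3 lam b1 b2 h (le_trans ?_ b3)⟩
    have := min_le_left ε 1
    gcongr
  intro ε e0 e1
  obtain ⟨η, η0, η1, hA⟩ := hA (ε / 4) (by positivity)
  obtain ⟨u, B1, a1, u0, u1, u2, a10, hG⟩ := hG (η / 3) (by positivity)
  obtain ⟨a2, a20, hA⟩ := hA B1
  obtain ⟨a3, a30, hKA⟩ := hKA u u0 (by linarith)
  refine ⟨min (min a1 (min a2 a3)) (min (ε / 20) (η / 12)), by positivity,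
    fun α α0 hα K c hK ν _ hν μ _ hμ => ?_⟩
  simp only [lt_min_iff] at hα
  obtain ⟨⟨ha1, ha2, ha3⟩, ha4, ha5⟩ := hα
  obtain ⟨t0, t00, hM⟩ := hMg μ hμ (ε * α ^ 2 / 20) (by positivity)
  obtain ⟨k0, hk0⟩ := hKA α α0 ha3 K c hK
  have l2 : 0 < Real.log 2 := Real.log_pos one_lt_two
  have l3 : Real.log 2 ≤ 1 := by have := Real.log_two_lt_d9; linarith
  refine ⟨min (t0 / 2) (Real.sqrt (ε / 20 * Real.log 2 / (2 * (k0 + 1)))), by positivity,
    fun lam l0 hl h hh => ?_⟩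
  simp only [lt_min_iff] at hl
  obtain ⟨k, k1, k2, k3⟩ := scale_Up l2 (by linarith) l0 hl.2
  obtain ⟨κ, hκ⟩ := hk0 k k1
  have kk : (0 : ℝ) < k := Nat.cast_pos.2 hκ.1
  obtain ⟨p1, p2⟩ := hP ε α (lam ^ 2 * k) (h / lam) e0 e1 α0 ha4.le k2 k3
    ((le_div_iff₀ l0).2 hh)
  have th0 : 0 < 1 / (1 + α) := by positivity
  have th1 : 1 / (1 + α) ≤ 1 := by
    rw [div_le_one (by positivity)]
    linarith
  have d0 : 0 ≤ 2 * α ^ 2 * Real.log 2 * (1 + ε / 4) := by positivity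
  have hA := hA α α0 ha2 _ le_rfl
  generalize 2 * α ^ 2 * Real.log 2 * (1 + ε / 4) = d at *
  have hl2 : lam ^ 2 * k * (h / lam) = lam * h * k := by field_simp
  have mo1 : Mo μ lam h (1 / (1 + α)) (-d / k) := mono_Up (fun i j => XX_up hμ hM (by
      rw [abs_of_nonneg (by positivity)]
      have := mul_le_of_le_one_right (show 0 ≤ 2 * lam by positivity) th1
      linarith) h i j) (by
    rw [le_div_iff₀ kk]
    generalize 1 / (1 + α) = t at p1 ⊢
    have : 2 * (lam ^ 2 * k) * t * (h / lam) = 2 * t * (lam * h * k) := by rw [← hl2]; ring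
    linarith)
  have mo2 : Mo μ lam h 1 ((α * Real.log 2 - d) / k) := mono_Up (fun i j => XX_up hμ hM (by
      rw [abs_of_nonneg (by positivity)]
      linarith) h i j) (by
    rw [le_div_iff₀ kk]
    linarith)
  have mo3 : Mo μ lam h (1 / (1 + α)) 0 :=
    mono_Up mo1 (div_nonpos_of_nonpos_of_nonneg (by linarith) kk.le)
  have mo4 : Mo μ lam h 1 (α / k) := mono_Up mo2 (by
    have := mul_le_of_le_one_right α0.le l3
    gcongr
    linarith)
  obtain ⟨φ, f1, f2, f3⟩ := hG α α0 ha1 K κ k hκ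
  obtain ⟨⟨c1, c2⟩, c3⟩ := hH μ K k κ lam h hκ.1 hK.1 hκ.2.1.le
  obtain ⟨c3, c4⟩ := c3 (α / 2 * (1 + η)) α
  have ek : α / k * k = α := div_mul_cancel₀ _ kk.ne'
  have ex : Real.exp (2 * (α / k) * k) ≤ 1 + η / 3 := by
    rw [mul_assoc, ek]
    have h1 := Real.abs_exp_sub_one_le (x := 2 * α) (by
      rw [abs_of_nonneg (by positivity)]; linarith)
    rw [abs_of_nonneg (show 0 ≤ 2 * α by positivity)] at h1
    have := (abs_le.1 h1).2
    linarith
  have c5 : ∀ n, Nm (PP μ) 1 (HU K k κ lam h) n ≤ ENNReal.ofReal (1 + η / 3) * φ n := fun n =>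
    (c2 _ φ (by positivity) (by rw [ek]; linarith) mo4 f1 n).trans
      (mul_le_mul_left (ENNReal.ofReal_le_ofReal ex) _)
  obtain ⟨D, D1, D2⟩ := hA _ (PP μ) (fld μ k) _ _ c1 c3
    (fun n hn => (c5 n).trans ((mul_le_mul_right (f3 n hn) _).trans (by
      unfold pw
      rw [← ENNReal.ofReal_mul (by positivity), ← mul_assoc]
      refine ENNReal.ofReal_le_ofReal (mul_le_mul_of_nonneg_right ?_ (by positivity))
      have : (1 + η / 3) * (1 + η / 3) ≤ 1 + η := by nlinarith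
      nlinarith)))
    (by
      refine (ENNReal.tsum_le_tsum c5).trans ?_
      rw [ENNReal.tsum_mul_left]
      refine (mul_le_mul_right f2 _).trans ?_
      rw [← ENNReal.ofReal_mul (by positivity), ← ENNReal.ofReal_ofNat 3]
      exact ENNReal.ofReal_le_ofReal (by linarith))
    (fun z n => (c4 1 _ one_pos mo2 z n).trans (le_of_eq (by
      rw [ENNReal.rpow_one, div_mul_cancel₀ _ kk.ne', Real.rpow_def_of_pos two_pos, ← Real.exp_add]
      congr 4
      ring)))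
    (fun z n => (c4 _ _ th0 mo1 z n).trans (le_of_eq (by
      rw [div_mul_cancel₀ _ kk.ne', neg_mul])))
  obtain ⟨D', E1, E2⟩ := hZ μ hμ K k α u _ κ lam h _ D α0 u0.le hκ
    (show α / 2 * (1 + u) ≤ α / 2 * (1 + η) by gcongr; linarith) th0 th1 D1 D2
  exact hF K α c α0 hK ν hν μ hμ lam h _ D' th0 th1 E1 mo3 fun j => by
    rw [← hB K lam h hK.1 hK.2.1 μ _ 0 j]
    exact E2 j

end Pool.Agent.MP_c26281_pr.SA

end

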