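import Pool.Agent.MP_c26281_pr.SA.Old

section

/-! The initial data of the growth argument. -/

open MeasureTheory ProbabilityTheory Finset Filter Topology
open scoped ENNReal

namespace Pool.Agent.MP_c26281_pr.SA

theorem bet_Init (hN : SNu) {κ s : ℝ} (hκ : 0 ≤ κ) (hs : 0 < s) (T : Finset ℕ) :
    ∑ j ∈ T, bet κ (s ^ 4) j ≤ 5 * κ * s ^ 3 := by
  have h1 := (hN (κ * s ^ 4) (s ^ 4) (by positivity) (by positivity)).2
  have e : (s ^ 4) ^ (-(1 / 4 : ℝ)) = s⁻¹ := by
    rw [← Real.rpow_natCast, ← Real.rpow_mul hs.le, ← Real.rpow_neg_one]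
    norm_num
  have e2 : 5 * (κ * s ^ 4) * s⁻¹ = 5 * κ * s ^ 3 := by field_simp
  rw [e, e2] at h1
  rw [← ENNReal.ofReal_le_ofReal_iff (by positivity),
    ENNReal.ofReal_sum_of_nonneg fun j _ => by unfold bet; positivity]
  refine le_trans ?_ h1
  refine le_trans ?_ (ENNReal.tsum_comp_le_tsum_of_injective (add_left_injective 1) _)
  refine le_trans (le_of_eq (sum_congr rfl fun j _ => ?_)) (ENNReal.sum_le_tsum T)
  simp [nu, bet]

theorem geo_Init {τ : ℝ} (N : ℕ) : (1 - 3 * τ) * (1 - Real.exp (-τ) ^ N) * 1 ≤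
    τ * ∑ j ∈ Icc 2 (N + 1), Real.exp (-(τ * (j + 1))) ∨ τ < 0 := by
  rcases lt_or_ge τ 0 with h | h
  · exact Or.inr h
  left
  have e : ∑ j ∈ Icc 2 (N + 1), Real.exp (-(τ * (j + 1))) =
      Real.exp (-(3 * τ)) * ∑ i ∈ range N, Real.exp (-τ) ^ i := by
    rw [← Finset.Ico_add_one_right_eq_Icc, sum_Ico_eq_sum_range, mul_sum,
      show N + 1 + 1 - 2 = N by omega]
    refine sum_congr rfl fun i _ => ?_
    rw [← Real.exp_nat_mul, ← Real.exp_add]
    congr 1
    push_cast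
    ring
  have h1 := mul_neg_geom_sum (Real.exp (-τ)) N
  have h2 : 0 ≤ ∑ i ∈ range N, Real.exp (-τ) ^ i := sum_nonneg fun _ _ => by positivity
  have h3 : 1 - Real.exp (-τ) ≤ τ := by linarith [Real.add_one_le_exp (-τ)]
  have h4 : 1 - 3 * τ ≤ Real.exp (-(3 * τ)) := by linarith [Real.add_one_le_exp (-(3 * τ))]
  have h5 : 0 ≤ 1 - Real.exp (-τ) ^ N :=
    sub_nonneg.mpr (pow_le_one₀ (Real.exp_pos _).le (Real.exp_le_one_iff.mpr (by linarith)))
  have h6 : 1 - Real.exp (-τ) ^ N ≤ τ * ∑ i ∈ range N, Real.exp (-τ) ^ i := by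
    rw [← h1]
    exact mul_le_mul_of_nonneg_right h3 h2
  rw [e, mul_one, mul_left_comm]
  exact mul_le_mul h4 h6 h5 (Real.exp_pos _).le

theorem pInit (hN : SNu) : SInit := by
  intro κ hκ
  have hκ0 : 0 < κ := by linarith
  obtain ⟨ζ, hζ⟩ : ∃ ζ, ζ = (2 * κ - 1) / (4 * κ) := ⟨_, rfl⟩
  have z0 : 0 < ζ := by rw [hζ]; exact div_pos (by linarith) (by positivity)
  have z1 : 4 * κ * ζ = 2 * κ - 1 := by rw [hζ]; field_simp
  have z2 : ζ ≤ 1 := by nlinarith
  obtain ⟨s, s0, s1, s2⟩ : ∃ s : ℝ, 0 < s ∧ s ≤ 1 ∧ s ≤ ζ / 30 :=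
    ⟨ζ / 30, by positivity, by linarith, le_rfl⟩
  have s3 : s ^ 3 ≤ s := pow_le_of_le_one s0.le s1 (by norm_num)
  have s4 : s ^ 4 ≤ s := pow_le_of_le_one s0.le s1 (by norm_num)
  have t0 : 0 < s ^ 4 := by positivity
  obtain ⟨N, hN'⟩ := exists_pow_lt_of_lt_one (half_pos z0)
    (Real.exp_lt_one_iff.mpr (neg_lt_zero.mpr t0))
  have hb := bet_Init hN hκ0.le s0 (Icc 2 (N + 1))
  have hb2 : 8 * ∑ j ∈ Icc 2 (N + 1), bet κ (s ^ 4) j ≤ (2 * κ - 1) / 3 := by
    have : κ * s ^ 3 ≤ κ * (ζ / 30) := mul_le_mul_of_nonneg_left (s3.trans s2) hκ0.le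
    linarith
  refine ⟨s ^ 4, (2 * κ - 1) / 3, N + 1, t0, by linarith, ?_, hb2⟩
  have hg := (geo_Init (τ := s ^ 4) N).resolve_right (not_lt.mpr t0.le)
  have e : ∑ j ∈ Icc 2 (N + 1), ((j : ℝ) - 1) * bet κ (s ^ 4) j =
      κ * (s ^ 4 * ∑ j ∈ Icc 2 (N + 1), Real.exp (-(s ^ 4 * (j + 1)))) -
        2 * ∑ j ∈ Icc 2 (N + 1), bet κ (s ^ 4) j := by
    rw [mul_sum, mul_sum, mul_sum, ← sum_sub_distrib]
    refine sum_congr rfl fun j _ => ?_
    unfold bet
    field_simp
    ring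
  have h7 : (1 - ζ / 2) * (1 - ζ / 2) ≤ (1 - 3 * s ^ 4) * (1 - Real.exp (-s ^ 4) ^ N) :=
    mul_le_mul (by linarith) (by linarith) (by linarith) (by linarith)
  have h8 : 1 - ζ ≤ s ^ 4 * ∑ j ∈ Icc 2 (N + 1), Real.exp (-(s ^ 4 * (j + 1))) := by
    nlinarith [sq_nonneg ζ]
  have h9 := mul_le_mul_of_nonneg_left h8 hκ0.le
  rw [e]
  linarith

end Pool.Agent.MP_c26281_pr.SA

end

section

open MeasureTheory ProbabilityTheory Finset Filter Topology
open scoped ENNReal

namespace Pool.Agent.MP_c26281_pr.SA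

noncomputable def ap_Grow (f : ℕ → ℝ) : Polynomial ℝ →ₗ[ℝ] ℝ :=
  Polynomial.lsum (fun n => LinearMap.mulRight ℝ (f n))

theorem ap_eq_Grow (f : ℕ → ℝ) (p : Polynomial ℝ) :
    ap_Grow f p = ∑ n ∈ p.support, p.coeff n * f n := by
  simp [ap_Grow, Polynomial.lsum_apply, Polynomial.sum_def]

theorem ap_mon_Grow (f : ℕ → ℝ) (n : ℕ) (a : ℝ) :
    ap_Grow f (Polynomial.monomial n a) = a * f n := by
  simp [ap_Grow, Polynomial.lsum_apply, Polynomial.sum_monomial_index]

theorem ap_mul_Grow (f : ℕ → ℝ) (p q : Polynomial ℝ) :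
    ap_Grow f (p * q) = ap_Grow (fun a => ap_Grow (fun b => f (a + b)) q) p := by
  rw [Polynomial.mul_eq_sum_sum, map_sum, ap_eq_Grow _ p]
  refine Finset.sum_congr rfl fun a _ => ?_
  rw [Polynomial.sum_def, map_sum, ap_eq_Grow, Finset.mul_sum]
  refine Finset.sum_congr rfl fun b _ => ?_
  rw [ap_mon_Grow, mul_assoc]

theorem ap_le_Grow {f g : ℕ → ℝ} {p : Polynomial ℝ} (hp : ∀ n, 0 ≤ p.coeff n)
    (h : ∀ n ∈ p.support, f n ≤ g n) : ap_Grow f p ≤ ap_Grow g p := by
  rw [ap_eq_Grow, ap_eq_Grow]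
  exact Finset.sum_le_sum fun n hn => mul_le_mul_of_nonneg_left (h n hn) (hp n)

theorem ap_lin_Grow (f g : ℕ → ℝ) (a b : ℝ) (p : Polynomial ℝ) :
    ap_Grow (fun n => a * f n + b * g n) p = a * ap_Grow f p + b * ap_Grow g p := by
  simp only [ap_eq_Grow, Finset.mul_sum, ← Finset.sum_add_distrib]
  exact Finset.sum_congr rfl fun n _ => by ring

theorem ap_div_Grow (g : ℕ → ℝ) (hg : g 0 = 0) (q : Polynomial ℝ) :
    ap_Grow (fun n => g (n + 1)) q.divX = ap_Grow g q := by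
  conv_rhs => rw [← Polynomial.divX_mul_X_add q]
  rw [map_add, ← Polynomial.monomial_zero_left, ap_mon_Grow, hg, mul_zero, add_zero, ap_mul_Grow]
  congr 2
  ext a
  rw [← Polynomial.monomial_one_one_eq_X, ap_mon_Grow, one_mul]

noncomputable def TT_Grow (p : Polynomial ℝ) (s : ℕ) : ℝ :=
  ap_Grow (fun n => if s ≤ n then 1 else 0) p

noncomputable def RR_Grow (p : Polynomial ℝ) (s : ℕ) : ℝ :=
  ap_Grow (fun n => ((n - s : ℕ) : ℝ)) p

theorem TT_zero_Grow (p : Polynomial ℝ) : TT_Grow p 0 = p.eval 1 := by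
  simp [TT_Grow, ap_eq_Grow, Polynomial.eval_eq_sum, Polynomial.sum_def]

theorem RR_zero_Grow (p : Polynomial ℝ) : RR_Grow p 0 = p.derivative.eval 1 := by
  simp [RR_Grow, ap_eq_Grow, Polynomial.derivative_eval, Polynomial.sum_def]

theorem TT_nonneg_Grow {p : Polynomial ℝ} (hp : ∀ n, 0 ≤ p.coeff n) (s : ℕ) :
    0 ≤ TT_Grow p s := by
  rw [TT_Grow, ap_eq_Grow]
  exact Finset.sum_nonneg fun n _ => mul_nonneg (hp n) (by split_ifs <;> norm_num)

theorem sq_nonneg_Grow {p : Polynomial ℝ} (hp : ∀ n, 0 ≤ p.coeff n) (n : ℕ) :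
    0 ≤ (p * p).coeff n := by
  rw [Polynomial.coeff_mul]
  exact Finset.sum_nonneg fun x _ => mul_nonneg (hp _) (hp _)

theorem inner_Grow (p : Polynomial ℝ) (a s : ℕ) :
    ap_Grow (fun b => ((a + b - s : ℕ) : ℝ)) p =
      RR_Grow p (s - a) + ((a - s : ℕ) : ℝ) * p.eval 1 := by
  have := ap_lin_Grow (fun b => ((b - (s - a) : ℕ) : ℝ)) (fun b => if 0 ≤ b then 1 else 0) 1
    ((a - s : ℕ) : ℝ) p
  rw [← TT_zero_Grow, RR_Grow, TT_Grow, ← one_mul (ap_Grow (fun n => ((n - (s - a) : ℕ) : ℝ)) p),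
    ← this]
  congr 2
  ext b
  have h : a + b - s = (b - (s - a)) + (a - s) := by omega
  rw [h]
  simp

theorem RR_sq_Grow {p : Polynomial ℝ} (hp : ∀ n, 0 ≤ p.coeff n) {L : ℝ}
    (hM : ∀ s, RR_Grow p s ≤ L * TT_Grow p s) (s : ℕ) :
    RR_Grow (p * p) s ≤ L * TT_Grow (p * p) s + p.eval 1 * RR_Grow p s := by
  rw [RR_Grow, TT_Grow, ap_mul_Grow, ap_mul_Grow, RR_Grow, ← ap_lin_Grow]
  refine ap_le_Grow hp fun a _ => ?_
  rw [inner_Grow, mul_comm (p.eval 1)]
  refine add_le_add_left ((hM _).trans (le_of_eq ?_)) _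
  rw [TT_Grow]
  congr 3
  ext b
  have h : s - a ≤ b ↔ s ≤ a + b := by omega
  simp only [h]

theorem RR_div_Grow (q : Polynomial ℝ) (s : ℕ) : RR_Grow q.divX s = RR_Grow q (s + 1) := by
  rw [RR_Grow, RR_Grow, ← ap_div_Grow _ (by simp) q]
  congr 2
  ext n
  rw [Nat.add_sub_add_right]

theorem TT_div_Grow (q : Polynomial ℝ) (s : ℕ) : TT_Grow q.divX s = TT_Grow q (s + 1) := by
  rw [TT_Grow, TT_Grow, ← ap_div_Grow _ (by simp) q]
  congr 2
  ext n
  simp only [Nat.add_le_add_iff_right]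

/-- One step. -/
theorem step_Grow {p : Polynomial ℝ} (hp : ∀ n, 0 ≤ p.coeff n) {L : ℝ} (hL : 1 ≤ L)
    (hM : ∀ s, RR_Grow p s ≤ L * TT_Grow p s) :
    (∀ n, 0 ≤ (Rq p).coeff n) ∧
    (∀ s, RR_Grow (Rq p) s ≤ L * (1 + p.eval 1) * TT_Grow (Rq p) s) ∧
    (Rq p).eval 1 ≤ p.eval 1 + p.eval 1 ^ 2 ∧
    (Rq p).derivative.eval 1 + (Rq p).eval 1 = p.derivative.eval 1 * (1 + 2 * p.eval 1) := by
  have hq : ∀ n, 0 ≤ (p + p * p).coeff n := fun n => by
    rw [Polynomial.coeff_add]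
    exact add_nonneg (hp n) (sq_nonneg_Grow hp n)
  have hx : 0 ≤ p.eval 1 := TT_zero_Grow p ▸ TT_nonneg_Grow hp 0
  have e := Polynomial.divX_mul_X_add (p + p * p)
  rw [Rq, pow_two]
  refine ⟨fun n => by rw [Polynomial.coeff_divX]; exact hq _, fun s => ?_, ?_, ?_⟩
  · rw [RR_div_Grow, TT_div_Grow]
    have h1 := RR_sq_Grow hp hM (s + 1)
    have h2 := hM (s + 1)
    have h3 := TT_nonneg_Grow (sq_nonneg_Grow hp) (s + 1)
    have e1 : RR_Grow (p + p * p) (s + 1) = RR_Grow p (s + 1) + RR_Grow (p * p) (s + 1) :=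
      map_add _ _ _
    have e2 : TT_Grow (p + p * p) (s + 1) = TT_Grow p (s + 1) + TT_Grow (p * p) (s + 1) :=
      map_add _ _ _
    rw [e1, e2]
    have h4 := mul_le_mul_of_nonneg_left h2 hx
    have h5 : 0 ≤ L * p.eval 1 * TT_Grow (p * p) (s + 1) := by positivity
    nlinarith
  · have := congrArg (Polynomial.eval 1) e
    simp only [Polynomial.eval_add, Polynomial.eval_mul, Polynomial.eval_X, Polynomial.eval_C,
      mul_one] at this
    have h0 := hq 0
    nlinarith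
  · have := congrArg (fun r => Polynomial.eval 1 (Polynomial.derivative r)) e
    simp only [Polynomial.derivative_add, Polynomial.derivative_mul, Polynomial.derivative_X,
      Polynomial.derivative_C, Polynomial.eval_add, Polynomial.eval_mul, Polynomial.eval_X,
      mul_one, add_zero] at this
    rw [this]
    ring

theorem pGrow : SGrow := by
  intro p c hp hc h1 h2
  by_contra hcon
  push Not at hcon
  set L0 : ℝ := max (p.natDegree : ℝ) 1 with hL0
  have hL1 : 1 ≤ L0 := le_max_right _ _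
  set w : ℝ := c / L0 with hw
  have hw0 : 0 < w := div_pos hc (by linarith)
  have bound : ∀ (q : Polynomial ℝ) (L W : ℝ), (∀ n, 0 ≤ q.coeff n) → 1 ≤ L →
      (∀ s, RR_Grow q s ≤ L * TT_Grow q s) →
      W * L ≤ 2 * (q.derivative.eval 1 + q.eval 1) - 1 → W ≤ 4 * q.eval 1 := by
    intro q L W hq hL hM hW
    have a1 := hM 0
    rw [RR_zero_Grow, TT_zero_Grow] at a1
    have hx : 0 ≤ q.eval 1 := TT_zero_Grow q ▸ TT_nonneg_Grow hq 0
    have a2 : W * L ≤ 4 * q.eval 1 * L := by nlinarith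
    exact le_of_mul_le_mul_right a2 (by linarith)
  have key : ∀ i : ℕ, ∃ L : ℝ, 1 ≤ L ∧ (∀ n, 0 ≤ (Rq^[i] p).coeff n) ∧
      (∀ s, RR_Grow (Rq^[i] p) s ≤ L * TT_Grow (Rq^[i] p) s) ∧
      8 * (Rq^[i] p).eval 1 ≤ 2 * ((Rq^[i] p).derivative.eval 1 + (Rq^[i] p).eval 1) - 1 ∧
      w * (1 + w / 16) ^ i * L ≤
        2 * ((Rq^[i] p).derivative.eval 1 + (Rq^[i] p).eval 1) - 1 := by
    intro i
    induction i with
    | zero =>
      refine ⟨L0, hL1, hp, fun s => ?_, h2.trans h1, ?_⟩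
      · have := ap_lin_Grow (fun n => if s ≤ n then 1 else 0) (fun _ => 0) L0 0 p
        simp only [zero_mul, add_zero] at this
        rw [Function.iterate_zero_apply, RR_Grow, TT_Grow, ← this]
        refine ap_le_Grow hp fun n hn => ?_
        have hn' : (n : ℝ) ≤ L0 :=
          le_trans (by exact_mod_cast Polynomial.le_natDegree_of_mem_supp n hn) (le_max_left _ _)
        split_ifs with h
        · have : ((n - s : ℕ) : ℝ) ≤ n := by exact_mod_cast Nat.sub_le n s
          linarith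
        · rw [Nat.sub_eq_zero_of_le (le_of_not_ge h)]
          simp
      · rw [pow_zero, mul_one, hw, div_mul_cancel₀ _ (by linarith)]
        exact h1
    | succ i ih =>
      obtain ⟨L, a1, a2, a3, a4, a5⟩ := ih
      obtain ⟨b1, b2, b3, b4⟩ := step_Grow a2 a1 a3
      have hb := bound _ L _ a2 a1 a3 a5
      have hx1 := hcon i
      have hx : 0 ≤ (Rq^[i] p).eval 1 := TT_zero_Grow (Rq^[i] p) ▸ TT_nonneg_Grow a2 0
      rw [Function.iterate_succ_apply', b4]
      set x := (Rq^[i] p).eval 1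
      set r := (Rq^[i] p).derivative.eval 1
      have hW : w ≤ w * (1 + w / 16) ^ i :=
        le_mul_of_one_le_right hw0.le (one_le_pow₀ (by linarith))
      set W := w * (1 + w / 16) ^ i with hWd
      refine ⟨L * (1 + x), by nlinarith, b1, b2, by nlinarith, ?_⟩
      have e : w * (1 + w / 16) ^ (i + 1) * (L * (1 + x)) = W * L * ((1 + w / 16) * (1 + x)) := by
        rw [hWd]; ring
      rw [e]
      have c1 : (1 + w / 16) * (1 + x) ≤ 1 + 3 * x / 2 := by nlinarith
      have c2 : W * L * ((1 + w / 16) * (1 + x)) ≤ (2 * (r + x) - 1) * (1 + 3 * x / 2) :=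
        mul_le_mul a5 c1 (by positivity) (by linarith)
      nlinarith
  obtain ⟨i, hi⟩ := pow_unbounded_of_one_lt (4 / w) (show 1 < 1 + w / 16 by linarith)
  obtain ⟨L, a1, a2, a3, -, a5⟩ := key i
  have hb := bound _ L _ a2 a1 a3 a5
  have := hcon i
  rw [div_lt_iff₀ hw0] at hi
  nlinarith

end Pool.Agent.MP_c26281_pr.SA

end

section

open MeasureTheory ProbabilityTheory Finset Filter Topology
open scoped ENNReal

namespace Pool.Agent.MP_c26281_pr.SA

theorem split_Good {α : Type} {l l' m1 m2 : List α} {x : α} (h : l ++ x :: l' = m1 ++ m2) :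
    (∃ e, l = m1 ++ e ∧ m2 = e ++ x :: l') ∨ (∃ e, m1 = l ++ x :: e ∧ l' = e ++ m2) := by
  rcases List.append_eq_append_iff.1 h with ⟨a, h1, h2⟩ | ⟨a, h1, h2⟩
  · cases a with
    | nil => exact Or.inl ⟨[], by simpa using h1.symm, by simpa using h2.symm⟩
    | cons y e =>
      rw [List.cons_append, List.cons.injEq] at h2
      exact Or.inr ⟨e, by rw [h1, h2.1], h2.2⟩
  · exact Or.inl ⟨a, h1, h2⟩

theorem split2_Good {α : Type} {l l' m1 m2 : List α} {x y : α}
    (h : l ++ x :: l' = m1 ++ y :: m2) :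
    (l = m1 ∧ x = y ∧ l' = m2) ∨ (∃ e, l = m1 ++ y :: e) ∨
      (∃ e, m1 = l ++ x :: e ∧ l' = e ++ y :: m2) := by
  rcases split_Good h with ⟨e, h1, h2⟩ | h1
  · cases e with
    | nil =>
      rw [List.nil_append, List.cons.injEq] at h2
      exact Or.inl ⟨by simpa using h1, h2.1.symm, h2.2.symm⟩
    | cons z e =>
      rw [List.cons_append, List.cons.injEq] at h2
      exact Or.inr (Or.inl ⟨e, by rw [h1, h2.1]⟩)
  · exact Or.inr (Or.inr h1)

theorem join_Good (R V ρ : ℕ) (h2 : 2 ≤ ρ) (hR : ρ ≤ R) (c d : ℕ × List (ℕ × ℕ))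
    (hc : Good R V ρ c) (hd : Good R V ρ d) : Good R V ρ (jo ρ c d) := by
  obtain ⟨c1, c2, c3, c4, c5, c6⟩ := hc
  obtain ⟨d1, d2, d3, d4, d5, d6⟩ := hd
  refine ⟨c1, ?_, ?_, ?_, ?_, ?_⟩
  · intro x hx
    rcases List.mem_append.1 hx with h | h
    · exact c2 x h
    · rcases List.mem_cons.1 h with rfl | h
      · exact ⟨h2, hR, d1.1, d1.2⟩
      · exact d2 x h
  · simp only [jo, List.map_append, List.map_cons, List.sum_append, List.sum_cons]
    omega
  · intro l1 r j l2 h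
    rcases split2_Good h with ⟨e1, e2, -⟩ | ⟨e, e1⟩ | ⟨e, e1, e2⟩
    · rw [← e1, ← (Prod.mk.inj e2).1]
      exact c3
    · exact c4 l1 r j e e1
    · have := d4 e r j l2 e2
      rw [e1]
      simp only [jo, List.map_append, List.map_cons, List.sum_append, List.sum_cons]
      omega
  · intro l1 l2 h
    rcases split_Good h with ⟨e, e1, e2⟩ | ⟨e, -, e2⟩
    · have := c5 l1 e e1
      rw [e2]
      simp only [List.map_append, List.map_cons, List.sum_append, List.sum_cons]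
      omega
    · exact d5 e l2 e2
  · intro l0 l r j l2 h
    rcases split2_Good h with ⟨e1, -, -⟩ | ⟨e, e1⟩ | ⟨e, e1, e2⟩
    · have := c5 l0 l e1
      exact ⟨r, List.mem_cons_self, by omega⟩
    · exact c6 l0 l r j e e1
    · rcases split_Good e1.symm with ⟨f, f1, f2⟩ | ⟨f, -, f2⟩
      · have a1 := c5 l0 f f1
        have a2 := d4 e r j l2 e2
        refine ⟨ρ, by simp [f2], ?_⟩
        rw [f2]
        simp only [List.map_append, List.map_cons, List.sum_append, List.sum_cons]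
        omega
      · exact d6 f l r j l2 (by rw [e2, f2])

theorem pGood : SGood := by
  intro R V ρ h2 hR
  refine ⟨join_Good R V ρ h2 hR, ?_, ?_⟩
  · rintro c ⟨c1, c2, c3, c4, c5, c6⟩
    refine ⟨?_, ?_, ?_⟩
    · intro l0 l r j l2 h
      cases l0 with
      | nil =>
        cases l with
        | nil => exact ⟨r, List.mem_cons_self, by simp⟩
        | cons y e =>
          rw [List.nil_append, List.cons_append, List.cons.injEq] at h
          have := c4 e r j l2 h.2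
          refine ⟨ρ, by simp [← h.1], ?_⟩
          rw [← h.1]
          simp only [List.map_cons, List.sum_cons]
          omega
      | cons y l0 =>
        rw [List.cons_append, List.cons_append, List.cons.injEq] at h
        exact c6 l0 l r j l2 h.2
    · intro l1 l2 h
      cases l1 with
      | nil =>
        rw [List.nil_append] at h
        rw [← h]
        simp only [List.map_cons, List.sum_cons]
        omega
      | cons y l1 =>
        rw [List.cons_append, List.cons.injEq] at h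
        exact c5 l1 l2 h.2
    · intro x hx
      rcases List.mem_cons.1 hx with rfl | h
      · exact ⟨h2, hR, c1.1, c1.2⟩
      · exact c2 x h
  · intro a b c d ha hb h
    obtain ⟨e0, e⟩ := Prod.mk.inj h
    rcases split2_Good e with ⟨e1, e2, e3⟩ | ⟨f, e1⟩ | ⟨f, e1, -⟩
    · exact ⟨Prod.ext e0 e1, Prod.ext (Prod.mk.inj e2).2 e3⟩
    · exact absurd rfl (ha (ρ, d.1) (by simp [e1]))
    · exact absurd rfl (hb (ρ, c.1) (by simp [e1]))

end Pool.Agent.MP_c26281_pr.SA

end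

section

open MeasureTheory ProbabilityTheory Finset Filter Topology
open scoped ENNReal

namespace Pool.Agent.MP_c26281_pr.SA

/-- excess of a cluster at level `ρ` -/
def exc_Clu (ρ : ℕ) (c : ℕ × List (ℕ × ℕ)) : ℕ :=
  c.1 + (c.2.map Prod.snd).sum - ((c.2.map Prod.fst).sum + ρ)

/-- weight of a cluster -/
def w_Clu (β : ℕ → ℝ) (c : ℕ × List (ℕ × ℕ)) : ℝ := β c.1 * (c.2.map fun x => β x.2).prod

lemma mono_Clu {R R' V ρ : ℕ} {c : ℕ × List (ℕ × ℕ)} (h : Good R V ρ c) (hR : R ≤ R') :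
    Good R' V ρ c :=
  ⟨h.1, fun x hx => ⟨(h.2.1 x hx).1, (h.2.1 x hx).2.1.trans hR, (h.2.1 x hx).2.2⟩, h.2.2⟩

lemma up_Clu {R V ρ : ℕ} {c : ℕ × List (ℕ × ℕ)} (h : Good R V ρ c) (he : exc_Clu ρ c ≠ 0) :
    Good R V (ρ + 1) c := by
  refine ⟨h.1, h.2.1, ?_, h.2.2.2⟩
  unfold exc_Clu at he
  omega

lemma exc_jo_Clu {R V ρ : ℕ} {c d : ℕ × List (ℕ × ℕ)} (hc : Good R V ρ c) (hd : Good R V ρ d) :
    exc_Clu ρ (jo ρ c d) = exc_Clu ρ c + exc_Clu ρ d := by
  have h1 := hc.2.2.1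
  have h2 := hd.2.2.1
  simp only [exc_Clu, jo, List.map_append, List.sum_append, List.map_cons, List.sum_cons]
  omega

lemma w_jo_Clu (β : ℕ → ℝ) (ρ : ℕ) (c d : ℕ × List (ℕ × ℕ)) :
    w_Clu β (jo ρ c d) = w_Clu β c * w_Clu β d := by
  simp only [w_Clu, jo, List.map_append, List.prod_append, List.map_cons, List.prod_cons]
  ring

lemma divX_Clu (n : ℕ) (a : ℝ) : (Polynomial.monomial n a).divX =
    if n ≠ 0 then Polynomial.monomial (n - 1) a else 0 := by
  ext k
  rw [Polynomial.coeff_divX, Polynomial.coeff_monomial]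
  rcases n with _ | n
  · simp
  · simp [Polynomial.coeff_monomial]

lemma divX_sum_Clu {ι : Type} (S : Finset ι) (f : ι → Polynomial ℝ) :
    (∑ c ∈ S, f c).divX = ∑ c ∈ S, (f c).divX :=
  map_sum Polynomial.divX_hom f S

theorem pClu (hG : SGood) : SClu := by
  intro β V i
  change ∃ S : Finset (ℕ × List (ℕ × ℕ)),
    (∀ c ∈ S, Good (i + 1) V (i + 2) c ∧ c.2.length + 1 ≤ 2 ^ i) ∧
    ∑ c ∈ S, Polynomial.monomial (exc_Clu (i + 2) c) (w_Clu β c) = Rq^[i] (P0 β V)
  induction i with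
  | zero =>
    refine ⟨(Icc 2 V).image fun j => (j, []), fun c hc => ?_, ?_⟩
    · obtain ⟨j, hj, rfl⟩ := mem_image.1 hc
      rw [mem_Icc] at hj
      refine ⟨⟨⟨by omega, hj.2⟩, by simp, by simpa using hj.1, by simp, ?_, ?_⟩, by simp⟩
      · intro l1 l2 h
        obtain ⟨-, rfl⟩ := List.append_eq_nil_iff.1 h.symm
        simp
      · intro l0 l r j l2 h
        simp at h
    · rw [sum_image fun a _ b _ h => (Prod.mk.inj h).1]
      simp [exc_Clu, w_Clu, P0]
  | succ i ih =>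
    obtain ⟨S, hS, hp⟩ := ih
    obtain ⟨g1, -, g3⟩ := hG (i + 2) V (i + 2) (by omega) le_rfl
    have hS' : ∀ c ∈ S, Good (i + 2) V (i + 2) c := fun c hc => mono_Clu (hS c hc).1 (by omega)
    have ne : ∀ c ∈ S, ∀ x ∈ c.2, x.1 ≠ i + 2 := fun c hc x hx => by
      have := ((hS c hc).1.2.1 x hx).2.1
      omega
    have dj : Disjoint S ((S ×ˢ S).image fun x => jo (i + 2) x.1 x.2) := by
      refine disjoint_left.2 fun c hc h2 => ?_
      obtain ⟨x, -, rfl⟩ := mem_image.1 h2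
      exact ne _ hc (i + 2, x.2.1) (by simp [jo]) rfl
    refine ⟨(S ∪ (S ×ˢ S).image fun x => jo (i + 2) x.1 x.2).filter
      fun c => exc_Clu (i + 2) c ≠ 0, fun c hc => ?_, ?_⟩
    · obtain ⟨h1, h2⟩ := mem_filter.1 hc
      rcases mem_union.1 h1 with h3 | h3
      · refine ⟨up_Clu (hS' c h3) h2, ?_⟩
        have := (hS c h3).2
        rw [pow_succ]
        omega
      · obtain ⟨x, hx, rfl⟩ := mem_image.1 h3
        rw [mem_product] at hx
        refine ⟨up_Clu (g1 _ _ (hS' _ hx.1) (hS' _ hx.2)) h2, ?_⟩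
        have a1 := (hS _ hx.1).2
        have a2 := (hS _ hx.2).2
        simp only [jo, List.length_append, List.length_cons, pow_succ]
        omega
    · have e : ∑ c ∈ S ∪ (S ×ˢ S).image fun x => jo (i + 2) x.1 x.2,
          Polynomial.monomial (exc_Clu (i + 2) c) (w_Clu β c) =
            Rq^[i] (P0 β V) + Rq^[i] (P0 β V) ^ 2 := by
        rw [sum_union dj, sum_image fun a ha b hb h => ?_, ← hp, pow_two, sum_mul_sum,
          sum_product]
        · congr 1
          refine sum_congr rfl fun c hc => sum_congr rfl fun d hd => ?_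
          rw [Polynomial.monomial_mul_monomial, exc_jo_Clu (hS' c hc) (hS' d hd), w_jo_Clu]
        · rw [mem_coe, mem_product] at ha hb
          exact Prod.ext_iff.2 (g3 _ _ _ _ (ne _ ha.1) (ne _ hb.1) h)
      rw [Function.iterate_succ_apply', Rq, ← e, divX_sum_Clu, sum_filter]
      refine sum_congr rfl fun c _ => ?_
      rw [divX_Clu]
      congr 2

end Pool.Agent.MP_c26281_pr.SA

end

section

open MeasureTheory ProbabilityTheory Finset Filter Topology
open scoped ENNReal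

namespace Pool.Agent.MP_c26281_pr.SA

/-- weight of a cluster -/
def wt_Comb (β : ℕ → ℝ) (c : ℕ × List (ℕ × ℕ)) : ℝ := β c.1 * (c.2.map fun x => β x.2).prod

theorem wt_jo_Comb (β : ℕ → ℝ) (ρ : ℕ) (c d : ℕ × List (ℕ × ℕ)) :
    wt_Comb β (jo ρ c d) = wt_Comb β c * wt_Comb β d := by
  simp only [wt_Comb, jo, List.map_append, List.map_cons, List.prod_append, List.prod_cons]
  ring

theorem good_mono_Comb (R R' V ρ : ℕ) (h : R ≤ R') (c : ℕ × List (ℕ × ℕ)) (hc : Good R V ρ c) :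
    Good R' V ρ c := by
  obtain ⟨h1, h2, h3⟩ := hc
  refine ⟨h1, fun x hx => ?_, h3⟩
  obtain ⟨a, b, c, d⟩ := h2 x hx
  exact ⟨a, b.trans h, c, d⟩

theorem iter_Comb (hG : SGood) (β : ℕ → ℝ) (V i : ℕ) (S : Finset (ℕ × List (ℕ × ℕ)))
    (hS : ∀ c ∈ S, Good (i + 1) V (i + 2) c ∧ c.2.length + 1 ≤ 2 ^ i) (n : ℕ) :
    ∃ U : Finset (ℕ × List (ℕ × ℕ)), U.card ≤ S.card ^ (n + 1) ∧
      (∀ c ∈ U, Good (i + 2) V (i + 2) c ∧ c.2.length + 1 ≤ 2 ^ i * (n + 1)) ∧
      ∑ c ∈ U, wt_Comb β c = (∑ c ∈ S, wt_Comb β c) ^ (n + 1) := by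
  obtain ⟨g1, -, g3⟩ := hG (i + 2) V (i + 2) (by omega) le_rfl
  induction n with
  | zero =>
    refine ⟨S, by simp, fun c hc => ⟨good_mono_Comb _ _ _ _ (by omega) c (hS c hc).1, ?_⟩, by simp⟩
    simpa using (hS c hc).2
  | succ n ih =>
    obtain ⟨U, hU1, hU2, hU3⟩ := ih
    have hne : ∀ a ∈ S, ∀ x ∈ a.2, x.1 ≠ i + 2 := by
      intro a ha x hx
      have := ((hS a ha).1.2.1 x hx).2.1
      omega
    refine ⟨(S ×ˢ U).image fun p => jo (i + 2) p.1 p.2, ?_, ?_, ?_⟩
    · refine card_image_le.trans ?_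
      rw [card_product, pow_succ _ (n + 1), mul_comm]
      exact Nat.mul_le_mul_right _ hU1
    · intro c hc
      obtain ⟨p, hp, rfl⟩ := mem_image.1 hc
      obtain ⟨hp1, hp2⟩ := mem_product.1 hp
      refine ⟨g1 _ _ (good_mono_Comb _ _ _ _ (by omega) _ (hS _ hp1).1) (hU2 _ hp2).1, ?_⟩
      have e1 := (hS _ hp1).2
      have e2 := (hU2 _ hp2).2
      simp only [jo, List.length_append, List.length_cons]
      rw [mul_add (2 ^ i) (n + 1) 1]
      omega
    · rw [sum_image]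
      · simp only [wt_jo_Comb]
        rw [sum_product, pow_succ _ (n + 1), mul_comm, ← hU3, sum_mul_sum]
      · intro p hp q hq hpq
        have hp1 := (mem_product.1 (mem_coe.1 hp)).1
        have hq1 := (mem_product.1 (mem_coe.1 hq)).1
        obtain ⟨e1, e2⟩ := g3 p.1 q.1 p.2 q.2 (hne _ hp1) (hne _ hq1) hpq
        exact Prod.ext e1 e2

theorem pComb (hG : SGood) (hC : SClu) : SComb := by
  intro β V i _
  obtain ⟨S, hS, hP⟩ := hC β V i
  have ha : (Rq^[i] (P0 β V)).eval 1 = ∑ c ∈ S, wt_Comb β c := by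
    rw [← hP, Polynomial.eval_finsetSum]
    refine sum_congr rfl fun c _ => ?_
    simp [Polynomial.eval_monomial, wt_Comb]
  refine ⟨2 ^ i, S.card, fun n => ?_⟩
  obtain ⟨U, hU1, hU2, hU3⟩ := iter_Comb hG β V i S hS n
  obtain ⟨-, g2, -⟩ := hG (i + 2) V (i + 2) (by omega) le_rfl
  refine ⟨U.image fun c => (i + 2, c.1) :: c.2, card_image_le.trans hU1, ?_, ?_⟩
  · intro L hL
    obtain ⟨c, hc, rfl⟩ := mem_image.1 hL
    obtain ⟨a1, a2, a3⟩ := g2 c (hU2 c hc).1
    exact ⟨by simpa using (hU2 c hc).2, a3, a1, a2⟩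
  · rw [sum_image, ha, ← hU3]
    · refine le_of_eq (sum_congr rfl fun c _ => ?_)
      simp [wt_Comb]
    · intro p _ q _ hpq
      simp only [List.cons.injEq, Prod.mk.injEq, true_and] at hpq
      exact Prod.ext hpq.1 hpq.2

theorem ty_mono_Comb (β : ℕ → ℝ) (a : ℝ) (R V D N0 : ℕ) (h : Ty β a R V D N0) :
    Ty β a R V D (N0 + 1) := by
  intro n
  obtain ⟨T, h1, h2⟩ := h n
  exact ⟨T, h1.trans (Nat.pow_le_pow_left (Nat.le_succ _) _), h2⟩

theorem pTy (hI : SInit) (hW : SGrow) (hC : SComb) : STy := by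
  intro κ hκ
  obtain ⟨τ, c, V, hτ, hc, h1, h2⟩ := hI κ hκ
  have hβ : ∀ j, 0 ≤ bet κ τ j := by
    intro j
    have hk : 0 ≤ κ := by linarith
    unfold bet
    positivity
  have e0 : ∀ n, 0 ≤ (P0 (bet κ τ) V).coeff n := by
    intro n
    rw [P0, Polynomial.finsetSum_coeff]
    refine sum_nonneg fun j _ => ?_
    rw [Polynomial.coeff_monomial]
    split_ifs
    · exact hβ j
    · exact le_rfl
  have e1 : (P0 (bet κ τ) V).eval 1 = ∑ j ∈ Icc 2 V, bet κ τ j := by
    rw [P0, Polynomial.eval_finsetSum]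
    refine sum_congr rfl fun j _ => ?_
    simp [Polynomial.eval_monomial]
  have e2 : (P0 (bet κ τ) V).derivative.eval 1 = ∑ j ∈ Icc 2 V, ((j : ℝ) - 2) * bet κ τ j := by
    rw [P0, Polynomial.derivative_sum, Polynomial.eval_finsetSum]
    refine sum_congr rfl fun j hj => ?_
    have hj2 : 2 ≤ j := (mem_Icc.1 hj).1
    rw [Polynomial.derivative_monomial, Polynomial.eval_monomial, one_pow, mul_one,
      Nat.cast_sub hj2]
    push_cast
    ring
  have e3 : (P0 (bet κ τ) V).derivative.eval 1 + (P0 (bet κ τ) V).eval 1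
      = ∑ j ∈ Icc 2 V, ((j : ℝ) - 1) * bet κ τ j := by
    rw [e1, e2, ← sum_add_distrib]
    refine sum_congr rfl fun j _ => ?_
    ring
  obtain ⟨i, hi⟩ := hW (P0 (bet κ τ) V) c e0 hc (by rw [e3]; exact h1) (by rw [e1]; exact h2)
  obtain ⟨D, N0, hT⟩ := hC (bet κ τ) V i hβ
  exact ⟨τ, _, i + 2, V, D, N0 + 1, hτ, hi, by omega, ty_mono_Comb _ _ _ _ _ _ hT⟩

end Pool.Agent.MP_c26281_pr.SA

end

section

open MeasureTheory ProbabilityTheory Finset Filter Topology
open scoped ENNReal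

namespace Pool.Agent.MP_c26281_pr.SA

/-- pairing of a series with a sequence -/
noncomputable def pr_Count (f : PowerSeries ℝ≥0∞) (φ : ℕ → ℝ≥0∞) : ℝ≥0∞ :=
  ∑' d, PowerSeries.coeff d f * φ d

theorem anti_Count (F : ℕ × ℕ → ℝ≥0∞) : ∑' n, ∑ x ∈ antidiagonal n, F x = ∑' x, F x := by
  rw [← Finset.HasAntidiagonal.sigmaAntidiagonalEquivProd.tsum_eq, ENNReal.tsum_sigma']
  refine tsum_congr fun z => ?_
  rw [← Finset.sum_coe_sort (antidiagonal z), tsum_fintype]
  rfl

theorem pr_mul_Count (f g : PowerSeries ℝ≥0∞) (φ : ℕ → ℝ≥0∞) :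
    pr_Count (f * g) φ = pr_Count f fun d => pr_Count g fun e => φ (d + e) := by
  unfold pr_Count
  have h1 : ∀ n, PowerSeries.coeff n (f * g) * φ n = ∑ x ∈ antidiagonal n,
      PowerSeries.coeff x.1 f * (PowerSeries.coeff x.2 g * φ (x.1 + x.2)) := by
    intro n
    rw [PowerSeries.coeff_mul, sum_mul]
    refine sum_congr rfl fun x hx => ?_
    rw [mem_antidiagonal.mp hx, mul_assoc]
  simp_rw [h1]
  rw [anti_Count, ENNReal.tsum_prod']
  simp_rw [ENNReal.tsum_mul_left]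

theorem pr_mono_Count (f : PowerSeries ℝ≥0∞) {φ ψ : ℕ → ℝ≥0∞} (h : ∀ d, φ d ≤ ψ d) :
    pr_Count f φ ≤ pr_Count f ψ :=
  ENNReal.tsum_le_tsum fun d => mul_le_mul_right (h d) _

theorem pr_add_Count (f : PowerSeries ℝ≥0∞) (φ ψ : ℕ → ℝ≥0∞) :
    pr_Count f (fun d => φ d + ψ d) = pr_Count f φ + pr_Count f ψ := by
  unfold pr_Count
  simp_rw [mul_add]
  exact ENNReal.tsum_add

theorem pr_one_Count (φ : ℕ → ℝ≥0∞) : pr_Count 1 φ = φ 0 := by
  unfold pr_Count
  rw [tsum_eq_single 0]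
  · simp
  · intro d hd
    simp [PowerSeries.coeff_one, hd]

/-- a constant on a finite set -/
noncomputable def ind_Count (T : Finset ℕ) (c : ℝ≥0∞) : PowerSeries ℝ≥0∞ :=
  PowerSeries.mk fun n => if n ∈ T then c else 0

theorem pr_ind_Count (T : Finset ℕ) (c : ℝ≥0∞) (φ : ℕ → ℝ≥0∞) :
    pr_Count (ind_Count T c) φ = ∑ n ∈ T, c * φ n := by
  unfold pr_Count ind_Count
  rw [tsum_eq_sum (s := T)]
  · exact sum_congr rfl fun n hn => by rw [PowerSeries.coeff_mk, if_pos hn]
  · intro n hn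
    rw [PowerSeries.coeff_mk, if_neg hn, zero_mul]

/-- total mass -/
noncomputable def ms_Count (f : PowerSeries ℝ≥0∞) : ℝ≥0∞ := pr_Count f fun _ => 1

theorem ms_mul_Count (f g : PowerSeries ℝ≥0∞) : ms_Count (f * g) = ms_Count f * ms_Count g := by
  unfold ms_Count
  rw [pr_mul_Count]
  unfold pr_Count
  simp only [mul_one]
  exact ENNReal.tsum_mul_right

theorem coeff_le_Count (T : Finset ℕ) (f : PowerSeries ℝ≥0∞) (d : ℕ) :
    PowerSeries.coeff d (ind_Count T 1 * f) ≤ ms_Count f := by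
  rw [PowerSeries.coeff_mul]
  calc ∑ x ∈ antidiagonal d, PowerSeries.coeff x.1 (ind_Count T 1) * PowerSeries.coeff x.2 f
      ≤ ∑ x ∈ antidiagonal d, PowerSeries.coeff x.2 f * 1 := by
        refine sum_le_sum fun x _ => ?_
        rw [mul_comm]
        refine mul_le_mul_right ?_ _
        rw [ind_Count, PowerSeries.coeff_mk]
        split_ifs <;> simp
    _ = ∑ y ∈ (antidiagonal d).image Prod.snd, PowerSeries.coeff y f * 1 := by
        rw [sum_image]
        intro x hx y hy h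
        have h1 := mem_antidiagonal.mp hx
        have h2 := mem_antidiagonal.mp hy
        exact Prod.ext (by omega) h
    _ ≤ ms_Count f := ENNReal.sum_le_tsum _

/-- the gaps -/
noncomputable def G_Count (Q r : ℕ) : PowerSeries ℝ≥0∞ := ind_Count (Ico (Q ^ (r - 1)) (Q ^ r)) 1

/-- the stretches -/
noncomputable def S_Count (Q s j : ℕ) : PowerSeries ℝ≥0∞ :=
  ind_Count (Ico (j * s) ((j + 1) * s)) ((Q : ℝ≥0∞) ^ j)⁻¹

/-- the weight of a run -/
noncomputable def wt_Count (Q s : ℕ) (l : List (ℕ × ℕ)) : PowerSeries ℝ≥0∞ :=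
  (l.map fun a => G_Count Q a.1 * S_Count Q s a.2).prod

theorem card_Count (j s : ℕ) : (Ico (j * s) ((j + 1) * s)).card = s := by
  rw [Nat.card_Ico, add_mul, one_mul, Nat.add_sub_cancel_left]

theorem msG_Count (Q r : ℕ) : ms_Count (G_Count Q r) ≤ (Q : ℝ≥0∞) ^ r := by
  unfold ms_Count G_Count
  rw [pr_ind_Count, sum_const, Nat.card_Ico, mul_one, nsmul_one]
  exact_mod_cast Nat.sub_le _ _

theorem msS_Count (Q s j : ℕ) : ms_Count (S_Count Q s j) = s * (Q : ℝ≥0∞)⁻¹ ^ j := by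
  unfold ms_Count S_Count
  rw [pr_ind_Count, sum_const, card_Count, mul_one, nsmul_eq_mul, ENNReal.inv_pow]

theorem msw_Count (Q s : ℕ) (l : List (ℕ × ℕ)) : ms_Count (wt_Count Q s l) ≤
    (s : ℝ≥0∞) ^ l.length * ((Q : ℝ≥0∞) ^ (l.map Prod.fst).sum *
      (Q : ℝ≥0∞)⁻¹ ^ (l.map Prod.snd).sum) := by
  induction l with
  | nil => simp [wt_Count, ms_Count, pr_one_Count]
  | cons a l ih =>
    have h1 : wt_Count Q s (a :: l) = G_Count Q a.1 * S_Count Q s a.2 * wt_Count Q s l := by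
      simp [wt_Count]
    rw [h1, ms_mul_Count, ms_mul_Count, msS_Count]
    refine le_trans (mul_le_mul' (mul_le_mul_left (msG_Count Q a.1) _) ih) (le_of_eq ?_)
    simp only [List.length_cons, List.map_cons, List.sum_cons]
    ring

theorem pow_Count {Q A B : ℕ} (hQ : 1 ≤ Q) (h : A ≤ B) :
    (Q : ℝ≥0∞) ^ A * (Q : ℝ≥0∞)⁻¹ ^ B ≤ 1 := by
  have h1 : (1 : ℝ≥0∞) ≤ Q := by exact_mod_cast hQ
  refine le_trans (mul_le_mul_left (pow_le_pow_right₀ h1 h) _) ?_
  rw [← mul_pow]
  exact pow_le_one₀ (zero_le) (ENNReal.mul_inv_le_one _)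

theorem msw_le_Count {Q : ℕ} (hQ : 1 ≤ Q) (s : ℕ) (l : List (ℕ × ℕ))
    (h : (l.map Prod.fst).sum ≤ (l.map Prod.snd).sum) :
    ms_Count (wt_Count Q s l) ≤ (s : ℝ≥0∞) ^ l.length :=
  le_trans (msw_Count Q s l) (mul_le_of_le_one_right' (pow_Count hQ h))

theorem coeffw_Count {Q : ℕ} (hQ : 1 ≤ Q) (s : ℕ) (l : List (ℕ × ℕ)) (r t : ℕ)
    (ht : t ∈ r :: l.map Prod.fst)
    (h : (l.map Prod.fst).sum + r ≤ (l.map Prod.snd).sum + t) (d : ℕ) :
    PowerSeries.coeff d (wt_Count Q s l * G_Count Q r) ≤ (s : ℝ≥0∞) ^ l.length := by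
  rcases List.mem_cons.mp ht with rfl | ht
  · rw [mul_comm]
    exact le_trans (coeff_le_Count _ _ d) (msw_le_Count hQ s l (by omega))
  · obtain ⟨a, ha, rfl⟩ := List.mem_map.mp ht
    obtain ⟨l1, l2, rfl⟩ := List.append_of_mem ha
    have h1 : wt_Count Q s (l1 ++ a :: l2) * G_Count Q r =
        G_Count Q a.1 * wt_Count Q s (l1 ++ (r, a.2) :: l2) := by
      simp only [wt_Count, List.map_append, List.map_cons, List.prod_append, List.prod_cons]
      ring
    rw [h1]
    refine le_trans (coeff_le_Count _ _ d) (le_trans (msw_le_Count hQ s _ ?_) (by simp))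
    simp only [List.map_append, List.map_cons, List.sum_append, List.sum_cons] at h ⊢
    omega

theorem tele_Count {a : ℕ} (ha : 1 ≤ a) (O : Finset ℕ) :
    ∑ p ∈ O, (1 + (a : ℝ≥0∞)⁻¹) ^ (O.filter (p + 1 ≤ ·)).card ≤
      a * (1 + (a : ℝ≥0∞)⁻¹) ^ O.card := by
  have h0 : (a : ℝ≥0∞) * (a : ℝ≥0∞)⁻¹ = 1 :=
    ENNReal.mul_inv_cancel (by exact_mod_cast (by omega : a ≠ 0)) (ENNReal.natCast_ne_top a)
  induction O using Finset.induction_on_min with
  | empty => simp
  | insert m O hm ih =>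
    have hmO : m ∉ O := fun h => lt_irrefl _ (hm m h)
    rw [sum_insert hmO, card_insert_of_notMem hmO]
    have h1 : (insert m O).filter (m + 1 ≤ ·) = O := by
      rw [filter_insert, if_neg (by omega)]
      exact filter_true_of_mem fun x hx => hm x hx
    have h2 : ∑ p ∈ O, (1 + (a : ℝ≥0∞)⁻¹) ^ ((insert m O).filter (p + 1 ≤ ·)).card =
        ∑ p ∈ O, (1 + (a : ℝ≥0∞)⁻¹) ^ (O.filter (p + 1 ≤ ·)).card := by
      refine sum_congr rfl fun p hp => ?_
      have := hm p hp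
      rw [filter_insert, if_neg (by omega)]
    rw [h1, h2]
    refine le_trans (add_le_add_right ih _) (le_of_eq ?_)
    rw [pow_succ, mul_add, mul_add, mul_one, mul_comm _ (a : ℝ≥0∞)⁻¹, ← mul_assoc, h0, one_mul,
      add_comm]

/-- the cost of the free sites -/
noncomputable def E_Count (a : ℕ) (O : Finset ℕ) (x : ℕ) : ℝ≥0∞ :=
  (1 + (a : ℝ≥0∞)⁻¹) ^ (O.filter (x ≤ ·)).card

theorem E_anti_Count (a : ℕ) (O : Finset ℕ) {x y : ℕ} (h : x ≤ y) :
    E_Count a O y ≤ E_Count a O x :=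
  pow_le_pow_right₀ le_self_add (card_le_card (monotone_filter_right _ fun _ _ hz => h.trans hz))

theorem E_sum_Count {a : ℕ} (ha : 1 ≤ a) (O : Finset ℕ) (x : ℕ) :
    ∑' d, (if x + d ∈ O then E_Count a O (x + d + 1) else 0) ≤ a * E_Count a O x := by
  have h1 := ENNReal.tsum_comp_le_tsum_of_injective (f := fun d : ℕ => x + d)
    (add_right_injective x) fun p => if p ∈ O.filter (x ≤ ·) then E_Count a O (p + 1) else 0
  refine le_trans (le_of_eq (tsum_congr fun d => ?_)) (le_trans h1 ?_)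
  · simp
  · rw [tsum_eq_sum (s := O.filter (x ≤ ·)) fun p hp => if_neg hp]
    refine le_trans (le_of_eq (sum_congr rfl fun p hp => ?_)) (tele_Count ha (O.filter (x ≤ ·)))
    rw [if_pos hp, E_Count, filter_filter]
    have h2 := (mem_filter.mp hp).2
    congr 2
    exact filter_congr fun z _ => by omega

theorem step_Count (Q s : ℕ) (O : Finset ℕ) (r j : ℕ) (l : List (ℕ × ℕ)) (x : ℕ) :
    Phi Q s O ((r, j) :: l) x ≤
      pr_Count (G_Count Q r * S_Count Q s j) (fun e => Phi Q s O l (x + e)) +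
      pr_Count (G_Count Q r) fun e =>
        if x + e ∈ O then ∑ n ∈ Ico (j * s) ((j + 1) * s), Phi Q s O l (x + e + n) else 0 := by
  rw [pr_mul_Count, ← pr_add_Count, Phi, Fib, sum_product, G_Count, pr_ind_Count]
  refine sum_le_sum fun y _ => ?_
  rw [one_mul, S_Count, pr_ind_Count]
  by_cases h : x + y ∈ O
  · simp only [if_pos h, one_mul]
    exact le_add_self
  · simp only [if_neg h, add_zero, add_assoc]
    exact le_rfl

theorem pCount : SCount := by
  intro Q s a O L hQ hs ha hL hSt hSu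
  have main : ∀ l l0 l' : List (ℕ × ℕ), ∀ x, L = l0 ++ l' ++ l →
      pr_Count (wt_Count Q s l') (fun d => Phi Q s O l (x + d)) ≤
        (s : ℝ≥0∞) ^ l'.length * ((s * (1 + a) : ℕ) : ℝ≥0∞) ^ l.length * E_Count a O x := by
    intro l
    induction l with
    | nil =>
      intro l0 l' x h
      have h1 := msw_le_Count hQ s l' (hSu l0 l' (by simpa using h))
      rw [List.length_nil, pow_zero, mul_one]
      exact le_trans h1 (le_mul_of_one_le_right' (one_le_pow₀ le_self_add))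
    | cons y l ih =>
      obtain ⟨r, j⟩ := y
      intro l0 l' x h
      have hj : 1 ≤ j := hL (r, j) (by rw [h]; simp)
      obtain ⟨t, ht, ht2⟩ := hSt l0 l' r j l h
      have h1 := ih l0 (l' ++ [(r, j)]) x (by rw [h]; simp)
      have h2 : ∀ p, ∑ n ∈ Ico (j * s) ((j + 1) * s), Phi Q s O l (p + n) ≤
          s * (((s * (1 + a) : ℕ) : ℝ≥0∞) ^ l.length * E_Count a O (p + 1)) := by
        intro p
        refine le_trans (sum_le_card_nsmul _ _ _ fun n hn => ?_) (by rw [card_Count, nsmul_eq_mul])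
        have h3 := ih (l0 ++ l' ++ [(r, j)]) [] (p + n) (by rw [h]; simp)
        have h4 : wt_Count Q s [] = 1 := rfl
        rw [h4, pr_one_Count, List.length_nil, pow_zero, one_mul] at h3
        have h5 : 1 ≤ j * s := Nat.mul_pos hj hs
        have h6 := (mem_Ico.mp hn).1
        exact le_trans h3 (mul_le_mul_right (E_anti_Count a O (by omega)) _)
      have h3 : wt_Count Q s (l' ++ [(r, j)]) =
          wt_Count Q s l' * (G_Count Q r * S_Count Q s j) := by simp [wt_Count]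
      rw [h3, pr_mul_Count] at h1
      have h4 : pr_Count (wt_Count Q s l' * G_Count Q r) (fun e => if x + e ∈ O then
          ∑ n ∈ Ico (j * s) ((j + 1) * s), Phi Q s O l (x + e + n) else 0) ≤
          (s : ℝ≥0∞) ^ l'.length * (s * ((s * (1 + a) : ℕ) : ℝ≥0∞) ^ l.length) *
            (a * E_Count a O x) := by
        refine le_trans ?_ (mul_le_mul_right (E_sum_Count ha O x) _)
        rw [← ENNReal.tsum_mul_left]
        refine ENNReal.tsum_le_tsum fun d => ?_
        rw [mul_assoc]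
        refine mul_le_mul' (coeffw_Count hQ s l' r t ht ht2 d) ?_
        by_cases h5 : x + d ∈ O
        · simp only [if_pos h5]
          rw [mul_assoc]
          exact h2 (x + d)
        · simp only [if_neg h5]
          exact zero_le
      rw [pr_mul_Count] at h4
      refine le_trans (pr_mono_Count _ fun d => step_Count Q s O r j l (x + d)) ?_
      rw [pr_add_Count]
      simp only [add_assoc] at h1 h4 ⊢
      refine le_trans (add_le_add h1 h4) (le_of_eq ?_)
      simp only [List.length_append, List.length_cons, List.length_nil]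
      push_cast
      ring
  have h := main L [] [] 0 rfl
  have h4 : wt_Count Q s [] = 1 := rfl
  rw [h4, pr_one_Count, List.length_nil, pow_zero, one_mul, E_Count,
    filter_true_of_mem fun x _ => Nat.zero_le x] at h
  exact h

end Pool.Agent.MP_c26281_pr.SA

end

section

open MeasureTheory ProbabilityTheory Finset Filter Topology
open scoped ENNReal

namespace Pool.Agent.MP_c26281_pr.SA

theorem hold_Jen {ι : Type} (T : Finset ι) (y : ι → ℝ≥0∞) {t : ℝ} (t0 : 0 < t) (t1 : t ≤ 1) :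
    ∑ c ∈ T, y c ^ t ≤ (∑ c ∈ T, y c) ^ t * (T.card : ℝ≥0∞) ^ (1 - t) := by
  let _ : MeasurableSpace ι := ⊤
  have := ENNReal.lintegral_mul_norm_pow_le (μ := Measure.count.restrict (T : Set ι)) (f := y)
    (g := fun _ => 1) measurable_from_top.aemeasurable aemeasurable_const t0.le (sub_nonneg.2 t1)
    (add_sub_cancel t 1)
  simpa [lintegral_finset] using this

theorem pJen : SJen := by
  classical
  intro Ω _ P ι T t y A B t0 t1 B1 Bt my mA off fin h2
  have B0 : 2 * B ≠ 0 := mul_ne_zero two_ne_zero (zero_lt_one.trans_le B1).ne'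
  have B2 : 2 * B ≠ ⊤ := ENNReal.mul_ne_top ENNReal.ofNat_ne_top Bt
  have pt : ∀ ω, ∑ c ∈ T, y c ω ^ t ≤ (2 * B) ^ (1 - t) * (∑ c ∈ T, y c ω) ^ t
      + (2 * B)⁻¹ * ∑ c ∈ T, ∑ c' ∈ T, (A c').indicator (fun ω => y c ω ^ t) ω := fun ω => by
    have e1 : ∑ c ∈ T, y c ω ^ t = ∑ c ∈ T.filter (fun c => ω ∈ A c), y c ω ^ t := by
      rw [sum_filter]
      refine sum_congr rfl fun c hc => ?_
      split_ifs with h
      · rfl
      · rw [off c hc ω h, ENNReal.zero_rpow_of_pos t0]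
    have e2 : ∑ c ∈ T, ∑ c' ∈ T, (A c').indicator (fun ω => y c ω ^ t) ω
        = (T.filter fun c => ω ∈ A c).card * ∑ c ∈ T, y c ω ^ t := by
      rw [mul_sum]
      refine sum_congr rfl fun c _ => ?_
      simp only [Set.indicator_apply]
      rw [← sum_filter, sum_const, nsmul_eq_mul]
    rcases le_total ((T.filter fun c => ω ∈ A c).card : ℝ≥0∞) (2 * B) with h | h
    · refine le_trans ?_ le_self_add
      rw [e1, mul_comm]
      refine (hold_Jen _ _ t0 t1).trans (mul_le_mul' (ENNReal.rpow_le_rpow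
        (sum_le_sum_of_subset (filter_subset _ _)) t0.le) (ENNReal.rpow_le_rpow h (sub_nonneg.2 t1)))
    · refine le_trans ?_ le_add_self
      rw [e2, ← mul_assoc]
      refine le_mul_of_one_le_left' ?_
      rw [← ENNReal.inv_mul_cancel B0 B2]
      exact mul_le_mul_right h _
  have m1 : ∀ c ∈ T, Measurable fun ω => y c ω ^ t := fun c hc => (my c hc).pow_const t
  have m2 : Measurable fun ω => (∑ c ∈ T, y c ω) ^ t := (Finset.measurable_sum _ my).pow_const t
  have h3 := lintegral_mono (μ := P) pt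
  rw [lintegral_finsetSum _ m1, lintegral_add_left (m2.const_mul _), lintegral_const_mul _ m2,
    lintegral_const_mul' _ _ (ENNReal.inv_ne_top.2 B0),
    lintegral_finsetSum _ fun c hc => Finset.measurable_sum _ fun c' hc' =>
      (m1 c hc).indicator (mA c' hc')] at h3
  have h4 : ∑ c ∈ T, ∫⁻ ω, ∑ c' ∈ T, (A c').indicator (fun ω => y c ω ^ t) ω ∂P
      ≤ B * ∑ c ∈ T, ∫⁻ ω, y c ω ^ t ∂P := by
    rw [mul_sum]
    refine sum_le_sum fun c hc => le_trans (le_of_eq ?_) (h2 c hc)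
    rw [lintegral_finsetSum _ fun c' hc' => (m1 c hc).indicator (mA c' hc')]
    exact sum_congr rfl fun c' hc' => lintegral_indicator (mA c' hc') _
  have It : ∑ c ∈ T, ∫⁻ ω, y c ω ^ t ∂P ≠ ⊤ := ENNReal.sum_ne_top.2 fin
  generalize ∑ c ∈ T, ∫⁻ ω, y c ω ^ t ∂P = I at h3 h4 It ⊢
  have h5 : (2 * B)⁻¹ * (B * I) = I / 2 := by
    rw [ENNReal.mul_inv (Or.inl two_ne_zero) (Or.inl ENNReal.ofNat_ne_top), mul_assoc,
      ← mul_assoc B⁻¹, ENNReal.inv_mul_cancel (zero_lt_one.trans_le B1).ne' Bt, one_mul,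
      ENNReal.div_eq_inv_mul]
  have h6 := h3.trans (add_le_add_right (mul_le_mul_right h4 _) _)
  rw [h5] at h6
  nth_rewrite 1 [← ENNReal.add_halves I] at h6
  have h7 := (ENNReal.add_le_add_iff_right (ENNReal.div_ne_top It two_ne_zero)).1 h6
  rw [← ENNReal.add_halves I, mul_assoc, two_mul]
  exact add_le_add h7 h7

end Pool.Agent.MP_c26281_pr.SA

end

section

open MeasureTheory ProbabilityTheory Finset Filter Topology
open scoped ENNReal

namespace Pool.Agent.MP_c26281_pr.SA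

theorem key_LAlg (H C : IA) (x M : ℕ) (S : Finset (ℕ × ℕ)) (hS : ∀ y ∈ S, y.1 + y.2 ≤ M) :
    1 + ∑ y ∈ S, H x (x + y.1) * C (x + y.1) (x + y.1 + y.2) *
      ∑ q ∈ Icc (x + y.1 + y.2) (x + y.1 + y.2 + (M - (y.1 + y.2))), kst (H * C) (x + y.1 + y.2) q
      ≤ ∑ q ∈ Icc x (x + M), kst (H * C) x q := by
  classical
  conv_rhs => rw [kst_eq]
  simp only [k_add, sum_add_distrib]
  refine add_le_add (by simp) ?_
  have e : ∀ y ∈ S, H x (x + y.1) * C (x + y.1) (x + y.1 + y.2) *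
      ∑ q ∈ Icc (x + y.1 + y.2) (x + y.1 + y.2 + (M - (y.1 + y.2))), kst (H * C) (x + y.1 + y.2) q
      ≤ ∑ q ∈ Icc x (x + M), H x (x + y.1) * C (x + y.1) (x + y.1 + y.2)
        * kst (H * C) (x + y.1 + y.2) q := fun y hy => by
    rw [← mul_sum]
    have := hS y hy
    exact mul_le_mul_right (sum_le_sum_of_subset (Icc_subset_Icc (by omega) (by omega))) _
  refine (sum_le_sum e).trans ?_
  rw [sum_comm]
  refine sum_le_sum fun q _ => ?_
  rw [← sum_filter_add_sum_filter_not S fun y => x + y.1 + y.2 ≤ q,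
    sum_eq_zero (s := S.filter fun y => ¬ x + y.1 + y.2 ≤ q) fun y hy => by
      rw [k_zero _ (not_le.1 (mem_filter.1 hy).2), mul_zero], add_zero, k_mul]
  simp only [k_mul, sum_mul]
  rw [sum_sigma']
  have inj : Set.InjOn (fun y : ℕ × ℕ => (⟨x + y.1 + y.2, x + y.1⟩ : Σ _ : ℕ, ℕ))
      (S.filter fun y => x + y.1 + y.2 ≤ q) := fun a _ b _ h => by
    simp only [Sigma.mk.injEq, heq_eq_eq] at h
    exact Prod.ext (by omega) (by omega)
  refine le_trans (le_of_eq (sum_image (f := fun z : Σ _ : ℕ, ℕ =>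
    H x z.2 * C z.2 z.1 * kst (H * C) z.1 q) inj).symm) (sum_le_sum_of_subset fun z hz => ?_)
  obtain ⟨y, hy, rfl⟩ := mem_image.1 hz
  have := (mem_filter.1 hy).2
  simp only [mem_sigma, mem_Icc]; omega

theorem pLAlg : SLAlg := by
  classical
  intro H C T x M hT
  obtain ⟨r, hr⟩ : ∃ r, ∀ c ∈ T, c.length ≤ r := ⟨T.sup List.length, fun c hc => le_sup hc⟩
  induction r generalizing T x M with
  | zero =>
    refine le_trans ?_ (key_LAlg H C x M ∅ (by simp))
    refine (sum_le_sum_of_subset (t := {[]}) fun c hc => mem_singleton.2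
      (List.length_eq_zero_iff.1 (Nat.le_zero.1 (hr c hc)))).trans (by simp [val])
  | succ r ih =>
    set S := (T.image fun c => c.headD (0, 0)).filter fun y => y.1 + y.2 ≤ M with hS
    refine le_trans ?_ (key_LAlg H C x M S fun y hy => (mem_filter.1 hy).2)
    set U := fun y : ℕ × ℕ => (T.image List.tail).filter fun d => y :: d ∈ T with hU
    have sub : T ⊆ insert [] ((S.sigma U).image fun z => z.1 :: z.2) := by
      intro c hc
      cases c with
      | nil => exact mem_insert_self _ _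
      | cons y d =>
        refine mem_insert_of_mem (mem_image.2 ⟨⟨y, d⟩, mem_sigma.2 ⟨mem_filter.2
          ⟨mem_image.2 ⟨_, hc, rfl⟩, ?_⟩, mem_filter.2 ⟨mem_image.2 ⟨_, hc, rfl⟩, hc⟩⟩, rfl⟩)
        have := hT _ hc
        simp only [tot, List.map_cons, List.sum_cons] at this ⊢; omega
    refine (sum_le_sum_of_subset sub).trans ?_
    rw [sum_insert (by simp)]
    refine add_le_add le_rfl ((sum_image_le_of_nonneg fun _ _ => zero_le).trans ?_)
    rw [sum_sigma]
    refine sum_le_sum fun y _ => ?_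
    simp only [val]
    rw [← mul_sum]
    refine mul_le_mul_right (ih _ _ _ (fun d hd => ?_) fun d hd => ?_) _
    · have := hT _ (mem_filter.1 hd).2
      simp only [tot, List.map_cons, List.sum_cons] at this ⊢; omega
    · have := hr _ (mem_filter.1 hd).2
      simpa using this

end Pool.Agent.MP_c26281_pr.SA

end

section

open MeasureTheory ProbabilityTheory Finset Filter Topology
open scoped ENNReal

namespace Pool.Agent.MP_c26281_pr.SA

theorem fib_Pl {Q s : ℕ} {a y : ℕ × ℕ} (h : y ∈ Fib Q s a) : Q ^ (a.1 - 1) ≤ y.1 ∧ y.1 < Q ^ a.1 ∧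
    a.2 * s ≤ y.2 ∧ y.2 < (a.2 + 1) * s := by
  simpa [Fib, and_assoc] using h

theorem pPl : SPl := by
  intro Q s hQ hs
  refine ⟨fun L L' h1 h2 hne => disjoint_left.2 fun c c1 c2 => hne ?_, fun L f a => ?_,
    fun R V L hL => ?_⟩
  · clear hne
    induction L generalizing L' c with
    | nil =>
      cases L' with
      | nil => rfl
      | cons b L' =>
        obtain ⟨y, -, d, -, e⟩ := mem_image₂.1 c2
        rw [mem_singleton.1 c1] at e; cases e
    | cons a L ih =>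
      obtain ⟨y, hy, d, hd, rfl⟩ := mem_image₂.1 c1
      cases L' with
      | nil => cases mem_singleton.1 c2
      | cons b L' =>
        obtain ⟨y', hy', d', hd', e⟩ := mem_image₂.1 c2
        obtain ⟨rfl, rfl⟩ := List.cons.inj e
        rw [ih L' (fun x hx => h1 x (List.mem_cons_of_mem _ hx))
          (fun x hx => h2 x (List.mem_cons_of_mem _ hx)) _ hd hd']
        obtain ⟨a1, a2, a3, a4⟩ := fib_Pl hy
        obtain ⟨b1, b2, b3, b4⟩ := fib_Pl hy'
        have e1 := (Nat.pow_lt_pow_iff_right (by omega : 1 < Q)).1 (a1.trans_lt b2)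
        have e2 := (Nat.pow_lt_pow_iff_right (by omega : 1 < Q)).1 (b1.trans_lt a2)
        have e3 := Nat.lt_of_mul_lt_mul_right (a3.trans_lt b4)
        have e4 := Nat.lt_of_mul_lt_mul_right (b3.trans_lt a4)
        have := h1 a List.mem_cons_self
        have := h2 b List.mem_cons_self
        congr 1
        exact Prod.ext (by omega) (by omega)
  · rw [Pl, ← image_uncurry_product, sum_image, sum_product]
    · rfl
    · rintro ⟨a, b⟩ - ⟨c, d⟩ - h
      obtain ⟨rfl, rfl⟩ := List.cons.inj h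
      rfl
  · induction L with
    | nil => intro c hc; rw [mem_singleton.1 hc]; simp [tot, Oc]
    | cons a L ih =>
      intro c hc
      obtain ⟨y, hy, d, hd, rfl⟩ := mem_image₂.1 hc
      obtain ⟨i1, i2, i3, i4⟩ := ih (fun x hx => hL x (List.mem_cons_of_mem _ hx)) d hd
      obtain ⟨a1, a2, a3, a4⟩ := fib_Pl hy
      obtain ⟨b1, b2, b3⟩ := hL a List.mem_cons_self
      have c1 : Q ^ 1 ≤ Q ^ (a.1 - 1) := Nat.pow_le_pow_right (by omega) (by omega)
      have c2 : Q ^ a.1 ≤ Q ^ R := Nat.pow_le_pow_right (by omega) b2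
      have c3 : (a.2 + 1) * s ≤ (V + 1) * s := Nat.mul_le_mul_right _ (by omega)
      rw [pow_one] at c1
      refine ⟨by simp [i1], fun z hz => ?_, ?_, fun x => ?_⟩
      · rcases List.mem_cons.1 hz with rfl | h
        · omega
        · exact i2 z h
      · unfold tot at i3 ⊢
        rw [List.map_cons, List.sum_cons, List.length_cons, add_one_mul]; omega
      · have := i4 (x + y.1 + y.2)
        refine (card_union_le _ _).trans ?_
        rw [Nat.card_Ico, List.length_cons, add_one_mul L.length]; omega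

end Pool.Agent.MP_c26281_pr.SA

end

section

open MeasureTheory ProbabilityTheory Finset Filter Topology
open scoped ENNReal

namespace Pool.Agent.MP_c26281_pr.SA

section
variable {Ω : Type} [MeasurableSpace Ω] {P : Measure Ω} {F : Fld P} {H C : Ω → IA}

theorem meas_First (hH : Ad F H) (hC : Ad F C) (c : List (ℕ × ℕ)) :
    ∀ x, Measurable[F.s (Set.Ici x)] fun ω => val (H ω) (C ω) c x := by
  induction c with
  | nil => exact fun _ => measurable_const
  | cons a c ih =>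
    intro x
    refine ((F.up (fun y hy => hy.1) (hH x (x + a.1))).mul
      (F.up (fun y hy => ?_) (hC (x + a.1) (x + a.1 + a.2)))).mul
      (F.up (fun y hy => ?_) (ih (x + a.1 + a.2)))
    · exact le_trans (Nat.le_add_right _ _) hy.1
    · exact le_trans (by omega) (Set.mem_Ici.1 hy)

theorem key_First [IsProbabilityMeasure P] (hH : Ad F H) (hC : Ad F C) {t : ℝ} (ht : 0 ≤ t)
    (a : ℕ × ℕ) (c : List (ℕ × ℕ)) (x : ℕ) :
    ∫⁻ ω, val (H ω) (C ω) (a :: c) x ^ t ∂P = (∫⁻ ω, H ω x (x + a.1) ^ t ∂P) *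
      (∫⁻ ω, C ω (x + a.1) (x + a.1 + a.2) ^ t ∂P) *
      ∫⁻ ω, val (H ω) (C ω) c (x + a.1 + a.2) ^ t ∂P := by
  have m1 := (hH x (x + a.1)).pow_const t
  have m2 := (hC (x + a.1) (x + a.1 + a.2)).pow_const t
  have m3 := (meas_First hH hC c (x + a.1 + a.2)).pow_const t
  have m4 : Measurable[F.s (Set.Ico x (x + a.1 + a.2))] fun ω =>
      H ω x (x + a.1) ^ t * C ω (x + a.1) (x + a.1 + a.2) ^ t := (F.up (Set.Ico_subset_Ico_right (Nat.le_add_right _ a.2)) m1).mul
    (F.up (Set.Ico_subset_Ico_left (Nat.le_add_right x a.1)) m2)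
  rw [← F.mul Set.Ico_disjoint_Ico_same m1 m2, ← F.mul
    (Set.disjoint_left.2 fun y h1 h2 => absurd h1.2 (not_lt.2 h2)) m4 m3]
  simp only [val, ENNReal.mul_rpow_of_nonneg _ _ ht]

end

theorem pFirst (hP : SPl) : SFirst := by
  intro Ω _ P _ F t u Q s V H C A wg e β h
  refine ⟨fun c => meas_First h.adH h.adC c, fun c => ?_, fun c => ?_, fun c => ?_, fun L => ?_⟩
  · induction c with
    | nil => exact fun _ => MeasurableSet.univ
    | cons a c ih => exact fun x => (F.le _ _ (h.mA _ _)).inter (ih _)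
  · induction c with
    | nil => exact fun x ω hω => absurd (Set.mem_univ ω) hω
    | cons a c ih =>
      intro x ω hω
      by_cases h1 : ω ∈ A (x + a.1) (x + a.1 + a.2)
      · simp only [val, ih _ ω fun h2 => hω ⟨h1, h2⟩, mul_zero]
      · simp only [val, h.off ω _ _ h1, mul_zero, zero_mul]
  · induction c with
    | nil => intro x; simp [val]
    | cons a c ih =>
      intro x
      rw [key_First h.adH h.adC h.t0.le]
      refine ENNReal.mul_ne_top (ENNReal.mul_ne_top ?_ (h.Cfin _ _)) (ih _)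
      refine ne_top_of_le_ne_top (ENNReal.rpow_ne_top_of_nonneg h.t0.le (h.wfin a.1)) ?_
      refine (lintegral_mono fun ω => ENNReal.rpow_le_rpow (h.Hle ω x a.1) h.t0.le).trans ?_
      simp
  · induction L with
    | nil => intro _ x; simp [Pl, val]
    | cons a L ih =>
      intro hL x
      obtain ⟨a1, a2, a3⟩ := hL a List.mem_cons_self
      have ih' := ih fun b hb => hL b (List.mem_cons_of_mem _ hb)
      rw [(hP Q s h.Q2 h.s1).2.1, List.map_cons, List.prod_cons, ENNReal.ofReal_mul (h.b0 _)]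
      refine (mul_le_mul_left (h.lw a.1 a.2 a1 a2 a3) _).trans ?_
      rw [sum_mul]
      refine sum_le_sum fun y hy => ?_
      simp only [key_First h.adH h.adC h.t0.le, ← mul_sum]
      have hQ : Q ≤ y.1 := by
        have := (mem_Ico.1 (mem_product.1 hy).1).1
        exact le_trans (Nat.le_self_pow (by omega) Q) this
      exact mul_le_mul' (mul_le_mul' (h.Hlo _ _ hQ) (h.Clo _ _)) (ih' _)

end Pool.Agent.MP_c26281_pr.SA

end

section

open MeasureTheory ProbabilityTheory Finset Filter Topology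
open scoped ENNReal

namespace Pool.Agent.MP_c26281_pr.SA

theorem pInd (hP : SPl) : SInd := by
  intro Ω _ P _ F Q s m A O O' hQ hs hA hPA hO L
  induction L with
  | nil =>
    intro _ x f _
    rw [Pl, sum_singleton, Ps, Phi, Measure.restrict_univ, one_mul]
  | cons a L ih =>
    intro hL x f hf
    rw [(hP Q s hQ hs).2.1, Phi, sum_mul]
    refine sum_le_sum fun y hy => ?_
    have hy2 := mem_Ico.1 (mem_product.1 hy).2
    have hm := hL a List.mem_cons_self
    have hA1 := hA (x + y.1) (x + y.1 + y.2)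
    have hA2 : MeasurableSet (A (x + y.1) (x + y.1 + y.2)) := F.le _ _ hA1
    have hf' : Measurable[F.s (↑O ∪ Set.Iio (x + y.1 + y.2))]
        ((A (x + y.1) (x + y.1 + y.2)).indicator f) :=
      (F.up (Set.union_subset_union_right _ (Set.Iio_subset_Iio (by omega))) hf).indicator
        (F.mono _ _ (Set.Ico_subset_Iio_self.trans Set.subset_union_right) _ hA1)
    have h1 := ih (fun b hb => hL b (List.mem_cons_of_mem _ hb)) _ _ hf'
    have h2 : ∀ c, ∫⁻ ω in Ps A (y :: c) x, f ω ∂P =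
        ∫⁻ ω in Ps A c (x + y.1 + y.2), (A (x + y.1) (x + y.1 + y.2)).indicator f ω ∂P := by
      intro c
      rw [lintegral_indicator hA2, Measure.restrict_restrict hA2, Ps]
    have h3 : ∫⁻ ω, (A (x + y.1) (x + y.1 + y.2)).indicator f ω ∂P ≤
        (if x + y.1 ∈ O' then 1 else ((Q : ℝ≥0∞) ^ a.2)⁻¹) * ∫⁻ ω, f ω ∂P := by
      split_ifs with h
      · rw [one_mul]
        exact lintegral_mono fun ω => Set.indicator_le_self _ _ ω
      · have hd : Disjoint (↑O ∪ Set.Iio x : Set ℕ) (Set.Ico (x + y.1) (x + y.1 + y.2)) := by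
          refine Set.disjoint_left.2 fun z hz hz' => ?_
          rcases hz with hz | hz
          · exact Finset.disjoint_left.1 (hO _ y.2 (by omega) h) (mem_Ico.2 hz') hz
          · exact absurd (Set.mem_Iio.1 hz) (not_lt.2 ((Nat.le_add_right x y.1).trans hz'.1))
        have h4 := F.mul hd hf
          ((measurable_const (a := (1 : ℝ≥0∞))).indicator hA1)
        have h5 : ∀ ω, (A (x + y.1) (x + y.1 + y.2)).indicator f ω =
            f ω * (A (x + y.1) (x + y.1 + y.2)).indicator (fun _ => (1 : ℝ≥0∞)) ω := fun ω => by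
          rw [← Set.indicator_mul_right _ f fun _ => 1]
          simp only [mul_one]
        rw [lintegral_congr h5, h4, lintegral_indicator_const hA2, one_mul, mul_comm]
        exact mul_le_mul_left (hPA _ _ _ hy2.1) _
    rw [sum_congr rfl fun c _ => h2 c, mul_right_comm, mul_comm]
    exact h1.trans (mul_le_mul_right h3 _)

end Pool.Agent.MP_c26281_pr.SA

end

section

open MeasureTheory ProbabilityTheory Finset Filter Topology
open scoped ENNReal

namespace Pool.Agent.MP_c26281_pr.SA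

theorem Oc_sub_Bulk (c : List (ℕ × ℕ)) : ∀ x, (↑(Oc c x) : Set ℕ) ⊆ Set.Ici x := by
  induction c with
  | nil => intro x; simp [Oc]
  | cons a c ih =>
    intro x n hn
    simp only [Oc, coe_union, coe_Ico, Set.mem_union, Set.mem_Ico] at hn
    rcases hn with h | h
    · exact Set.mem_Ici.2 (by omega)
    · have := Set.mem_Ici.1 (ih _ h); exact Set.mem_Ici.2 (by omega)

theorem pBulk (hF : SFirst) : SBulk := by
  intro Ω _ P _ F t u Q s V H C A wg e β M
  have mv := (hF Ω P F t u Q s V H C A wg e β M).1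
  have m1 : ∀ (c : List (ℕ × ℕ)) (x : ℕ),
      Measurable[F.s ↑(Oc c x)] fun ω => val (tk wg) (C ω) c x := by
    intro c
    induction c with
    | nil => intro x; exact measurable_const
    | cons a c ih =>
      intro x
      exact (measurable_const.mul (F.up (by simp [Oc]) (M.adC (x + a.1) (x + a.1 + a.2)))).mul
        (F.up (by simp [Oc]) (ih (x + a.1 + a.2)))
  intro c x
  refine ⟨m1 c x, fun ω => ?_, ?_⟩
  · induction c generalizing x with
    | nil => exact le_rfl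
    | cons a c ih =>
      simp only [val, tk_add]
      exact mul_le_mul' (mul_le_mul_left (M.Hle _ _ _) _) (ih _)
  · induction c generalizing x with
    | nil => intro _; simp [val]
    | cons a c ih =>
      intro hq
      have ih := ih (x + a.1 + a.2) fun y hy => hq y (List.mem_cons_of_mem _ hy)
      have d1 : Disjoint (Set.Ico (x + a.1) (x + a.1 + a.2)) (Set.Ici (x + a.1 + a.2)) :=
        Set.disjoint_left.2 fun n h1 h2 => absurd h1.2 (not_lt.2 h2)
      have d2 : Disjoint (Set.Ico x (x + a.1)) (Set.Ici (x + a.1)) :=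
        Set.disjoint_left.2 fun n h1 h2 => absurd h1.2 (not_lt.2 h2)
      have mC := (M.adC (x + a.1) (x + a.1 + a.2)).pow_const t
      simp only [val, tk_add, ENNReal.mul_rpow_of_nonneg _ _ M.t0.le, mul_assoc]
      rw [lintegral_const_mul' _ _ (ENNReal.rpow_ne_top_of_nonneg M.t0.le (M.wfin _)),
        F.mul d1 mC ((F.up (Oc_sub_Bulk c _) (m1 c _)).pow_const t),
        F.mul d2 ((M.adH _ _).pow_const t) ((F.up Set.Ico_subset_Ici_self mC).fun_mul
          (F.up (Set.Ici_subset_Ici.2 (Nat.le_add_right _ _)) ((mv c _).pow_const t))),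
        F.mul d1 mC ((mv c _).pow_const t)]
      have h1 : wg a.1 ^ t ≤ 2 * ∫⁻ ω, H ω x (x + a.1) ^ t ∂P := by
        refine le_trans ?_ (mul_le_mul_right (M.Hlo x a.1 (hq a List.mem_cons_self)) 2)
        rw [← mul_assoc]
        refine le_mul_of_one_le_left' ?_
        rw [← ENNReal.ofReal_ofNat 2, ← ENNReal.ofReal_mul two_pos.le, ENNReal.one_le_ofReal]
        linarith [M.u1]
      refine (mul_le_mul' h1 (mul_le_mul_right ih _)).trans (le_of_eq ?_)
      rw [List.length_cons]; ring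

end Pool.Agent.MP_c26281_pr.SA

end

section

open MeasureTheory ProbabilityTheory Finset Filter Topology
open scoped ENNReal

namespace Pool.Agent.MP_c26281_pr.SA

theorem three_Mom (a : ℕ) (ha : 1 ≤ a) : (1 + (a : ℝ≥0∞)⁻¹) ^ a ≤ 3 := by
  have a0 : (0 : ℝ) < a := by exact_mod_cast ha
  have h : (1 + (a : ℝ)⁻¹) ^ a ≤ 3 := by
    calc _ ≤ Real.exp (a : ℝ)⁻¹ ^ a := by
          gcongr
          linarith [Real.add_one_le_exp (a : ℝ)⁻¹]
      _ = Real.exp 1 := by rw [← Real.exp_nat_mul, mul_inv_cancel₀ a0.ne']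
      _ ≤ 3 := by linarith [Real.exp_one_lt_d9]
  have := ENNReal.ofReal_le_ofReal h
  rwa [ENNReal.ofReal_pow (by positivity), ENNReal.ofReal_add zero_le_one (by positivity),
    ENNReal.ofReal_one, ENNReal.ofReal_inv_of_pos a0, ENNReal.ofReal_natCast,
    ENNReal.ofReal_ofNat] at this

theorem pMom (hC : SCount) (hJ : SJen) (hA : SLAlg) (hP : SPl) (hF : SFirst) (hI : SInd)
    (hB : SBulk) : SMom := by
  intro Ω _ P _ F t u Q s V H C A wg e β hM a R D N0 a0 hN0 hT n
  classical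
  obtain ⟨T, T1, T2, T3⟩ := hT n
  obtain ⟨p1, -, p3⟩ := hP Q s hM.Q2 hM.s1
  obtain ⟨f1, f2, f3, f4, f5⟩ := hF Ω P F t u Q s V H C A wg e β hM
  obtain ⟨m, hm⟩ : ∃ m, m = (V + 1) * s := ⟨_, rfl⟩
  obtain ⟨N, hN⟩ : ∃ N, N = D * (n + 1) := ⟨_, rfl⟩
  replace p3 := p3 R V
  rw [← hm] at p3 ⊢
  rw [← hN] at T2 ⊢
  have s1 := hM.s1
  have m1 : 1 ≤ m := hm ▸ Nat.mul_pos (Nat.succ_pos _) s1
  have a1 : 1 ≤ m * (m + 1) := Nat.mul_pos m1 (Nat.succ_pos _)
  have dj : (T : Set (List (ℕ × ℕ))).PairwiseDisjoint (Pl Q s) := fun L hL L' hL' h =>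
    p1 L L' (fun x hx => le_trans one_le_two ((T2 L hL).2.1 x hx).1)
      (fun x hx => le_trans one_le_two ((T2 L' hL').2.1 x hx).1) h
  have q3 : ∀ L ∈ T, ∀ c ∈ Pl Q s L, c.length = L.length ∧ (∀ y ∈ c, Q ≤ y.1) ∧
      tot c ≤ L.length * (Q ^ R + m) ∧ ∀ x, (Oc c x).card ≤ L.length * m := fun L hL =>
    p3 L fun x hx => ⟨((T2 L hL).2.1 x hx).1, ((T2 L hL).2.1 x hx).2.1,
      ((T2 L hL).2.1 x hx).2.2.2⟩
  obtain ⟨B, hBe⟩ : ∃ B : ℝ≥0∞, B = ((N0 * (6 * s * (1 + m) ^ 2) ^ D : ℕ) : ℝ≥0∞) ^ (n + 1) :=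
    ⟨_, rfl⟩
  rw [← hBe]
  have B1 : 1 ≤ B := hBe ▸ one_le_pow₀ (Nat.one_le_cast.2 (Nat.mul_pos hN0 (by positivity)))
  have B2 : B ≠ ⊤ := hBe ▸ ENNReal.pow_ne_top (ENNReal.natCast_ne_top _)
  have B3 : (T.card : ℝ≥0∞) * (((s * (1 + m * (m + 1)) : ℕ) : ℝ≥0∞) ^ N * 3 ^ N) * 2 ^ N ≤ B := by
    have : T.card * ((s * (1 + m * (m + 1))) ^ N * 3 ^ N) * 2 ^ N ≤
        (N0 * (6 * s * (1 + m) ^ 2) ^ D) ^ (n + 1) := by
      rw [mul_pow N0, ← pow_mul, ← hN, mul_assoc, ← mul_pow, ← mul_pow]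
      refine Nat.mul_le_mul T1 (Nat.pow_le_pow_left ?_ _)
      have : s * (1 + m * (m + 1)) ≤ s * (1 + m) ^ 2 := Nat.mul_le_mul_left _ (by nlinarith)
      linarith
    rw [hBe]
    exact_mod_cast this
  have key := hJ Ω P _ (T.biUnion (Pl Q s)) t (fun c ω => val (H ω) (C ω) c 0)
    (fun c => Ps A c 0) B hM.t0 hM.t1 B1 B2 (fun c _ => F.meas (f1 c 0)) (fun c _ => f2 c 0)
    (fun c _ => f3 c 0) (fun c _ => f4 c 0) fun c hc => by
      obtain ⟨L, hL, hc⟩ := mem_biUnion.1 hc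
      obtain ⟨c1, c2, -, c4⟩ := q3 L hL c hc
      obtain ⟨b1, b2, b3⟩ := hB Ω P F t u Q s V H C A wg e β hM c 0
      have hO : ((Oc c 0).biUnion fun o => Icc (o - m) o).card ≤ m * (m + 1) * N := by
        refine (card_biUnion_le_card_mul _ _ (m + 1) fun o _ => ?_).trans ?_
        · rw [Nat.card_Icc]
          omega
        · calc _ ≤ N * m * (m + 1) :=
                Nat.mul_le_mul_right _ ((c4 0).trans (Nat.mul_le_mul_right _ (T2 L hL).1))
            _ = _ := by ring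
      have st : ∀ L' ∈ T, ∑ c' ∈ Pl Q s L', ∫⁻ ω in Ps A c' 0, val (H ω) (C ω) c 0 ^ t ∂P ≤
          (((s * (1 + m * (m + 1)) : ℕ) : ℝ≥0∞) ^ N * 3 ^ N) *
            (2 ^ N * ∫⁻ ω, val (H ω) (C ω) c 0 ^ t ∂P) := fun L' hL' => by
        obtain ⟨l1, l2, l3, l4⟩ := T2 L' hL'
        refine (sum_le_sum fun c' _ => lintegral_mono fun ω =>
          ENNReal.rpow_le_rpow (b2 ω) hM.t0.le).trans ((hI Ω P F Q s m A (Oc c 0)
            ((Oc c 0).biUnion fun o => Icc (o - m) o) hM.Q2 s1 hM.mA hM.PA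
            (fun p k hk hp => disjoint_left.2 fun o ho ho' => hp (mem_biUnion.2 ⟨o, ho', ?_⟩)) L'
            (fun x hx => hm ▸ Nat.mul_le_mul_right _ (Nat.succ_le_succ (l2 x hx).2.2.2)) 0 _
            ((F.up Set.subset_union_left b1).pow_const t)).trans (mul_le_mul' ?_ ?_))
        · rw [mem_Ico] at ho
          rw [mem_Icc]
          omega
        · refine (hC Q s (m * (m + 1)) _ L' (le_trans one_le_two hM.Q2) s1 a1
            (fun x hx => (l2 x hx).2.2.1) l3 l4).trans (mul_le_mul' ?_ ?_)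
          · exact pow_le_pow_right₀ (Nat.one_le_cast.2 (Nat.mul_pos s1 (by omega))) l1
          · refine (pow_le_pow_right₀ le_self_add hO).trans ?_
            rw [pow_mul]
            exact pow_le_pow_left' (three_Mom _ a1) N
        · exact (b3 c2).trans (mul_le_mul_left
            (pow_le_pow_right₀ one_le_two (c1.le.trans (T2 L hL).1)) _)
      rw [sum_biUnion dj]
      refine (sum_le_card_nsmul _ _ _ st).trans ?_
      rw [nsmul_eq_mul, ← mul_assoc, ← mul_assoc]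
      exact mul_le_mul_left B3 _
  have t2 : 0 ≤ 1 - t := sub_nonneg.2 hM.t1
  calc ENNReal.ofReal (a ^ (n + 1)) ≤ ∑ L ∈ T, ENNReal.ofReal (L.map fun x => β x.2).prod := by
        rw [← ENNReal.ofReal_sum_of_nonneg fun L _ => List.prod_nonneg fun x hx => by
          obtain ⟨y, -, rfl⟩ := List.mem_map.1 hx
          exact hM.b0 _]
        exact ENNReal.ofReal_le_ofReal T3
    _ ≤ ∑ c ∈ T.biUnion (Pl Q s), ∫⁻ ω, val (H ω) (C ω) c 0 ^ t ∂P := by
        rw [sum_biUnion dj]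
        exact sum_le_sum fun L hL => f5 L (fun x hx => ⟨((T2 L hL).2.1 x hx).1,
          ((T2 L hL).2.1 x hx).2.2⟩) 0
    _ ≤ _ := key
    _ ≤ _ := by
        refine mul_le_mul' ?_ ?_
        · rw [ENNReal.mul_rpow_of_nonneg _ _ t2, ← mul_assoc]
          refine mul_le_mul_left ?_ _
          calc (2 : ℝ≥0∞) * 2 ^ (1 - t) ≤ 2 * 2 ^ (1 : ℝ) := mul_le_mul_right
                (ENNReal.rpow_le_rpow_of_exponent_le one_le_two (by linarith [hM.t0])) _
            _ = 4 := by norm_num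
        · rw [← lintegral_finsetSum _ fun q _ =>
            (F.meas ((hM.adH.mul hM.adC).kst 0 q)).pow_const t]
          refine lintegral_mono fun ω => le_trans (ENNReal.rpow_le_rpow ?_ hM.t0.le)
            (rpow_sum_le _ _ hM.t0 hM.t1)
          have := hA (H ω) (C ω) (T.biUnion (Pl Q s)) 0 (N * (Q ^ R + m)) fun c hc => by
            obtain ⟨L, hL, hc⟩ := mem_biUnion.1 hc
            exact (q3 L hL c hc).2.2.1.trans (Nat.mul_le_mul_right _ (T2 L hL).1)
          rwa [zero_add] at this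

end Pool.Agent.MP_c26281_pr.SA

end

section

open MeasureTheory ProbabilityTheory Finset Filter Topology
open scoped ENNReal

namespace Pool.Agent.MP_c26281_pr.SA

theorem pAbsL (hM : SMom) : SAbsL := by
  intro Ω _ P _ F t u Q s V H C A wg e β M a R D N0 hN hT hB
  have h1 := hM Ω P F t u Q s V H C A wg e β M a R D N0
    ((Real.rpow_nonneg (Nat.cast_nonneg _) _).trans hB.le) hN hT
  have B1 : 1 ≤ N0 * (6 * s * (1 + (V + 1) * s) ^ 2) ^ D := by
    have := M.s1
    exact Nat.one_le_iff_ne_zero.2 (by positivity)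
  generalize N0 * (6 * s * (1 + (V + 1) * s) ^ 2) ^ D = B0 at h1 hB B1
  generalize Q ^ R + (V + 1) * s = E at h1
  have b1 : 1 ≤ (B0 : ℝ) ^ (1 - t) :=
    Real.one_le_rpow (by exact_mod_cast B1) (sub_nonneg.2 M.t1)
  have e1 : ∀ n : ℕ, (((B0 : ℕ) : ℝ≥0∞) ^ (n + 1)) ^ (1 - t)
      = ENNReal.ofReal (((B0 : ℝ) ^ (1 - t)) ^ (n + 1)) := fun n => by
    rw [← ENNReal.ofReal_natCast, ← ENNReal.ofReal_pow (Nat.cast_nonneg _),
      ENNReal.ofReal_rpow_of_nonneg (by positivity) (sub_nonneg.2 M.t1), ← Real.rpow_natCast,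
      ← Real.rpow_natCast, ← Real.rpow_mul (Nat.cast_nonneg _), ← Real.rpow_mul (Nat.cast_nonneg _),
      mul_comm]
  simp_rw [e1] at h1
  generalize (B0 : ℝ) ^ (1 - t) = b at h1 hB b1
  have wt : wg Q ^ t ≠ ⊤ := ENNReal.rpow_ne_top_of_nonneg M.t0.le (M.wfin _)
  have w0 : 0 < (wg Q ^ t).toReal := ENNReal.toReal_pos
    (ENNReal.rpow_pos (pos_iff_ne_zero.2 M.wpos) (M.wfin _)).ne' wt
  have bp : 0 < b := by linarith
  have ap : 0 < a := by linarith
  refine ⟨a / b, a / b * ((wg Q ^ t).toReal / 2) / (4 * (D * E + 1)), D * E + Q,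
    (one_lt_div bp).2 hB, by positivity, fun n => ?_⟩
  obtain ⟨q, hq, hmax⟩ := exists_max_image (Icc 0 (D * (n + 1) * E))
    (fun q => ∫⁻ ω, kst (H ω * C ω) 0 q ^ t ∂P) ⟨0, by simp⟩
  have hq := (mem_Icc.1 hq).2
  refine ⟨q + Q, by nlinarith, ?_⟩
  have h2 := (h1 n).trans (mul_le_mul_right (sum_le_card_nsmul _ _ _ hmax) _)
  have h3 : (∫⁻ ω, kst (H ω * C ω) 0 q ^ t ∂P) * ENNReal.ofReal ((wg Q ^ t).toReal / 2)
      ≤ ∫⁻ ω, (kst (H ω * C ω) * H ω) 0 (q + Q) ^ t ∂P := by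
    refine le_trans ?_ (lintegral_mono fun ω => ENNReal.rpow_le_rpow (k_term _ _ 0 q _) M.t0.le)
    simp only [ENNReal.mul_rpow_of_nonneg _ _ M.t0.le]
    rw [F.mul Set.Ico_disjoint_Ico_same (((M.adH.mul M.adC).kst 0 q).pow_const t)
      ((M.adH q (q + Q)).pow_const t)]
    refine mul_le_mul_right (le_trans ?_ (M.Hlo q Q le_rfl)) _
    conv_rhs => rw [← ENNReal.ofReal_toReal wt, ← ENNReal.ofReal_mul (by linarith [M.u1])]
    exact ENNReal.ofReal_le_ofReal (by nlinarith [M.u1])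
  refine le_trans ?_ h3
  generalize ∫⁻ ω, kst (H ω * C ω) 0 q ^ t ∂P = I at h2
  generalize (wg Q ^ t).toReal = w at w0
  rcases eq_or_ne I ⊤ with rfl | hI
  · rw [ENNReal.top_mul (ENNReal.ofReal_pos.2 (by positivity)).ne']; exact le_top
  lift I to NNReal using hI
  rw [Nat.card_Icc, nsmul_eq_mul, ← ENNReal.ofReal_natCast, ← ENNReal.ofReal_coe_nnreal,
    ← ENNReal.ofReal_ofNat 4, ← ENNReal.ofReal_mul (by positivity),
    ← ENNReal.ofReal_mul (by positivity), ← ENNReal.ofReal_mul (by positivity),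
    ENNReal.ofReal_le_ofReal_iff (by positivity)] at h2
  rw [← ENNReal.ofReal_coe_nnreal, ← ENNReal.ofReal_mul (by positivity)]
  refine ENNReal.ofReal_le_ofReal ?_
  have h4 : ((D * (n + 1) * E + 1 - 0 : ℕ) : ℝ) ≤ (D * E + 1) * (n + 1) := by
    exact_mod_cast (by rw [Nat.sub_zero]; nlinarith : D * (n + 1) * E + 1 - 0 ≤ (D * E + 1) * (n + 1))
  have h5 : (a / b) ^ (n + 1) ≤ 4 * (((D * E + 1) * (n + 1)) * I) := by
    rw [div_pow, div_le_iff₀ (by positivity)]
    refine h2.trans ?_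
    calc _ ≤ 4 * b ^ (n + 1) * ((D * E + 1) * (n + 1) * I) := by gcongr
      _ = _ := by ring
  rw [div_le_iff₀ (by positivity)]
  calc _ = (a / b) ^ (n + 1) * (w / 2) / (4 * (D * E + 1)) := by ring
    _ ≤ 4 * (((D * E + 1) * (n + 1)) * I) * (w / 2) / (4 * (D * E + 1)) := by gcongr
    _ = _ := by field_simp

end Pool.Agent.MP_c26281_pr.SA

end

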