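import Pool.Agent.MP_c26281_pr.SA.Old

section

/-! Calculus of log-linear minorants. -/

open MeasureTheory ProbabilityTheory Finset Filter Topology
open scoped ENNReal

namespace Pool.Agent.MP_c26281_pr.SA

theorem jen_Lin {ι : Type} (T : Finset ι) (u ξ : ι → ℝ) (W : ℝ) (hu : ∀ c ∈ T, 0 ≤ u c)
    (hW : ∑ c ∈ T, u c = W) (h0 : 0 < W) :
    W * Real.exp (∑ c ∈ T, u c / W * ξ c) ≤ ∑ c ∈ T, u c * Real.exp (ξ c) := by
  have h1 := convexOn_exp.map_sum_le (t := T) (w := fun c => u c / W) (p := ξ)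
    (fun c hc => div_nonneg (hu c hc) h0.le) (by rw [← sum_div, hW, div_self h0.ne'])
    (fun _ _ => Set.mem_univ _)
  simp only [smul_eq_mul] at h1
  refine (mul_le_mul_of_nonneg_left h1 h0.le).trans_eq ?_
  rw [mul_sum]
  refine sum_congr rfl fun c _ => ?_
  field_simp

theorem sum_Lin (lam h : ℝ) (ι : Type) (T : Finset ι) (f : ι → (ℕ → ℝ) → ℝ≥0∞) (w : ι → ℝ≥0∞)
    (i j : ℕ) (m : ℝ) (hm : 0 ≤ m) (H : ∀ c ∈ T, Lin lam h (f c) (w c) i j m) :
    Lin lam h (fun x => ∑ c ∈ T, f c x) (∑ c ∈ T, w c) i j m := by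
  have hw : ∀ c ∈ T, w c ≠ ⊤ := fun c hc => (H c hc).1
  refine ⟨ENNReal.sum_ne_top.mpr hw, ?_⟩
  choose! a h1 h2 h3 using fun c hc => (H c hc).2
  set W : ℝ := ∑ c ∈ T, (w c).toReal with hW
  have e1 : ∑ c ∈ T, w c = ENNReal.ofReal W := by
    rw [hW, ENNReal.ofReal_sum_of_nonneg fun _ _ => ENNReal.toReal_nonneg]
    exact sum_congr rfl fun c hc => (ENNReal.ofReal_toReal (hw c hc)).symm
  have hW0 : 0 ≤ W := sum_nonneg fun _ _ => ENNReal.toReal_nonneg
  rcases hW0.eq_or_lt with h0 | h0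
  · refine ⟨fun _ => 0, fun _ => ⟨le_rfl, zero_le_one⟩, by simpa using hm, fun x => ?_⟩
    rw [e1, ← h0]
    simp
  have hθ : ∀ c, 0 ≤ (w c).toReal / W := fun c => div_nonneg ENNReal.toReal_nonneg hW0
  have hs : ∑ c ∈ T, (w c).toReal / W = 1 := by rw [← sum_div, ← hW, div_self h0.ne']
  refine ⟨fun n => ∑ c ∈ T, (w c).toReal / W * a c n, fun n => ⟨?_, ?_⟩, ?_, fun x => ?_⟩
  · exact sum_nonneg fun c hc => mul_nonneg (hθ c) (h1 c hc n).1
  · rw [← hs]
    exact sum_le_sum fun c hc => mul_le_of_le_one_right (hθ c) (h1 c hc n).2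
  · rw [sum_comm]
    calc ∑ c ∈ T, ∑ n ∈ Ico i j, (w c).toReal / W * a c n ≤ ∑ c ∈ T, (w c).toReal / W * m :=
          sum_le_sum fun c hc => by
            rw [← mul_sum]
            exact mul_le_mul_of_nonneg_left (h2 c hc) (hθ c)
      _ = m := by rw [← sum_mul, hs, one_mul]
  · have e2 : -2 * lam * ∑ n ∈ Ico i j, (∑ c ∈ T, (w c).toReal / W * a c n) * (x n + h) =
        ∑ c ∈ T, (w c).toReal / W * (-2 * lam * ∑ n ∈ Ico i j, a c n * (x n + h)) := by
      simp only [sum_mul, mul_sum]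
      rw [sum_comm]
      refine sum_congr rfl fun c _ => sum_congr rfl fun n _ => ?_
      ring
    rw [e1, e2, ← ENNReal.ofReal_mul hW0]
    refine (ENNReal.ofReal_le_ofReal
      (jen_Lin T _ _ W (fun _ _ => ENNReal.toReal_nonneg) hW.symm h0)).trans ?_
    rw [ENNReal.ofReal_sum_of_nonneg fun _ _ => by positivity]
    refine sum_le_sum fun c hc => le_trans (le_of_eq ?_) (h3 c hc x)
    rw [ENNReal.ofReal_mul ENNReal.toReal_nonneg, ENNReal.ofReal_toReal (hw c hc)]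

theorem mul_Lin (lam h : ℝ) (f g : (ℕ → ℝ) → ℝ≥0∞) (w v : ℝ≥0∞) (i r j : ℕ) (m m' : ℝ)
    (hi : i ≤ r) (hj : r ≤ j) (H : Lin lam h f w i r m) (H' : Lin lam h g v r j m') :
    Lin lam h (fun x => f x * g x) (w * v) i j (m + m') := by
  obtain ⟨hw, a, a1, a2, a3⟩ := H
  obtain ⟨hv, b, b1, b2, b3⟩ := H'
  have e : ∀ y : ℕ → ℝ, ∑ n ∈ Ico i j, (if n < r then a n else b n) * y n =
      ∑ n ∈ Ico i r, a n * y n + ∑ n ∈ Ico r j, b n * y n := fun y => by
    rw [← sum_Ico_consecutive _ hi hj]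
    congr 1
    · exact sum_congr rfl fun n hn => by rw [if_pos (mem_Ico.mp hn).2]
    · exact sum_congr rfl fun n hn => by rw [if_neg (not_lt.mpr (mem_Ico.mp hn).1)]
  refine ⟨ENNReal.mul_ne_top hw hv, fun n => if n < r then a n else b n, fun n => ?_, ?_,
    fun x => ?_⟩
  · dsimp only
    split_ifs
    exacts [a1 n, b1 n]
  · have := e fun _ => 1
    simp only [mul_one] at this
    rw [this]
    linarith
  · rw [e fun n => x n + h, mul_add, Real.exp_add, ENNReal.ofReal_mul (Real.exp_pos _).le,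
      mul_mul_mul_comm]
    exact mul_le_mul' (a3 x) (b3 x)

theorem pLin : SLin := by
  intro lam h
  refine ⟨sum_Lin lam h, mul_Lin lam h, ?_, ?_, ?_, ?_⟩
  · rintro f g w v i j m m' ⟨hw, a, a1, a2, a3⟩ hf hv hm
    refine ⟨ne_top_of_le_ne_top hw hv, a, a1, ?_, fun x =>
      (mul_le_mul_left hv _).trans ((a3 x).trans (hf x))⟩
    rcases hm with hm | hm
    · exact a2.trans hm
    · refine le_trans ?_ hm
      have := sum_le_card_nsmul (Ico i j) a 1 fun n _ => (a1 n).2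
      simpa using this
  · intro w i j hw
    refine ⟨⟨hw, fun _ => 0, fun _ => ⟨le_rfl, zero_le_one⟩, by simp, fun x => by simp⟩,
      ⟨hw, fun _ => 1, fun _ => ⟨zero_le_one, le_rfl⟩, by simp, fun x => ?_⟩,
      ⟨ENNReal.mul_ne_top ENNReal.ofNat_ne_top hw, fun _ => 1 / 2,
        fun _ => ⟨by norm_num, by norm_num⟩, ?_, fun x => ?_⟩⟩
    · simp only [one_mul]
      exact le_rfl
    · rw [sum_const, Nat.card_Ico, nsmul_eq_mul]
      have : (0 : ℝ) ≤ (j - i : ℕ) := Nat.cast_nonneg _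
      linarith
    · rw [mul_comm 2 w, mul_assoc]
      refine mul_le_mul_right ?_ _
      unfold XX
      rw [← mul_sum, ← ENNReal.ofReal_one, ← ENNReal.ofReal_add zero_le_one (Real.exp_pos _).le,
        ← ENNReal.ofReal_ofNat 2, ← ENNReal.ofReal_mul zero_le_two]
      refine ENNReal.ofReal_le_ofReal ?_
      set S := ∑ n ∈ Ico i j, (x n + h)
      have e : Real.exp (-2 * lam * S) = Real.exp (-2 * lam * (1 / 2 * S)) ^ 2 := by
        rw [← Real.exp_nat_mul]
        congr 1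
        push_cast
        ring
      rw [e]
      nlinarith [sq_nonneg (Real.exp (-2 * lam * (1 / 2 * S)) - 1)]
  · intro A B w v m m' hm HA HB i j _
    simp only [k_mul]
    exact sum_Lin lam h ℕ (Icc i j) (fun r x => A x i r * B x r j) (fun r => w i r * v r j) i j _
      hm fun r hr => mul_Lin lam h _ _ _ _ i r j m m' (mem_Icc.mp hr).1 (mem_Icc.mp hr).2
        (HA i r (mem_Icc.mp hr).1) (HB r j (mem_Icc.mp hr).2)
  · intro ι T A w m hm H i j hij
    simp only [k_sum]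
    exact sum_Lin lam h ι T (fun c x => A c x i j) (fun c => w c i j) i j m hm
      fun c hc => H c hc i j hij

end Pool.Agent.MP_c26281_pr.SA

end

section

open MeasureTheory ProbabilityTheory Finset Filter Topology
open scoped ENNReal

namespace Pool.Agent.MP_c26281_pr.SA

theorem pow_Us (a : ℕ → ℝ≥0∞) (j : ℕ) : tk a ^ (j + 1) = tk (jD 1 a j) := by
  induction j with
  | zero => exact pow_one _
  | succ j ih =>
    rw [pow_succ', ih, tk_mul]
    exact congrArg tk (funext fun z => (one_mul _).symm)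

theorem mass_Us (a : ℕ → ℝ≥0∞) (j : ℕ) : ∑' z, jD 1 a j z = (∑' z, a z) ^ (j + 1) := by
  induction j with
  | zero => exact (pow_one _).symm
  | succ j ih =>
    rw [pow_succ', ← ih, ← tsum_cv]
    exact tsum_congr fun z => one_mul _

theorem kst_Us (a : ℕ → ℝ≥0∞) (n : ℕ) :
    kst (tk a) 0 n = (if 0 = n then 1 else 0) + jn 1 a n := by
  rw [kst, gsum_apply, tsum_eq_zero_add' ENNReal.summable, pow_zero, k_one, jn]
  congr 1
  refine tsum_congr fun j => ?_
  have := tk_add (jD 1 a j) 0 n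
  rwa [zero_add, ← pow_Us] at this

theorem tot_Us (a : ℕ → ℝ≥0∞) : ∑' n, kst (tk a) 0 n = (1 - ∑' z, a z)⁻¹ := by
  simp only [kst_Us, jn]
  rw [ENNReal.tsum_add, ENNReal.tsum_comm, ← ENNReal.tsum_geometric,
    tsum_eq_zero_add' (f := fun n => (∑' z, a z) ^ n) ENNReal.summable, pow_zero]
  simp only [mass_Us]
  congr 1
  rw [tsum_eq_single 0 fun b hb => if_neg hb.symm, if_pos rfl]

theorem pUs (hJ : SJn) : SUs := by
  rintro K α u κ k a0 ⟨k1, κ0, K0, -, h1, -, h2, -⟩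
  have k0 : (0 : ℝ) < k := by exact_mod_cast k1
  have p0 : 0 < κ * k := by positivity
  have z : ∀ n ∉ range (2 * k + 1), ks K k n = 0 := fun n hn =>
    if_neg fun h => hn (mem_range.2 (Nat.lt_succ_of_le h))
  have y : ∀ n ∈ range (2 * k + 1), ks K k n = ENNReal.ofReal (K n) := fun n hn =>
    if_pos (Nat.le_of_lt_succ (mem_range.1 hn))
  have m0 : 1 - ∑' n, ks K k n = ENNReal.ofReal (κ * k) := by
    rw [tsum_eq_sum z, sum_congr rfl y, ← ENNReal.ofReal_sum_of_nonneg fun n _ => K0 n,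
      ← ENNReal.ofReal_one, ← ENNReal.ofReal_sub _ (sum_nonneg fun n _ => K0 n), h1,
      sub_sub_cancel]
  have m1 : ∑' n : ℕ, (n : ℝ≥0∞) * ks K k n ≤ ENNReal.ofReal (5 * α * κ * k ^ 2) := by
    rw [tsum_eq_sum (s := range (2 * k + 1)) fun n hn => by rw [z n hn, mul_zero]]
    refine le_trans (le_of_eq ?_) (ENNReal.ofReal_le_ofReal h2)
    rw [ENNReal.ofReal_sum_of_nonneg fun n _ => mul_nonneg n.cast_nonneg (K0 n)]
    exact sum_congr rfl fun n hn => by
      rw [y n hn, ENNReal.ofReal_mul n.cast_nonneg, ENNReal.ofReal_natCast]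
  have m2 := (hJ 1 (ks K k)).2
  rw [one_mul, m0] at m2
  have mk : ∀ n : ℕ, kst (tk (ks K k)) 0 n ≤
      us K k n + ENNReal.ofReal (1 / (2 * k)) * ((n : ℝ≥0∞) * jn 1 (ks K k) n) := fun n => by
    by_cases h : n ≤ 2 * k
    · rw [us, if_pos h]
      exact le_self_add
    · rw [kst_Us, if_neg (by omega), zero_add, ← mul_assoc, ← ENNReal.ofReal_natCast,
        ← ENNReal.ofReal_mul (by positivity)]
      refine le_add_left (le_mul_of_one_le_left' (ENNReal.one_le_ofReal.2 ?_))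
      have : (2 * k : ℝ) ≤ n := by exact_mod_cast (not_le.1 h).le
      rwa [div_mul_eq_mul_div, one_mul, one_le_div (by positivity)]
  have m3 := ENNReal.tsum_le_tsum mk
  rw [tot_Us, m0, ENNReal.tsum_add, ENNReal.tsum_mul_left, ← ENNReal.ofReal_inv_of_pos p0] at m3
  rw [← ENNReal.ofReal_inv_of_pos p0] at m2
  have m4 := m3.trans (add_le_add_right (mul_le_mul_right (m2.trans (mul_le_mul_left m1 _)) _) _)
  rw [← ENNReal.ofReal_pow (by positivity), ← ENNReal.ofReal_mul (by positivity),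
    ← ENNReal.ofReal_mul (by positivity), ← tsub_le_iff_right,
    ← ENNReal.ofReal_sub _ (by positivity)] at m4
  refine le_trans (le_of_eq (congrArg _ ?_)) m4
  field_simp

end Pool.Agent.MP_c26281_pr.SA

end

section

open MeasureTheory ProbabilityTheory Finset Filter Topology
open scoped ENNReal

namespace Pool.Agent.MP_c26281_pr.SA

theorem pow_zero_UsL {a : ℕ → ℝ≥0∞} (h : a 0 = 0) (p : ℕ) :
    ∀ i j, j < i + p → (tk a ^ p) i j = 0 := by
  induction p with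
  | zero => intro i j hj; exact k_zero _ hj
  | succ p ih =>
    intro i j hj
    rw [pow_succ', k_mul]
    refine sum_eq_zero fun r hr => ?_
    have hr := mem_Icc.1 hr
    rcases eq_or_lt_of_le hr.1 with rfl | h1
    · rw [show tk a i i = a 0 from tk_add a i 0, h, zero_mul]
    · rw [ih r j (by omega), mul_zero]

theorem pUsL (hL : SLin) : SUsL := by
  intro K k lam h hK h0
  obtain ⟨L1, -, L3, L4, L5, -⟩ := hL lam h
  have k1 : KL lam h (fun x => klo (2 * k + 1) (Kall K lam h x)) (tk (ks K k)) (2 * k) := by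
    intro i j hij
    obtain ⟨n, rfl⟩ := Nat.exists_eq_add_of_le hij
    rw [tk_add]
    by_cases hn : n ≤ 2 * k
    · refine L3 _ _ _ _ _ _ _ _ (L4 (ENNReal.ofReal (K n / 2)) i (i + n) ENNReal.ofReal_ne_top).2.2
        (fun x => le_of_eq ?_) (le_of_eq ?_) (Or.inr ?_)
      · beta_reduce
        rw [klo, kmk_add, Nat.add_sub_cancel_left, if_pos (by omega), Kall, kmk_add,
          Nat.add_sub_cancel_left]
      · rw [ks, if_pos hn, ← ENNReal.ofReal_ofNat 2, ← ENNReal.ofReal_mul two_pos.le]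
        congr 1; ring
      · rw [Nat.add_sub_cancel_left]; exact_mod_cast hn
    · exact L3 _ _ _ _ _ _ _ _ (L4 0 i (i + n) ENNReal.zero_ne_top).1 (fun x => zero_le)
        (by rw [ks, if_neg hn]) (Or.inl (by positivity))
  have k2 : ∀ p : ℕ, KL lam h (fun x => klo (2 * k + 1) (Kall K lam h x) ^ p) (tk (ks K k) ^ p)
      (p * (2 * k)) := by
    intro p
    induction p with
    | zero =>
      intro i j _
      simp only [pow_zero, Nat.cast_zero, zero_mul]
      exact (L4 _ i j (by rw [k_one]; split_ifs <;> simp)).1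
    | succ p ih =>
      have := L5 _ _ _ _ _ _ (by positivity) ih k1
      simp only [pow_succ]
      rwa [Nat.cast_succ, add_mul, one_mul]
  intro i j hij
  obtain ⟨n, rfl⟩ := Nat.exists_eq_add_of_le hij
  rw [tk_add]
  by_cases hn : n ≤ 2 * k
  · have := L1 ℕ (range (n + 1)) (fun p x => (klo (2 * k + 1) (Kall K lam h x) ^ p) i (i + n))
      (fun p => (tk (ks K k) ^ p) i (i + n)) i (i + n) (2 * k) (by positivity) fun p _ =>
        L3 _ _ _ _ _ _ _ _ (k2 p i (i + n) hij) (fun _ => le_rfl) le_rfl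
          (Or.inr (by rw [Nat.add_sub_cancel_left]; exact_mod_cast hn))
    refine L3 _ _ _ _ _ _ _ _ this (fun x => ?_) (le_of_eq ?_) (Or.inl le_rfl)
    · rw [← k_sum]; exact sum_le_gsum _ _ _ _
    · rw [us, if_pos hn, ← tk_add (fun n => kst (tk (ks K k)) 0 n) i n, ← kst_tk, kst, gsum_apply]
      refine tsum_eq_sum fun p hp => pow_zero_UsL (by simp [ks, h0]) p _ _ ?_
      have := mem_range.not.1 hp; omega
  · exact L3 _ _ _ _ _ _ _ _ (L4 0 i (i + n) ENNReal.zero_ne_top).1 (fun x => zero_le)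
      (by rw [us, if_neg hn]) (Or.inl (by positivity))

end Pool.Agent.MP_c26281_pr.SA

end

section

/-! The junction: a log-linear minorant of bounded range and almost full mass. -/

open MeasureTheory ProbabilityTheory Finset Filter Topology
open scoped ENNReal

namespace Pool.Agent.MP_c26281_pr.SA

/-- iterated convolution `a * (b * a)^p` -/
noncomputable def ee_Jun (a b : ℕ → ℝ≥0∞) : ℕ → ℕ → ℝ≥0∞
  | 0 => a
  | p + 1 => cv (cv a b) (ee_Jun a b p)

theorem cv_supp_Jun {a b : ℕ → ℝ≥0∞} {s t : ℕ} (ha : ∀ n, s < n → a n = 0)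
    (hb : ∀ n, t < n → b n = 0) (n : ℕ) (hn : s + t < n) : cv a b n = 0 := by
  unfold cv
  refine sum_eq_zero fun x hx => ?_
  have hx' : x.1 + x.2 = n := mem_antidiagonal.1 hx
  rcases lt_or_ge s x.1 with h | h
  · rw [ha _ h, zero_mul]
  · rw [hb _ (by omega), mul_zero]

theorem ee_supp_Jun {a b : ℕ → ℝ≥0∞} {s t : ℕ} (ha : ∀ n, s < n → a n = 0)
    (hb : ∀ n, t < n → b n = 0) (p : ℕ) : ∀ n, p * (s + t) + s < n → ee_Jun a b p n = 0 := by
  induction p with
  | zero => intro n hn; exact ha n (by omega)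
  | succ p ih =>
    intro n hn
    refine cv_supp_Jun (cv_supp_Jun ha hb) ih n ?_
    rw [add_mul, one_mul] at hn
    omega

theorem ee_mass_Jun (a b : ℕ → ℝ≥0∞) (p : ℕ) :
    ∑' n, ee_Jun a b p n = ((∑' n, a n) * ∑' n, b n) ^ p * ∑' n, a n := by
  induction p with
  | zero => simp [ee_Jun]
  | succ p ih =>
    show ∑' n, cv (cv a b) (ee_Jun a b p) n = _
    rw [tsum_cv, tsum_cv, ih, pow_succ', mul_assoc, mul_assoc, mul_assoc]

theorem tk_sum_Jun (s : Finset ℕ) (e : ℕ → ℕ → ℝ≥0∞) :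
    ∑ p ∈ s, tk (e p) = tk fun n => ∑ p ∈ s, e p n := by
  ext p q h
  obtain ⟨n, rfl⟩ := Nat.exists_eq_add_of_le h
  rw [k_sum, tk_add]
  exact sum_congr rfl fun c _ => tk_add _ _ _

theorem ee_KL_Jun (hL : SLin) (lam h : ℝ) (U : (ℕ → ℝ) → IA) (a b : ℕ → ℝ≥0∞) (m : ℝ)
    (hm : 0 ≤ m) (hU : KL lam h U (tk a) m) (hb : ∀ n, b n ≠ ⊤) (p : ℕ) :
    KL lam h (fun x => (U x * tk b) ^ p * U x) (tk (ee_Jun a b p)) ((p + 1) * m) := by
  obtain ⟨-, -, -, h4, h5, -⟩ := hL lam h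
  have hB : KL lam h (fun _ => tk b) (tk b) 0 := fun i j hij => by
    refine (h4 _ i j ?_).1
    obtain ⟨n, rfl⟩ := Nat.exists_eq_add_of_le hij
    rw [tk_add]; exact hb n
  have hUB := h5 U (fun _ => tk b) _ _ m 0 (by simpa using hm) hU hB
  induction p with
  | zero => simpa [ee_Jun] using hU
  | succ p ih =>
    have := h5 _ _ _ _ _ _ (by positivity) hUB ih
    rw [tk_mul, tk_mul] at this
    have e1 : (fun x => (U x * tk b) ^ (p + 1) * U x)
        = fun x => U x * tk b * ((U x * tk b) ^ p * U x) := by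
      funext x; rw [pow_succ', mul_assoc]
    have e2 : (((p + 1 : ℕ) : ℝ) + 1) * m = m + 0 + (p + 1) * m := by push_cast; ring
    rw [e1, e2]
    exact this

theorem geo_Jun (u : ℝ) (J : ℕ) (h0 : 0 < u) (h1 : u ≤ 1) (hJ : (1 / 2 : ℝ) ^ (J + 1) ≤ u / 8) :
    2 - u ≤ (∑ p ∈ range (J + 1), ((1 - u / 8) / 2) ^ p) * (1 - u / 16) := by
  have e := mul_neg_geom_sum ((1 - u / 8) / 2 : ℝ) (J + 1)
  have h2 : ((1 - u / 8) / 2 : ℝ) ^ (J + 1) ≤ (1 / 2) ^ (J + 1) :=
    pow_le_pow_left₀ (by linarith) (by linarith) _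
  generalize (∑ p ∈ range (J + 1), ((1 - u / 8) / 2 : ℝ) ^ p) = S at e ⊢
  have h3 : 1 - u / 8 ≤ (1 - (1 - u / 8) / 2) * S := by linarith
  have h4 : (1 - u / 8) * (1 - u / 16) ≤ (1 - (1 - u / 8) / 2) * S * (1 - u / 16) :=
    mul_le_mul_of_nonneg_right h3 (by linarith)
  have h5 : (1 - (1 - u / 8) / 2) * (2 - u) ≤ (1 - (1 - u / 8) / 2) * (S * (1 - u / 16)) := by
    nlinarith
  exact le_of_mul_le_mul_left h5 (by linarith)

theorem kz_mass_Jun (K : ℕ → ℝ) (k L : ℕ) (hK : ∀ n, 0 ≤ K n) :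
    ENNReal.ofReal ((∑ n ∈ Ioc (2 * k) (L * k), K n) / 2) ≤ ∑' n, kz K k L n := by
  refine le_trans ?_ (ENNReal.sum_le_tsum (Ioc (2 * k) (L * k)))
  rw [sum_div, ENNReal.ofReal_sum_of_nonneg fun n _ => div_nonneg (hK n) zero_le_two]
  refine sum_le_sum fun n hn => ?_
  rw [kz, if_pos (mem_Ioc.1 hn)]

theorem pJun (hL : SLin) (hU : SUs) (hUL : SUsL) : SJun := by
  intro u h0 h1
  obtain ⟨J, hJ⟩ := exists_pow_lt_of_lt_one (show 0 < u / 8 by positivity)
    (show (1 / 2 : ℝ) < 1 by norm_num)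
  have hJ' : (1 / 2 : ℝ) ^ (J + 1) ≤ u / 8 := by
    rw [pow_succ]
    have : (0 : ℝ) ≤ (1 / 2) ^ J := by positivity
    linarith
  refine ⟨J, u / 40, by positivity, ?_⟩
  intro α ha0 ha1 K v κ lam h k L hK hL2 hLa
  have hUs := hU K α v κ k ha0.le hK
  obtain ⟨hk, hκ, hK0, hK00, -, -, -, hlast⟩ := hK
  have hkR : (0 : ℝ) < k := by exact_mod_cast hk
  have hκk : 0 < κ * k := mul_pos hκ hkR
  refine ⟨fun n => ∑ p ∈ range (J + 1), ee_Jun (us K k) (kz K k L) p n, ?_, ?_, ?_⟩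
  · intro n hn
    refine sum_eq_zero fun p hp => ?_
    have hp' : p ≤ J := Nat.lt_succ_iff.1 (mem_range.1 hp)
    refine ee_supp_Jun (s := 2 * k) (t := L * k) (fun n hn => ?_) (fun n hn => ?_) p n ?_
    · rw [us, if_neg (by omega)]
    · rw [kz, if_neg (by omega)]
    · refine lt_of_le_of_lt ?_ hn
      calc p * (2 * k + L * k) + 2 * k ≤ J * (2 * k + L * k) + (2 * k + L * k) :=
            add_le_add (Nat.mul_le_mul_right _ hp') (Nat.le_add_right _ _)
        _ = (J + 1) * (L + 2) * k := by ring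
  · rw [Summable.tsum_finsetSum fun _ _ => ENNReal.summable]
    simp only [ee_mass_Jun]
    have hA : ENNReal.ofReal ((1 - u / 16) / (κ * k)) ≤ ∑' n, us K k n := by
      refine le_trans (ENNReal.ofReal_le_ofReal ?_) hUs
      exact div_le_div_of_nonneg_right (by linarith) hκk.le
    have hB : ENNReal.ofReal (κ * k * (1 - u / 16) / 2) ≤ ∑' n, kz K k L n := by
      refine le_trans (ENNReal.ofReal_le_ofReal ?_) (kz_mass_Jun K k L hK0)
      refine div_le_div_of_nonneg_right (le_trans ?_ (hlast L hL2)) zero_le_two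
      exact mul_le_mul_of_nonneg_left (by linarith) hκk.le
    have hpos : 0 ≤ (1 - u / 16) / (κ * k) := div_nonneg (by linarith) hκk.le
    have hAB : ENNReal.ofReal ((1 - u / 8) / 2) ≤ (∑' n, us K k n) * ∑' n, kz K k L n := by
      refine le_trans ?_ (mul_le_mul' hA hB)
      rw [← ENNReal.ofReal_mul hpos]
      refine ENNReal.ofReal_le_ofReal ?_
      have : (1 - u / 16) / (κ * k) * (κ * k * (1 - u / 16) / 2) = (1 - u / 16) ^ 2 / 2 := by
        field_simp
      rw [this]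
      nlinarith [sq_nonneg u]
    have hr : (0 : ℝ) ≤ (1 - u / 8) / 2 := by linarith
    calc ENNReal.ofReal ((2 - u) / (κ * k))
        ≤ ENNReal.ofReal (∑ p ∈ range (J + 1), ((1 - u / 8) / 2) ^ p * ((1 - u / 16) / (κ * k))) := by
          refine ENNReal.ofReal_le_ofReal ?_
          rw [← sum_mul, ← mul_div_assoc]
          exact div_le_div_of_nonneg_right (geo_Jun u J h0 h1 hJ') hκk.le
      _ = ∑ p ∈ range (J + 1), ENNReal.ofReal ((1 - u / 8) / 2) ^ p *
            ENNReal.ofReal ((1 - u / 16) / (κ * k)) := by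
          rw [ENNReal.ofReal_sum_of_nonneg fun p _ => mul_nonneg (pow_nonneg hr p) hpos]
          refine sum_congr rfl fun p _ => ?_
          rw [ENNReal.ofReal_mul (pow_nonneg hr p), ENNReal.ofReal_pow hr]
      _ ≤ _ := sum_le_sum fun p _ => mul_le_mul' (pow_le_pow_left' hAB p) hA
  · have hm : (0 : ℝ) ≤ 2 * k := by positivity
    have hb : ∀ n, kz K k L n ≠ ⊤ := fun n => by
      unfold kz; split_ifs <;> simp
    have hp := ee_KL_Jun hL lam h _ _ (kz K k L) (2 * k) hm (hUL K k lam h hK0 hK00) hb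
    obtain ⟨-, -, h3, -, -, h6⟩ := hL lam h
    have hs := h6 ℕ (range (J + 1)) _ _ (((J : ℝ) + 1) * (2 * k)) (by positivity)
      (fun p hp' i j hij => h3 _ _ _ _ i j _ _ (hp p i j hij) (fun _ => le_rfl) le_rfl
        (Or.inl (mul_le_mul_of_nonneg_right (by
          have : p ≤ J := Nat.lt_succ_iff.1 (mem_range.1 hp')
          have : (p : ℝ) ≤ J := by exact_mod_cast this
          linarith) hm)))
    rw [tk_sum_Jun] at hs
    intro i j hij
    refine h3 _ _ _ _ i j _ _ (hs i j hij) (fun x => ?_) le_rfl (Or.inl le_rfl)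
    refine le_def.1 ?_ i j
    unfold GG
    rw [kst_add]
    conv_rhs => rw [kst, gsum_mul]
    exact sum_le_gsum _ _

end Pool.Agent.MP_c26281_pr.SA

end

section

open MeasureTheory ProbabilityTheory Finset Filter Topology
open scoped ENNReal

namespace Pool.Agent.MP_c26281_pr.SA

theorem cvl_Gap (g F : ℕ → ℝ≥0∞) (c : ℝ≥0∞) (T n : ℕ) (hT : T ≤ n)
    (h : ∀ a ≤ T, c ≤ F (n - a)) : (∑ a ∈ range (T + 1), g a) * c ≤ cv g F n := by
  rw [cv, Finset.Nat.sum_antidiagonal_eq_sum_range_succ_mk, sum_mul]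
  refine le_trans (sum_le_sum fun a ha => ?_)
    (sum_le_sum_of_subset (range_subset_range.2 (Nat.succ_le_succ hT)))
  exact mul_le_mul_right (h a (Nat.lt_succ_iff.1 (mem_range.1 ha))) _

theorem cvr_Gap (g F : ℕ → ℝ≥0∞) (c : ℝ≥0∞) (T n : ℕ) (hT : T ≤ n)
    (h : ∀ a ≤ T, c ≤ F (n - a)) : c * ∑ a ∈ range (T + 1), g a ≤ cv F g n := by
  have e : cv F g n = cv g F n := by
    rw [cv, cv, ← Finset.Nat.sum_antidiagonal_swap]
    exact sum_congr rfl fun x _ => mul_comm _ _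
  rw [e, mul_comm]
  exact cvl_Gap g F c T n hT h

theorem wt_Gap {K : ℕ → ℝ} {α u κ : ℝ} {k L S l n : ℕ} {g : ℕ → ℝ≥0∞} {γ : ℝ≥0∞} (hα : 0 < α)
    (hu : u ≤ 1) (hK : KA K α u κ k) (hg : ∀ n, S * k < n → g n = 0) (hγ : γ ≤ ∑' n, g n)
    (hl : 2 * S + L + 3 ≤ l) (h1 : l * k < n + 2 * k) (h2 : n ≤ l * k) :
    γ * ENNReal.ofReal (κ * α * (1 - u) * (l : ℝ) ^ (-(1 + α)) / 2) * γ ≤
      cv (cv g (km K k L)) g n := by
  have e : ∑' n, g n = ∑ a ∈ range (S * k + 1), g a :=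
    tsum_eq_sum fun b hb => hg b (by simpa using hb)
  have h3 : (2 * S + L + 3) * k ≤ l * k := Nat.mul_le_mul_right k hl
  have h4 : (2 * S + L + 3) * k = 2 * (S * k) + L * k + 3 * k := by ring
  have hk := hK.1
  rw [e] at hγ
  refine le_trans (mul_le_mul' (mul_le_mul_left hγ _) hγ) (cvr_Gap _ _ _ _ _ (by omega)
    fun b hb => cvl_Gap _ _ _ _ _ (by omega) fun a ha => ?_)
  obtain ⟨m, hm⟩ : ∃ m, m = n - b - a := ⟨_, rfl⟩
  rw [← hm, km, if_pos (by omega)]
  refine ENNReal.ofReal_le_ofReal (div_le_div_of_nonneg_right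
    (le_trans ?_ (hK.2.2.2.2.2.1 m (by omega)).1) (by norm_num))
  have m0 : (0 : ℝ) < m := by exact_mod_cast (by omega : 0 < m)
  have l0 : (0 : ℝ) < l := by exact_mod_cast (by omega : 0 < l)
  have h5 : (l : ℝ)⁻¹ ≤ (k : ℝ) / m := by
    rw [le_div_iff₀ m0, inv_mul_le_iff₀ l0]
    exact_mod_cast (by omega : m ≤ l * k)
  refine mul_le_mul_of_nonneg_left ?_
    (mul_nonneg (mul_nonneg hK.2.1.le hα.le) (sub_nonneg.2 hu))
  rw [Real.rpow_neg l0.le, ← Real.inv_rpow l0.le]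
  exact Real.rpow_le_rpow (inv_nonneg.2 l0.le) h5 (by linarith)

theorem pGap (hL : SLin) : SGap := by
  intro K α u κ lam h m k L S g hα hu0 hu hm hK _ hg hγ hG q l hl
  obtain ⟨L1, L2, L3, L4, L5, -⟩ := hL lam h
  have hk := hK.1
  have hκ := hK.2.1
  have c1 : KL lam h (fun _ => tk (km K k L)) (tk (km K k L)) 0 := fun i j hij => by
    refine (L4 _ i j ?_).1
    rw [tk, kmk_of_le _ hij, km]
    split_ifs
    · exact ENNReal.ofReal_ne_top
    · exact ENNReal.zero_ne_top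
  have c2 := L5 _ _ _ _ _ _ (by linarith) (L5 _ _ _ _ _ _ (by linarith) hG c1) hG
  rw [tk_mul, tk_mul] at c2
  have e1 : q + l - 1 + 1 = q + l := by omega
  have b1 : ∀ z ∈ blk k q, q * k ≤ z ∧ z < q * k + k := fun z hz => by
    have := mem_Ico.1 hz
    rw [add_mul, one_mul] at this
    exact this
  have b2 : ∀ w ∈ blk k (q + l - 1), q * k + l * k ≤ w + k ∧ w < q * k + l * k := fun w hw => by
    have := mem_Ico.1 hw
    have e2 : (q + l - 1 + 1) * k = (q + l - 1) * k + k := by ring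
    have e3 : (q + l - 1 + 1) * k = q * k + l * k := by rw [e1, add_mul]
    omega
  have l3 : 3 * k ≤ l * k := Nat.mul_le_mul_right k (by omega)
  have e4 : (q + l) * k = q * k + l * k := add_mul _ _ _
  have t1 : ∀ z ∈ blk k q, ∀ w ∈ blk k (q + l - 1), Lin lam h
      (fun x => rr k κ lam h x z *
        (GG K k L lam h x * tk (km K k L) * GG K k L lam h x) z w * ll k lam h x w)
      (ENNReal.ofReal κ * tk (cv (cv g (km K k L)) g) z w * 1) (q * k) ((q + l) * k)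
      (k + (m + 0 + m) + k) := by
    intro z hz w hw
    obtain ⟨z1, z2⟩ := b1 z hz
    obtain ⟨w1, w2⟩ := b2 w hw
    have d1 : z / k = q := by
      rw [Nat.div_eq_iff (by omega)]
      omega
    have d2 : w / k + 1 = q + l := by
      have : w / k = q + l - 1 := by
        have := mem_Ico.1 hw
        have e2 : (q + l - 1 + 1) * k = (q + l - 1) * k + k := by ring
        rw [Nat.div_eq_iff (by omega)]
        omega
      omega
    have p1 : Lin lam h (fun x => rr k κ lam h x z) (ENNReal.ofReal κ) (q * k) z k :=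
      L3 _ _ _ _ _ _ _ _ (L4 _ (q * k) z ENNReal.ofReal_ne_top).2.1
        (fun x => by rw [rr, d1]) le_rfl (Or.inl (by exact_mod_cast (by omega : z - q * k ≤ k)))
    have p3 : Lin lam h (fun x => ll k lam h x w) 1 w ((q + l) * k) k :=
      L3 _ _ _ _ _ _ _ _ (L4 _ w ((q + l) * k) ENNReal.one_ne_top).2.1
        (fun x => by rw [ll, d2, one_mul]) le_rfl
        (Or.inl (by exact_mod_cast (by omega : (q + l) * k - w ≤ k)))
    exact L2 _ _ _ _ _ w _ _ _ (by omega) (by omega)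
      (L2 _ _ _ _ _ z _ _ _ z1 (by omega) p1 (c2 z w (by omega))) p3
  have m0 : (0 : ℝ) ≤ k + (m + 0 + m) + k := by positivity
  have t2 := L1 _ _ _ _ _ _ _ m0 fun z hz => L1 _ _ _ _ _ _ _ m0 (t1 z hz)
  refine L3 _ _ _ _ _ _ _ _ t2 (fun x => ?_) ?_ (Or.inl (by linarith))
  · rw [HL, cg, kmk_add, if_pos (by omega)]
  · have k0 : (0 : ℝ) < k := by exact_mod_cast hk
    have P0 : 0 ≤ (l : ℝ) ^ (-(1 + α)) := Real.rpow_nonneg (Nat.cast_nonneg l) _
    have g0 : 0 ≤ (2 - u) / (κ * k) := div_nonneg (by linarith) (by positivity)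
    have w0 : 0 ≤ κ * α * (1 - u) * (l : ℝ) ^ (-(1 + α)) / 2 :=
      div_nonneg (mul_nonneg (mul_nonneg (by positivity) (sub_nonneg.2 hu)) P0) (by norm_num)
    have s1 : ∀ r, (blk k r).card = k := fun r => by
      rw [blk, Nat.card_Ico, add_mul, one_mul, Nat.add_sub_cancel_left]
    refine le_trans ?_ (sum_le_sum fun z hz => sum_le_sum fun w hw =>
      (?_ : ENNReal.ofReal κ * (ENNReal.ofReal ((2 - u) / (κ * k)) *
        ENNReal.ofReal (κ * α * (1 - u) * (l : ℝ) ^ (-(1 + α)) / 2) *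
        ENNReal.ofReal ((2 - u) / (κ * k))) ≤ _))
    · rw [sum_const, sum_const, s1, s1, nsmul_eq_mul, nsmul_eq_mul, ← ENNReal.ofReal_mul g0,
        ← ENNReal.ofReal_mul (mul_nonneg g0 w0), ← ENNReal.ofReal_mul hκ.le,
        ← ENNReal.ofReal_natCast k, ← ENNReal.ofReal_mul k0.le, ← ENNReal.ofReal_mul k0.le, pw]
      refine ENNReal.ofReal_le_ofReal ?_
      have e5 : (k : ℝ) * (k * (κ * ((2 - u) / (κ * k) *
          (κ * α * (1 - u) * (l : ℝ) ^ (-(1 + α)) / 2) * ((2 - u) / (κ * k))))) =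
          (2 - u) ^ 2 * (α * (1 - u) * (l : ℝ) ^ (-(1 + α))) / 2 := by
        field_simp
      rw [e5]
      nlinarith [mul_nonneg (sq_nonneg u) (mul_nonneg (mul_nonneg hα.le (sub_nonneg.2 hu)) P0)]
    · obtain ⟨z1, z2⟩ := b1 z hz
      obtain ⟨w1, w2⟩ := b2 w hw
      rw [mul_one, tk, kmk_of_le _ (by omega)]
      exact mul_le_mul_right (wt_Gap hα hu hK hg hγ hl (by omega) (by omega)) _

end Pool.Agent.MP_c26281_pr.SA

end

section

open MeasureTheory ProbabilityTheory Finset Filter Topology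
open scoped ENNReal

namespace Pool.Agent.MP_c26281_pr.SA

theorem ofi_Min {Ω : Type*} [MeasurableSpace Ω] {P : Measure Ω} {g : Ω → ℝ}
    (hg : Integrable g P) :
    ENNReal.ofReal (∫ x, g x ∂P) ≤ ∫⁻ x, ENNReal.ofReal (g x) ∂P := by
  have h1 : Integrable (fun x => max (g x) 0) P := hg.pos_part
  calc ENNReal.ofReal (∫ x, g x ∂P) ≤ ENNReal.ofReal (∫ x, max (g x) 0 ∂P) :=
        ENNReal.ofReal_le_ofReal (integral_mono hg h1 fun x => le_max_left _ _)
    _ = ∫⁻ x, ENNReal.ofReal (max (g x) 0) ∂P :=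
        ofReal_integral_eq_lintegral_ofReal h1 (Eventually.of_forall fun x => le_max_right _ _)
    _ = ∫⁻ x, ENNReal.ofReal (g x) ∂P := by
        refine lintegral_congr fun x => ?_
        rcases le_total (g x) 0 with h | h
        · rw [max_eq_right h, ENNReal.ofReal_zero, ENNReal.ofReal_of_nonpos h]
        · rw [max_eq_left h]

theorem sq_Min {μ : Measure ℝ} [IsProbabilityMeasure μ] (hμ : Ch μ) (a : ℕ → ℝ) (s : Finset ℕ) :
    MemLp (fun x : ℕ → ℝ => ∑ n ∈ s, a n * x n) 2 (PP μ) ∧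
      ∫ x, (∑ n ∈ s, a n * x n) ^ 2 ∂(PP μ) = ∑ n ∈ s, a n ^ 2 := by
  have mp := fun n : ℕ => measurePreserving_eval_infinitePi (fun _ : ℕ => μ) n
  have i2 : Integrable (fun x : ℝ => x ^ 2) μ :=
    integrable_pow_of_integrable_exp_mul (X := fun x => x) one_ne_zero (hμ.2.2 1) (hμ.2.2 (-1)) 2
  have l0 : MemLp (fun x : ℝ => x) 2 μ :=
    (memLp_two_iff_integrable_sq measurable_id.aestronglyMeasurable).2 i2
  have l1 : ∀ n, MemLp (fun x : ℕ → ℝ => x n) 2 (PP μ) := fun n =>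
    l0.comp_measurePreserving (mp n)
  have l2 : ∀ n, MemLp (fun x : ℕ → ℝ => a n * x n) 2 (PP μ) := fun n => (l1 n).const_mul _
  have e0 : ∀ (n : ℕ) (g : ℝ → ℝ), Measurable g → ∫ x, g (x n) ∂(PP μ) = ∫ y, g y ∂μ := by
    intro n g hg
    have := integral_map (μ := PP μ) (φ := fun x : ℕ → ℝ => x n) (f := g)
      (measurable_pi_apply n).aemeasurable hg.aestronglyMeasurable
    rw [← this]
    congr 1
    exact (mp n).map_eq
  have e1 : ∀ n, ∫ x, x n ∂(PP μ) = 0 := fun n => (e0 n (fun y => y) measurable_id).trans hμ.1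
  have e2 : ∀ n, ∫ x, x n ^ 2 ∂(PP μ) = 1 := fun n =>
    (e0 n (fun y => y ^ 2) (by fun_prop)).trans hμ.2.1
  have l3 : MemLp (fun x : ℕ → ℝ => ∑ n ∈ s, a n * x n) 2 (PP μ) :=
    memLp_finsetSum s fun n _ => l2 n
  refine ⟨l3, ?_⟩
  have e3 : ∫ x, ∑ n ∈ s, a n * x n ∂(PP μ) = 0 := by
    rw [integral_finsetSum _ fun n _ => (l2 n).integrable one_le_two]
    exact sum_eq_zero fun n _ => by rw [integral_const_mul, e1, mul_zero]
  rw [← variance_of_integral_eq_zero l3.aemeasurable e3]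
  have hv := IndepFun.variance_sum (μ := PP μ) (X := fun n (x : ℕ → ℝ) => a n * x n) (s := s)
    (fun n _ => l2 n) (fun n _ k _ hnk =>
      ((ind_ev μ).indepFun hnk).comp (measurable_const_mul (a n)) (measurable_const_mul (a k)))
  have e4 : (∑ n ∈ s, fun x : ℕ → ℝ => a n * x n) = fun x => ∑ n ∈ s, a n * x n := by
    funext x; rw [Finset.sum_apply]
  rw [e4] at hv
  rw [hv]
  refine sum_congr rfl fun n _ => ?_
  rw [variance_const_mul, variance_of_integral_eq_zero (l1 n).aemeasurable (e1 n), e2, mul_one]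

theorem abs_Min {Ω : Type*} [MeasurableSpace Ω] {P : Measure Ω} [IsProbabilityMeasure P]
    {Y : Ω → ℝ} (hY : MemLp Y 2 P) {m : ℝ} (hm : ∫ x, Y x ^ 2 ∂P ≤ m) :
    ∫ x, |Y x| ∂P ≤ Real.sqrt m := by
  refine Real.le_sqrt_of_sq_le ?_
  have h1 := variance_nonneg (fun x => |Y x|) P
  have hY2 : MemLp (fun x => |Y x|) 2 P := hY.abs
  rw [variance_eq_sub hY2] at h1
  have e : ∫ x, ((fun x => |Y x|) ^ 2) x ∂P = ∫ x, Y x ^ 2 ∂P := by
    refine integral_congr_ae (Eventually.of_forall fun x => ?_)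
    simp
  have h2 : (∫ x, |Y x| ∂P) ^ 2 ≤ ∫ x, ((fun x => |Y x|) ^ 2) x ∂P := sub_nonneg.1 h1
  exact h2.trans (e.le.trans hm)

theorem pMin : SMin := by
  intro μ _ hμ lam h m t f w i j hl hh ht0 ht1 hL
  obtain ⟨hw, a, ha, hm, hf⟩ := hL
  obtain ⟨l3, e3⟩ := sq_Min hμ a (Ico i j)
  have hS0 : 0 ≤ ∑ n ∈ Ico i j, a n := sum_nonneg fun n _ => (ha n).1
  have hm2 : ∑ n ∈ Ico i j, a n ^ 2 ≤ m :=
    (sum_le_sum fun n _ => by nlinarith [(ha n).1, (ha n).2]).trans hm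
  have hA := abs_Min l3 (e3.le.trans hm2)
  set Y : (ℕ → ℝ) → ℝ := fun x => ∑ n ∈ Ico i j, a n * x n with hY
  have iY : Integrable (fun x => |Y x|) (PP μ) := (l3.integrable one_le_two).abs
  have ig : Integrable (fun x => 1 - 2 * lam * h * m - 2 * lam * |Y x|) (PP μ) :=
    (integrable_const _).sub (iY.const_mul _)
  have hc : 0 ≤ 2 * lam * h * m := mul_nonneg (by positivity) (hS0.trans hm)
  have hp : ∀ x, ENNReal.ofReal (1 - 2 * lam * h * m - 2 * lam * |Y x|) * w ^ t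
      ≤ (min w (f x)) ^ t := fun x => by
    have h0 : 0 ≤ 2 * lam * |Y x| := by positivity
    have s1 : ENNReal.ofReal (1 - 2 * lam * h * m - 2 * lam * |Y x|) ≤ 1 :=
      ENNReal.ofReal_le_one.2 (by linarith)
    have s2 : w * ENNReal.ofReal (1 - 2 * lam * h * m - 2 * lam * |Y x|) ≤ min w (f x) := by
      refine le_min ?_ (le_trans ?_ (hf x))
      · calc _ ≤ w * 1 := by gcongr
          _ = w := mul_one w
      · gcongr
        refine le_trans ?_ (Real.add_one_le_exp _)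
        have e : ∑ n ∈ Ico i j, a n * (x n + h) = Y x + h * ∑ n ∈ Ico i j, a n := by
          simp only [hY, mul_add, sum_add_distrib, mul_sum]
          congr 1
          exact sum_congr rfl fun n _ => mul_comm _ _
        rw [e]
        have b1 : 2 * lam * Y x ≤ 2 * lam * |Y x| :=
          mul_le_mul_of_nonneg_left (le_abs_self _) (by positivity)
        have b2 : 2 * lam * h * ∑ n ∈ Ico i j, a n ≤ 2 * lam * h * m :=
          mul_le_mul_of_nonneg_left hm (by positivity)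
        nlinarith
    refine le_trans ?_ (ENNReal.rpow_le_rpow s2 ht0.le)
    rw [ENNReal.mul_rpow_of_nonneg _ _ ht0.le, mul_comm]
    gcongr
    calc _ = ENNReal.ofReal (1 - 2 * lam * h * m - 2 * lam * |Y x|) ^ (1 : ℝ) :=
          (ENNReal.rpow_one _).symm
      _ ≤ _ := ENNReal.rpow_le_rpow_of_exponent_ge s1 ht1
  refine le_trans ?_ (lintegral_mono hp)
  rw [lintegral_mul_const' _ _ (ENNReal.rpow_ne_top_of_nonneg ht0.le hw)]
  gcongr
  refine le_trans (ENNReal.ofReal_le_ofReal ?_) (ofi_Min ig)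
  rw [integral_sub (integrable_const _) (iY.const_mul _), integral_const, integral_const_mul]
  simp only [probReal_univ, smul_eq_mul, one_mul]
  have := mul_le_mul_of_nonneg_left hA (show 0 ≤ 2 * lam by positivity)
  linarith

end Pool.Agent.MP_c26281_pr.SA

end

section

open MeasureTheory ProbabilityTheory Finset Filter Topology
open scoped ENNReal

namespace Pool.Agent.MP_c26281_pr.SA

theorem xx_Pass (lam h t : ℝ) (x : ℕ → ℝ) (i j : ℕ) : XX lam h x i j ^ t = ENNReal.ofReal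
    (Real.exp (-2 * (lam * t) * (∑ n ∈ Ico i j, x n + h * (j - i : ℕ)))) := by
  rw [XX_rpow, XX, sum_add_distrib, sum_const, Nat.card_Ico, nsmul_eq_mul, mul_comm _ h]

theorem meas_Pass (b : ℝ) (i j : ℕ) : MeasurableSet (Pa b i j) :=
  measurableSet_le (by fun_prop) measurable_const

theorem tilt_Pass (μ : Measure ℝ) [IsProbabilityMeasure μ] (hμ : Ch μ) {t0 u1 l t c e : ℝ}
    (i j : ℕ) (hM : Mg μ t0 u1) (hl : |2 * l * t| ≤ t0) {A : Set (ℕ → ℝ)} (hA : MeasurableSet A)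
    {f : (ℕ → ℝ) → ℝ≥0∞}
    (hf : ∀ x ∈ A, f x ≤ ENNReal.ofReal (Real.exp (c - 2 * (l * t) * ∑ n ∈ Ico i j, x n)))
    (he : Real.exp (c + 2 * l ^ 2 * t ^ 2 * (1 + u1) * (j - i : ℕ)) ≤ e) :
    ∫⁻ x in A, f x ∂(PP μ) ≤ ENNReal.ofReal e := by
  calc ∫⁻ x in A, f x ∂(PP μ)
      ≤ ∫⁻ x in A, ENNReal.ofReal (Real.exp c) * XX l 0 x i j ^ t ∂(PP μ) :=
        setLIntegral_mono' hA fun x hx => (hf x hx).trans (le_of_eq (by
          rw [xx_Pass, ← ENNReal.ofReal_mul (Real.exp_pos _).le, ← Real.exp_add]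
          congr 2
          ring))
    _ ≤ ∫⁻ x, ENNReal.ofReal (Real.exp c) * XX l 0 x i j ^ t ∂(PP μ) :=
        setLIntegral_le_lintegral _ _
    _ ≤ ENNReal.ofReal e := by
        rw [lintegral_const_mul' _ _ ENNReal.ofReal_ne_top]
        refine (mul_le_mul_right (XX_up hμ hM hl 0 i j) _).trans ?_
        rw [← ENNReal.ofReal_mul (Real.exp_pos _).le, ← Real.exp_add]
        refine ENNReal.ofReal_le_ofReal (le_trans (le_of_eq ?_) he)
        congr 1
        ring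

theorem pPass : SPass := by
  intro μ _ hμ t0 u u1 lam h t i j hM hl hl0 ht ht1 hu hu1 h1 h2
  have ht0 : 0 < t := by linarith
  have hlt : 0 < lam * t := mul_pos hl ht0
  have a1 : |2 * lam * t| ≤ t0 := by
    rw [abs_of_nonneg (by nlinarith)]
    nlinarith
  have a2 : |2 * (lam * (1 - u)) * t| ≤ t0 := by
    have : 0 ≤ lam * t * (1 - u) := mul_nonneg hlt.le (by linarith)
    have : 0 ≤ lam * t * u := mul_nonneg hlt.le hu.le
    rw [abs_of_nonneg (by nlinarith)]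
    nlinarith
  have hT : (0 : ℝ) ≤ (j - i : ℕ) := Nat.cast_nonneg _
  have mA := meas_Pass ((1 - u) * 2 * t * lam) i j
  have hu2 : u1 ≤ u := by nlinarith
  refine ⟨?_, fun hT4 => ?_⟩
  · rw [← setLIntegral_one]
    refine tilt_Pass μ hμ (c := -(2 * (lam * t) * ((1 - u) * 2 * t * lam * (j - i : ℕ)))) i j hM a1
      mA (fun x hx => ?_) (Real.exp_le_exp.2 ?_)
    · rw [ENNReal.one_le_ofReal]
      refine Real.one_le_exp ?_
      have hx' : ∑ n ∈ Ico i j, x n ≤ -((1 - u) * 2 * t * lam * (j - i : ℕ)) := hx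
      nlinarith
    · have := mul_nonneg (mul_nonneg (sq_nonneg (lam * t)) hT) (sub_nonneg.2 hu2)
      nlinarith
  · set m := Real.exp ((2 * lam ^ 2 * t ^ 2 * (1 - u1) - 2 * lam * t * h) * (j - i : ℕ)) with hm
    have m0 : 0 < m := Real.exp_pos _
    have fail : ∫⁻ x in (Pa ((1 - u) * 2 * t * lam) i j)ᶜ, XX lam h x i j ^ t ∂(PP μ) ≤
        ENNReal.ofReal (u * m) := by
      refine tilt_Pass μ hμ (c := 2 * (lam * t) * u * ((1 - u) * 2 * t * lam * (j - i : ℕ)) -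
        2 * (lam * t) * (h * (j - i : ℕ))) i j hM a2 mA.compl (fun x hx => ?_) ?_
      · rw [xx_Pass]
        refine ENNReal.ofReal_le_ofReal (Real.exp_le_exp.2 ?_)
        have hx' : -((1 - u) * 2 * t * lam * (j - i : ℕ)) < ∑ n ∈ Ico i j, x n := not_le.1 hx
        have := mul_le_mul_of_nonneg_left hx'.le (mul_pos hlt hu).le
        nlinarith
      · have e1 : Real.exp (-(1 / u)) ≤ u := by
          rw [Real.exp_neg, inv_le_comm₀ (Real.exp_pos _) hu, ← one_div]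
          linarith [Real.add_one_le_exp (1 / u)]
        refine le_trans ?_ (mul_le_mul_of_nonneg_right e1 m0.le)
        rw [hm, ← Real.exp_add]
        refine Real.exp_le_exp.2 ?_
        have b1 : 1 / u ≤ lam ^ 2 * (j - i : ℕ) * (u ^ 2 / 4) := by
          refine le_trans (le_of_eq ?_) (mul_le_mul_of_nonneg_right hT4 (by positivity))
          field_simp
        have b2 : u1 * ((1 - u) ^ 2 + 1) ≤ u ^ 2 / 2 := by
          have : (1 - u) ^ 2 + 1 ≤ 2 := by nlinarith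
          nlinarith
        have b3 : 1 / 4 ≤ t ^ 2 := by nlinarith
        have b4 : 0 ≤ lam ^ 2 * (j - i : ℕ) := by positivity
        have b5 := mul_le_mul_of_nonneg_left b2 (mul_nonneg b4 (sq_nonneg t))
        have b6 := mul_le_mul_of_nonneg_left b3 (mul_nonneg b4 (sq_nonneg u))
        nlinarith
    have tot := XX_lo hμ hM a1 h i j
    rw [← lintegral_add_compl _ mA] at tot
    refine (ENNReal.add_le_add_iff_right (a := ENNReal.ofReal (u * m)) ENNReal.ofReal_ne_top).1 ?_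
    rw [← ENNReal.ofReal_add (mul_nonneg (by linarith) m0.le) (by positivity),
      show (1 - u) * m + u * m = m by ring]
    exact tot.trans (add_le_add_right fail _)

end Pool.Agent.MP_c26281_pr.SA

end

section

open MeasureTheory ProbabilityTheory Finset Filter Topology
open scoped ENNReal

namespace Pool.Agent.MP_c26281_pr.SA

theorem alg_Dom (A B C : IA) :
    kst (kst A * B * kst A * C) * (kst A * B * kst A) ≤ kst (A + (B + C)) := by
  have h : kst (A + (B + C)) = kst A + kst A * (B + C) * kst (A + (B + C)) := by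
    conv_lhs => rw [kst_add, kst_eq (kst A * (B + C)), add_mul, one_mul, mul_assoc, ← kst_add]
  generalize kst (A + (B + C)) = Y at h
  generalize kst A = G at h
  have h1 : G * B * Y ≤ Y := by
    conv_rhs => rw [h, mul_add, add_mul]
    exact (k_le_add_right _ _).trans (k_le_add_left _ _)
  have h2 : G + G * C * Y ≤ Y := by
    conv_rhs => rw [h, mul_add, add_mul]
    exact add_le_add_right (k_le_add_left _ _) _
  refine kst_le (le_trans (le_of_eq ?_) ((mul_le_mul_right h2 (G * B)).trans h1))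
  noncomm_ring

theorem K_ge_Dom {K : ℕ → ℝ} {α u κ : ℝ} {k n m : ℕ} (a0 : 0 < α) (a1 : α ≤ 1) (u0 : 0 < u)
    (u1 : u ≤ 1) (H : KA K α u κ k) (hn : 4 / u ≤ n) (h1 : k ≤ m) (h2 : m ≤ (n + 2) * k) :
    κ * (α / 2 * (1 - u) ^ 2 * (n : ℝ) ^ (-(1 + α))) ≤ K m / 2 := by
  obtain ⟨hk, hκ, -, -, -, h3, -⟩ := H
  have np : (0 : ℝ) < n := lt_of_lt_of_le (by positivity) hn
  have mp : (0 : ℝ) < m := by exact_mod_cast (by omega : 0 < m)
  have kp : (0 : ℝ) < k := by exact_mod_cast hk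
  rw [div_le_iff₀ u0] at hn
  have b1 : (n : ℝ) / (n + 2) * (n : ℝ)⁻¹ ≤ (k : ℝ) / m := by
    rw [show (n : ℝ) / (n + 2) * (n : ℝ)⁻¹ = 1 / (n + 2) by field_simp,
      div_le_div_iff₀ (by positivity) mp, one_mul, mul_comm]
    exact_mod_cast h2
  have b2 : 1 - u ≤ ((n : ℝ) / (n + 2)) ^ (1 + α) := by
    refine le_trans ?_ (Real.rpow_le_rpow_of_exponent_ge (z := 1 + α) (y := 2) (by positivity)
      (by rw [div_le_one (by positivity)]; linarith) (by linarith))
    rw [Real.rpow_two, div_pow, le_div_iff₀ (by positivity)]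
    nlinarith [mul_pos np np, mul_pos np u0]
  have b3 : (1 - u) * (n : ℝ) ^ (-(1 + α)) ≤ ((k : ℝ) / m) ^ (1 + α) := by
    refine le_trans ?_ (Real.rpow_le_rpow (by positivity) b1 (by linarith))
    rw [Real.mul_rpow (by positivity) (by positivity), Real.inv_rpow np.le, ← Real.rpow_neg np.le]
    exact mul_le_mul_of_nonneg_right b2 (by positivity)
  have := (mul_le_mul_of_nonneg_left b3 (show 0 ≤ κ * α * (1 - u) from
    mul_nonneg (by positivity) (by linarith))).trans (h3 m h1).1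
  linarith

theorem pDom (hC : SCG) : SDom := by
  intro K α u κ lam h b a k L s x a0 a1 u0 u1 H hL hs
  have hk := H.1
  obtain ⟨c1, c2⟩ := hC k hk (ll k lam h x) (rr k κ lam h x)
  have e1 : klo (2 * k + 1) (Kall K lam h x) + tk (kz K k L) + (tk (km K k L) + Kn K k lam h x)
      ≤ Kall K lam h x := by
    refine le_of_le fun i j hij => ?_
    have : 2 * k ≤ L * k := Nat.mul_le_mul_right _ hL
    simp only [k_add, klo, tk, Kn, kmk_of_le _ hij, kz, km]
    by_cases h1 : j - i ≤ 2 * k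
    · rw [if_pos (by omega), if_neg (by omega), if_neg (by omega), if_pos h1]; simp
    · rw [if_neg (by omega), if_neg h1, Kall, kmk_of_le _ hij, mul_add, mul_one, zero_add,
        ← add_assoc]
      refine add_le_add_left ?_ _
      by_cases h2 : j - i ≤ L * k
      · rw [if_pos ⟨by omega, h2⟩, if_neg (by omega), add_zero]
      · rw [if_neg (by omega), if_pos (by omega), zero_add]
  have e2 : ex k (ll k lam h x) (rr k κ lam h x) (CL (α / 2 * (1 - u) ^ 2) α b k s lam h x)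
      ≤ Kn K k lam h x := by
    refine le_of_le fun i j hij => ?_
    rw [ex, kmk_of_le _ hij, CL, kmk_apply]
    split_ifs with h1 h2
    rotate_left
    · simp
    · simp
    have n4 : 4 ≤ j / k - (i / k + 1) := by
      have : (4 : ℝ) ≤ s := le_trans (by rw [le_div_iff₀ u0]; linarith) hs
      exact le_trans (by exact_mod_cast this) h2
    have g1 := Nat.lt_div_mul_add (a := i) hk
    have g2 := Nat.div_mul_le_self j k
    have g3 := Nat.lt_div_mul_add (a := j) hk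
    have g4 := Nat.div_mul_le_self i k
    have g5 := Nat.mul_le_mul_right k h1
    have g6 := Nat.mul_le_mul_right k n4
    rw [Nat.sub_mul] at g6
    rw [add_one_mul] at g5 g6
    have g7 : j - i ≤ (j / k - (i / k + 1) + 2) * k := by
      rw [add_mul, Nat.sub_mul, add_one_mul]; omega
    rw [Kn, kmk_of_le _ hij, if_neg (by omega), ← XX_mul lam h x (j := j / k * k) (by omega) g2,
      ← XX_mul lam h x (j := (i / k + 1) * k) (l := j / k * k) (by rw [add_one_mul]; omega)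
        (by rw [add_one_mul]; omega)]
    have b1 := K_ge_Dom a0 a1 u0 u1 H (hs.trans (by exact_mod_cast h2)) (by omega) g7
    have b2 := ENNReal.ofReal_le_ofReal b1
    rw [ENNReal.ofReal_mul H.2.1.le] at b2
    refine le_trans ?_ (mul_le_mul_left b2 _)
    unfold ll rr pw
    refine (mul_le_mul_left (mul_le_mul_right (mul_le_mul_right
      (Set.indicator_le_self _ _ x) _) _) _).trans (le_of_eq (by ring))
  have e3 : HT a α (HL K k L κ lam h x) ≤ HL K k L κ lam h x :=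
    le_of_le fun p q hpq => by rw [HT, kmk_of_le _ hpq]; exact min_le_right _ _
  refine (mul_le_mul' (kst_mono (mul_le_mul_left e3 _)) e3).trans ?_
  unfold HL
  rw [← c2]
  refine c1 _ _ ((mul_le_mul_left (kst_mono (mul_le_mul_right e2 _)) _).trans ?_)
  exact (alg_Dom _ _ _).trans (kst_mono e1)

end Pool.Agent.MP_c26281_pr.SA

end

section

/-! From the coarse grained partition function to the pinned one, lower bound. -/

open MeasureTheory ProbabilityTheory Finset Filter Topology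
open scoped ENNReal

namespace Pool.Agent.MP_c26281_pr.SA

theorem cg_ZcL (k p : ℕ) (c I : ℝ≥0∞) (u : IA) (h : ∀ z w, w ≤ p * k → u z w ≤ I) :
    cg k (fun _ => 1) (fun _ => c) u 0 p ≤ c * (k : ℝ≥0∞) ^ 2 * I := by
  rw [cg, kmk_of_le _ (Nat.zero_le p)]
  split_ifs with hp
  · have e : ∀ q, (blk k q).card = k := fun q => by
      rw [blk, Nat.card_Ico, add_mul, one_mul, Nat.add_sub_cancel_left]
    refine (sum_le_sum fun z _ => sum_le_sum (g := fun _ => c * I) fun w hw => ?_).trans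
      (le_of_eq ?_)
    · rw [mul_one]
      refine mul_le_mul_right (h z w ?_) _
      have := (mem_Ico.1 hw).2
      rw [Nat.sub_add_cancel hp] at this
      exact this.le
    · rw [sum_const, sum_const, e, e, nsmul_eq_mul, nsmul_eq_mul]
      ring
  · exact zero_le

theorem pZcL (hA : SAdcg) (hB : SBridge) : SZcL := by
  intro μ _ K k m0 κ lam h t r c0 hk hK hK0 hκ t0 t1 hr hc hM hn
  have aZ : Ad (fld μ 1) (Zk K lam h) :=
    Ad.kst (Ad.kmk fun p q _ => (measurable_const.add (XX_meas μ lam h p q)).const_mul _)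
  obtain ⟨m1, a1, a2, a3⟩ : ∃ m1 : ℕ, 1 ≤ m1 ∧ m0 * k ≤ m1 ∧ κ ^ t * (k : ℝ) ^ 2 ≤ c0 * m1 := by
    refine ⟨max (max (m0 * k) ⌈κ ^ t * (k : ℝ) ^ 2 / c0⌉₊) 1, le_max_right _ _,
      (le_max_left _ _).trans (le_max_left _ _), ?_⟩
    rw [← div_le_iff₀' hc]
    exact (Nat.le_ceil _).trans (Nat.cast_le.2 ((le_max_right _ _).trans (le_max_left _ _)))
  refine ⟨m1, a1, fun j => ?_⟩
  obtain ⟨p, hp, hle⟩ := hn j
  obtain ⟨L, hL, hmax⟩ := exists_max_image (range (p * k + 1))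
    (fun L => ∫⁻ x, ENNReal.ofReal (Zh K lam h L x) ^ t ∂(PP μ)) nonempty_range_add_one
  refine ⟨L, ?_, ?_⟩
  · calc L ≤ p * k := Nat.lt_succ_iff.1 (mem_range.1 hL)
      _ ≤ (j + 1) * m0 * k := Nat.mul_le_mul_right _ hp
      _ ≤ (j + 1) * m1 := by rw [mul_assoc]; exact Nat.mul_le_mul_left _ a2
  have h2 := (hA μ k κ lam h hk).2 t 0 _ t0 t1 le_rfl hM hκ aZ 0 p
  rw [Nk, kmk_of_le _ (Nat.zero_le p), mul_zero, zero_mul, Real.exp_zero, ENNReal.ofReal_one,
    one_mul] at h2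
  have h3 := cg_ZcL k p (ENNReal.ofReal κ ^ t)
    (∫⁻ x, ENNReal.ofReal (Zh K lam h L x) ^ t ∂(PP μ)) (Nk (PP μ) t (Zk K lam h))
    fun z w hw => by
      rcases lt_or_ge w z with l | l
      · rw [k_zero _ l]; exact zero_le
      · obtain ⟨n, rfl⟩ := Nat.exists_eq_add_of_le l
        rw [Nk, kmk_add, hB K lam h hK hK0 μ t z n]
        exact hmax n (mem_range.2 (by omega))
  have m0' : (0 : ℝ) < m1 := by exact_mod_cast a1
  have h4 : ENNReal.ofReal κ ^ t * (k : ℝ≥0∞) ^ 2 ≤ ENNReal.ofReal (c0 * m1) := by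
    rw [ENNReal.ofReal_rpow_of_nonneg hκ t0.le, ← ENNReal.ofReal_natCast k,
      ← ENNReal.ofReal_pow (by positivity), ← ENNReal.ofReal_mul (by positivity)]
    exact ENNReal.ofReal_le_ofReal a3
  have h5 := (hle.trans h2).trans (h3.trans (mul_le_mul_left h4 _))
  have e : c0 * r ^ j / (j + 1) = c0 * m1 * (r ^ j / (m1 * (j + 1))) := by field_simp
  rw [e, ENNReal.ofReal_mul (by positivity)] at h5
  exact (ENNReal.mul_le_mul_iff_right (ENNReal.ofReal_pos.2 (by positivity)).ne'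
    ENNReal.ofReal_ne_top).1 h5

end Pool.Agent.MP_c26281_pr.SA

end

section

open MeasureTheory ProbabilityTheory Finset Filter Topology
open scoped ENNReal

namespace Pool.Agent.MP_c26281_pr.SA

theorem pw_pow_Lw {A α : ℝ} (hA : 0 ≤ A) (hα : 0 < α) {n : ℕ} (hn : 1 ≤ n) :
    pw A α n ^ (1 / (1 + α)) = ENNReal.ofReal (A ^ (1 / (1 + α)) / n) := by
  have hn0 : (0 : ℝ) < n := by exact_mod_cast hn
  have h1 : (0 : ℝ) < 1 + α := by linarith
  rw [pw, ENNReal.ofReal_rpow_of_nonneg (by positivity) (by positivity),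
    Real.mul_rpow hA (by positivity), ← Real.rpow_mul hn0.le]
  have : -(1 + α) * (1 / (1 + α)) = -1 := by field_simp
  rw [this, Real.rpow_neg_one, div_eq_mul_inv (A ^ _)]

theorem pLw (hS : SSum) : SLw := by
  intro α u d τ κ0 Q s r j hα hα1 hu hu4 hQ hs hτ hd hds hκ hr hj
  have h1u : 0 < 1 - u := by linarith
  have h1α : (0 : ℝ) < 1 + α := by linarith
  have hs0 : (0 : ℝ) < s := by exact_mod_cast hs
  set g0 : ℝ := 2 * α * (1 - u) ^ 2 with hg0
  set s0 : ℝ := α / 2 * (1 - u) ^ 2 with hs0d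
  have hg : 0 < g0 := by positivity
  have hs' : 0 < s0 := by positivity
  set E : ℝ := Real.exp (-(τ * (j + 1))) with hE
  have hE0 : 0 < E := Real.exp_pos _
  set C : ℝ := (1 - u) ^ 6 * α ^ 2 * E / ((j + 1) * s) with hC
  have hC0 : 0 ≤ C := by positivity
  have hgs : α ^ 2 * (1 - u) ^ 4 ≤ g0 ^ (1 / (1 + α)) * s0 ^ (1 / (1 + α)) := by
    rw [← Real.mul_rpow hg.le hs'.le]
    have e : g0 * s0 = α ^ 2 * (1 - u) ^ 4 := by rw [hg0, hs0d]; ring
    have h1 : g0 * s0 ≤ 1 := by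
      rw [e]
      exact mul_le_one₀ (pow_le_one₀ hα.le hα1) (by positivity) (pow_le_one₀ h1u.le (by linarith))
    have h2 : 1 / (1 + α) ≤ 1 := by rw [div_le_one h1α]; linarith
    have := Real.rpow_le_rpow_of_exponent_ge (mul_pos hg hs') h1 h2
    rw [Real.rpow_one] at this
    exact e ▸ this
  have hQ1 : 1 ≤ Q ^ (r - 1) := Nat.one_le_pow _ _ (by omega)
  have key : ∀ y ∈ Fib Q s (r, j), ENNReal.ofReal (C * (1 / (y.1 : ℝ))) ≤
      ENNReal.ofReal (1 - u) * pw g0 α y.1 ^ (1 / (1 + α)) *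
      if s ≤ y.2 then pw s0 α y.2 ^ (1 / (1 + α)) *
        ENNReal.ofReal ((1 - u) * Real.exp (-(d * y.2))) else 0 := by
    rintro ⟨a, b⟩ hy
    simp only [Fib, mem_product, mem_Ico] at hy
    obtain ⟨⟨ha, -⟩, hb1, hb2⟩ := hy
    have ha1 : 1 ≤ a := hQ1.trans ha
    have hsb : s ≤ b := le_trans (Nat.le_mul_of_pos_left s hj) hb1
    have hb0 : 1 ≤ b := hs.trans hsb
    have ha0 : (0 : ℝ) < a := by exact_mod_cast ha1
    have hb0' : (0 : ℝ) < b := by exact_mod_cast hb0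
    have hb3 : (b : ℝ) ≤ (j + 1) * s := by exact_mod_cast hb2.le
    simp only [if_pos hsb]
    rw [pw_pow_Lw hg.le hα ha1, pw_pow_Lw hs'.le hα hb0, ← ENNReal.ofReal_mul h1u.le,
      ← ENNReal.ofReal_mul (by positivity), ← ENNReal.ofReal_mul (by positivity)]
    refine ENNReal.ofReal_le_ofReal ?_
    have hexp : E ≤ Real.exp (-(d * b)) := by
      refine Real.exp_le_exp.2 (neg_le_neg ?_)
      calc d * b ≤ d * ((j + 1) * s) := mul_le_mul_of_nonneg_left hb3 hd
        _ = (d * s) * (j + 1) := by ring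
        _ ≤ τ * (j + 1) := mul_le_mul_of_nonneg_right hds (by positivity)
    have e2 : (1 - u) * (g0 ^ (1 / (1 + α)) / a) *
        (s0 ^ (1 / (1 + α)) / b * ((1 - u) * Real.exp (-(d * b)))) =
        (1 - u) ^ 2 * (g0 ^ (1 / (1 + α)) * s0 ^ (1 / (1 + α))) * Real.exp (-(d * b)) / b *
          (1 / (a : ℝ)) := by field_simp
    have e1 : C = (1 - u) ^ 2 * (α ^ 2 * (1 - u) ^ 4) * E / ((j + 1) * s) := by rw [hC]; ring
    rw [e2, e1]
    gcongr
  refine le_trans ?_ (sum_le_sum key)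
  rw [← ENNReal.ofReal_sum_of_nonneg (fun y _ => by positivity)]
  refine ENNReal.ofReal_le_ofReal ?_
  have hlog := hS.2.2.1 (Q ^ (r - 1)) (Q ^ r) hQ1 (Nat.pow_le_pow_right (by omega) (by omega))
  have hQ0 : (0 : ℝ) < Q := by exact_mod_cast (by omega : 0 < Q)
  have e3 : ((Q ^ r : ℕ) : ℝ) / ((Q ^ (r - 1) : ℕ) : ℝ) = Q := by
    obtain ⟨k, rfl⟩ : ∃ k, r = k + 1 := ⟨r - 1, by omega⟩
    simp only [Nat.add_sub_cancel]
    push_cast
    rw [pow_succ]
    field_simp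
  rw [e3] at hlog
  rw [Fib, sum_product]
  simp only [sum_const, Nat.card_Ico, nsmul_eq_mul]
  have e4 : (j + 1) * s - j * s = s := by rw [add_mul, one_mul]; omega
  rw [e4, ← mul_sum, ← mul_sum]
  have e5 : (s : ℝ) * C = (1 - u) ^ 6 * α ^ 2 * E / (j + 1) := by rw [hC]; field_simp
  rw [← mul_assoc, e5, bet, ← hE]
  calc κ0 * τ * E / (j + 1) ≤ (1 - u) ^ 6 * α ^ 2 * Real.log Q * E / (j + 1) := by gcongr
    _ = (1 - u) ^ 6 * α ^ 2 * E / (j + 1) * Real.log Q := by ring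
    _ ≤ _ := mul_le_mul_of_nonneg_left hlog (by positivity)

end Pool.Agent.MP_c26281_pr.SA

end

section

open MeasureTheory ProbabilityTheory Finset Filter Topology
open scoped ENNReal

namespace Pool.Agent.MP_c26281_pr.SA

section
variable (μ : Measure ℝ) [IsProbabilityMeasure μ]

theorem adGG_LM (K : ℕ → ℝ) (k L : ℕ) (lam h : ℝ) : Ad (fld μ 1) (GG K k L lam h) := by
  have h1 : Ad (fld μ 1) (Kall K lam h) :=
    Ad.kmk (f := fun x i j => ENNReal.ofReal (K (j - i) / 2) * (1 + XX lam h x i j))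
      fun p q _ => measurable_const.mul (measurable_const.add (XX_meas μ lam h p q))
  exact ((h1.klo (2 * k + 1)).add (Ad.const _)).kst

theorem mPa_LM {k : ℕ} (hk : 1 ≤ k) (b : ℝ) (p q : ℕ) :
    MeasurableSet[(fld μ k).s (Set.Ico p q)] (Pa b (p * k) (q * k)) :=
  fld_scale μ hk p q _ (@measurableSet_le ℝ _ _ _ _ ((fld μ 1).s (Set.Ico (p * k) (q * k))) _ _ _
    _ _ (sum_meas μ (fun _ y => y) (fun _ => measurable_id) _ _) measurable_const)

end

theorem CL_le_LM (a α b : ℝ) (k s : ℕ) (lam h : ℝ) (x : ℕ → ℝ) (p q : ℕ) :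
    CL a α b k s lam h x p q ≤ pw a α (q - p) * XX lam h x (p * k) (q * k) := by
  rw [CL, kmk_apply]
  split_ifs
  · exact mul_le_mul_right (Set.indicator_le_self _ _ x) _
  · exact zero_le
  · exact zero_le

theorem CL_pow_LM (a α b : ℝ) (k s : ℕ) (lam h : ℝ) (x : ℕ → ℝ) (p n : ℕ) {t : ℝ} (ht : 0 < t)
    (hn : s ≤ n) : CL a α b k s lam h x p (p + n) ^ t = pw a α n ^ t *
      (Pa b (p * k) ((p + n) * k)).indicator (fun y => XX lam h y (p * k) ((p + n) * k) ^ t) x := by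
  rw [CL, kmk_add, Nat.add_sub_cancel_left, if_pos hn, ENNReal.mul_rpow_of_nonneg _ _ ht.le]
  congr 1
  by_cases hx : x ∈ Pa b (p * k) ((p + n) * k)
  · rw [Set.indicator_of_mem hx, Set.indicator_of_mem hx]
  · rw [Set.indicator_of_notMem hx, Set.indicator_of_notMem hx, ENNReal.zero_rpow_of_pos ht]

theorem exp_le_LM {c : ℝ} {Q s n j : ℕ} (hc : 0 ≤ c) (hQ : 2 ≤ Q)
    (h : (Q : ℝ) ≤ Real.exp (c * s)) (hj : j * s ≤ n) :
    ENNReal.ofReal (Real.exp (-(c * n))) ≤ ((Q : ℝ≥0∞) ^ j)⁻¹ := by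
  have hQ0 : (0 : ℝ) < Q := by exact_mod_cast (by omega : 0 < Q)
  rw [← ENNReal.ofReal_natCast, ← ENNReal.ofReal_pow hQ0.le,
    ← ENNReal.ofReal_inv_of_pos (pow_pos hQ0 j), Real.exp_neg]
  refine ENNReal.ofReal_le_ofReal (inv_anti₀ (pow_pos hQ0 j) ?_)
  refine (pow_le_pow_left₀ hQ0.le h j).trans ?_
  rw [← Real.exp_nat_mul]
  refine Real.exp_le_exp.2 ?_
  have : ((j * s : ℕ) : ℝ) ≤ n := by exact_mod_cast hj
  push_cast at this
  nlinarith [mul_le_mul_of_nonneg_left this hc]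

theorem pLM (hA : SAdcg) (hM : SMin) (hP : SPass) (hW : SLw) : SLM := by
  intro μ _ hμ K α u u1 κ lam h t0 m d τ κ0 k L Q s V hα hα1 hu hu4 hk hQ hs hlam hh hMg ht0 hu10
    hu1 hκ0 hτ hd hLin hm hQe h4 hdd hds hκτ
  have ht : 0 < 1 / (1 + α) := by positivity
  have ht1 : 1 / (1 + α) ≤ 1 := by rw [div_le_one (by positivity)]; linarith
  have ht2 : 1 / 2 ≤ 1 / (1 + α) := one_div_le_one_div_of_le (by positivity) (by linarith)
  have adHL : Ad (fld μ k) (HL K k L κ lam h) :=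
    (hA μ k κ lam h hk).1 (fun x => GG K k L lam h x * tk (km K k L) * GG K k L lam h x)
      (((adGG_LM μ K k L lam h).mul (Ad.const _)).mul (adGG_LM μ K k L lam h))
  have hsub : ∀ p n : ℕ, (p + n) * k - p * k = n * k := fun p n => by
    rw [add_mul, Nat.add_sub_cancel_left]
  have hfin : ∀ (a : ℝ) (n : ℕ), pw a α n ^ (1 / (1 + α)) ≠ ⊤ := fun a n =>
    ENNReal.rpow_ne_top_of_nonneg ht.le ENNReal.ofReal_ne_top
  have hu1' : 0 < 1 - u := by linarith
  refine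
    { t0 := ht, t1 := ht1, u0 := hu.le, u1 := by linarith, Q2 := hQ, s1 := hs
      adH := ?_, adC := ?_, mA := fun p q => mPa_LM μ hk _ p q, off := ?_, Hle := ?_
      wfin := fun l => ENNReal.ofReal_ne_top, wpos := ?_, Hlo := ?_, Cfin := ?_, Clo := ?_
      PA := ?_, b0 := ?_
      lw := fun r j hr hj _ => hW α u d τ κ0 Q s r j hα hα1 hu hu4 hQ hs hτ hd hds hκτ hr hj }
  · exact Ad.kmk (f := fun x p q => min (pw (2 * α * (1 - u) ^ 2) α (q - p))
      (HL K k L κ lam h x p q)) fun p q _ => measurable_const.min (adHL p q)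
  · refine Ad.kmk (f := fun x p q => if s ≤ q - p then pw (α / 2 * (1 - u) ^ 2) α (q - p) *
      (Pa ((1 - u) * 2 * (1 / (1 + α)) * lam) (p * k) (q * k)).indicator
        (fun y => XX lam h y (p * k) (q * k)) x else 0) fun p q _ => ?_
    split_ifs
    · exact measurable_const.mul (Measurable.indicator
        ((XX_meas μ lam h _ _).mono (fld_scale μ hk p q) le_rfl) (mPa_LM μ hk _ p q))
    · exact measurable_const
  · intro ω p q hω
    rw [CL, kmk_apply]
    split_ifs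
    · rw [Set.indicator_of_notMem hω, mul_zero]
    · rfl
    · rfl
  · intro ω p l
    rw [HT, kmk_add, Nat.add_sub_cancel_left]
    exact min_le_left _ _
  · have hQ0 : (0 : ℝ) < Q := by exact_mod_cast (by omega : 0 < Q)
    exact (ENNReal.ofReal_pos.2 (by positivity)).ne'
  · intro p l hl
    simp only [HT, kmk_add, Nat.add_sub_cancel_left]
    refine le_trans ?_ (hM μ hμ lam h m _ _ _ _ _ hlam.le hh ht ht1 (hLin p l hl))
    exact mul_le_mul_left (ENNReal.ofReal_le_ofReal (by linarith)) _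
  · intro p q
    refine ne_top_of_le_ne_top ?_ (lintegral_mono fun x =>
      ENNReal.rpow_le_rpow (CL_le_LM _ α _ k s lam h x p q) ht.le)
    simp only [ENNReal.mul_rpow_of_nonneg _ _ ht.le]
    rw [lintegral_const_mul' _ _ (hfin _ _)]
    exact ENNReal.mul_ne_top (hfin _ _) (XX_fin hμ _ _ _ _ _)
  · intro p n
    split_ifs with hn
    · simp only [CL_pow_LM _ α _ k s lam h _ p n ht hn]
      rw [lintegral_const_mul' _ _ (hfin _ _),
        lintegral_indicator ((fld μ k).le _ _ (mPa_LM μ hk _ p (p + n)))]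
      refine mul_le_mul_right ?_ _
      have hn' : (s : ℝ) ≤ n := by exact_mod_cast hn
      have hk0 : (0 : ℝ) ≤ k := Nat.cast_nonneg k
      refine le_trans ?_ ((hP μ hμ t0 u u1 lam h _ (p * k) ((p + n) * k) hMg hlam ht0 ht2 ht1 hu
        (by linarith) hu10 hu1).2 ?_)
      · refine ENNReal.ofReal_le_ofReal (mul_le_mul_of_nonneg_left (Real.exp_le_exp.2 ?_) hu1'.le)
        rw [hsub]
        push_cast
        have := mul_le_mul_of_nonneg_right hdd (Nat.cast_nonneg (α := ℝ) n)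
        linarith
      · rw [hsub]
        push_cast
        have := mul_le_mul_of_nonneg_left hn' (mul_nonneg (sq_nonneg lam) hk0)
        linarith
    · exact zero_le
  · intro p n j hj
    refine le_trans (hP μ hμ t0 u u1 lam h _ (p * k) ((p + n) * k) hMg hlam ht0 ht2 ht1 hu
      (by linarith) hu10 hu1).1 ?_
    have h3 : 0 ≤ 1 - 3 * u := by linarith
    refine le_trans (le_of_eq ?_) (exp_le_LM
      (c := 2 * (1 / (1 + α)) ^ 2 * (lam ^ 2 * k) * (1 - 3 * u)) (by positivity) hQ hQe hj)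
    rw [hsub]
    push_cast
    congr 2
    ring
  · intro j
    unfold bet
    positivity

end Pool.Agent.MP_c26281_pr.SA

end

section

open MeasureTheory ProbabilityTheory Finset Filter Topology
open scoped ENNReal

namespace Pool.Agent.MP_c26281_pr.SA

theorem d_ParL (u b y θ A : ℝ) (hu : 0 < u) (hu1 : u ≤ 1 / 100) (hb : 0 < b) (hy1 : b / 2 ≤ y)
    (hy2 : y ≤ b) (hθ1 : 1 - u ≤ θ) (hθ2 : θ ≤ 1) (hA : 0 < A) :
    b * A / 2 ≤ 2 * y * θ * ((2 - 100 * u) * A) * (1 + u) ∧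
      2 * y * θ * ((2 - 100 * u) * A) * (1 + u) ≤ 5 * (b * A) := by
  have h1 : 1 ≤ (2 - 100 * u) * (1 + u) := by nlinarith
  have h2 : (2 - 100 * u) * (1 + u) ≤ 2 := by nlinarith
  have h3 : 1 / 2 ≤ θ * ((2 - 100 * u) * (1 + u)) := by nlinarith
  have h4 : θ * ((2 - 100 * u) * (1 + u)) ≤ 2 := by nlinarith
  have h5 : 2 * y * θ * ((2 - 100 * u) * A) * (1 + u) =
      2 * (y * A) * (θ * ((2 - 100 * u) * (1 + u))) := by ring
  have h6 : b / 2 * A ≤ y * A := mul_le_mul_of_nonneg_right hy1 hA.le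
  have h7 : y * A ≤ b * A := mul_le_mul_of_nonneg_right hy2 hA.le
  have h8 : 0 < b * A := mul_pos hb hA
  rw [h5]
  generalize θ * ((2 - 100 * u) * (1 + u)) = w at h3 h4
  generalize y * A = z at h6 h7
  constructor <;> nlinarith

theorem main_ParL (u τ θ Y : ℝ) (hu : 0 < u) (hu1 : u ≤ 1 / 100) (hτ : 0 < τ)
    (hθ1 : 1 - u ≤ θ) (hθ2 : θ ≤ 1) (hY : 0 ≤ Y)
    (h : (1 - u) * τ ≤ (2 - 100 * u) * (1 + u) * (2 * θ * Y)) :
    τ ≤ 5 * Y ∧ τ ≤ 5 * (2 * θ ^ 2 * (1 - 3 * u) * Y) ∧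
      1 / 2 * (1 + 25 * u) * τ ≤ (1 - u) ^ 7 * (2 * θ ^ 2 * (1 - 3 * u) * Y) := by
  have hθ : 0 ≤ θ := by linarith
  have hW : 0 ≤ 2 * θ * Y := by positivity
  have h1 : (2 - 100 * u) * (1 + u) ≤ 2 * (1 - 49 * u) := by nlinarith
  have h2 : (1 - u) * τ ≤ 2 * (1 - 49 * u) * (2 * θ * Y) :=
    h.trans (mul_le_mul_of_nonneg_right h1 hW)
  have h3 : θ * Y ≤ Y := by nlinarith
  have h4 : 99 / 100 * τ ≤ (1 - u) * τ := by nlinarith
  have h5 : 2 * (1 - 49 * u) * (2 * θ * Y) ≤ 2 * (2 * θ * Y) := by nlinarith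
  have h6 : τ ≤ 5 * Y := by linarith
  have h7 : 1 - 4 * u ≤ θ * (1 - 3 * u) := by nlinarith
  have h8 : 1 / 2 ≤ θ * (θ * (1 - 3 * u)) := by nlinarith
  have h9 : 1 - 7 * u ≤ (1 - u) ^ 7 := by
    have h10 := one_add_mul_le_pow (a := -u) (by linarith) 7
    push_cast at h10
    rw [sub_eq_add_neg 1 u]
    linarith
  have h11 : 1 - 11 * u ≤ (1 - u) ^ 7 * (θ * (1 - 3 * u)) := by
    have h12 := mul_le_mul h9 h7 (by linarith) (by linarith)
    nlinarith
  refine ⟨h6, by nlinarith, ?_⟩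
  have h13 : (1 - u) ^ 7 * (2 * θ ^ 2 * (1 - 3 * u) * Y) =
      (1 - u) ^ 7 * (θ * (1 - 3 * u)) * (2 * θ * Y) := by ring
  rw [h13]
  refine le_trans ?_ (mul_le_mul_of_nonneg_right h11 hW)
  generalize 2 * θ * Y = W at hW h2
  refine le_of_mul_le_mul_left (a := 2 * (1 - 49 * u)) ?_ (by linarith)
  have h14 := mul_le_mul_of_nonneg_left h2 (by linarith : 0 ≤ 1 - 11 * u)
  have h15 : (1 - 49 * u) * (1 + 25 * u) ≤ (1 - 11 * u) * (1 - u) := by nlinarith
  have h16 := mul_le_mul_of_nonneg_right h15 hτ.le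
  linarith

theorem floor_ParL (X : ℝ) (hX : 0 ≤ X) :
    Real.exp X ≤ 2 * (⌊Real.exp X⌋₊ : ℝ) ∧ X - 1 ≤ Real.log (⌊Real.exp X⌋₊ : ℝ) := by
  have h1 : 1 ≤ Real.exp X := Real.one_le_exp hX
  have h2 : (1 : ℝ) ≤ (⌊Real.exp X⌋₊ : ℝ) := by exact_mod_cast (Nat.one_le_floor_iff _).2 h1
  have h3 := Nat.lt_floor_add_one (Real.exp X)
  have h4 : Real.exp X ≤ 2 * (⌊Real.exp X⌋₊ : ℝ) := by linarith
  refine ⟨h4, ?_⟩
  have h5 := Real.log_le_log (Real.exp_pos X) h4
  rw [Real.log_exp, Real.log_mul (by norm_num) (by linarith)] at h5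
  have h6 : Real.log 2 ≤ 2 - 1 := Real.log_le_sub_one_of_pos (by norm_num)
  linarith

theorem ceil_ParL (ε α : ℝ) (hε : 0 < ε) (hε1 : ε ≤ 1) (hα : 0 < α) :
    2 ≤ ⌈Real.exp (Real.log (3200 / ε) / α)⌉₊ ∧
      2 * (⌈Real.exp (Real.log (3200 / ε) / α)⌉₊ : ℝ) ^ (-α) ≤ ε / 100 / 16 := by
  have h0 : 1 < 3200 / ε := by rw [lt_div_iff₀ hε]; linarith
  have h1 : 1 < Real.exp (Real.log (3200 / ε) / α) :=
    Real.one_lt_exp_iff.2 (div_pos (Real.log_pos h0) hα)
  refine ⟨Nat.lt_ceil.2 (by exact_mod_cast h1), ?_⟩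
  have h2 := Real.rpow_le_rpow_of_nonpos (Real.exp_pos _)
    (Nat.le_ceil (Real.exp (Real.log (3200 / ε) / α))) (neg_nonpos.2 hα.le)
  have h3 : Real.log (3200 / ε) / α * -α = -Real.log (3200 / ε) := by field_simp
  rw [← Real.exp_mul, h3, Real.exp_neg, Real.exp_log (by linarith), inv_div] at h2
  linarith

theorem pParL (hB : SParB) : SParL := by
  intro ε τ b a J V D N0 hε hε1 hτ hb ha hN
  obtain ⟨a1, ha1, hB'⟩ := hB a (2 * τ / b) V D N0 ha (by positivity) hN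
  obtain ⟨u, rfl⟩ : ∃ u, ε = 100 * u := ⟨ε / 100, by ring⟩
  have hu : 0 < u := by linarith
  have hu1 : u ≤ 1 / 100 := by linarith
  have e1 : 100 * u / 100 = u := by ring
  have e2 : 100 * u / 4 = 25 * u := by ring
  obtain ⟨c, hc⟩ : ∃ c, c = Real.log (3200 / (100 * u)) := ⟨_, rfl⟩
  have hc0 : 0 < c := by
    rw [hc]
    refine Real.log_pos ?_
    rw [lt_div_iff₀ hε]; linarith
  obtain ⟨m, hm⟩ : ∃ m : ℝ, m = 16 * J + 26 := ⟨_, rfl⟩
  have hm0 : 0 < m := by rw [hm]; positivity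
  refine ⟨min (min a1 u) (min (u * τ / (40 * b)) (min (τ * u ^ 3 / 20) (τ / (5 * (c + m))))),
    by positivity, fun α hα hα0 y hy1 hy2 => ?_⟩
  simp only [lt_min_iff] at hα0
  obtain ⟨⟨k1, k2⟩, k3, k4, k5⟩ := hα0
  rw [lt_div_iff₀ (by positivity)] at k3 k4 k5
  obtain ⟨hL1, hL2⟩ := ceil_ParL (100 * u) α hε hε1 hα
  rw [← hc] at hL1 hL2
  have hy : 0 < y := by linarith
  have hA : 0 < α ^ 2 := by positivity
  have hA1 : α ^ 2 ≤ α := pow_le_of_le_one hα.le (by linarith) (by norm_num)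
  have hθ2 : 1 / (1 + α) ≤ 1 := by rw [div_le_iff₀ (by linarith)]; linarith
  have hθ1 : 1 - u ≤ 1 / (1 + α) := by
    rw [le_div_iff₀ (by linarith)]
    linarith [mul_pos hu hα]
  specialize hB' α hα k1
  rw [e1] at hL2
  rw [e1, e2]
  generalize 1 / (1 + α) = θ at hθ1 hθ2 hB' ⊢
  obtain ⟨d1, d2⟩ := d_ParL u b y θ (α ^ 2) hu hu1 hb hy1 hy2 hθ1 hθ2 hA
  obtain ⟨d, hd⟩ : ∃ d, d = 2 * y * θ * ((2 - 100 * u) * α ^ 2) * (1 + u) := ⟨_, rfl⟩
  rw [← hd] at d1 d2 ⊢
  have hbA : 0 < b * α ^ 2 := mul_pos hb hA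
  have hd0 : 0 < d := by linarith
  have d3 : 8 * d ≤ u * τ := by
    have := mul_le_mul_of_nonneg_left hA1 hb.le
    linarith
  obtain ⟨s, hs⟩ : ∃ s : ℕ, s = ⌊τ / d⌋₊ := ⟨_, rfl⟩
  have hs0 : (0 : ℝ) ≤ s := Nat.cast_nonneg s
  have s1 : d * s ≤ τ := by
    have h := Nat.floor_le (div_pos hτ hd0).le
    rw [← hs, le_div_iff₀ hd0] at h
    linarith
  have s2 : (1 - u) * τ ≤ d * s := by
    have h := Nat.lt_floor_add_one (τ / d)
    rw [← hs, div_lt_iff₀ hd0] at h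
    linarith
  have s3 : 4 ≤ s * u := by
    have h1 := mul_le_mul_of_nonneg_right d3 hs0
    have h2 : 1 / 2 * τ ≤ (1 - u) * τ := mul_le_mul_of_nonneg_right (by linarith) hτ.le
    refine le_of_mul_le_mul_left (a := τ) ?_ hτ
    linarith
  obtain ⟨m1, m2, m3⟩ := main_ParL u τ θ (y * s * α ^ 2) hu hu1 hτ hθ1 hθ2 (by positivity)
    (s2.trans_eq (by rw [hd]; ring))
  obtain ⟨X, hX⟩ : ∃ X, X = 2 * θ ^ 2 * y * (1 - 3 * u) * s := ⟨_, rfl⟩
  have e3 : 2 * θ ^ 2 * (1 - 3 * u) * (y * s * α ^ 2) = X * α ^ 2 := by rw [hX]; ring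
  rw [e3] at m2 m3
  have hu3 : 0 < u ^ 3 := by positivity
  have k6 : 20 * α ^ 2 ≤ τ * u ^ 3 := by linarith
  have x0 : ∀ Z : ℝ, τ ≤ 5 * (Z * α ^ 2) → 4 ≤ Z * u ^ 3 := fun Z hZ => by
    have h1 := mul_le_mul_of_nonneg_right hZ hu3.le
    refine le_of_mul_le_mul_left (a := 5 * α ^ 2) ?_ (by positivity)
    linarith
  have x1 := x0 X m2
  have hX0 : 0 ≤ X := by
    by_contra h
    have := mul_neg_of_neg_of_pos (not_le.1 h) hu3
    linarith
  have x2 : 1 ≤ X * u := by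
    have h1 : u ^ 3 ≤ u := pow_le_of_le_one hu.le (by linarith) (by norm_num)
    have h2 := mul_le_mul_of_nonneg_left h1 hX0
    linarith
  obtain ⟨q1, q2⟩ := floor_ParL X hX0
  refine ⟨s, ⌊Real.exp X⌋₊, ⌈Real.exp (c / α)⌉₊, by linarith, hL1, hL2, ?_, ?_, ?_, ?_, s1, ?_,
    hB' s ?_ ?_⟩
  · have h1 : 1 ≤ Real.exp (c / α) := Real.one_le_exp (by positivity)
    have h2 := (Nat.ceil_lt_add_one (Real.exp_pos (c / α)).le).le
    have h3 : m + c / α ≤ X := by
      refine le_of_mul_le_mul_left (a := 5 * α ^ 2) ?_ (by positivity)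
      have h4 : 5 * α ^ 2 * (m + c / α) = 5 * (m * α ^ 2) + 5 * (c * α) := by field_simp
      have h5 := mul_le_mul_of_nonneg_left hA1 hm0.le
      rw [h4]
      linarith
    have h6 := Real.exp_le_exp.2 h3
    rw [Real.exp_add] at h6
    have h7 : m ≤ Real.exp m := by linarith [Real.add_one_le_exp m]
    have h8 := mul_le_mul_of_nonneg_right h7 (Real.exp_pos (c / α)).le
    have h9 : ((2 * ((J + 1) * (⌈Real.exp (c / α)⌉₊ + 2)) + ⌈Real.exp (c / α)⌉₊ + 3 : ℕ) : ℝ) ≤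
        (⌊Real.exp X⌋₊ : ℝ) := by
      push_cast
      have hJ : (0 : ℝ) ≤ (J : ℝ) + 1 := by positivity
      have h10 : ((J : ℝ) + 1) * ((⌈Real.exp (c / α)⌉₊ : ℝ) + 2) ≤
          ((J : ℝ) + 1) * (4 * Real.exp (c / α)) := mul_le_mul_of_nonneg_left (by linarith) hJ
      have h11 : m * Real.exp (c / α) =
          4 * (((J : ℝ) + 1) * (4 * Real.exp (c / α))) + 10 * Real.exp (c / α) := by rw [hm]; ring
      linarith
    exact_mod_cast h9
  · rw [← hX]
    exact Nat.floor_le (Real.exp_pos X).le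
  · rw [div_le_iff₀ hu]; exact s3
  · rw [div_le_iff₀ hu3]; exact x0 _ m1
  · refine m3.trans ?_
    have h1 : (1 - u) * X ≤ Real.log (⌊Real.exp X⌋₊ : ℝ) := by linarith
    have h2 : 0 ≤ (1 - u) ^ 6 * α ^ 2 := by positivity
    exact le_of_eq_of_le (by ring) (mul_le_mul_of_nonneg_left h1 h2)
  · have h1 : (0 : ℝ) < s := by
      by_contra h
      have := mul_nonpos_of_nonpos_of_nonneg (not_lt.1 h) hu.le
      linarith
    exact_mod_cast h1
  · rw [div_div, le_div_iff₀ hbA]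
    have h1 := mul_le_mul_of_nonneg_right d1 hs0
    linarith

end Pool.Agent.MP_c26281_pr.SA

end

section

open MeasureTheory ProbabilityTheory Finset Filter Topology
open scoped ENNReal

namespace Pool.Agent.MP_c26281_pr.SA

theorem scale_Low {b lam : ℝ} {k0 : ℕ} (hb : 0 < b) (h0 : 0 < lam)
    (h1 : lam < Real.sqrt (b / (k0 + 2))) :
    ∃ k : ℕ, k0 ≤ k ∧ b / 2 ≤ lam ^ 2 * k ∧ lam ^ 2 * k ≤ b := by
  have a0 : 0 < lam ^ 2 := by positivity
  have a1 : lam ^ 2 * (k0 + 2) < b := by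
    rw [← lt_div_iff₀ (by positivity)]
    exact (Real.lt_sqrt h0.le).1 h1
  have a2 : (0 : ℝ) ≤ k0 := Nat.cast_nonneg _
  refine ⟨⌊b / lam ^ 2⌋₊, Nat.le_floor ?_, ?_, ?_⟩
  · rw [le_div_iff₀ a0]
    nlinarith
  · have := Nat.lt_floor_add_one (b / lam ^ 2)
    rw [div_lt_iff₀ a0] at this
    nlinarith
  · have := Nat.floor_le (show 0 ≤ b / lam ^ 2 by positivity)
    rw [le_div_iff₀ a0] at this
    linarith

theorem mass_Low {u lam h m : ℝ} (hu : 0 < u) (hu1 : u ≤ 1) (h0 : 0 < lam) (hm : 0 ≤ m)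
    (h1 : h ≤ 2 * lam) (h2 : lam ^ 2 * m ≤ u ^ 2 / 16) :
    2 * lam * h * m + 2 * lam * Real.sqrt m ≤ u := by
  have a1 : lam * Real.sqrt m ≤ u / 4 := by
    refine abs_le_of_sq_le_sq' ?_ (by positivity) |>.2
    rw [mul_pow, Real.sq_sqrt hm]
    linarith
  have a2 : 2 * lam * h * m ≤ 2 * lam * (2 * lam) * m := by gcongr
  nlinarith

theorem pLow (hMg : SMg) (hKA : SKA) (hR : SRare) (hT : STy) (hA : SAbsL) (hJ : SJun) (hG : SGap)
    (hD : SDom) (hZ : SZcL) (hLM : SLM) (hP : SParL) : SLow := by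
  suffices H : ∀ ε : ℝ, 0 < ε → ε ≤ 1 → ∃ a0 > 0, ∀ α : ℝ, 0 < α → α < a0 →
      ∀ (K : ℕ → ℝ) (c : ℝ), KH K α c →
      ∀ (ν : Measure (ℕ × Bool)) [IsProbabilityMeasure ν], (∀ m s, ν.real {(m, s)} = K m / 2) →
      ∀ (μ : Measure ℝ) [IsProbabilityMeasure μ], Ch μ → ∃ lam0 > 0, ∀ lam : ℝ, 0 < lam →
      lam < lam0 → ∀ h : ℝ, h ≤ (1 / (1 + α) + (2 - ε) * α ^ 2) * lam →
      ∃ δ > 0, ∀ᶠ N : ℕ in atTop,
        δ ≤ (1 / (N : ℝ)) * ∫ ω, Real.log (Z ν lam h N ω) ∂(PP μ) by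
    intro ε hε
    obtain ⟨a0, h0, h1⟩ := H (min ε 1) (lt_min hε one_pos) (min_le_right _ _)
    refine ⟨a0, h0, fun α a1 a2 K c hK ν _ hν μ _ hμ => ?_⟩
    obtain ⟨l0, h2, h3⟩ := h1 α a1 a2 K c hK ν hν μ hμ
    refine ⟨l0, h2, fun lam b1 b2 h b3 => h3 lam b1 b2 h (b3.trans ?_)⟩
    have := min_le_left ε 1
    gcongr
  intro ε e0 e1
  have u0 : 0 < ε / 100 := by positivity
  have u1 : ε / 100 ≤ 1 := by linarith
  obtain ⟨τ, a, R, V, D, N0, t1, t2, t3, t4⟩ := hT (1 / 2 * (1 + ε / 4)) (by linarith)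
  obtain ⟨J, a1, a10, hJ⟩ := hJ _ u0 u1
  obtain ⟨b, b0, hb⟩ : ∃ b : ℝ, 0 < b ∧ (4 * J + 6) * b = (ε / 100) ^ 2 / 16 :=
    ⟨(ε / 100) ^ 2 / 16 / (4 * J + 6), by positivity, mul_div_cancel₀ _ (by positivity)⟩
  obtain ⟨a2, a20, hP⟩ := hP ε τ b a J V D N0 e0 e1 t1 b0 t2 t3
  obtain ⟨a3, a30, hKA⟩ := hKA _ u0 u1
  refine ⟨min a1 (min a2 a3), by positivity, fun α α0 hα K c hK ν _ hν μ _ hμ => ?_⟩
  simp only [lt_min_iff] at hα
  have d0 : 0 < (2 - ε) * α ^ 2 := mul_pos (by linarith) (by positivity)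
  obtain ⟨v, v0, v1, v2⟩ : ∃ v : ℝ, 0 < v ∧ v ≤ (ε / 100) ^ 2 / 4 ∧
      v ≤ ε / 100 * ((2 - ε) * α ^ 2) :=
    ⟨min _ _, lt_min (by positivity) (by positivity), min_le_left _ _, min_le_right _ _⟩
  obtain ⟨t0, t00, hM⟩ := hMg μ hμ v v0
  obtain ⟨k0, hk0⟩ := hKA α α0 hα.2.2 K c hK
  refine ⟨min (t0 / 2) (Real.sqrt (b / (k0 + 2))), by positivity, fun lam l0 hl h hh => ?_⟩
  simp only [lt_min_iff] at hl
  obtain ⟨k, k1, k2, k3⟩ := scale_Low b0 l0 hl.2
  obtain ⟨κ, hκ⟩ := hk0 k k1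
  obtain ⟨s, Q, L, p1, p2, p3, p4, p5, p6, p7, p8, p9, p10⟩ := hP α α0 hα.2.1 _ k2 k3
  have th0 : 0 < 1 / (1 + α) := by positivity
  have th1 : 1 / (1 + α) ≤ 1 := by
    rw [div_le_one (by positivity)]
    linarith
  have d1 : (2 - ε) * α ^ 2 ≤ 1 := by nlinarith
  generalize (2 - ε) * α ^ 2 = δ at *
  have α1 : α ≤ 1 := by linarith
  have h10 : 0 ≤ (1 / (1 + α) + δ) * lam := by positivity
  obtain ⟨g, g1, g2, g3⟩ := hJ α α0 hα.1 K _ κ lam ((1 / (1 + α) + δ) * lam) k L hκ p2 p3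
  have s0 : 1 ≤ s := Nat.cast_pos.1 ((show (0 : ℝ) < 4 / (ε / 100) by positivity).trans_le p6)
  have kk : (0 : ℝ) ≤ k := Nat.cast_nonneg _
  have w1 : 1 / (1 + α) * v ≤ v := mul_le_of_le_one_left v0.le th1
  have lm := hLM μ hμ K α (ε / 100) v κ lam ((1 / (1 + α) + δ) * lam) t0 _
    (2 * (lam ^ 2 * k) * (1 / (1 + α)) * δ * (1 + ε / 100)) τ (1 / 2 * (1 + ε / 4)) k L Q s V α0 α1
    u0 (by linarith) hκ.1 (by omega) s0 l0 h10 hM (by linarith) v0.le v1 (by positivity) t1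
    (by positivity)
    (fun q l hl => hG K α _ κ lam _ _ k L _ g α0 u0 u1 (by positivity) hκ (by omega) g1 g2 g3 q l
      (p4.trans hl))
    (mass_Low u0 u1 l0 (by positivity) (mul_le_mul_of_nonneg_right (by linarith) l0.le) (by
      have : (4 * J + 6 : ℝ) * (lam ^ 2 * k) ≤ (4 * J + 6) * b := by gcongr
      linarith)) p5 p7 (by
      have : 2 * (lam ^ 2 * k) * (1 / (1 + α)) * (1 / (1 + α) * v) ≤
          2 * (lam ^ 2 * k) * (1 / (1 + α)) * (ε / 100 * δ) :=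
        mul_le_mul_of_nonneg_left (w1.trans v2) (by positivity)
      linarith) p8 p9
  obtain ⟨r, c0, m0, r1, c1, hr⟩ := hA _ _ _ _ _ _ _ _ _ _ _ _ _ _ lm a R D N0 t3 t4 p10
  have mo : Mo μ lam ((1 / (1 + α) + δ) * lam) (1 / (1 + α)) 0 := fun i j => by
    refine (XX_up hμ hM (by
      rw [abs_of_nonneg (by positivity)]
      have := mul_le_of_le_one_right (show 0 ≤ 2 * lam by positivity) th1
      linarith) _ i j).trans (ENNReal.ofReal_le_ofReal (Real.exp_le_exp.2 ?_))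
    refine mul_le_mul_of_nonneg_right ?_ (Nat.cast_nonneg _)
    have : 2 * lam ^ 2 * (1 / (1 + α)) * (1 / (1 + α) * v) ≤ 2 * lam ^ 2 * (1 / (1 + α)) * δ :=
      mul_le_mul_of_nonneg_left ((w1.trans v2).trans (mul_le_of_le_one_left d0.le u1))
        (by positivity)
    linarith
  obtain ⟨m1, m10, hm⟩ := hZ μ K k m0 κ lam _ _ r c0 hκ.1 hK.1 hK.2.1 hκ.2.1.le th0 th1 r1 c1 mo
    fun n => by
      obtain ⟨p, q1, q2⟩ := hr n
      exact ⟨p, q1, q2.trans (lintegral_mono fun x => ENNReal.rpow_le_rpow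
        (hD K α _ κ lam _ _ _ k L s x α0 α1 u0 u1 hκ p2 p6 0 p) th0.le)⟩
  exact hR K α c α0 α1 hK ν hν μ hμ lam h _ r m1 l0.le hh h10 r1 m10 hm

end Pool.Agent.MP_c26281_pr.SA

end

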