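import Pool.Agent.MP_c26281_pr.SA.M1
import Pool.Agent.MP_c26281_pr.SA.M2
import Pool.Agent.MP_c26281_pr.SA.M3
import Pool.Agent.MP_c26281_pr.SA.M4

/-! Assembly. -/

open MeasureTheory

namespace Pool.Agent.MP_c26281_pr.SA

theorem up : SUp :=
  have hW := pWt pAlg pJoin
  pUp pMg (pKA pSum) pBridge pFree
    (pAbsU (pNu pSum) pJn (pRG (pSeq pJn) (pStep pSum pAlg pJoin pF1 (pKill pSum) hW))
      (pZero pJoin pF1 hW) (pParU pSm))
    (pGreen pCG (pTail pSum pTq) pShort) (pHC pCG pAdcg) (pZcU pCG) pParM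

theorem low : SLow :=
  have hF := pFirst pPl
  pLow pMg (pKA pSum) pRare (pTy (pInit (pNu pSum)) pGrow (pComb pGood (pClu pGood)))
    (pAbsL (pMom pCount pJen pLAlg pPl hF (pInd pPl) (pBulk hF)))
    (pJun pLin (pUs pJn) (pUsL pLin)) (pGap pLin) (pDom pCG) (pZcL pAdcg pBridge)
    (pLM pAdcg pMin pPass (pLw pSum)) (pParL (pParB pSm))

theorem int_log (ν : Measure (ℕ × Bool)) [IsProbabilityMeasure ν] (μ : Measure ℝ)
    [IsProbabilityMeasure μ] (hμ : Ch μ) (lam h : ℝ) (N : ℕ) :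
    Integrable (fun ω => Real.log (Z ν lam h N ω)) (PP μ) := by
  simp_rw [Old.Z_eq]
  exact ((Old.mp_sh μ 1).integrable_comp
    (Old.measurable_Zx ν lam h N).log.aestronglyMeasurable).2 (Old.log_int ν hμ lam h N)

end Pool.Agent.MP_c26281_pr.SA
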