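import Pool.Agent.MP_c26281_pr.SA.Old

section

open MeasureTheory ProbabilityTheory Finset Filter Topology
open scoped ENNReal

namespace Pool.Agent.MP_c26281_pr.SA

theorem tan_Sum {α x y : ℝ} (hα : 0 ≤ α) (hx : 0 < x) (hy : 0 < y) :
    x ^ (-α) - y ^ (-α) ≤ α * (y - x) * x ^ (-(1 + α)) := by
  have h1 : y ^ (-α) = x ^ (-α) * Real.exp (-α * Real.log (y / x)) := by
    rw [Real.rpow_def_of_pos hx, Real.rpow_def_of_pos hy, ← Real.exp_add,
      Real.log_div hy.ne' hx.ne']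
    congr 1; ring
  have h2 : x ^ (-(1 + α)) = x ^ (-α) / x := by
    rw [show -(1 + α) = -α - 1 by ring, Real.rpow_sub_one hx.ne']
  have h3 := Real.add_one_le_exp (-α * Real.log (y / x))
  have h4 := Real.log_le_sub_one_of_pos (div_pos hy hx)
  have h5 : 0 < x ^ (-α) := Real.rpow_pos_of_pos hx _
  have h6 : 1 - α * (y / x - 1) ≤ Real.exp (-α * Real.log (y / x)) := by nlinarith
  have h7 : α * (y - x) * (x ^ (-α) / x) = x ^ (-α) * (α * (y / x - 1)) := by
    field_simp
  rw [h1, h2, h7]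
  nlinarith [mul_le_mul_of_nonneg_left h6 h5.le]

theorem p4a_Sum (α : ℝ) (a b : ℕ) (hα : 0 < α) (ha : 1 ≤ a) (hab : a ≤ b) :
    ((a : ℝ) ^ (-α) - (b : ℝ) ^ (-α)) / α ≤ ∑ n ∈ Ico a b, (n : ℝ) ^ (-(1 + α)) := by
  rw [div_le_iff₀ hα]
  induction b, hab using Nat.le_induction with
  | base => simp
  | succ n hn ih =>
    rw [sum_Ico_succ_top hn]
    have hn0 : (0 : ℝ) < n := by exact_mod_cast (by omega : 0 < n)
    have := tan_Sum hα.le hn0 (y := n + 1) (by linarith)
    push_cast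
    nlinarith

theorem p4b_Sum (α : ℝ) (a b : ℕ) (hα : 0 < α) (ha : 1 ≤ a) (hab : a ≤ b) :
    ∑ n ∈ Ioc a b, (n : ℝ) ^ (-(1 + α)) ≤ ((a : ℝ) ^ (-α) - (b : ℝ) ^ (-α)) / α := by
  rw [le_div_iff₀ hα]
  induction b, hab using Nat.le_induction with
  | base => simp
  | succ n hn ih =>
    rw [sum_Ioc_succ_top hn]
    have hn0 : (0 : ℝ) < n := by exact_mod_cast (by omega : 0 < n)
    have := tan_Sum hα.le (x := n + 1) (by linarith) hn0
    push_cast
    nlinarith

theorem p3_Sum (a b : ℕ) (ha : 1 ≤ a) (hab : a ≤ b) :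
    Real.log (b / a) ≤ ∑ n ∈ Ico a b, (1 / n : ℝ) := by
  have ha0 : (0 : ℝ) < a := by exact_mod_cast (by omega : 0 < a)
  induction b, hab using Nat.le_induction with
  | base => simp [div_self ha0.ne']
  | succ n hn ih =>
    rw [sum_Ico_succ_top hn]
    have hn0 : (0 : ℝ) < n := by exact_mod_cast (by omega : 0 < n)
    have h1 := Real.log_le_sub_one_of_pos (x := (n + 1) / n) (by positivity)
    have h2 : ((n : ℝ) + 1) / n - 1 = 1 / n := by field_simp; ring
    rw [Real.log_div (by positivity) hn0.ne', h2] at h1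
    rw [Real.log_div hn0.ne' ha0.ne'] at ih
    push_cast
    rw [Real.log_div (by positivity) ha0.ne']
    linarith

theorem p2a_Sum (a b : ℕ) (ha : 1 ≤ a) (hab : a ≤ b) :
    ∑ n ∈ Ico a (b + 1), (1 / n : ℝ) ≤ Real.log b - Real.log a + 1 / a := by
  induction b, hab using Nat.le_induction with
  | base => simp
  | succ n hn ih =>
    rw [sum_Ico_succ_top (by omega)]
    have hn0 : (0 : ℝ) < n := by exact_mod_cast (by omega : 0 < n)
    have h1 := Real.log_le_sub_one_of_pos (x := n / (n + 1)) (by positivity)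
    have h2 : (n : ℝ) / (n + 1) - 1 = -(1 / (n + 1)) := by field_simp; ring
    rw [Real.log_div hn0.ne' (by positivity), h2] at h1
    push_cast
    linarith

theorem p2_Sum (L M : ℕ) (hL : 1 ≤ L) (hM : M ≤ 2 * L) :
    ∑ n ∈ Ico L M, (1 / n : ℝ) ≤ Real.log 2 + 1 / L := by
  have hL0 : (0 : ℝ) < L := by exact_mod_cast (by omega : 0 < L)
  have h := p2a_Sum L (2 * L) hL (by omega)
  push_cast at h
  rw [Real.log_mul two_ne_zero hL0.ne'] at h
  refine le_trans (sum_le_sum_of_subset_of_nonneg (Ico_subset_Ico le_rfl (by omega))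
    fun _ _ _ => by positivity) (h.trans (le_of_eq (by ring)))

theorem p5_Sum (α : ℝ) (b : ℕ) (h0 : 0 ≤ α) (h1 : α < 1) :
    ∑ n ∈ Ioc 0 b, (n : ℝ) ^ (-α) ≤ (b : ℝ) ^ (1 - α) / (1 - α) := by
  have hβ : 0 < 1 - α := by linarith
  rw [le_div_iff₀ hβ]
  induction b with
  | zero => simp [Real.zero_rpow hβ.ne']
  | succ n ih =>
    rw [sum_Ioc_succ_top (Nat.zero_le n)]
    have hn0 : (0 : ℝ) ≤ n := Nat.cast_nonneg n
    have hx : (0 : ℝ) < n + 1 := by linarith
    have h2 := rpow_one_add_le_one_add_mul_self (s := -(1 / ((n : ℝ) + 1)))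
      (neg_le_neg (by rw [div_le_one hx]; linarith)) hβ.le (by linarith : 1 - α ≤ 1)
    have h3 : 1 + -(1 / ((n : ℝ) + 1)) = n / (n + 1) := by field_simp; ring
    rw [h3, Real.div_rpow hn0 hx.le, div_le_iff₀ (Real.rpow_pos_of_pos hx _)] at h2
    have h4 : ((n : ℝ) + 1) ^ (1 - α) = (n + 1) * (n + 1) ^ (-α) := by
      rw [sub_eq_add_neg, Real.rpow_add hx, Real.rpow_one]
    have h5 : (1 + (1 - α) * -(1 / ((n : ℝ) + 1))) * ((n : ℝ) + 1) ^ (1 - α)
        = ((n : ℝ) + 1) ^ (1 - α) - (1 - α) * (n + 1) ^ (-α) := by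
      rw [h4]; field_simp; ring
    rw [h5] at h2
    push_cast
    nlinarith

theorem p1_Sum (A α : ℝ) (L : ℕ) (hA : 0 ≤ A) (hα : 0 < α) (hL : 1 ≤ L) :
    ∑' n, pwL A α L n ≤ ENNReal.ofReal (A * ((L : ℝ) ^ (-(1 + α)) + (L : ℝ) ^ (-α) / α)) := by
  rw [ENNReal.tsum_eq_iSup_nat]
  refine iSup_le fun N => ?_
  have h1 : ∑ n ∈ range N, pwL A α L n ≤ ∑ n ∈ Icc L (L + N), pw A α n := by
    unfold pwL
    rw [← sum_filter]
    refine sum_le_sum_of_subset fun n hn => ?_
    rw [mem_filter, mem_range] at hn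
    rw [mem_Icc]; omega
  refine h1.trans ?_
  unfold pw
  rw [← ENNReal.ofReal_sum_of_nonneg fun n _ => by positivity, ← mul_sum]
  refine ENNReal.ofReal_le_ofReal (mul_le_mul_of_nonneg_left ?_ hA)
  rw [← Ioc_insert_left (Nat.le_add_right L N), sum_insert (by simp)]
  refine add_le_add_right ((p4b_Sum α L (L + N) hα hL (Nat.le_add_right L N)).trans ?_) _
  refine div_le_div_of_nonneg_right ?_ hα.le
  have : (0 : ℝ) ≤ ((L + N : ℕ) : ℝ) ^ (-α) := by positivity
  linarith

theorem pSum : SSum :=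
  ⟨p1_Sum, p2_Sum, p3_Sum,
    fun α a b h1 h2 h3 => ⟨p4a_Sum α a b h1 h2 h3, p4b_Sum α a b h1 h2 h3⟩, p5_Sum⟩

end Pool.Agent.MP_c26281_pr.SA

end

section

open MeasureTheory ProbabilityTheory Finset Filter Topology
open scoped ENNReal

namespace Pool.Agent.MP_c26281_pr.SA

theorem gD_sum_Alg (E : IA) (C : ℕ → IA) (j : ℕ) :
    gsum (gD E C j) = (gsum C * E) ^ j * gsum C := by
  induction j with
  | zero => rw [pow_zero, one_mul]; rfl
  | succ j ih =>
    have := gsum_cauchy (fun z => C z * E) (gD E C j)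
    rw [← gsum_mul, ih] at this
    rw [pow_succ', mul_assoc _ _ (gsum C), ← this]; rfl

theorem pAlg : SAlg := by
  refine ⟨fun E C => le_of_eq ?_, fun H C0 C1 => le_of_eq ?_, fun E G C => le_of_eq ?_⟩
  · rw [← kst_shift]
    unfold gj
    rw [gsum_comm]
    unfold kst
    rw [gsum_mul]
    congr 1; funext j
    exact (gD_sum_Alg E C j).symm
  · rw [add_mul, kst_add, kst_shift (kst (C0 * H)) (C1 * H)]
    simp only [mul_assoc]
  · have h1 : kst (C * (E + G)) = kst (C * kst (E * C) * G) * kst (C * E) := by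
      rw [mul_add, kst_add, ← kst_shift C E, mul_assoc]
    have h2 := kst_shift E C
    have h3 := kst_eq (E * C)
    have h4 := kst_eq (C * kst (E * C) * G)
    rw [h1]
    generalize kst (C * kst (E * C) * G) = T at h4 ⊢
    generalize kst (C * E) = S' at h2 ⊢
    generalize kst (E * C) = S at h2 h3 h4 ⊢
    calc (E + G) * (T * S') = E * T * S' + G * T * S' := by noncomm_ring
      _ = E * (1 + C * S * G * T) * S' + G * T * S' := by rw [← h4]
      _ = E * S' + (1 + E * C * S) * (G * T) * S' := by noncomm_ring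
      _ = _ := by rw [← h2, ← h3]

theorem tsum_id_cv_Jn (a b : ℕ → ℝ≥0∞) : ∑' n : ℕ, (n : ℝ≥0∞) * cv a b n
    = (∑' n : ℕ, (n : ℝ≥0∞) * a n) * (∑' n, b n) + (∑' n, a n) * ∑' n : ℕ, (n : ℝ≥0∞) * b n := by
  rw [← tsum_cv, ← tsum_cv, ← ENNReal.tsum_add]
  refine tsum_congr fun n => ?_
  unfold cv
  rw [mul_sum, ← sum_add_distrib]
  refine sum_congr rfl fun x hx => ?_
  rw [← mem_antidiagonal.1 hx]; push_cast; ring

theorem pJn : SJn := by
  intro g p
  have h1 : ∀ j, ∑' z, jD g p j z = (∑' z, p z) * (g * ∑' z, p z) ^ j := by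
    intro j
    induction j with
    | zero => simp [jD]
    | succ j ih => simp only [jD]; rw [ENNReal.tsum_mul_left, tsum_cv, ih]; ring
  have h2 : ∀ j : ℕ, ∑' z : ℕ, (z : ℝ≥0∞) * jD g p j z
      = (∑' z : ℕ, (z : ℝ≥0∞) * p z) * ((j + 1) * (g * ∑' z, p z) ^ j) := by
    intro j
    induction j with
    | zero => simp [jD]
    | succ j ih =>
      simp only [jD]
      simp_rw [mul_left_comm _ g]
      rw [ENNReal.tsum_mul_left, tsum_id_cv_Jn, ih, h1]; push_cast; ring
  unfold jn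
  constructor
  · rw [ENNReal.tsum_comm]
    simp_rw [h1]
    rw [ENNReal.tsum_mul_left, ENNReal.tsum_geometric]
  · rw [tsum_congr fun z : ℕ => (ENNReal.tsum_mul_left (a := (z : ℝ≥0∞))
      (f := fun j => jD g p j z)).symm, ENNReal.tsum_comm]
    simp_rw [h2]
    rw [ENNReal.tsum_mul_left, _root_.sq, ← ENNReal.tsum_geometric,
      ← tsum_cv (fun j => (g * ∑' z, p z) ^ j)]
    refine mul_le_mul_right (ENNReal.tsum_le_tsum fun j => le_of_eq ?_) _
    unfold cv
    rw [sum_congr rfl fun x hx => by rw [← pow_add, mem_antidiagonal.1 hx]]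
    simp

theorem pF1 : SF1 := by
  intro α η ρ0 r n1 l n2 z1 z2 hη hl
  unfold f1
  rw [← ENNReal.ofReal_mul (by positivity), ← ENNReal.ofReal_mul (by positivity)]
  refine ENNReal.ofReal_le_ofReal ?_
  have e : (2 : ℝ) ^ (-(α * (r + (z1 + z2) : ℕ))) = (2 : ℝ) ^ (-(α * (r + z1 : ℕ))) * 2 ^ (α * r)
      * 2 ^ (-(α * (r + z2 : ℕ))) := by
    rw [← Real.rpow_add two_pos, ← Real.rpow_add two_pos]; congr 1; push_cast; ring
  have m : ∀ a b : ℕ, a ≤ b → (2 : ℝ) ^ max a ρ0 ≤ 2 ^ max b ρ0 := fun a b h =>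
    pow_le_pow_right₀ one_le_two (max_le_max_right _ h)
  have a1 : η * n1 / 2 ^ max (r + (z1 + z2)) ρ0 ≤ η * n1 / 2 ^ max (r + z1) ρ0 :=
    div_le_div_of_nonneg_left (by positivity) (by positivity) (m _ _ (by omega))
  have a2 : η * n2 / 2 ^ max (r + (z1 + z2)) ρ0 ≤ η * n2 / 2 ^ max (r + z2) ρ0 :=
    div_le_div_of_nonneg_left (by positivity) (by positivity) (m _ _ (by omega))
  have a3 : η * l / 2 ^ max (r + (z1 + z2)) ρ0 ≤ 2 * η := by
    rw [div_le_iff₀ (by positivity)]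
    have h1 : (l : ℝ) ≤ 2 * 2 ^ max r ρ0 := by exact_mod_cast hl
    have h2 := m r (r + (z1 + z2)) (by omega)
    nlinarith
  have a4 : η * (n1 + l + n2 : ℕ) / 2 ^ max (r + (z1 + z2)) ρ0 = η * n1 / 2 ^ max (r + (z1 + z2)) ρ0
      + η * l / 2 ^ max (r + (z1 + z2)) ρ0 + η * n2 / 2 ^ max (r + (z1 + z2)) ρ0 := by
    push_cast; ring
  have p1 : 0 ≤ η * n1 / 2 ^ max (r + z1) ρ0 := by positivity
  have p2 : 0 ≤ η * n2 / 2 ^ max (r + z2) ρ0 := by positivity
  have key : 1 + η * (n1 + l + n2 : ℕ) / 2 ^ max (r + (z1 + z2)) ρ0 ≤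
      (1 + η * n1 / 2 ^ max (r + z1) ρ0) * (1 + 2 * η) * (1 + η * n2 / 2 ^ max (r + z2) ρ0) := by
    rw [a4]
    generalize η * n1 / 2 ^ max (r + z1) ρ0 = A at a1 p1 ⊢
    generalize η * n2 / 2 ^ max (r + z2) ρ0 = B at a2 p2 ⊢
    nlinarith [mul_nonneg p1 hη, mul_nonneg p2 hη, mul_nonneg p1 p2,
      mul_nonneg (mul_nonneg p1 p2) hη]
  have := pow_le_pow_left₀ (by positivity) key 2
  rw [e]
  calc _ ≤ (2 : ℝ) ^ (-(α * (r + z1 : ℕ))) * 2 ^ (α * r) * 2 ^ (-(α * (r + z2 : ℕ))) *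
        ((1 + η * n1 / 2 ^ max (r + z1) ρ0) * (1 + 2 * η)
          * (1 + η * n2 / 2 ^ max (r + z2) ρ0)) ^ 2 := by gcongr
    _ = _ := by ring

theorem pParM : SParM := by
  intro ε α y s h0 h1 a0 a1 y0 y1 hs
  have l2 : 0 < Real.log 2 := Real.log_pos one_lt_two
  set t := 1 / (1 + α) with ht
  have t1 : t * (1 + α) = 1 := by rw [ht]; field_simp
  have tp : 0 < t := by positivity
  have t2 : t ≤ 1 := by nlinarith
  have t3 : 1 - ε / 20 ≤ t := by nlinarith
  have yp : 0 < y := by nlinarith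
  have a2 : 0 < α ^ 2 := by positivity
  have k1 : 2 * (1 + ε / 4) ≤ (1 - ε / 20) * (1 - ε / 20) * (2 + ε - ε / 20) := by
    nlinarith [mul_pos h0 h0, mul_pos h0 (mul_pos h0 h0), mul_le_mul_of_nonneg_left h1 h0.le]
  have k2 : Real.log 2 * (1 - ε / 20) * (1 - ε / 20) ≤ 2 * y * t :=
    mul_le_mul y0 t3 (by linarith) (by linarith)
  have k3 : 2 * α ^ 2 * Real.log 2 * (1 + ε / 4) ≤ 2 * y * t * ((2 + ε - ε / 20) * α ^ 2) := by
    calc _ = Real.log 2 * (2 * (1 + ε / 4)) * α ^ 2 := by ring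
      _ ≤ Real.log 2 * ((1 - ε / 20) * (1 - ε / 20) * (2 + ε - ε / 20)) * α ^ 2 := by gcongr
      _ = Real.log 2 * (1 - ε / 20) * (1 - ε / 20) * ((2 + ε - ε / 20) * α ^ 2) := by ring
      _ ≤ _ := mul_le_mul_of_nonneg_right k2 (mul_nonneg (by linarith) a2.le)
  have ea : 0 < ε * α ^ 2 := by positivity
  constructor
  · have : t * (1 + ε * α ^ 2 / 20) - s ≤ -((2 + ε - ε / 20) * α ^ 2) := by nlinarith
    have := mul_le_mul_of_nonneg_left this (show 0 ≤ 2 * y * t by positivity)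
    nlinarith
  · have t4 : 1 - t ≤ α := by nlinarith
    have : 1 + ε * α ^ 2 / 20 - s ≤ α - (2 + ε - ε / 20) * α ^ 2 := by nlinarith
    have h5 := mul_le_mul_of_nonneg_left this (show 0 ≤ 2 * y by positivity)
    have h6 : 2 * y * t * ((2 + ε - ε / 20) * α ^ 2) ≤ 2 * y * ((2 + ε - ε / 20) * α ^ 2) :=
      mul_le_mul_of_nonneg_right (by nlinarith) (mul_nonneg (by linarith) a2.le)
    nlinarith [mul_le_mul_of_nonneg_right y1 a0.le]

theorem pSm : SSm := by
  intro η C D hη hC hD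
  have h1 : Tendsto (fun α : ℝ => D * (α * Real.log C - α * Real.log α)) (𝓝[>] 0) (𝓝 0) := by
    have c : Continuous fun α : ℝ => D * (α * Real.log C - α * Real.log α) :=
      continuous_const.mul ((continuous_id.mul continuous_const).sub Real.continuous_mul_log)
    simpa using (c.tendsto 0).mono_left nhdsWithin_le_nhds
  have h2 := h1.eventually (gt_mem_nhds (Real.log_pos (show 1 < 1 + η by linarith)))
  obtain ⟨a0, ha, h3⟩ := (nhdsGT_basis (0 : ℝ)).eventually_iff.1 h2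
  refine ⟨a0, ha, fun α h4 h5 => ?_⟩
  have := h3 (show α ∈ Set.Ioo 0 a0 from ⟨h4, h5⟩)
  rw [Real.rpow_def_of_pos (by positivity), Real.log_div hC.ne' h4.ne',
    ← Real.exp_log (show 0 < 1 + η by linarith), Real.exp_le_exp]
  linarith

theorem pNu (hS : SSum) : SNu := by
  intro a d ha hd
  constructor
  · have q1 : Real.exp (-d) < 1 := Real.exp_lt_one_iff.2 (by linarith)
    have qp := Real.exp_pos (-d)
    rw [tsum_eq_zero_add' ENNReal.summable]
    have e : ∀ z : ℕ, ((z + 1 : ℕ) : ℝ≥0∞) * nu a d (z + 1)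
        = ENNReal.ofReal (a * Real.exp (-d) * Real.exp (-d) ^ z) := fun z => by
      unfold nu
      rw [← ENNReal.ofReal_natCast, ← ENNReal.ofReal_mul (by positivity), ← Real.exp_nat_mul,
        mul_assoc a, ← Real.exp_add]
      congr 1
      have : ((z + 1 : ℕ) : ℝ) ≠ 0 := by positivity
      field_simp
      congr 2; push_cast; ring
    simp_rw [e]
    have sm := (summable_geometric_of_lt_one qp.le q1).mul_left (a * Real.exp (-d))
    rw [← ENNReal.ofReal_tsum_of_nonneg (fun _ => by positivity) sm, tsum_mul_left,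
      tsum_geometric_of_lt_one qp.le q1]
    simp only [Nat.cast_zero, zero_mul, zero_add]
    refine ENNReal.ofReal_le_ofReal ?_
    rw [← div_eq_mul_inv, div_le_div_iff₀ (by linarith) hd]
    have h1 := Real.add_one_le_exp d
    have h2 : Real.exp (-d) * Real.exp d = 1 := by rw [← Real.exp_add]; simp
    have : Real.exp (-d) * d ≤ 1 - Real.exp (-d) := by nlinarith
    nlinarith
  · have := hS.1 (a * d ^ (-(1 / 4 : ℝ))) (1 / 4) 1 (by positivity) (by norm_num) le_rfl
    refine le_trans (ENNReal.tsum_le_tsum fun z => ?_) (this.trans (le_of_eq ?_))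
    · unfold nu pwL pw
      split_ifs with h
      · refine ENNReal.ofReal_le_ofReal ?_
        have zp : (0 : ℝ) < z := by exact_mod_cast h
        have h1 : Real.exp (-(d * z)) ≤ (d * z) ^ (-(1 / 4 : ℝ)) := by
          rw [Real.rpow_def_of_pos (by positivity), Real.exp_le_exp]
          have := Real.log_le_sub_one_of_pos (mul_pos hd zp)
          nlinarith [mul_pos hd zp]
        rw [Real.mul_rpow hd.le zp.le] at h1
        rw [neg_add, Real.rpow_add zp, Real.rpow_neg_one, div_eq_mul_inv]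
        calc _ ≤ a * (d ^ (-(1 / 4 : ℝ)) * (z : ℝ) ^ (-(1 / 4 : ℝ))) * (z : ℝ)⁻¹ := by gcongr
          _ = _ := by ring
      · obtain rfl : z = 0 := by omega
        simp
    · congr 1; simp; ring

theorem pParB (hm : SSm) : SParB := by
  intro a C V D N0 ha hC hN
  set G : ℝ := N0 * (6 * (C + 1) * (1 + (V + 1) * (C + 1))) + 1 with hG
  have N1 : (1 : ℝ) ≤ N0 := by exact_mod_cast hN
  have V0 : (0 : ℝ) ≤ V := by positivity
  have G1 : 1 ≤ G := by rw [hG]; exact le_add_of_nonneg_left (by positivity)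
  obtain ⟨a0, h0, h1⟩ := hm ((a - 1) / 2) G (6 * D + 1) (by linarith) (by linarith) (by positivity)
  refine ⟨min a0 1, by positivity, fun α p1 p2 s s1 s2 => ?_⟩
  have p3 : α ≤ 1 := (p2.trans_le (min_le_right _ _)).le
  have h2 := h1 α p1 (p2.trans_le (min_le_left _ _))
  have z1 : 1 ≤ 1 / α := by rw [le_div_iff₀ p1]; linarith
  set z := 1 / α with hz
  have s3 : (s : ℝ) ≤ (C + 1) * z ^ 2 := by
    refine s2.trans ?_
    rw [hz, div_pow, one_pow, mul_one_div]; gcongr; linarith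
  have z2 : 1 ≤ z ^ 2 := one_le_pow₀ z1
  have b1 : (1 + (V + 1) * s : ℝ) ≤ G * z ^ 2 := by
    have : (1 + (V + 1) * (C + 1)) ≤ G := by
      rw [hG]
      have : (1 : ℝ) * (1 * (1 + (V + 1) * (C + 1))) ≤ N0 * (6 * (C + 1) * (1 + (V + 1) * (C + 1))) := by
        gcongr; linarith
      linarith
    calc (1 + (V + 1) * s : ℝ) ≤ z ^ 2 + (V + 1) * ((C + 1) * z ^ 2) := by gcongr
      _ = (1 + (V + 1) * (C + 1)) * z ^ 2 := by ring
      _ ≤ _ := by gcongr
  have b2 : (6 * s : ℝ) ≤ G * z ^ 2 := by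
    have : 6 * (C + 1) ≤ G := by
      rw [hG]
      have : (1 : ℝ) * (6 * (C + 1) * 1) ≤ N0 * (6 * (C + 1) * (1 + (V + 1) * (C + 1))) := by
        gcongr; exact le_add_of_nonneg_right (by positivity)
      linarith
    calc (6 * s : ℝ) ≤ 6 * ((C + 1) * z ^ 2) := by gcongr
      _ = 6 * (C + 1) * z ^ 2 := by ring
      _ ≤ _ := by gcongr
  have b3 : (N0 : ℝ) ≤ G * z := by
    have : (N0 : ℝ) * 1 ≤ N0 * (6 * (C + 1) * (1 + (V + 1) * (C + 1))) := by
      gcongr
      exact one_le_mul_of_one_le_of_one_le (by linarith) (le_add_of_nonneg_right (by positivity))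
    nlinarith
  have b4 : G * z ^ 2 ≤ (G * z) ^ 2 := by
    rw [mul_pow]; gcongr; nlinarith
  have b5 : ((N0 * (6 * s * (1 + (V + 1) * s) ^ 2) ^ D : ℕ) : ℝ) ≤ (G * z) ^ (6 * D + 1) := by
    push_cast
    calc _ ≤ (G * z) * ((G * z) ^ 2 * ((G * z) ^ 2) ^ 2) ^ D := by
          gcongr
          · exact b2.trans b4
          · exact b1.trans b4
      _ = _ := by rw [← pow_mul, ← pow_add, ← pow_mul, ← pow_succ']
  have Gz : 1 ≤ G * z := one_le_mul_of_one_le_of_one_le G1 z1
  have e1 : 1 - 1 / (1 + α) ≤ α := by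
    rw [sub_le_comm, le_div_iff₀ (by linarith)]; nlinarith
  have e0 : 0 ≤ 1 - 1 / (1 + α) := by
    rw [sub_nonneg, div_le_one (by linarith)]; linarith
  calc _ ≤ ((G * z) ^ (6 * D + 1)) ^ (1 - 1 / (1 + α)) := Real.rpow_le_rpow (by positivity) b5 e0
    _ ≤ ((G * z) ^ (6 * D + 1)) ^ α := Real.rpow_le_rpow_of_exponent_le (one_le_pow₀ Gz) e1
    _ = (G / α) ^ ((6 * D + 1) * α) := by
      rw [← Real.rpow_natCast, ← Real.rpow_mul (by linarith), hz, mul_one_div]; push_cast; rfl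
    _ < a := by linarith

end Pool.Agent.MP_c26281_pr.SA

end

section

open MeasureTheory ProbabilityTheory Finset Filter Topology
open scoped ENNReal

namespace Pool.Agent.MP_c26281_pr.SA

lemma taylor_Mg (y : ℝ) : |Real.exp y - (1 + y + y ^ 2 / 2)| ≤ |y| ^ 3 * Real.exp |y| := by
  have h := Complex.norm_exp_sub_sum_le_norm_mul_exp (y : ℂ) 3
  have e : Complex.exp y - ∑ m ∈ range 3, (y : ℂ) ^ m / (m.factorial : ℂ) =
      ((Real.exp y - (1 + y + y ^ 2 / 2) : ℝ) : ℂ) := by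
    simp [Finset.sum_range_succ, Nat.factorial]
  rwa [e, Complex.norm_real, Complex.norm_real, Real.norm_eq_abs, Real.norm_eq_abs] at h

lemma dom_Mg {t : ℝ} (ht : |t| ≤ 1) (x : ℝ) : |Real.exp (t * x) - (1 + t * x + (t * x) ^ 2 / 2)| ≤
    |t| ^ 3 * (6 * (Real.exp (2 * x) + Real.exp (-2 * x))) := by
  refine (taylor_Mg _).trans ?_
  have h1 : |x| ^ 3 ≤ 6 * Real.exp |x| := by
    have := Real.pow_div_factorial_le_exp |x| (abs_nonneg x) 3
    norm_num [Nat.factorial] at this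
    linarith
  have h2 : Real.exp |t * x| ≤ Real.exp |x| := by
    rw [Real.exp_le_exp, abs_mul]
    exact mul_le_of_le_one_left (abs_nonneg x) ht
  have h3 : Real.exp |x| * Real.exp |x| ≤ Real.exp (2 * x) + Real.exp (-2 * x) := by
    rw [← Real.exp_add]
    rcases abs_cases x with h | h <;> rw [h.1]
    · rw [← two_mul]
      linarith [Real.exp_pos (-2 * x)]
    · rw [show -x + -x = -2 * x by ring]
      linarith [Real.exp_pos (2 * x)]
  rw [abs_mul t x, mul_pow, mul_assoc]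
  refine mul_le_mul_of_nonneg_left ?_ (by positivity)
  rw [← abs_mul]
  calc |x| ^ 3 * Real.exp |t * x| ≤ (6 * Real.exp |x|) * Real.exp |x| := by gcongr
    _ ≤ _ := by linarith

theorem pMg : SMg := by
  intro μ _ hμ u hu
  obtain ⟨h1, h2, h3⟩ := hμ
  have i1 : Integrable (fun x : ℝ => x) μ := by
    simpa using integrable_pow_of_integrable_exp_mul (X := id) (μ := μ) one_ne_zero (h3 1)
      (h3 (-1)) 1
  have i2 : Integrable (fun x : ℝ => x ^ 2) μ :=
    integrable_pow_of_integrable_exp_mul (X := id) (μ := μ) one_ne_zero (h3 1) (h3 (-1)) 2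
  have i3 : Integrable (fun x : ℝ => 6 * (Real.exp (2 * x) + Real.exp (-2 * x))) μ :=
    ((h3 2).add (h3 (-2))).const_mul 6
  obtain ⟨C, hC⟩ : ∃ C, C = ∫ x, 6 * (Real.exp (2 * x) + Real.exp (-2 * x)) ∂μ := ⟨_, rfl⟩
  have hC0 : 0 ≤ C := hC ▸ integral_nonneg fun x => by positivity
  have key : ∀ t : ℝ, |t| ≤ 1 → |∫ x, Real.exp (t * x) ∂μ - (1 + t ^ 2 / 2)| ≤ |t| ^ 3 * C := by
    intro t ht
    have j1 : Integrable (fun x : ℝ => 1 + t * x) μ := (integrable_const 1).add (i1.const_mul t)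
    have j2 : Integrable (fun x : ℝ => (t * x) ^ 2 / 2) μ := by
      simpa only [mul_pow] using (i2.const_mul (t ^ 2)).div_const 2
    have e1 : ∫ x, (1 + t * x + (t * x) ^ 2 / 2) ∂μ = 1 + t ^ 2 / 2 := by
      rw [integral_add j1 j2, integral_add (integrable_const 1) (i1.const_mul t), integral_const_mul,
        h1, integral_div]
      simp only [mul_pow]
      rw [integral_const_mul, h2]
      simp
    have j3 : Integrable (fun x : ℝ => 1 + t * x + (t * x) ^ 2 / 2) μ := j1.add j2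
    rw [← e1, ← integral_sub (h3 t) j3, hC, ← integral_const_mul]
    refine abs_integral_le_integral_abs.trans (integral_mono ((h3 t).sub j3).abs
      (i3.const_mul _) fun x => dom_Mg ht x)
  obtain ⟨v, hv0, hv1, hvu⟩ : ∃ v : ℝ, 0 < v ∧ v ≤ 1 ∧ v ≤ u :=
    ⟨min u 1, lt_min hu one_pos, min_le_right _ _, min_le_left _ _⟩
  refine ⟨v / (4 * (C + 1)), by positivity, fun t ht => ?_⟩
  have a0 := abs_nonneg t
  have a1 : |t| * (4 * (C + 1)) ≤ v := (le_div_iff₀ (by positivity)).1 ht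
  have a2 : 4 * |t| ≤ v := by nlinarith
  have a3 : |t| ≤ 1 := by linarith
  have a4 : |t| ^ 3 * C ≤ t ^ 2 * (v / 4) := by
    rw [← sq_abs t, pow_succ, mul_assoc]
    refine mul_le_mul_of_nonneg_left ?_ (by positivity)
    nlinarith
  obtain ⟨b1, b2⟩ := abs_le.1 (key t a3)
  have a5 : t ^ 2 ≤ v := by
    rw [← sq_abs t]
    nlinarith
  have a6 : 0 ≤ t ^ 2 := sq_nonneg t
  constructor
  · have c1 : Real.exp (t ^ 2 / 2 * (1 - u)) ≤ Real.exp (t ^ 2 / 2 * (1 - v)) := by gcongr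
    obtain ⟨s, hs⟩ : ∃ s, s = t ^ 2 / 2 * (1 - v) := ⟨_, rfl⟩
    have s0 : 0 ≤ s := hs ▸ mul_nonneg (by positivity) (by linarith)
    have s1 : s ≤ t ^ 2 / 2 := hs ▸ mul_le_of_le_one_right (by positivity) (by linarith)
    have c2 := (abs_le.1 (Real.abs_exp_sub_one_sub_id_le (x := s)
      (by rw [abs_of_nonneg s0]; linarith))).2
    have c3 : s ^ 2 ≤ t ^ 2 / 2 * (v / 2) := by
      rw [pow_two]
      exact mul_le_mul s1 (by linarith) s0 (by positivity)
    rw [← hs] at c1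
    linarith
  · have c1 := Real.add_one_le_exp (t ^ 2 / 2 * (1 + u))
    have c2 : t ^ 2 * (v / 4) ≤ t ^ 2 * (u / 2) := mul_le_mul_of_nonneg_left (by linarith) a6
    linarith

end Pool.Agent.MP_c26281_pr.SA

end

section

open MeasureTheory ProbabilityTheory Finset Filter Topology
open scoped ENNReal

namespace Pool.Agent.MP_c26281_pr.SA

/-- tail sum -/
noncomputable def T_KA (K : ℕ → ℝ) (a : ℕ) : ℝ := 1 - ∑ n ∈ range (a + 1), K n

lemma diff_KA (K : ℕ → ℝ) {a b : ℕ} (h : a ≤ b) :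
    ∑ n ∈ Ioc a b, K n = T_KA K a - T_KA K b := by
  unfold T_KA
  have e : Ioc a b = Ico (a + 1) (b + 1) := by ext n; simp
  rw [e, sum_Ico_eq_sub _ (by omega)]
  ring

lemma lim_KA {K : ℕ → ℝ} (h : HasSum K 1) : Tendsto (T_KA K) atTop (𝓝 0) := by
  have h1 := (h.tendsto_sum_nat.comp (tendsto_add_atTop_nat 1)).const_sub 1
  rw [sub_self] at h1
  exact h1

lemma tail_KA (hS : SSum) {K : ℕ → ℝ} {α A B : ℝ} {n0 a : ℕ} (hα : 0 < α) (h : HasSum K 1)
    (A0 : 0 ≤ A) (B0 : 0 ≤ B)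
    (hb : ∀ n, n0 ≤ n → A * (n : ℝ) ^ (-(1 + α)) ≤ K n ∧ K n ≤ B * (n : ℝ) ^ (-(1 + α)))
    (ha : n0 ≤ a) (a1 : 1 ≤ a) :
    A * ((a + 1 : ℕ) : ℝ) ^ (-α) / α ≤ T_KA K a ∧ T_KA K a ≤ B * (a : ℝ) ^ (-α) / α := by
  have hT := lim_KA h
  constructor
  · have hz : Tendsto (fun b : ℕ => ((b + 1 : ℕ) : ℝ) ^ (-α)) atTop (𝓝 0) :=
      (tendsto_rpow_neg_atTop hα).comp
        (tendsto_natCast_atTop_atTop.comp (tendsto_add_atTop_nat 1))
    have l1 : Tendsto (fun b : ℕ => A * ((((a + 1 : ℕ) : ℝ) ^ (-α) - ((b + 1 : ℕ) : ℝ) ^ (-α)) / α))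
        atTop (𝓝 (A * ((((a + 1 : ℕ) : ℝ) ^ (-α) - 0) / α))) :=
      ((hz.const_sub _).div_const α).const_mul A
    have l2 := hT.const_sub (T_KA K a)
    rw [sub_zero] at l1 l2
    rw [mul_div_assoc]
    refine le_of_tendsto_of_tendsto l1 l2 ?_
    filter_upwards [eventually_ge_atTop a] with b hb'
    have e : Ioc a b = Ico (a + 1) (b + 1) := by ext n; simp
    rw [← diff_KA K hb', e]
    refine (mul_le_mul_of_nonneg_left
      (hS.2.2.2.1 α (a + 1) (b + 1) hα (by omega) (by omega)).1 A0).trans ?_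
    rw [mul_sum]
    exact sum_le_sum fun n hn => (hb n (by have := (mem_Ico.1 hn).1; omega)).1
  · have l2 := hT.const_sub (T_KA K a)
    rw [sub_zero] at l2
    refine le_of_tendsto l2 ?_
    filter_upwards [eventually_ge_atTop a] with b hb'
    rw [← diff_KA K hb']
    have h1 : ∑ n ∈ Ioc a b, K n ≤ B * ∑ n ∈ Ioc a b, (n : ℝ) ^ (-(1 + α)) := by
      rw [mul_sum]
      exact sum_le_sum fun n hn => (hb n (by have := (mem_Ioc.1 hn).1; omega)).2
    refine h1.trans ?_
    rw [mul_div_assoc]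
    refine mul_le_mul_of_nonneg_left ((hS.2.2.2.1 α a b hα a1 hb').2.trans ?_) B0
    have : 0 ≤ (b : ℝ) ^ (-α) := by positivity
    exact div_le_div_of_nonneg_right (by linarith) hα.le

lemma ev_KA {K : ℕ → ℝ} {α c v : ℝ} (hc : 0 < c) (hv : 0 < v)
    (h : Tendsto (fun n : ℕ => K n * (n : ℝ) ^ (1 + α)) atTop (𝓝 c)) :
    ∃ n0 : ℕ, 1 ≤ n0 ∧ ∀ n, n0 ≤ n → c * (1 - v) * (n : ℝ) ^ (-(1 + α)) ≤ K n ∧
      K n ≤ c * (1 + v) * (n : ℝ) ^ (-(1 + α)) := by
  have cv := mul_pos hc hv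
  have h1 := (h.eventually (lt_mem_nhds (by linarith : c * (1 - v) < c))).and
    (h.eventually (gt_mem_nhds (by linarith : c < c * (1 + v))))
  obtain ⟨N, hN⟩ := eventually_atTop.1 h1
  refine ⟨N + 1, by omega, fun n hn => ?_⟩
  obtain ⟨a, b⟩ := hN n (by omega)
  have n0 : (0 : ℝ) < n := by exact_mod_cast (by omega : 0 < n)
  have p : 0 < (n : ℝ) ^ (1 + α) := Real.rpow_pos_of_pos n0 _
  rw [Real.rpow_neg n0.le, ← div_eq_mul_inv, ← div_eq_mul_inv, div_le_iff₀ p, le_div_iff₀ p]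
  exact ⟨a.le, b.le⟩

lemma mom_KA (hS : SSum) {K : ℕ → ℝ} {α B : ℝ} {n0 k : ℕ} (hα : 0 < α) (hα1 : α ≤ 1 / 40)
    (B0 : 0 ≤ B) (n1 : 1 ≤ n0) (hb : ∀ n, n0 ≤ n → K n ≤ B * (n : ℝ) ^ (-(1 + α)))
    (hk : n0 ≤ k) : ∑ n ∈ range (2 * k + 1), n * K n ≤
      ∑ n ∈ range n0, n * K n + 2.1 * B * (k : ℝ) ^ (1 - α) := by
  rw [← sum_range_add_sum_Ico _ (by omega : n0 ≤ 2 * k + 1)]
  have h1 : ∑ n ∈ Ico n0 (2 * k + 1), (n : ℝ) * K n ≤
      ∑ n ∈ Ico n0 (2 * k + 1), B * (n : ℝ) ^ (-α) := by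
    refine sum_le_sum fun n hn => ?_
    have hn' := (mem_Ico.1 hn).1
    have n0' : (0 : ℝ) < n := by exact_mod_cast (by omega : 0 < n)
    have e : (n : ℝ) ^ (-α) = n * (n : ℝ) ^ (-(1 + α)) := by
      rw [← Real.rpow_one_add' n0'.le (by linarith)]; congr 1; ring
    rw [e, mul_left_comm]
    exact mul_le_mul_of_nonneg_left (hb n hn') n0'.le
  have h2 : ∑ n ∈ Ico n0 (2 * k + 1), B * (n : ℝ) ^ (-α) ≤
      ∑ n ∈ Ioc 0 (2 * k), B * (n : ℝ) ^ (-α) := by
    refine sum_le_sum_of_subset_of_nonneg (fun n hn => ?_) fun n _ _ => by positivity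
    have := mem_Ico.1 hn
    exact mem_Ioc.2 ⟨by omega, by omega⟩
  have h3 := hS.2.2.2.2 α (2 * k) hα.le (by linarith)
  have h4 : ((2 * k : ℕ) : ℝ) ^ (1 - α) ≤ 2 * (k : ℝ) ^ (1 - α) := by
    push_cast
    rw [Real.mul_rpow (by norm_num) (Nat.cast_nonneg k)]
    have : (2 : ℝ) ^ (1 - α) ≤ 2 ^ (1 : ℝ) :=
      Real.rpow_le_rpow_of_exponent_le (by norm_num) (by linarith)
    rw [Real.rpow_one] at this
    exact mul_le_mul_of_nonneg_right this (by positivity)
  have p : 0 ≤ (k : ℝ) ^ (1 - α) := by positivity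
  have h5 : ((2 * k : ℕ) : ℝ) ^ (1 - α) / (1 - α) ≤ 2.1 * (k : ℝ) ^ (1 - α) := by
    rw [div_le_iff₀ (by linarith)]
    nlinarith
  rw [← mul_sum (Ioc 0 (2 * k))] at h2
  have h6 := mul_le_mul_of_nonneg_left (h3.trans h5) B0
  linarith

theorem pKA (hS : SSum) : SKA := by
  intro u u0 u1
  refine ⟨u / 40, by positivity, fun α hα hα1 K c hK => ?_⟩
  obtain ⟨K0, Kz, Ks, c0, Kt⟩ := hK
  obtain ⟨v, hv⟩ : ∃ v, v = u / 10 := ⟨_, rfl⟩
  have v0 : 0 < v := by rw [hv]; positivity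
  have v1 : v ≤ 1 / 10 := by linarith
  obtain ⟨n0, n1, hb⟩ := ev_KA c0 v0 Kt
  have A0 : 0 < c * (1 - v) := mul_pos c0 (by linarith)
  have B0 : 0 < c * (1 + v) := mul_pos c0 (by linarith)
  have hinf : Tendsto (fun k : ℕ => (k : ℝ) ^ (1 - α)) atTop atTop :=
    (tendsto_rpow_atTop (by linarith)).comp tendsto_natCast_atTop_atTop
  obtain ⟨k1, hk1⟩ := eventually_atTop.1
    (hinf.eventually_ge_atTop ((∑ n ∈ range n0, n * K n) / c))
  refine ⟨max n0 k1, fun k hk => ⟨T_KA K (2 * k) / k, ?_⟩⟩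
  have kn : n0 ≤ k := (le_max_left _ _).trans hk
  have k1' := hk1 k ((le_max_right _ _).trans hk)
  have k0 : (0 : ℝ) < k := by exact_mod_cast (by omega : 0 < k)
  have kone : (1 : ℝ) ≤ k := by exact_mod_cast (by omega : 1 ≤ k)
  obtain ⟨t1, t2⟩ := tail_KA hS hα Ks A0.le B0.le hb (by omega : n0 ≤ 2 * k) (by omega)
  obtain ⟨T, hT⟩ : ∃ T, T = T_KA K (2 * k) := ⟨_, rfl⟩
  rw [← hT] at t1 t2 ⊢
  have ka : 0 < (k : ℝ) ^ α := Real.rpow_pos_of_pos k0 _
  obtain ⟨w, hw⟩ : ∃ w, w = α * T * (k : ℝ) ^ α := ⟨_, rfl⟩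
  have g1 : (3 : ℝ) ^ α ≤ 1 + v := by
    have := rpow_one_add_le_one_add_mul_self (s := 2) (by norm_num) hα.le (by linarith)
    norm_num at this
    linarith
  have w1 : w ≤ c * (1 + v) := by
    have h1 : ((2 * k : ℕ) : ℝ) ^ (-α) ≤ (k : ℝ) ^ (-α) :=
      Real.rpow_le_rpow_of_nonpos k0 (by push_cast; linarith) (by linarith)
    rw [le_div_iff₀ hα] at t2
    have h2 : T * α ≤ c * (1 + v) * (k : ℝ) ^ (-α) :=
      t2.trans (mul_le_mul_of_nonneg_left h1 B0.le)
    rw [Real.rpow_neg k0.le, ← div_eq_mul_inv, le_div_iff₀ ka] at h2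
    rw [hw]; linarith
  have w2 : c * (1 - v) ≤ w * (1 + v) := by
    have h1 : (3 * (k : ℝ)) ^ (-α) ≤ ((2 * k + 1 : ℕ) : ℝ) ^ (-α) :=
      Real.rpow_le_rpow_of_nonpos (by positivity) (by push_cast; linarith) (by linarith)
    rw [div_le_iff₀ hα] at t1
    have h2 : c * (1 - v) * (3 * (k : ℝ)) ^ (-α) ≤ T * α :=
      (mul_le_mul_of_nonneg_left h1 A0.le).trans t1
    have p3 : 0 < (3 : ℝ) ^ α := by positivity
    rw [Real.rpow_neg (by positivity), Real.mul_rpow (by norm_num) k0.le, ← div_eq_mul_inv,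
      div_le_iff₀ (mul_pos p3 ka)] at h2
    have h3 : T * α * (3 ^ α * (k : ℝ) ^ α) = w * 3 ^ α := by rw [hw]; ring
    rw [h3] at h2
    have w0 : 0 ≤ w := by
      by_contra hc
      push Not at hc
      nlinarith [mul_pos (neg_pos.2 hc) p3]
    exact h2.trans (mul_le_mul_of_nonneg_left g1 w0)
  have w0 : 0 < w := by
    by_contra hc
    push Not at hc
    nlinarith [mul_nonneg (neg_nonneg.2 hc) (by linarith : (0 : ℝ) ≤ 1 + v)]
  have T0 : 0 < T := by
    rw [hw] at w0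
    exact (mul_pos_iff_of_pos_left hα).1 ((mul_pos_iff_of_pos_right ka).1 w0)
  have w3 : c * (1 + v) ≤ w * (1 + u) := by
    have h1 : (1 + v) * (1 + v) ≤ (1 - v) * (1 + u) := by
      have : u = 10 * v := by linarith
      rw [this]; nlinarith
    have h2 : c * (1 + v) * (1 + v) ≤ w * (1 + u) * (1 + v) := by
      have a := mul_le_mul_of_nonneg_left h1 c0.le
      have b := mul_le_mul_of_nonneg_right w2 (by linarith : 0 ≤ 1 + u)
      linarith
    exact le_of_mul_le_mul_right h2 (by linarith)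
  have w4 : w * (1 - u) ≤ c * (1 - v) := by
    have h1 : (1 + v) * (1 - u) ≤ 1 - v := by nlinarith
    have a := mul_le_mul_of_nonneg_left h1 c0.le
    have b := mul_le_mul_of_nonneg_right w1 (by linarith : 0 ≤ 1 - u)
    linarith
  have w5 : 0.8 * c ≤ w := by
    have a := mul_le_mul_of_nonneg_left v1 c0.le
    have b := mul_le_mul_of_nonneg_left v1 w0.le
    linarith
  have eT : T / k * k = T := div_mul_cancel₀ _ k0.ne'
  refine ⟨by omega, div_pos T0 k0, K0, Kz, ?_, fun m hm => ?_, ?_, fun L hL => ?_⟩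
  · rw [eT, hT]; unfold T_KA; ring
  · have m0 : (0 : ℝ) < m := by exact_mod_cast (by omega : 0 < m)
    have e : ∀ x : ℝ, T / k * α * x * ((k : ℝ) / m) ^ (1 + α) = w * x * (m : ℝ) ^ (-(1 + α)) := by
      intro x
      rw [Real.div_rpow k0.le m0.le, Real.rpow_neg m0.le, Real.rpow_add k0, Real.rpow_one, hw]
      field_simp
    have p : 0 ≤ (m : ℝ) ^ (-(1 + α)) := by positivity
    obtain ⟨a, b⟩ := hb m (by omega)
    rw [e, e]
    exact ⟨(mul_le_mul_of_nonneg_right w4 p).trans a, b.trans (mul_le_mul_of_nonneg_right w3 p)⟩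
  · have h1 := mom_KA hS hα (by linarith) B0.le n1 (fun n hn => (hb n hn).2) kn
    have e : 5 * α * (T / k) * (k : ℝ) ^ 2 = 5 * w * (k : ℝ) ^ (1 - α) := by
      have : (k : ℝ) ^ α * (k : ℝ) ^ (1 - α) = k := by
        rw [← Real.rpow_add k0]; simp
      rw [hw]
      calc 5 * α * (T / k) * (k : ℝ) ^ 2 = 5 * α * T * k := by field_simp
        _ = 5 * α * T * ((k : ℝ) ^ α * (k : ℝ) ^ (1 - α)) := by rw [this]
        _ = _ := by ring
    have p : 0 ≤ (k : ℝ) ^ (1 - α) := by positivity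
    rw [div_le_iff₀ c0] at k1'
    have a := mul_le_mul_of_nonneg_right w5 p
    have b := mul_le_mul_of_nonneg_right (mul_le_mul_of_nonneg_left v1 c0.le) p
    have d := mul_nonneg c0.le p
    rw [e]
    linarith
  · have hk2 : 2 * k ≤ L * k := Nat.mul_le_mul_right k hL
    have L0 : (0 : ℝ) < L := by exact_mod_cast (by omega : 0 < L)
    obtain ⟨-, t3⟩ := tail_KA hS hα Ks A0.le B0.le hb (by omega : n0 ≤ L * k) (by omega)
    rw [diff_KA K hk2, ← hT, eT]
    have p : 0 < (L : ℝ) ^ (-α) := Real.rpow_pos_of_pos L0 _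
    have e : ((L * k : ℕ) : ℝ) ^ (-α) = (L : ℝ) ^ (-α) / (k : ℝ) ^ α := by
      push_cast
      rw [Real.mul_rpow L0.le k0.le, Real.rpow_neg k0.le, div_eq_mul_inv]
    have h1 : c * (1 + v) * ((L * k : ℕ) : ℝ) ^ (-α) / α ≤ 2 * T * (L : ℝ) ^ (-α) := by
      have h2 : c * (1 + v) ≤ 2 * w := by nlinarith
      rw [e, div_le_iff₀ hα, ← mul_div_assoc, div_le_iff₀ ka]
      have := mul_le_mul_of_nonneg_right h2 p.le
      rw [hw] at this
      linarith
    linarith

end Pool.Agent.MP_c26281_pr.SA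

end

section

open MeasureTheory ProbabilityTheory Finset Filter Topology
open scoped ENNReal

namespace Pool.Agent.MP_c26281_pr.SA

/-- product of arrays -/
noncomputable def tm_CG (A B : ℕ → ℕ → ℝ≥0∞) : ℕ → ℕ → ℝ≥0∞ := fun p q => ∑' r, A p r * B r q

theorem tm_assoc_CG (A B C : ℕ → ℕ → ℝ≥0∞) : tm_CG (tm_CG A B) C = tm_CG A (tm_CG B C) := by
  funext p q
  simp only [tm_CG, ← ENNReal.tsum_mul_left, ← ENNReal.tsum_mul_right, mul_assoc]
  exact ENNReal.tsum_comm

theorem mul_CG (A B : IA) : ⇑(A * B) = tm_CG A B := by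
  funext p q
  rw [k_mul, tm_CG, tsum_eq_sum]
  intro r hr
  rw [mem_Icc, not_and_or, not_le, not_le] at hr
  rcases hr with h | h
  · rw [k_zero A h, zero_mul]
  · rw [k_zero B h, mul_zero]

noncomputable def R_CG (k : ℕ) (r : ℕ → ℝ≥0∞) (q z : ℕ) : ℝ≥0∞ := if z / k = q then r z else 0

noncomputable def L_CG (k : ℕ) (l : ℕ → ℝ≥0∞) (w p : ℕ) : ℝ≥0∞ :=
  if w / k + 1 = p then l w else 0

theorem blk_CG {k : ℕ} (hk : 1 ≤ k) (q z : ℕ) : z ∈ blk k q ↔ z / k = q := by
  rw [blk, mem_Ico, Nat.div_eq_iff hk, add_mul, one_mul]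
  omega

theorem cg_CG {k : ℕ} (hk : 1 ≤ k) (l r : ℕ → ℝ≥0∞) (u : IA) :
    ⇑(cg k l r u) = tm_CG (tm_CG (R_CG k r) u) (L_CG k l) := by
  funext q p
  rw [cg, kmk_apply]
  by_cases h : q < p
  · rw [if_pos h.le, if_pos h, tm_CG, tsum_eq_sum (s := blk k (p - 1)), sum_comm]
    · refine sum_congr rfl fun w hw => ?_
      rw [blk_CG hk] at hw
      rw [tm_CG, tsum_eq_sum (s := blk k q), sum_mul, L_CG, if_pos (by omega)]
      · refine sum_congr rfl fun z hz => ?_
        rw [R_CG, if_pos ((blk_CG hk _ _).1 hz)]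
      · intro z hz
        rw [R_CG, if_neg (fun e => hz ((blk_CG hk _ _).2 e)), zero_mul]
    · intro w hw
      rw [blk_CG hk] at hw
      rw [L_CG, if_neg (by omega), mul_zero]
  · rw [if_neg h, ite_self, tm_CG, eq_comm, ENNReal.tsum_eq_zero]
    intro w
    by_cases e : w / k + 1 = p
    · rw [tm_CG, ENNReal.tsum_eq_zero.2, zero_mul]
      intro z
      by_cases e' : z / k = q
      · rw [k_zero u (Nat.lt_of_div_lt_div (c := k) (by omega)), mul_zero]
      · rw [R_CG, if_neg e', zero_mul]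
    · rw [L_CG, if_neg e, mul_zero]

theorem ex_CG (k : ℕ) (l r : ℕ → ℝ≥0∞) (a : IA) :
    ⇑(ex k l r a) = tm_CG (tm_CG (L_CG k l) a) (R_CG k r) := by
  funext i j
  have e : tm_CG (tm_CG (L_CG k l) a) (R_CG k r) i j = l i * a (i / k + 1) (j / k) * r j := by
    rw [tm_CG, tsum_eq_single (j / k), tm_CG, tsum_eq_single (i / k + 1), L_CG, R_CG, if_pos rfl,
      if_pos rfl]
    · intro p hp
      rw [L_CG, if_neg hp.symm, zero_mul]
    · intro q hq
      rw [R_CG, if_neg hq.symm, mul_zero]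
  rw [e, ex, kmk_apply]
  split_ifs with h
  · rfl
  · have : j / k ≤ i / k := Nat.div_le_div_right (by omega)
    rw [k_zero a (by omega), mul_zero, zero_mul]

theorem basic_CG {k : ℕ} (hk : 1 ≤ k) (l r : ℕ → ℝ≥0∞) (u a v : IA) :
    cg k l r (u * ex k l r a * v) = cg k l r u * a * cg k l r v := by
  apply DFunLike.coe_injective
  simp only [mul_CG, cg_CG hk, ex_CG, tm_assoc_CG]

theorem gsum_CG {k : ℕ} (hk : 1 ≤ k) (l r : ℕ → ℝ≥0∞) (F : ℕ → IA) :
    cg k l r (gsum F) = gsum fun j => cg k l r (F j) := by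
  ext q p _
  simp only [gsum_apply, cg_CG hk, tm_CG, ← ENNReal.tsum_mul_left, ← ENNReal.tsum_mul_right]
  rw [ENNReal.tsum_comm (f := fun j w => ∑' z, R_CG k r q z * F j z w * L_CG k l w p)]
  exact tsum_congr fun w => ENNReal.tsum_comm

theorem pCG : SCG := by
  intro k hk l r
  refine ⟨fun u v h q p => ?_, fun u a => ?_⟩
  · show cg k l r u q p ≤ cg k l r v q p
    rw [cg_CG hk, cg_CG hk]
    refine ENNReal.tsum_le_tsum fun w => mul_le_mul_left (ENNReal.tsum_le_tsum fun z => ?_) _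
    exact mul_le_mul_right (h z w) _
  · unfold kst
    rw [gsum_mul, gsum_mul, gsum_CG hk]
    congr 1
    funext j
    induction j with
    | zero => simp
    | succ j ih => rw [pow_succ', mul_assoc, basic_CG hk, ih, pow_succ', mul_assoc _ (_ ^ j)]

end Pool.Agent.MP_c26281_pr.SA

end

section

open MeasureTheory ProbabilityTheory Finset Filter Topology
open scoped ENNReal

namespace Pool.Agent.MP_c26281_pr.SA

theorem blk_Adcg {k q z : ℕ} (h : z ∈ blk k q) : z / k = q ∧ q * k ≤ z ∧ z < q * k + k := by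
  have := mem_Ico.1 h
  exact ⟨Nat.div_eq_of_lt_le this.1 this.2, this.1, by rw [← add_one_mul]; exact this.2⟩

theorem pAdcg : SAdcg := by
  intro μ _ k κ lam h hk
  have geo : ∀ {q p z w : ℕ}, q < p → z ∈ blk k q → w ∈ blk k (p - 1) → z / k = q ∧
      w / k + 1 = p ∧ q * k ≤ z ∧ z ≤ q * k + k ∧ w ≤ p * k ∧ p * k ≤ w + k ∧ z ≤ p * k
      ∧ q * k ≤ w := by
    intro q p z w hqp hz hw
    obtain ⟨p, rfl⟩ : ∃ p', p = p' + 1 := ⟨p - 1, by omega⟩
    obtain ⟨a1, a2, a3⟩ := blk_Adcg hz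
    obtain ⟨b1, b2, b3⟩ := blk_Adcg hw
    rw [Nat.add_sub_cancel] at b1 b2 b3
    have := Nat.mul_le_mul_right k (Nat.le_of_lt_succ hqp)
    rw [add_one_mul]; omega
  refine ⟨fun u hu => Ad.kmk fun q p _ => ?_, fun t r u t0 t1 r0 hM _ hu q p => ?_⟩
  · split_ifs with hqp
    swap
    · exact measurable_const
    refine Measurable.mono ?_ (fld_scale μ hk q p) le_rfl
    refine Finset.measurable_sum _ fun z hz => Finset.measurable_sum _ fun w hw => ?_
    obtain ⟨g1, g2, g3, g4, g5, g6, g7, g8⟩ := geo hqp hz hw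
    unfold rr ll
    rw [g1, g2]
    exact ((measurable_const.mul ((fld μ 1).up (Set.Ico_subset_Ico_right g7)
      (XX_meas μ lam h _ _))).mul ((fld μ 1).up (Set.Ico_subset_Ico g3 g5) (hu z w))).mul
      ((fld μ 1).up (Set.Ico_subset_Ico_left g8) (XX_meas μ lam h _ _))
  · rcases lt_or_ge p q with h1 | h1
    · rw [k_zero _ h1]; exact zero_le
    simp only [Nk, cg, kmk_of_le _ h1]
    split_ifs with hqp
    swap
    · simp [ENNReal.zero_rpow_of_pos t0]
    have mt : ∀ z w, Measurable fun x => (rr k κ lam h x z * u x z w * ll k lam h x w) ^ t :=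
      fun z w => (((measurable_const.mul ((fld μ 1).meas (XX_meas μ lam h _ _))).mul
        ((fld μ 1).meas (hu z w))).mul ((fld μ 1).meas (XX_meas μ lam h _ _))).pow_const t
    refine (lintegral_mono fun x => (rpow_sum_le _ _ t0 t1).trans
      (sum_le_sum fun z _ => rpow_sum_le _ _ t0 t1)).trans ?_
    rw [lintegral_finsetSum _ fun z _ => Finset.measurable_sum _ fun w _ => mt z w, mul_sum]
    refine sum_le_sum fun z hz => ?_
    rw [lintegral_finsetSum _ fun w _ => mt z w, mul_sum]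
    refine sum_le_sum fun w hw => ?_
    rcases lt_or_ge w z with h2 | h2
    · simp [k_zero _ h2, ENNReal.zero_rpow_of_pos t0]
    obtain ⟨g1, g2, g3, g4, g5, g6, g7, g8⟩ := geo hqp hz hw
    have bd : ∀ i j : ℕ, j ≤ i + k → ∫⁻ x, XX lam h x i j ^ t ∂(PP μ)
        ≤ ENNReal.ofReal (Real.exp (r * k)) := fun i j hij => (hM i j).trans
      (ENNReal.ofReal_le_ofReal (Real.exp_le_exp.2 (mul_le_mul_of_nonneg_left
        (by exact_mod_cast (by omega : j - i ≤ k)) r0)))
    unfold rr ll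
    rw [g1, g2, kmk_of_le _ h2]
    simp only [ENNReal.mul_rpow_of_nonneg _ _ t0.le, mul_assoc]
    have m1 := (XX_meas μ lam h (q * k) z).pow_const t
    have m2 := (hu z w).pow_const t
    have m3 := (XX_meas μ lam h w (p * k)).pow_const t
    rw [lintegral_const_mul' _ _ (ENNReal.rpow_ne_top_of_nonneg t0.le ENNReal.ofReal_ne_top),
      (fld μ 1).mul (T := Set.Ico z (p * k)) Set.Ico_disjoint_Ico_same m1
        (((fld μ 1).up (Set.Ico_subset_Ico_right g5) m2).fun_mul
          ((fld μ 1).up (Set.Ico_subset_Ico_left h2) m3)),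
      (fld μ 1).mul Set.Ico_disjoint_Ico_same m2 m3, two_mul, Real.exp_add,
      ENNReal.ofReal_mul (Real.exp_pos _).le]
    exact (mul_le_mul_right (mul_le_mul' (bd _ _ g4) (mul_le_mul_right (bd _ _ g6) _)) _).trans
      (le_of_eq (by ring))

end Pool.Agent.MP_c26281_pr.SA

end

section

open MeasureTheory ProbabilityTheory Finset Filter Topology
open scoped ENNReal

namespace Pool.Agent.MP_c26281_pr.SA

theorem pt_Bridge (K : ℕ → ℝ) (lam h : ℝ) (hK : ∀ n, 0 ≤ K n) (h0 : K 0 = 0) (x : ℕ → ℝ) (L : ℕ) :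
    ∀ i, Zk K lam h x i (i + L) = ENNReal.ofReal (Zh K lam h L (Old.sh i x)) := by
  induction L using Nat.strong_induction_on with
  | _ L ih =>
    intro i
    have e0 : Kall K lam h x i i = 0 := by rw [Kall, kmk_of_le _ le_rfl]; simp [h0]
    unfold Zk
    rw [kst_eq, k_add, k_mul_add, Finset.Nat.sum_antidiagonal_eq_sum_range_succ_mk, sum_range_succ']
    simp only [add_zero, e0, zero_mul]
    rcases Nat.eq_zero_or_pos L with rfl | hL
    · simp [Old.Zh_zero]
    · rw [k_one, if_neg (by omega), zero_add, Old.Zh_eq K lam h hL,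
        ← Finset.Ico_add_one_add_one_eq_Ioc, sum_Ico_eq_sum_range, show L + 1 - (0 + 1) = L by omega,
        ENNReal.ofReal_sum_of_nonneg fun m _ => mul_nonneg (mul_nonneg (hK _) (by positivity))
          (Old.Zh_nonneg hK _ _ _ _)]
      refine sum_congr rfl fun m hm => ?_
      have hm := mem_range.1 hm
      have := ih (L - (m + 1)) (by omega) (i + (m + 1))
      unfold Zk at this
      rw [this, Kall, kmk_add, Nat.add_sub_cancel_left, zero_add, add_comm 1 m, Old.sh_sh,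
        ENNReal.ofReal_mul (mul_nonneg (hK _) (by positivity))]
      congr 1
      rw [XX, sum_Ico_eq_sum_range, Nat.add_sub_cancel_left, ← ENNReal.ofReal_one,
        ← ENNReal.ofReal_add zero_le_one (Real.exp_pos _).le,
        ← ENNReal.ofReal_mul (div_nonneg (hK _) two_pos.le)]
      congr 1
      unfold Old.sh; ring

theorem pBridge : SBridge := by
  intro K lam h hK h0 μ _ t i L
  simp_rw [pt_Bridge K lam h hK h0]
  exact (Old.mp_sh μ i).lintegral_comp
    (f := fun x => ENNReal.ofReal (Zh K lam h L x) ^ t)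
    ((ENNReal.measurable_ofReal.comp (Old.measurable_Zh K lam h L)).pow_const t)

end Pool.Agent.MP_c26281_pr.SA

end

section

/-! From fractional moments of the pinned partition function to zero free energy. -/

open MeasureTheory ProbabilityTheory Finset Filter Topology
open scoped ENNReal

namespace Pool.Agent.MP_c26281_pr.SA

open Old

/-- weight of a negative stretch -/
noncomputable def E_Free (lam h : ℝ) (m : ℕ) (x : ℕ → ℝ) : ℝ :=
  Real.exp (-2 * lam * ∑ n ∈ range m, (x n + h))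

theorem pos_Free (lam h : ℝ) (m : ℕ) (x : ℕ → ℝ) : 0 < E_Free lam h m x := Real.exp_pos _

theorem last_Free (ν : Measure (ℕ × Bool)) [IsProbabilityMeasure ν] (S : Finset (ℕ × Bool))
    (g : ℕ × Bool → (ℕ → ℕ × Bool) → ℝ) (mg : ∀ a, Measurable (g a))
    (Ig : ∀ a, Integrable (g a) (Old.PP ν)) {F : (ℕ → ℕ × Bool) → ℝ} (IF : Integrable F (Old.PP ν))
    (c : ℝ) (F0 : ∀ e, e 0 ∉ S → F e ≤ c) (hF : ∀ e, e 0 ∈ S → F e ≤ g (e 0) (sh 1 e) + c) :
    ∫ e, F e ∂(Old.PP ν) ≤ ∑ a ∈ S, ν.real {a} * ∫ e, g a e ∂(Old.PP ν) + c := by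
  classical
  have mA : ∀ a, MeasurableSet ((fun e : ℕ → ℕ × Bool => e 0) ⁻¹' {a}) := fun a =>
    measurable_pi_apply 0 (measurableSet_singleton a)
  have I1 : ∀ a, Integrable (((fun e : ℕ → ℕ × Bool => e 0) ⁻¹' {a}).indicator
      (1 : (ℕ → ℕ × Bool) → ℝ)) (Old.PP ν) := fun a => (integrable_const 1).indicator (mA a)
  have I2 : ∀ a, Integrable (g a ∘ sh 1) (Old.PP ν) := fun a =>
    ((mp_sh ν 1).integrable_comp (mg a).aestronglyMeasurable).2 (Ig a)
  have ind : ∀ a, IndepFun (((fun e : ℕ → ℕ × Bool => e 0) ⁻¹' {a}).indicator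
      (1 : (ℕ → ℕ × Bool) → ℝ)) (g a ∘ sh 1) (Old.PP ν) := fun a =>
    (indep_sh ν 1 _ (measurable_one.indicator (mA a)) (fun x y hxy => by
      simp [Set.indicator_apply, hxy 0 one_pos])).comp measurable_id (mg a)
  have e1 : ∀ a, ν.real {a} * ∫ e, g a e ∂(Old.PP ν) = ∫ e, (((fun e : ℕ → ℕ × Bool => e 0) ⁻¹'
      {a}).indicator (1 : (ℕ → ℕ × Bool) → ℝ) * (g a ∘ sh 1)) e ∂(Old.PP ν) := fun a => by
    rw [(ind a).integral_mul_eq_mul_integral (I1 a).aestronglyMeasurable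
      (I2 a).aestronglyMeasurable, integral_indicator_one (mA a),
      (measurePreserving_eval_infinitePi (fun _ : ℕ => ν) 0).measureReal_preimage
        (measurableSet_singleton a).nullMeasurableSet]
    refine congrArg (fun r => ν.real {a} * r) ?_
    conv_lhs => rw [← map_sh ν 1]
    rw [integral_map (measurable_sh 1).aemeasurable (mg a).aestronglyMeasurable]; rfl
  have I3 := integrable_finsetSum S fun a _ => (ind a).integrable_mul (I1 a) (I2 a)
  rw [sum_congr rfl fun a _ => e1 a,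
    ← integral_finsetSum _ fun a _ => (ind a).integrable_mul (I1 a) (I2 a)]
  refine (integral_mono IF (I3.add (integrable_const c)) fun e => ?_).trans_eq ?_
  · simp only [Pi.add_apply, Pi.mul_apply, Set.indicator_apply, Set.mem_preimage,
      Set.mem_singleton_iff, Pi.one_apply, ite_mul, one_mul, zero_mul, sum_ite_eq, Function.comp]
    split_ifs with h
    · exact hF e h
    · simpa using F0 e h
  · rw [integral_add' I3 (integrable_const c)]
    simp

theorem renew_Free (ν : Measure (ℕ × Bool)) [IsProbabilityMeasure ν] {K : ℕ → ℝ} (h0 : K 0 = 0)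
    (hν : ∀ m s, ν.real {(m, s)} = K m / 2) (lam h : ℝ) (N : ℕ) (x : ℕ → ℝ) :
    Zx ν lam h N x ≤ ∑ m ∈ Ioc 0 N, K m * ((1 + E_Free lam h m x) / 2) *
      Zx ν lam h (N - m) (sh m x) + (1 + E_Free lam h N x) := by
  have p : 0 < E_Free lam h N x := Real.exp_pos _
  have := last_Free ν (Icc 0 N ×ˢ univ) (fun a e => (if a.2 = true then
    E_Free lam h a.1 x else 1) * en lam h (N - a.1) (sh a.1 x) e)
    (fun a => (measurable_en lam h _).of_uncurry_left.const_mul _)
    (fun a => (en_int ν lam h _ _).const_mul _) (en_int ν lam h N x) (1 + E_Free lam h N x)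
    (fun e he => by
      have h1 : N < (e 0).1 := by simpa using he
      unfold en
      rw [sum_congr rfl fun i hi => by rw [Delta_first e (by omega) (by
        have := mem_range.1 hi; omega)]]
      split_ifs
      · simp only [one_mul]
        exact le_add_of_nonneg_left zero_le_one
      · simpa using p.le)
    fun e he => by
      rw [en_split lam h N x e (mem_Icc.1 (mem_product.1 he).1).2]
      refine le_trans (le_of_eq ?_) (le_add_of_nonneg_right (by linarith))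
      simp [E_Free, SS, sum_add_distrib]
  refine this.trans_eq ?_
  rw [sum_product, Icc_eq_cons_Ioc (Nat.zero_le N), sum_cons]
  simp only [Fintype.sum_bool, integral_const_mul, hν, h0, zero_div, zero_mul, zero_add]
  refine congrArg (· + _) (sum_congr rfl fun m _ => ?_)
  unfold Zx
  simp
  ring

theorem dec_Free (ν : Measure (ℕ × Bool)) [IsProbabilityMeasure ν] {K : ℕ → ℝ} (hK : ∀ n, 0 ≤ K n)
    (h0 : K 0 = 0) (hν : ∀ m s, ν.real {(m, s)} = K m / 2) (lam h : ℝ) (N : ℕ) : ∀ x,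
    Zx ν lam h N x ≤
      ∑ j ∈ range (N + 1), Zh K lam h j x * (1 + E_Free lam h (N - j) (sh j x)) := by
  induction N using Nat.strong_induction_on with
  | _ N ih =>
    intro x
    refine (renew_Free ν h0 hν lam h N x).trans ?_
    rw [range_eq_Ico, Finset.Ico_add_one_right_eq_Icc, Icc_eq_cons_Ioc (Nat.zero_le N), sum_cons,
      Zh_zero, one_mul, sh_zero, Nat.sub_zero, add_comm]
    refine add_le_add le_rfl (ge_iff_le.1 ?_)
    rw [sum_congr rfl fun j hj => by rw [Zh_eq K lam h (mem_Ioc.1 hj).1, sum_mul],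
      sum_comm' (s' := fun m => Ico m (N + 1)) (t' := Ioc 0 N)
        (fun j m => by simp only [mem_Ioc, mem_Ico]; omega)]
    refine ge_iff_le.2 (sum_le_sum fun m hm => ?_)
    have hm' := mem_Ioc.1 hm
    have p : 0 < E_Free lam h m x := Real.exp_pos _
    refine (mul_le_mul_of_nonneg_left (ih (N - m) (by omega) (sh m x))
      (mul_nonneg (hK m) (by positivity))).trans_eq ?_
    rw [sum_Ico_eq_sum_range, mul_sum, show N + 1 - m = N - m + 1 by omega]
    refine sum_congr rfl fun i _ => ?_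
    rw [Nat.add_sub_cancel_left, sh_sh, Nat.sub_sub, ← mul_assoc]
    rfl

theorem dep_Free (K : ℕ → ℝ) (lam h : ℝ) (j : ℕ) :
    ∀ x y : ℕ → ℝ, (∀ i < j, x i = y i) → Zh K lam h j x = Zh K lam h j y := by
  induction j using Nat.strong_induction_on with
  | _ j ih =>
    intro x y e
    rcases Nat.eq_zero_or_pos j with rfl | hj
    · rw [Zh_zero, Zh_zero]
    rw [Zh_eq K lam h hj, Zh_eq K lam h hj]
    refine sum_congr rfl fun m hm => ?_
    have hm' := mem_Ioc.1 hm
    rw [ih (j - m) (by omega) (sh m x) (sh m y) fun i hi => e _ (by omega),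
      sum_congr rfl fun n hn => by rw [e n (by have := mem_range.1 hn; omega)]]

theorem lim_Free (a b : ℝ) :
    Tendsto (fun N : ℕ => (1 / (N : ℝ)) * (a + b * Real.log N)) atTop (𝓝 0) := by
  have h1 := (Real.isLittleO_log_id_atTop.tendsto_div_nhds_zero.const_mul b).comp
    tendsto_natCast_atTop_atTop
  have h2 := (tendsto_const_div_atTop_nhds_zero_nat a).add h1
  rw [mul_zero, add_zero] at h2
  refine h2.congr fun N => ?_
  simp only [Function.comp, id]
  ring

theorem pFree : SFree := by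
  intro K α c hα ⟨hK, h0, _, hc, hT⟩ ν _ hν μ _ hμ lam h t D t0 t1 hD hM hZ
  have Zp : ∀ N x, 0 < Zx ν lam h N x := fun N x => (Real.exp_pos _).trans_le (Zx_bd ν lam h N x).1
  have mE : ∀ m, Measurable fun y => ENNReal.ofReal (1 + E_Free lam h m y) ^ t := fun m => by
    unfold E_Free
    fun_prop
  have mZ : Measurable fun a : ℝ => ENNReal.ofReal a ^ t := by fun_prop
  have two : ∀ m, ∫⁻ y, ENNReal.ofReal (1 + E_Free lam h m y) ^ t ∂(PP μ) ≤ 2 := fun m => by
    have h1 := hM 0 m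
    rw [zero_mul, Real.exp_zero, ENNReal.ofReal_one] at h1
    refine (lintegral_mono (g := fun y => 1 + XX lam h y 0 m ^ t) fun y => ?_).trans ?_
    · beta_reduce
      rw [ENNReal.ofReal_add zero_le_one (pos_Free _ _ _ _).le, ENNReal.ofReal_one, XX,
        ← range_eq_Ico, E_Free]
      simpa using ENNReal.rpow_add_le_add_rpow 1 _ t0.le t1
    · rw [lintegral_add_left measurable_const, lintegral_one, measure_univ, ← one_add_one_eq_two]
      exact add_le_add le_rfl h1
  have mom : ∀ N : ℕ, ∫⁻ x, ENNReal.ofReal (Zx ν lam h N x ^ t) ∂(PP μ) ≤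
      ENNReal.ofReal (2 * (D.toReal + 1) * (N + 1) ^ 2) := fun N => by
    refine (lintegral_mono (g := fun x => ∑ j ∈ range (N + 1), ENNReal.ofReal (Zh K lam h j x) ^ t *
      ENNReal.ofReal (1 + E_Free lam h (N - j) (sh j x)) ^ t) fun x => ?_).trans ?_
    · beta_reduce
      rw [← ENNReal.ofReal_rpow_of_pos (Zp N x)]
      refine (ENNReal.rpow_le_rpow (ENNReal.ofReal_le_ofReal
        (dec_Free ν hK h0 hν lam h N x)) t0.le).trans ?_
      rw [ENNReal.ofReal_sum_of_nonneg fun j _ => mul_nonneg (Zh_nonneg hK lam h j x)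
        (add_pos one_pos (pos_Free _ _ _ _)).le]
      refine (rpow_sum_le _ _ t0 t1).trans_eq (sum_congr rfl fun j _ => ?_)
      rw [ENNReal.ofReal_mul (Zh_nonneg hK lam h j x), ENNReal.mul_rpow_of_nonneg _ _ t0.le]
    refine (lintegral_finsetSum _ fun j _ =>
      (mZ.comp (measurable_Zh K lam h j)).mul ((mE _).comp (measurable_sh j))).trans_le
      ((sum_le_card_nsmul _ _ (D * (N + 1) * 2) fun j hj => ?_).trans ?_)
    · have h1 := lintegral_mul_eq_lintegral_mul_lintegral_of_indepFun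
        (mZ.comp (measurable_Zh K lam h j)) ((mE (N - j)).comp (measurable_sh j))
        ((indep_sh μ j _ (measurable_Zh K lam h j) (dep_Free K lam h j)).comp mZ (mE (N - j)))
      refine h1.trans_le (mul_le_mul' ((hZ j).trans ?_)
        (((mp_sh μ j).lintegral_comp (mE _)).trans_le (two _)))
      have : (j : ℝ≥0∞) ≤ N := by exact_mod_cast Nat.lt_succ_iff.1 (mem_range.1 hj)
      gcongr
    · have h1 : D ≤ ENNReal.ofReal (D.toReal + 1) :=
        (ENNReal.ofReal_toReal hD).ge.trans (ENNReal.ofReal_le_ofReal (by linarith))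
      have h2 : ENNReal.ofReal ((N : ℝ) + 1) = N + 1 := by
        rw [ENNReal.ofReal_add (Nat.cast_nonneg _) zero_le_one, ENNReal.ofReal_natCast,
          ENNReal.ofReal_one]
      rw [card_range, nsmul_eq_mul, ENNReal.ofReal_mul (by positivity),
        ENNReal.ofReal_mul zero_le_two, ENNReal.ofReal_pow (by positivity), h2,
        ENNReal.ofReal_ofNat]
      push_cast
      calc ((N : ℝ≥0∞) + 1) * (D * (N + 1) * 2) = 2 * D * (N + 1) ^ 2 := by ring
        _ ≤ _ := by gcongr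
  have up : ∀ N : ℕ, 1 ≤ N → ∫ x, Real.log (Zx ν lam h N x) ∂(PP μ) ≤
      Real.log (8 * (D.toReal + 1)) / t + 2 / t * Real.log N := fun N hN => by
    have N1 : (1 : ℝ) ≤ N := by exact_mod_cast hN
    have nn : 0 ≤ᵐ[PP μ] fun x => Zx ν lam h N x ^ t :=
      Eventually.of_forall fun x => (Real.rpow_pos_of_pos (Zp N x) t).le
    have ms : AEStronglyMeasurable (fun x => Zx ν lam h N x ^ t) (PP μ) :=
      ((measurable_Zx ν lam h N).pow_const t).aestronglyMeasurable
    have I : Integrable (fun x => Zx ν lam h N x ^ t) (PP μ) :=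
      (lintegral_ofReal_ne_top_iff_integrable ms nn).1 (ne_top_of_le_ne_top ENNReal.ofReal_ne_top
        (mom N))
    obtain ⟨A, hA⟩ : ∃ A : ℝ, A = 8 * (D.toReal + 1) * N ^ 2 := ⟨_, rfl⟩
    have Ap : 0 < A := by rw [hA]; positivity
    have h1 : ∫ x, Zx ν lam h N x ^ t ∂(PP μ) ≤ A := by
      rw [integral_eq_lintegral_of_nonneg_ae nn ms]
      refine ENNReal.toReal_le_of_le_ofReal Ap.le ((mom N).trans (ENNReal.ofReal_le_ofReal ?_))
      have h2 : ((N : ℝ) + 1) ^ 2 ≤ 4 * N ^ 2 := by nlinarith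
      have h3 : 0 ≤ 2 * (D.toReal + 1) := by positivity
      linarith [mul_le_mul_of_nonneg_left h2 h3]
    have h2 := integral_mono ((log_int ν hμ lam h N).const_mul t)
      ((I.const_mul A⁻¹).sub (integrable_const (1 + Real.log A⁻¹))) fun x => by
        have := log_le_lin (inv_pos.2 Ap) (Real.rpow_pos_of_pos (Zp N x) t)
        rw [Real.log_rpow (Zp N x)] at this
        simp only [Pi.sub_apply]
        linarith
    rw [integral_const_mul, integral_sub' (I.const_mul _) (integrable_const _), integral_const_mul,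
      integral_const, probReal_univ, one_smul, Real.log_inv] at h2
    have h3 : A⁻¹ * ∫ x, Zx ν lam h N x ^ t ∂(PP μ) ≤ 1 := by
      rw [inv_mul_le_iff₀ Ap, mul_one]
      exact h1
    have h4 : Real.log A = Real.log (8 * (D.toReal + 1)) + 2 * Real.log N := by
      rw [hA, Real.log_mul (by positivity) (by positivity), Real.log_pow]
      norm_num
    rw [div_mul_eq_mul_div, ← add_div, le_div_iff₀' t0]
    linarith
  have lo : ∀ᶠ N : ℕ in atTop, Real.log (c / 4) + -(1 + α) * Real.log N ≤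
      ∫ x, Real.log (Zx ν lam h N x) ∂(PP μ) := by
    filter_upwards [hT.eventually (lt_mem_nhds (half_lt_self hc)), eventually_ge_atTop 1]
      with N h1 hN
    have Np : (0 : ℝ) < N := by exact_mod_cast hN
    have h2 := integral_mono (integrable_const (Real.log (c / 4) + -(1 + α) * Real.log N))
      (log_int ν hμ lam h N) fun x => by
        have h3 := Zx_ge ν hν lam h N N x le_rfl
        have h4 := Real.rpow_pos_of_pos Np (1 + α)
        have h5 : c / 4 ≤ Zx ν lam h N x * N ^ (1 + α) := by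
          linarith [mul_le_mul_of_nonneg_right h3 h4.le]
        have h6 := Real.log_le_log (by positivity) h5
        rw [Real.log_mul (Zp N x).ne' h4.ne', Real.log_rpow Np] at h6
        beta_reduce
        linarith
    simpa using h2
  have tr : ∀ N, ∫ ω, Real.log (Z ν lam h N ω) ∂(PP μ) =
      ∫ x, Real.log (Zx ν lam h N x) ∂(PP μ) := fun N => by
    simp_rw [Z_eq]
    have e := integral_map (μ := Old.PP μ) (measurable_sh 1).aemeasurable
      (measurable_Zx ν lam h N).log.aestronglyMeasurable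
    rw [map_sh] at e
    exact e.symm
  simp_rw [tr]
  refine tendsto_of_tendsto_of_tendsto_of_le_of_le' (lim_Free (Real.log (c / 4)) (-(1 + α)))
    (lim_Free (Real.log (8 * (D.toReal + 1)) / t) (2 / t)) ?_ ?_
  · filter_upwards [lo] with N h1
    exact mul_le_mul_of_nonneg_left h1 (by positivity)
  · filter_upwards [eventually_ge_atTop 1] with N h1
    exact mul_le_mul_of_nonneg_left (up N h1) (by positivity)

end Pool.Agent.MP_c26281_pr.SA

end

section

open MeasureTheory ProbabilityTheory Finset Filter Topology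
open scoped ENNReal

namespace Pool.Agent.MP_c26281_pr.SA

open Old

/-- weight of an excursion -/
noncomputable def ph_Rare (lam h : ℝ) (m : ℕ) (x : ℕ → ℝ) : ℝ :=
  (1 + Real.exp (-2 * lam * ∑ n ∈ range m, (x n + h))) / 2

theorem ph_ge_Rare (lam h : ℝ) (m : ℕ) (x : ℕ → ℝ) : 1 / 2 ≤ ph_Rare lam h m x := by
  unfold ph_Rare; linarith [Real.exp_pos (-2 * lam * ∑ n ∈ range m, (x n + h))]

theorem ph_nonneg_Rare (lam h : ℝ) (m : ℕ) (x : ℕ → ℝ) : 0 ≤ ph_Rare lam h m x := by
  linarith [ph_ge_Rare lam h m x]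

theorem ph_le_Rare {lam h : ℝ} (hl : 0 ≤ lam) (hh : 0 ≤ h) (m : ℕ) (x : ℕ → ℝ) :
    ph_Rare lam h m x ≤ EE lam m x := by
  unfold ph_Rare EE
  rw [← Real.exp_sum, ← mul_sum]
  have h1 : 1 ≤ Real.exp (2 * lam * ∑ i ∈ range m, |x i|) := Real.one_le_exp (by positivity)
  have h2 : Real.exp (-2 * lam * ∑ n ∈ range m, (x n + h)) ≤
      Real.exp (2 * lam * ∑ i ∈ range m, |x i|) := by
    refine Real.exp_le_exp.2 ?_
    rw [sum_add_distrib, sum_const, card_range, nsmul_eq_mul]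
    have := (abs_le.1 (abs_sum_le_sum_abs x (range m))).1
    have := mul_le_mul_of_nonneg_left this hl
    have : 0 ≤ lam * (m * h) := by positivity
    linarith
  linarith

theorem Zeq_Rare (K : ℕ → ℝ) (lam h : ℝ) {g : ℕ} (hg : 1 ≤ g) (x : ℕ → ℝ) :
    Zh K lam h g x = ∑ m ∈ Ioc 0 g, K m * ph_Rare lam h m x * Zh K lam h (g - m) (sh m x) :=
  Zh_eq K lam h hg x

section
variable {K : ℕ → ℝ} {lam h : ℝ} (hK : ∀ m, 0 ≤ K m)
include hK

theorem Zge_Rare {g : ℕ} (hg : 1 ≤ g) (x : ℕ → ℝ) : K g / 2 ≤ Zh K lam h g x := by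
  rw [Zeq_Rare K lam h hg]
  refine le_trans ?_ (single_le_sum
    (f := fun m => K m * ph_Rare lam h m x * Zh K lam h (g - m) (sh m x))
    (fun m _ => mul_nonneg (mul_nonneg (hK m) (ph_nonneg_Rare _ _ _ _)) (Zh_nonneg hK _ _ _ _))
    (mem_Ioc.2 ⟨hg, le_rfl⟩))
  simp only [Nat.sub_self, Zh_zero]
  nlinarith [mul_le_mul_of_nonneg_left (ph_ge_Rare lam h g x) (hK g)]

theorem Zmul_Rare (Y : ℕ → (ℕ → ℝ) → ℝ) (Y0 : ∀ N x, 0 ≤ Y N x)
    (hY : ∀ N x, 1 ≤ N → ∑ m ∈ Ioc 0 N, K m * ph_Rare lam h m x * Y (N - m) (sh m x) ≤ Y N x)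
    (b a : ℕ) : ∀ x, Zh K lam h a x * Y b (sh a x) ≤ Y (a + b) x := by
  induction a using Nat.strong_induction_on with
  | _ a ih =>
    intro x
    rcases Nat.eq_zero_or_pos a with rfl | ha
    · rw [Zh_zero, sh_zero]; simp
    · refine le_trans ?_ (hY _ x (by omega))
      refine le_trans ?_ (sum_le_sum_of_subset_of_nonneg
        (Ioc_subset_Ioc_right (Nat.le_add_right a b))
        fun m _ _ => mul_nonneg (mul_nonneg (hK m) (ph_nonneg_Rare _ _ _ _)) (Y0 _ _))
      rw [Zeq_Rare K lam h ha, sum_mul]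
      refine sum_le_sum fun m hm => ?_
      have hm := mem_Ioc.1 hm
      have := ih (a - m) (by omega) (sh m x)
      rw [sh_sh, show m + (a - m) = a by omega, show a - m + b = a + b - m by omega] at this
      rw [mul_assoc _ (Zh K lam h _ _)]
      exact mul_le_mul_of_nonneg_left this (mul_nonneg (hK m) (ph_nonneg_Rare _ _ _ _))

theorem Zsuper_Rare (a b : ℕ) (x : ℕ → ℝ) :
    Zh K lam h a x * Zh K lam h b (sh a x) ≤ Zh K lam h (a + b) x :=
  Zmul_Rare hK (Zh K lam h) (Zh_nonneg hK lam h) (fun _ x hN => (Zeq_Rare K lam h hN x).ge) b a x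

theorem Zle_Rare (hl : 0 ≤ lam) (hh : 0 ≤ h) (h1 : ∀ g, ∑ m ∈ Ioc 0 g, K m ≤ 1) (g : ℕ) :
    ∀ x, Zh K lam h g x ≤ EE lam g x := by
  induction g using Nat.strong_induction_on with
  | _ g ih =>
    intro x
    rcases Nat.eq_zero_or_pos g with rfl | hg
    · rw [Zh_zero]; simp [EE]
    · rw [Zeq_Rare K lam h hg]
      refine le_trans (sum_le_sum fun m hm => ?_) ((sum_mul _ _ _).ge.trans
        (mul_le_of_le_one_left (EE_pos lam g x).le (h1 g)))
      have hm := mem_Ioc.1 hm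
      have e := EE_add lam m (g - m) x
      rw [show m + (g - m) = g by omega] at e
      rw [e, mul_assoc]
      exact mul_le_mul_of_nonneg_left (mul_le_mul (ph_le_Rare hl hh m x) (ih _ (by omega) _)
        (Zh_nonneg hK _ _ _ _) (EE_pos _ _ _).le) (hK m)

end

theorem level_pt_Rare {t : ℝ} (t0 : 0 < t) (t1 : t < 1) {F : ℝ} (hF : 0 ≤ F) (J : ℕ) :
    F ^ t ≤ 1 + ∑ j ∈ range J, (if Real.exp j ≤ F then Real.exp (t * (j + 1)) else 0) +
      Real.exp (-((1 - t) * J)) * F := by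
  have key : ∀ J : ℕ, F < Real.exp J → F ^ t ≤ 1 + ∑ j ∈ range J,
      (if Real.exp j ≤ F then Real.exp (t * (j + 1)) else 0) := by
    intro J
    induction J with
    | zero =>
      intro h
      simp only [Nat.cast_zero, Real.exp_zero, range_zero, sum_empty, add_zero] at h ⊢
      exact Real.rpow_le_one hF h.le t0.le
    | succ J ih =>
      intro h
      rw [sum_range_succ]
      by_cases h2 : Real.exp J ≤ F
      · rw [if_pos h2]
        have s0 : 0 ≤ ∑ j ∈ range J, (if Real.exp j ≤ F then Real.exp (t * (j + 1)) else 0) :=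
          sum_nonneg fun j _ => by split_ifs <;> positivity
        have : F ^ t ≤ Real.exp (t * (J + 1)) := by
          refine (Real.rpow_le_rpow hF h.le t0.le).trans (le_of_eq ?_)
          rw [← Real.exp_mul]; push_cast; ring_nf
        linarith
      · rw [if_neg h2, add_zero]; exact ih (not_le.1 h2)
  have p : 0 ≤ Real.exp (-((1 - t) * J)) * F := by positivity
  rcases lt_or_ge F (Real.exp J) with h | h
  · linarith [key J h]
  · have s0 : 0 ≤ ∑ j ∈ range J, (if Real.exp j ≤ F then Real.exp (t * (j + 1)) else 0) :=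
      sum_nonneg fun j _ => by split_ifs <;> positivity
    have Fp : 0 < F := (Real.exp_pos _).trans_le h
    have : F ^ t ≤ Real.exp (-((1 - t) * J)) * F := by
      have e : F ^ t = F ^ (t - 1) * F := by
        rw [← Real.rpow_add_one Fp.ne', sub_add_cancel]
      rw [e]
      refine mul_le_mul_of_nonneg_right ?_ hF
      refine (Real.rpow_le_rpow_of_nonpos (Real.exp_pos _) h (by linarith)).trans (le_of_eq ?_)
      rw [← Real.exp_mul]; ring_nf
    linarith

theorem level_Rare {t : ℝ} (t0 : 0 < t) (t1 : t < 1) {w : ℕ} (hw : 1 ≤ (1 - t) * w)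
    {Ω : Type*} [MeasurableSpace Ω] {P : Measure Ω} [IsProbabilityMeasure P]
    {F : Ω → ℝ} (mF : Measurable F) (hF : ∀ x, 0 ≤ F x) (b : ℕ) {Θ : ℝ} (hΘ : 0 ≤ Θ)
    (h1 : ∫⁻ x, ENNReal.ofReal (F x) ∂P ≤ ENNReal.ofReal (Real.exp b))
    (h2 : ∀ j : ℕ, Real.exp (t * j) * P.real {x | Real.exp j ≤ F x} ≤ Θ) :
    ∫⁻ x, ENNReal.ofReal (F x ^ t) ∂P ≤ ENNReal.ofReal (2 + 3 * w * b * Θ) := by
  have mA : ∀ j : ℕ, MeasurableSet {x | Real.exp j ≤ F x} := fun j =>
    measurableSet_le measurable_const mF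
  have pt : ∀ x, ENNReal.ofReal (F x ^ t) ≤ 1 + ∑ j ∈ range (w * b),
      {x | Real.exp j ≤ F x}.indicator (fun _ => ENNReal.ofReal (Real.exp (t * (j + 1)))) x
      + ENNReal.ofReal (Real.exp (-b)) * ENNReal.ofReal (F x) := fun x => by
    refine (ENNReal.ofReal_le_ofReal (level_pt_Rare t0 t1 (hF x) (w * b))).trans ?_
    refine ENNReal.ofReal_add_le.trans (add_le_add (ENNReal.ofReal_add_le.trans (add_le_add
      (by simp) ?_)) ?_)
    · rw [ENNReal.ofReal_sum_of_nonneg fun j _ => by split_ifs <;> positivity]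
      refine sum_le_sum fun j _ => ?_
      rw [Set.indicator_apply]
      simp only [Set.mem_ofPred_eq]
      split_ifs <;> simp
    · rw [← ENNReal.ofReal_mul (Real.exp_pos _).le]
      refine ENNReal.ofReal_le_ofReal (mul_le_mul_of_nonneg_right (Real.exp_le_exp.2 ?_) (hF x))
      push_cast
      have := mul_le_mul_of_nonneg_right hw (Nat.cast_nonneg (α := ℝ) b)
      linarith
  refine (lintegral_mono pt).trans ?_
  rw [lintegral_add_right _ (by fun_prop), lintegral_add_left measurable_const,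
    lintegral_finsetSum _ fun j _ => measurable_const.indicator (mA j),
    lintegral_const_mul' _ _ ENNReal.ofReal_ne_top]
  simp_rw [lintegral_indicator_const (mA _)]
  have u1 : ENNReal.ofReal (Real.exp (-b)) * ∫⁻ x, ENNReal.ofReal (F x) ∂P ≤ ENNReal.ofReal 1 := by
    refine (mul_le_mul_right h1 _).trans (le_of_eq ?_)
    rw [← ENNReal.ofReal_mul (Real.exp_pos _).le, ← Real.exp_add]; simp
  have u2 : ∑ j ∈ range (w * b), ENNReal.ofReal (Real.exp (t * (j + 1)))
      * P {x | Real.exp j ≤ F x} ≤ ENNReal.ofReal (3 * w * b * Θ) := by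
    have : ∀ j ∈ range (w * b), ENNReal.ofReal (Real.exp (t * (j + 1)))
        * P {x | Real.exp j ≤ F x} ≤ ENNReal.ofReal (3 * Θ) := fun j _ => by
      rw [← ofReal_measureReal (measure_ne_top _ _), ← ENNReal.ofReal_mul (Real.exp_pos _).le]
      refine ENNReal.ofReal_le_ofReal ?_
      have e3 : Real.exp t ≤ 3 :=
        (Real.exp_le_exp.2 t1.le).trans (Real.exp_one_lt_d9.le.trans (by norm_num))
      rw [mul_add, mul_one, Real.exp_add, mul_comm (Real.exp _) (Real.exp t), mul_assoc]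
      exact mul_le_mul e3 (h2 j) (by positivity) (by norm_num)
    refine (sum_le_sum this).trans (le_of_eq ?_)
    rw [← ENNReal.ofReal_sum_of_nonneg fun _ _ => by positivity]
    congr 1; simp; ring
  refine (add_le_add (add_le_add (le_of_eq (b := ENNReal.ofReal 1) (by simp)) u2) u1).trans
    (le_of_eq ?_)
  rw [← ENNReal.ofReal_add (by norm_num) (by positivity),
    ← ENNReal.ofReal_add (by positivity) (by norm_num)]
  congr 1; ring

section
variable {K : ℕ → ℝ} {lam h lc a : ℝ} {n0 : ℕ} (hK : ∀ m, 0 ≤ K m) (hn : 1 ≤ n0) (ha : 1 < a)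
  (hl : ∀ g, n0 ≤ g → Real.exp (lc - a * Real.log g) ≤ K g / 2)
include hK hn ha hl

theorem visit_Rare (L : ℕ) (j : ℝ) {p : ℝ} (hp : 0 < p) (x : ℕ → ℝ) (b : ℕ) : ∃ t ≤ b,
    Real.exp ((j + lc - a * (Real.log (n0 + L : ℕ) - Real.log p - 1)) * ∑ i ∈ range b,
      (sh (i * (n0 + L) + n0) ⁻¹' {y | Real.exp j ≤ Zh K lam h L y}).indicator 1 x - a * p * t)
      ≤ Zh K lam h (t * (n0 + L)) x := by
  induction b with
  | zero => exact ⟨0, le_rfl, by simp [Zh_zero]⟩
  | succ b ih =>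
    obtain ⟨t, ht, hh⟩ := ih
    rw [sum_range_succ]
    by_cases hx : x ∈ sh (b * (n0 + L) + n0) ⁻¹' {y | Real.exp j ≤ Zh K lam h L y}
    swap
    · rw [Set.indicator_of_notMem hx, add_zero]; exact ⟨t, by omega, hh⟩
    rw [Set.indicator_of_mem hx]
    refine ⟨b + 1, le_rfl, ?_⟩
    obtain ⟨s, rfl⟩ := Nat.exists_eq_add_of_le ht
    set M := n0 + L with hM
    have e1 : (t + s) * M + n0 = t * M + (s * M + n0) := by ring
    have e2 : (t + s + 1) * M = t * M + (s * M + n0) + L := by rw [hM]; ring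
    have h1 := Zsuper_Rare (lam := lam) (h := h) hK (t * M) (s * M + n0) x
    have h2 := Zsuper_Rare (lam := lam) (h := h) hK (t * M + (s * M + n0)) L x
    have h3 := (hl (s * M + n0) (by omega)).trans
      (Zge_Rare (lam := lam) (h := h) hK (by omega) (sh (t * M) x))
    have h4 : Real.exp j ≤ Zh K lam h L (sh (t * M + (s * M + n0)) x) := by rw [← e1]; exact hx
    rw [e2]
    refine le_trans ?_ ((mul_le_mul ((mul_le_mul hh h3 (Real.exp_pos _).le
      (Zh_nonneg hK _ _ _ _)).trans h1) h4 (Real.exp_pos _).le (Zh_nonneg hK _ _ _ _)).trans h2)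
    rw [← Real.exp_add, ← Real.exp_add, Real.exp_le_exp]
    have Mp : (0 : ℝ) < M := by exact_mod_cast (by omega : 0 < M)
    have gp : (0 : ℝ) < (s * M + n0 : ℕ) := by exact_mod_cast (by omega : 0 < s * M + n0)
    have l1 : Real.log (s * M + n0 : ℕ) ≤ Real.log (s + 1) + Real.log M := by
      rw [← Real.log_mul (by positivity) Mp.ne']
      refine Real.log_le_log gp ?_
      exact_mod_cast (by rw [add_mul]; omega : s * M + n0 ≤ (s + 1) * M)
    have l2 := log_le_lin hp (show (0 : ℝ) < s + 1 by positivity)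
    have a0 : 0 ≤ a := by linarith
    have l3 := mul_le_mul_of_nonneg_left l1 a0
    have l4 := mul_le_mul_of_nonneg_left l2 a0
    simp only [Pi.one_apply, Nat.cast_add t, Nat.cast_add (t + s), Nat.cast_one]
    linarith

theorem rare_Rare {μ : Measure ℝ} [IsProbabilityMeasure μ] (hμ : Ch μ) (l0 : 0 ≤ lam)
    (hh : 0 ≤ h) (h1 : ∀ g, ∑ m ∈ Ioc 0 g, K m ≤ 1) {r : ℝ} (hr : 1 < r) {m0 : ℕ} (hm : 1 ≤ m0)
    {t : ℝ} (ta : a * t = 1)
    (hg : ∀ j : ℕ, ∃ L, L ≤ (j + 1) * m0 ∧ ENNReal.ofReal (r ^ j / (m0 * (j + 1)))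
      ≤ ∫⁻ x, ENNReal.ofReal (Zh K lam h L x ^ t) ∂(PP μ))
    (Y : ℕ → (ℕ → ℝ) → ℝ) (Y0 : ∀ N x, 0 ≤ Y N x)
    (hY : ∀ N x, 1 ≤ N → ∑ m ∈ Ioc 0 N, K m * ph_Rare lam h m x * Y (N - m) (sh m x) ≤ Y N x)
    (hY2 : ∀ N j x, N ≤ j → K j / 2 ≤ Y N x)
    (hI : ∀ N, Integrable (fun x => Real.log (Y N x)) (PP μ)) :
    ∃ δ > 0, ∀ᶠ N : ℕ in atTop, δ * N ≤ ∫ x, Real.log (Y N x) ∂(PP μ) := by
  obtain ⟨b, hb⟩ := EE_int hμ lam
  have a0 : 0 ≤ a := by linarith
  have t0 : 0 < t := by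
    by_contra hc
    nlinarith [mul_nonneg a0 (neg_nonneg.2 (not_lt.1 hc))]
  have t1 : t < 1 := by nlinarith
  obtain ⟨w, hw⟩ : ∃ w : ℕ, 1 ≤ (1 - t) * w := by
    obtain ⟨w, hw⟩ := exists_nat_ge (1 / (1 - t))
    rw [div_le_iff₀ (by linarith)] at hw
    exact ⟨w, by linarith⟩
  set C := Real.exp (1 - t * lc) with hC
  have Cp : 0 < C := Real.exp_pos _
  have mp : (1 : ℝ) ≤ m0 := by exact_mod_cast hm
  have ex : ∃ L j : ℕ, (n0 + L : ℕ) * C
      < Real.exp (t * j) * (PP μ).real {x | Real.exp j ≤ Zh K lam h L x} := by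
    by_contra hc
    push Not at hc
    set D : ℝ := (2 + 3 * w * (b * (2 * m0)) * ((n0 + 2 * m0) * C)) * (m0 * 2) with hD
    have Dp : 0 < D := by positivity
    obtain ⟨j, hj, j1⟩ := (((tendsto_pow_const_div_const_pow_of_one_lt 3 hr).eventually
      (gt_mem_nhds (inv_pos.2 Dp))).and (eventually_ge_atTop 1)).exists
    obtain ⟨L, hL, hq⟩ := hg j
    have h2 := hq.trans (level_Rare t0 t1 hw (measurable_Zh K lam h L) (Zh_nonneg hK lam h L)
      (b * L) (by positivity) ((lintegral_mono fun x =>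
        ENNReal.ofReal_le_ofReal (Zle_Rare hK l0 hh h1 L x)).trans (hb L)) (hc L))
    rw [ENNReal.ofReal_le_ofReal_iff (by positivity), div_le_iff₀ (by positivity)] at h2
    rw [div_lt_iff₀ (by positivity), inv_mul_eq_div, lt_div_iff₀ Dp] at hj
    have j2 : (1 : ℝ) ≤ j := by exact_mod_cast j1
    have hL2 : (L : ℝ) ≤ j * (2 * m0) := by
      have : (L : ℝ) ≤ (j + 1) * m0 := by exact_mod_cast hL
      nlinarith
    have n2 : (n0 : ℝ) ≤ j * n0 := le_mul_of_one_le_left (by positivity) j2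
    have j3 : (j : ℝ) + 1 ≤ j * 2 := by linarith
    have j4 : (2 : ℝ) ≤ (j : ℝ) ^ 2 * 2 := by nlinarith
    refine absurd (hj.trans_le h2) (not_lt.2 ?_)
    push_cast
    calc _ ≤ ((j : ℝ) ^ 2 * 2 + 3 * w * (b * (j * (2 * m0))) * ((j * n0 + j * (2 * m0)) * C)) *
          (m0 * (j * 2)) := by gcongr
      _ = _ := by rw [hD]; ring
  obtain ⟨L, j, hq⟩ := ex
  have mA : MeasurableSet {x | Real.exp j ≤ Zh K lam h L x} :=
    measurableSet_le measurable_const (measurable_Zh K lam h L)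
  set p := (PP μ).real {x | Real.exp j ≤ Zh K lam h L x} with hp
  have v := fun (hp : 0 < p) => visit_Rare (lam := lam) (h := h) hK hn ha hl L j hp
  set M := n0 + L with hM
  have M1 : 0 < M := by omega
  have Mp : (0 : ℝ) < M := by exact_mod_cast M1
  have pp : 0 < p := (mul_pos_iff_of_pos_left (Real.exp_pos _)).1 ((mul_pos Mp Cp).trans hq)
  have lg : Real.log M + (1 - t * lc) ≤ t * j + Real.log p := by
    have := Real.log_le_log (mul_pos Mp Cp) hq.le
    rwa [Real.log_mul Mp.ne' Cp.ne', Real.log_mul (Real.exp_pos _).ne' pp.ne', Real.log_exp,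
      Real.log_exp] at this
  set γ := j + lc - a * (Real.log M - Real.log p - 1) with hγ
  have γ3 : 2 * a ≤ γ := by
    have e := mul_le_mul_of_nonneg_left lg a0
    have e1 : a * (t * lc) = lc := by rw [← mul_assoc, ta, one_mul]
    have e2 : a * (t * j) = j := by rw [← mul_assoc, ta, one_mul]
    linarith
  have low : ∀ N : ℕ, a * p * (N / M : ℕ) + lc - a * Real.log (N + n0 : ℕ)
      ≤ ∫ x, Real.log (Y N x) ∂(PP μ) := fun N => by
    have mB : ∀ i, MeasurableSet (sh (i * M + n0) ⁻¹' {x | Real.exp j ≤ Zh K lam h L x}) :=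
      fun i => measurable_sh _ mA
    have I1 : ∀ i, Integrable ((sh (i * M + n0) ⁻¹' {x | Real.exp j ≤ Zh K lam h L x}).indicator
        (1 : (ℕ → ℝ) → ℝ)) (PP μ) := fun i => (integrable_const 1).indicator (mB i)
    have I2 := (integrable_finsetSum (range (N / M)) fun i _ => I1 i).const_mul γ
    refine le_trans ?_ (integral_mono (I2.add (integrable_const
      (lc - a * Real.log (N + n0 : ℕ) - a * p * (N / M : ℕ)))) (hI N) fun x => ?_)
    · rw [integral_add' I2 (integrable_const _), integral_const_mul,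
        integral_finsetSum _ fun i _ => I1 i,
        sum_congr rfl fun i _ => integral_indicator_one (mB i),
        sum_congr rfl fun i _ => (mp_sh μ _).measureReal_preimage mA.nullMeasurableSet]
      simp only [sum_const, card_range, nsmul_eq_mul, integral_const, probReal_univ, one_smul,
        ← hp]
      nlinarith [mul_le_mul_of_nonneg_right γ3 (show 0 ≤ ((N / M : ℕ) : ℝ) * p by positivity)]
    · obtain ⟨s, hs, h2⟩ := v pp x (N / M)
      have tN : s * M ≤ N := (Nat.mul_le_mul_right M hs).trans (Nat.div_mul_le_self N M)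
      have h3 := Zmul_Rare hK Y Y0 hY (N - s * M) (s * M) x
      rw [Nat.add_sub_cancel' tN] at h3
      have h4 := (hl (N + n0) (by omega)).trans
        (hY2 (N - s * M) (N + n0) (sh (s * M) x) (by omega))
      have h5 := (mul_le_mul h2 h4 (Real.exp_pos _).le (Zh_nonneg hK _ _ _ _)).trans h3
      rw [← Real.exp_add] at h5
      refine le_trans ?_ ((Real.le_log_iff_exp_le ((Real.exp_pos _).trans_le h5)).2 h5)
      have : (s : ℝ) ≤ (N / M : ℕ) := by exact_mod_cast hs
      simp only [Pi.add_apply]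
      linarith [mul_le_mul_of_nonneg_left this (mul_nonneg a0 pp.le)]
  have qp : 0 < p / M := by positivity
  refine ⟨p / M / 2, by positivity, ?_⟩
  have td : Tendsto (fun N : ℕ => p / M / 4 * (N : ℝ)) atTop atTop :=
    tendsto_natCast_atTop_atTop.const_mul_atTop (by positivity)
  filter_upwards [td.eventually_ge_atTop (p + |lc|
    + (p / M / 4 * n0 - 1 - Real.log (p / M / 4)))] with N hN
  refine le_trans ?_ (low N)
  have a1 := log_le_lin (p := p / M / 4) (s := (N + n0 : ℕ)) (by positivity)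
    (by exact_mod_cast (by omega : 0 < N + n0))
  have a2 : (N : ℝ) ≤ ((N / M : ℕ) + 1) * M := by
    exact_mod_cast (Nat.lt_div_mul_add M1).le.trans (le_of_eq (by ring))
  have a3 : p / M * N ≤ p * ((N / M : ℕ) + 1) := by
    calc _ ≤ p / M * (((N / M : ℕ) + 1) * M) := by gcongr
      _ = _ := by field_simp
  rw [Nat.cast_add N n0] at a1 ⊢
  have a4 : 0 ≤ p / M * N := by positivity
  have a5 := neg_abs_le lc
  have a6 := abs_nonneg lc
  have a7 : p / M / 2 * N + |lc| ≤ p * (N / M : ℕ) - Real.log (N + n0) := by linarith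
  have a8 := le_mul_of_one_le_left (show 0 ≤ p * (N / M : ℕ) - Real.log (N + n0) by linarith) ha.le
  linarith

end

theorem pRare : SRare := by
  intro K α c α0 _ ⟨hK, _, hs, hc, hT⟩ ν _ hν μ _ hμ lam h h1 r m0 l0 hh h10 hr hm hg
  obtain ⟨n1, hn1⟩ := eventually_atTop.1 (hT.eventually (lt_mem_nhds (half_lt_self hc)))
  have hl : ∀ g, n1 + 1 ≤ g → Real.exp (Real.log (c / 4) - (1 + α) * Real.log g) ≤ K g / 2 := by
    intro g hg
    have gp : (0 : ℝ) < g := by exact_mod_cast (by omega : 0 < g)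
    have := hn1 g (by omega)
    rw [Real.exp_sub, Real.exp_log (by positivity), mul_comm, ← Real.rpow_def_of_pos gp,
      div_le_iff₀ (Real.rpow_pos_of_pos gp _)]
    linarith
  obtain ⟨δ, hδ, hN⟩ := rare_Rare (n0 := n1 + 1) (lc := Real.log (c / 4)) (a := 1 + α)
    (h := h1) hK (by omega) (by linarith) hl hμ l0 h10
    (fun g => sum_le_hasSum _ (fun m _ => hK m) hs) hr hm (t := 1 / (1 + α)) (by field_simp)
    (fun j => (hg j).imp fun L hL => ⟨hL.1, hL.2.trans (le_of_eq (lintegral_congr fun x =>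
      ENNReal.ofReal_rpow_of_nonneg (Zh_nonneg hK lam h1 L x) (by positivity)))⟩)
    (Zx ν lam h) (fun N x => (Real.exp_pos _).le.trans (Zx_bd ν lam h N x).1)
    (fun N x _ => Zx_renew ν hν l0 hh N x) (fun N j x hj => Zx_ge ν hν lam h N j x hj)
    (log_int ν hμ lam h)
  refine ⟨δ, hδ, ?_⟩
  filter_upwards [hN, eventually_ge_atTop 1] with N h1 h2
  have Np : (0 : ℝ) < N := by exact_mod_cast h2
  simp_rw [Z_eq]
  rw [show PP μ = (PP μ).map (sh 1) from (map_sh μ 1).symm,
    integral_map (measurable_sh 1).aemeasurable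
    (measurable_Zx ν lam h N).log.aestronglyMeasurable] at h1
  rwa [one_div, ← div_eq_inv_mul, le_div_iff₀ Np]

end Pool.Agent.MP_c26281_pr.SA

end

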