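import Pool.Agent.MP_c26281_pr.SA.Stm

/-! Shifts and the renewal structure of the free partition function (copied from the first
library of this folder, so that its numerical part is not imported). -/

open MeasureTheory ProbabilityTheory Finset Filter Topology
open scoped ENNReal

namespace Pool.Agent.MP_c26281_pr.SA.Old

/-- shift -/
def sh {α : Type*} (r : ℕ) (x : ℕ → α) : ℕ → α := fun i => x (r + i)

/-- product measure -/
noncomputable abbrev PP {α : Type*} [MeasurableSpace α] (μ : Measure α) : Measure (ℕ → α) :=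
  Measure.infinitePi fun _ : ℕ => μ

theorem sh_sh {α : Type*} (a b : ℕ) (x : ℕ → α) : sh a (sh b x) = sh (b + a) x := by
  funext i; simp [sh, add_assoc]

theorem sh_zero {α : Type*} (x : ℕ → α) : sh 0 x = x := by
  funext i; simp [sh]

@[fun_prop] theorem measurable_sh {α : Type*} [MeasurableSpace α] (r : ℕ) :
    Measurable (sh r : (ℕ → α) → ℕ → α) := by
  unfold sh; fun_prop

section
variable {α : Type*} [MeasurableSpace α] (μ : Measure α) [IsProbabilityMeasure μ]

theorem indep_ev : iIndepFun (fun (i : ℕ) (x : ℕ → α) => x i) (PP μ) :=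
  iIndepFun_infinitePi (X := fun _ x => x) (fun _ => measurable_id)

theorem map_sh (r : ℕ) : (PP μ).map (sh r) = PP μ := by
  have h := (indep_ev μ).precomp (g := fun i => r + i) (add_right_injective r)
  have h2 := h.map_fun_eq_infinitePi_map (fun i => measurable_pi_apply _)
  have : (sh r : (ℕ → α) → ℕ → α) = fun ω i => ω (r + i) := rfl
  rw [this, h2]
  congr 1
  funext i
  exact Measure.infinitePi_map_eval _ _

theorem mp_sh (r : ℕ) : MeasurePreserving (sh r) (PP μ) (PP μ) :=
  ⟨measurable_sh r, map_sh μ r⟩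

theorem indep_sh {β : Type*} [MeasurableSpace β] (r : ℕ) (H : (ℕ → α) → β) (hH : Measurable H)
    (hdep : ∀ x y, (∀ i < r, x i = y i) → H x = H y) : IndepFun H (sh r) (PP μ) := by
  classical
  obtain ⟨a0⟩ : Nonempty α := μ.nonempty_of_neZero
  have hi := (iIndepFun_iff_iIndep _ _ _).1 (indep_ev μ)
  have hd : Disjoint (Set.Iio r) (Set.Ici r) := by
    rw [Set.disjoint_left]; intro a ha hb; simp at ha hb; omega
  have h := indep_iSup_of_disjoint (fun i => (measurable_pi_apply i).comap_le) hi hd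
  rw [IndepFun_iff_Indep]
  refine indep_of_indep_of_le_right (indep_of_indep_of_le_left h ?_) ?_
  · have e : H = H ∘ fun x i => if i < r then x i else a0 := by
      funext x
      exact hdep _ _ (fun i hi => by simp [hi])
    rw [e]
    refine Measurable.comap_le (hH.comp ?_)
    refine @measurable_pi_lambda _ _ _ (_) _ _ fun i => ?_
    by_cases hi : i < r
    · simp only [hi, if_true]
      refine Measurable.of_comap_le ?_
      exact le_iSup₂_of_le (f := fun (j : ℕ) (_ : j ∈ Set.Iio r) =>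
        MeasurableSpace.comap (fun x : ℕ → α => x j) inferInstance) i hi le_rfl
    · simp only [hi, if_false]; exact measurable_const
  · refine Measurable.comap_le ?_
    refine @measurable_pi_lambda _ _ _ (_) _ _ fun i => ?_
    refine Measurable.of_comap_le ?_
    exact le_iSup₂_of_le (f := fun (j : ℕ) (_ : j ∈ Set.Ici r) =>
      MeasurableSpace.comap (fun x : ℕ → α => x j) inferInstance) (r + i) (by simp) le_rfl

theorem split {β : Type*} [MeasurableSpace β] (r : ℕ) (H : (ℕ → α) → β) (hH : Measurable H)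
    (hdep : ∀ x y, (∀ i < r, x i = y i) → H x = H y) (G : β × (ℕ → α) → ℝ≥0∞)
    (hG : Measurable G) :
    ∫⁻ x, G (H x, sh r x) ∂(PP μ) = ∫⁻ x, ∫⁻ y, G (H x, y) ∂(PP μ) ∂(PP μ) := by
  have h1 := (indep_sh μ r H hH hdep).map_prod_eq_prod_map_map hH.aemeasurable
    (measurable_sh r).aemeasurable
  rw [map_sh] at h1
  have h2 : ∫⁻ x, G (H x, sh r x) ∂(PP μ) = ∫⁻ z, G z ∂((PP μ).map fun x => (H x, sh r x)) := by
    rw [lintegral_map hG (by fun_prop)]
  rw [h2, h1, lintegral_prod _ hG.aemeasurable, lintegral_map _ hH]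
  exact hG.lintegral_prod_right'

end

/-- running sums -/
def SS (r : ℕ) (x : ℕ → ℝ) : ℝ := ∑ i ∈ Finset.range r, x i

@[fun_prop] theorem measurable_SS (r : ℕ) : Measurable (SS r) := by
  unfold SS; fun_prop

theorem SS_dep (r : ℕ) (x y : ℕ → ℝ) (h : ∀ i < r, x i = y i) : SS r x = SS r y :=
  Finset.sum_congr rfl fun i hi => h i (Finset.mem_range.1 hi)

theorem SS_add (r k : ℕ) (x : ℕ → ℝ) : SS (r + k) x = SS r x + SS k (sh r x) := by
  unfold SS sh; rw [Finset.sum_range_add]


section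
variable {μ : Measure ℝ} [IsProbabilityMeasure μ] (hμ : Ch μ)
include hμ

omit [IsProbabilityMeasure μ] in
theorem int_pow (k : ℕ) : Integrable (fun x : ℝ => x ^ k) μ :=
  integrable_pow_of_integrable_exp_mul (X := fun x => x) one_ne_zero (hμ.2.2 1) (hμ.2.2 (-1)) k

theorem int_ev (r k : ℕ) : Integrable (fun x : ℕ → ℝ => x r ^ k) (PP μ) :=
  ((measurePreserving_eval_infinitePi (fun _ : ℕ => μ) r).integrable_comp
    (int_pow hμ k).aestronglyMeasurable).2 (int_pow hμ k)

omit hμ in
end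

theorem abs_mul_le {a b A B : ℝ} (h1 : |a| ≤ A) (h2 : |b| ≤ B) : |a * b| ≤ A * B := by
  rw [abs_mul]; exact mul_le_mul h1 h2 (abs_nonneg _) ((abs_nonneg _).trans h1)


/-- crude upper bound -/
noncomputable def EE (lam : ℝ) (L : ℕ) (x : ℕ → ℝ) : ℝ :=
  ∏ i ∈ range L, Real.exp (2 * lam * |x i|)

theorem EE_add (lam : ℝ) (a b : ℕ) (x : ℕ → ℝ) :
    EE lam (a + b) x = EE lam a x * EE lam b (sh a x) := by
  unfold EE sh; rw [prod_range_add]

theorem EE_pos (lam : ℝ) (a : ℕ) (x : ℕ → ℝ) : 0 < EE lam a x :=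
  prod_pos fun _ _ => Real.exp_pos _


theorem EE_int {μ : Measure ℝ} [IsProbabilityMeasure μ] (hμ : Ch μ) (lam : ℝ) :
    ∃ b : ℕ, ∀ L : ℕ, ∫⁻ x, ENNReal.ofReal (EE lam L x) ∂(PP μ)
      ≤ ENNReal.ofReal (Real.exp ((b * L : ℕ))) := by
  have hI := integrable_exp_mul_abs (X := fun x : ℝ => x) (hμ.2.2 (2 * lam)) (hμ.2.2 (-(2 * lam)))
  refine ⟨⌈∫ t, Real.exp (2 * lam * |t|) ∂μ⌉₊, fun L => ?_⟩
  unfold EE
  simp_rw [ENNReal.ofReal_prod_of_nonneg fun i _ => (Real.exp_pos _).le]
  have mf : Measurable fun t : ℝ => ENNReal.ofReal (Real.exp (2 * lam * |t|)) := by fun_prop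
  rw [lintegral_prod_eq_prod_lintegral_of_indepFun (range L)
    (fun i (x : ℕ → ℝ) => ENNReal.ofReal (Real.exp (2 * lam * |x i|)))
    ((indep_ev μ).comp _ fun _ => mf) (fun i => by fun_prop)]
  rw [prod_congr rfl fun i _ =>
    (measurePreserving_eval_infinitePi (fun _ : ℕ => μ) i).lintegral_comp mf, prod_const,
    card_range, ← ofReal_integral_eq_lintegral_ofReal hI
      (Eventually.of_forall fun t => (Real.exp_pos _).le),
    ← ENNReal.ofReal_pow (integral_nonneg fun t => (Real.exp_pos _).le)]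
  refine ENNReal.ofReal_le_ofReal ?_
  rw [Nat.cast_mul, mul_comm _ (L : ℝ), Real.exp_nat_mul]
  refine pow_le_pow_left₀ (integral_nonneg fun t => (Real.exp_pos _).le) ?_ _
  refine (Nat.le_ceil _).trans ?_
  linarith [Real.add_one_le_exp (⌈∫ t, Real.exp (2 * lam * |t|) ∂μ⌉₊ : ℝ)]


theorem log_le_lin {p s : ℝ} (hp : 0 < p) (hs : 0 < s) : Real.log s ≤ p * s - 1 - Real.log p := by
  have := Real.log_le_sub_one_of_pos (mul_pos hp hs)
  rw [Real.log_mul hp.ne' hs.ne'] at this
  linarith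


theorem tau_succ (e : ℕ → ℕ × Bool) (i : ℕ) : tau e (i + 1) = (e 0).1 + tau (sh 1 e) i := by
  unfold tau sh
  rw [sum_range_succ', add_comm]
  simp_rw [add_comm 1]

theorem tau_zero (e : ℕ → ℕ × Bool) : tau e 0 = 0 := by simp [tau]

theorem Delta_first (e : ℕ → ℕ × Bool) {n : ℕ} (h1 : 1 ≤ n) (h2 : n ≤ (e 0).1) :
    Delta e n = if (e 0).2 = true then 1 else 0 := by
  classical
  unfold Delta
  refine if_congr ⟨?_, fun h => ⟨0, ?_, ?_, h⟩⟩ rfl rfl
  · rintro ⟨i, a, -, c⟩
    cases i with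
    | zero => exact c
    | succ i => rw [tau_succ] at a; omega
  · rw [tau_zero]; omega
  · rw [tau_succ]; omega

theorem Delta_shift (e : ℕ → ℕ × Bool) {n : ℕ} (h1 : 1 ≤ n) :
    Delta e ((e 0).1 + n) = Delta (sh 1 e) n := by
  classical
  unfold Delta
  refine if_congr ⟨?_, ?_⟩ rfl rfl
  · rintro ⟨i, a, b, c⟩
    cases i with
    | zero => rw [tau_succ, tau_zero] at b; omega
    | succ i =>
      rw [tau_succ] at a b
      exact ⟨i, by omega, by omega, by unfold sh; rwa [add_comm]⟩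
  · rintro ⟨i, a, b, c⟩
    refine ⟨i + 1, by rw [tau_succ]; omega, by rw [tau_succ]; omega, ?_⟩
    unfold sh at c; rwa [add_comm] at c

theorem Delta_abs (e : ℕ → ℕ × Bool) (n : ℕ) : |Delta e n| ≤ 1 := by
  unfold Delta; split_ifs <;> simp

theorem measurable_tau (i : ℕ) : Measurable fun e => tau e i := by
  unfold tau; fun_prop

@[fun_prop] theorem measurable_Delta (n : ℕ) : Measurable fun e => Delta e n := by
  unfold Delta
  refine Measurable.ite ?_ measurable_const measurable_const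
  rw [Set.ofPred_exists]
  refine MeasurableSet.iUnion fun i => ?_
  refine (measurableSet_lt (measurable_tau i) measurable_const).inter
    ((measurableSet_le measurable_const (measurable_tau (i + 1))).inter ?_)
  exact measurableSet_eq_fun (by fun_prop) measurable_const

/-- Boltzmann weight -/
noncomputable def en (lam h : ℝ) (N : ℕ) (x : ℕ → ℝ) (e : ℕ → ℕ × Bool) : ℝ :=
  Real.exp (-2 * lam * ∑ i ∈ range N, Delta e (1 + i) * (x i + h))

/-- partition function, charges indexed from zero -/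
noncomputable def Zx (ν : Measure (ℕ × Bool)) (lam h : ℝ) (N : ℕ) (x : ℕ → ℝ) : ℝ :=
  ∫ e, en lam h N x e ∂(PP ν)

theorem Z_eq (ν : Measure (ℕ × Bool)) (lam h : ℝ) (N : ℕ) (ω : ℕ → ℝ) :
    Z ν lam h N ω = Zx ν lam h N (sh 1 ω) := by
  unfold Z Zx en sh
  simp_rw [← Finset.Ico_add_one_right_eq_Icc, sum_Ico_eq_sum_range, Nat.add_sub_cancel]

theorem measurable_en (lam h : ℝ) (N : ℕ) : Measurable (Function.uncurry (en lam h N)) := by
  unfold en Function.uncurry
  refine Real.measurable_exp.comp (Measurable.const_mul (Finset.measurable_sum _ fun i _ => ?_) _)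
  exact ((measurable_Delta _).comp measurable_snd).mul (by fun_prop)

theorem en_pos (lam h : ℝ) (N : ℕ) (x : ℕ → ℝ) (e : ℕ → ℕ × Bool) : 0 < en lam h N x e :=
  Real.exp_pos _

/-- bound on the energy -/
noncomputable def BB (lam h : ℝ) (N : ℕ) (x : ℕ → ℝ) : ℝ :=
  |-2 * lam| * ∑ i ∈ range N, |x i + h|

theorem en_bd (lam h : ℝ) (N : ℕ) (x : ℕ → ℝ) (e : ℕ → ℕ × Bool) :
    Real.exp (-BB lam h N x) ≤ en lam h N x e ∧ en lam h N x e ≤ Real.exp (BB lam h N x) := by
  unfold en
  rw [Real.exp_le_exp, Real.exp_le_exp, ← abs_le]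
  refine abs_mul_le le_rfl ((abs_sum_le_sum_abs _ _).trans (sum_le_sum fun i _ => ?_))
  simpa using abs_mul_le (Delta_abs e (1 + i)) (le_refl |x i + h|)

theorem en_split (lam h : ℝ) (N : ℕ) (x : ℕ → ℝ) (e : ℕ → ℕ × Bool) (hm : (e 0).1 ≤ N) :
    en lam h N x e = (if (e 0).2 = true then Real.exp (-2 * lam * (SS (e 0).1 x + (e 0).1 * h))
      else 1) * en lam h (N - (e 0).1) (sh (e 0).1 x) (sh 1 e) := by
  obtain ⟨r, rfl⟩ := Nat.exists_eq_add_of_le hm
  unfold en
  rw [sum_range_add, mul_add, Real.exp_add, Nat.add_sub_cancel_left]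
  congr 1
  · rw [sum_congr rfl fun i hi => by rw [Delta_first e (by omega) (by
      have := mem_range.1 hi; omega)]]
    split_ifs
    · simp [SS, sum_add_distrib]
    · simp
  · congr 2
    refine sum_congr rfl fun i _ => ?_
    rw [add_left_comm, Delta_shift e (by omega)]; rfl

section
variable (ν : Measure (ℕ × Bool)) [IsProbabilityMeasure ν]

theorem en_int (lam h : ℝ) (N : ℕ) (x : ℕ → ℝ) : Integrable (en lam h N x) (PP ν) :=
  Integrable.of_bound (measurable_en lam h N).of_uncurry_left.aestronglyMeasurable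
    (Real.exp (BB lam h N x)) (Eventually.of_forall fun e => by
      rw [Real.norm_eq_abs, abs_of_pos (en_pos _ _ _ _ _)]; exact (en_bd lam h N x e).2)

theorem Zx_bd (lam h : ℝ) (N : ℕ) (x : ℕ → ℝ) : Real.exp (-BB lam h N x) ≤ Zx ν lam h N x ∧
    Zx ν lam h N x ≤ Real.exp (BB lam h N x) := by
  unfold Zx
  constructor
  · simpa using integral_mono (integrable_const _) (en_int ν lam h N x)
      fun e => (en_bd lam h N x e).1
  · simpa using integral_mono (en_int ν lam h N x) (integrable_const _)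
      fun e => (en_bd lam h N x e).2

theorem measurable_Zx (lam h : ℝ) (N : ℕ) : Measurable (Zx ν lam h N) :=
  ((measurable_en lam h N).stronglyMeasurable.integral_prod_right (ν := PP ν)).measurable

theorem log_int {μ : Measure ℝ} [IsProbabilityMeasure μ] (hμ : Ch μ) (lam h : ℝ) (N : ℕ) :
    Integrable (fun x => Real.log (Zx ν lam h N x)) (PP μ) := by
  have I : Integrable (BB lam h N) (PP μ) := by
    refine Integrable.const_mul (integrable_finsetSum _ fun i _ => Integrable.abs ?_) _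
    exact Integrable.add (by simpa using int_ev hμ i 1) (integrable_const h)
  refine I.mono' (measurable_Zx ν lam h N).log.aestronglyMeasurable
    (Eventually.of_forall fun x => ?_)
  obtain ⟨h1, h2⟩ := Zx_bd ν lam h N x
  have p := (Real.exp_pos _).trans_le h1
  rw [Real.norm_eq_abs, abs_le]
  exact ⟨(Real.le_log_iff_exp_le p).2 h1, (Real.log_le_iff_le_exp p).2 h2⟩

theorem first (S : Finset (ℕ × Bool)) (g : ℕ × Bool → (ℕ → ℕ × Bool) → ℝ)
    (mg : ∀ a, Measurable (g a)) (Ig : ∀ a, Integrable (g a) (PP ν)) {F : (ℕ → ℕ × Bool) → ℝ}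
    (IF : Integrable F (PP ν)) (F0 : ∀ e, 0 ≤ F e)
    (hF : ∀ e, e 0 ∈ S → g (e 0) (sh 1 e) ≤ F e) :
    ∑ a ∈ S, ν.real {a} * ∫ e, g a e ∂(PP ν) ≤ ∫ e, F e ∂(PP ν) := by
  classical
  have mA : ∀ a, MeasurableSet ((fun e : ℕ → ℕ × Bool => e 0) ⁻¹' {a}) := fun a =>
    measurable_pi_apply 0 (measurableSet_singleton a)
  have I1 : ∀ a, Integrable (((fun e : ℕ → ℕ × Bool => e 0) ⁻¹' {a}).indicator
      (1 : (ℕ → ℕ × Bool) → ℝ)) (PP ν) := fun a => (integrable_const 1).indicator (mA a)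
  have I2 : ∀ a, Integrable (g a ∘ sh 1) (PP ν) := fun a =>
    ((mp_sh ν 1).integrable_comp (mg a).aestronglyMeasurable).2 (Ig a)
  have ind : ∀ a, IndepFun (((fun e : ℕ → ℕ × Bool => e 0) ⁻¹' {a}).indicator
      (1 : (ℕ → ℕ × Bool) → ℝ)) (g a ∘ sh 1) (PP ν) := fun a =>
    (indep_sh ν 1 _ (measurable_one.indicator (mA a)) (fun x y hxy => by
      simp [Set.indicator_apply, hxy 0 one_pos])).comp measurable_id (mg a)
  have e1 : ∀ a, ν.real {a} * ∫ e, g a e ∂(PP ν) = ∫ e, (((fun e : ℕ → ℕ × Bool => e 0) ⁻¹'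
      {a}).indicator (1 : (ℕ → ℕ × Bool) → ℝ) * (g a ∘ sh 1)) e ∂(PP ν) := fun a => by
    rw [(ind a).integral_mul_eq_mul_integral (I1 a).aestronglyMeasurable
      (I2 a).aestronglyMeasurable, integral_indicator_one (mA a),
      (measurePreserving_eval_infinitePi (fun _ : ℕ => ν) 0).measureReal_preimage
        (measurableSet_singleton a).nullMeasurableSet]
    congr 1
    conv_lhs => rw [← map_sh ν 1]
    rw [integral_map (measurable_sh 1).aemeasurable (mg a).aestronglyMeasurable]; rfl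
  rw [sum_congr rfl fun a _ => e1 a,
    ← integral_finsetSum _ fun a _ => (ind a).integrable_mul (I1 a) (I2 a)]
  refine integral_mono (integrable_finsetSum _ fun a _ => (ind a).integrable_mul (I1 a) (I2 a)) IF
    fun e => ?_
  simp only [Pi.mul_apply, Set.indicator_apply, Set.mem_preimage, Set.mem_singleton_iff,
    Pi.one_apply, ite_mul, one_mul, zero_mul, sum_ite_eq, Function.comp]
  split_ifs with h
  · exact hF e h
  · exact F0 e

variable {K : ℕ → ℝ} (hν : ∀ m s, ν.real {(m, s)} = K m / 2)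
include hν

theorem Zx_ge (lam h : ℝ) (N j : ℕ) (x : ℕ → ℝ) (hj : N ≤ j) : K j / 2 ≤ Zx ν lam h N x := by
  have := first ν {(j, false)} (fun _ _ => 1) (fun _ => measurable_const)
    (fun _ => integrable_const _) (en_int ν lam h N x) (fun e => (en_pos _ _ _ _ _).le)
    fun e he => by
      rw [mem_singleton] at he
      unfold en
      rw [sum_congr rfl fun i hi => by rw [Delta_first e (by omega) (by
        have := mem_range.1 hi; rw [he]; omega)]]
      simp [he]
  unfold Zx
  simpa [hν] using this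

theorem Zx_renew {lam h h1 : ℝ} (l0 : 0 ≤ lam) (hh : h ≤ h1) (N : ℕ) (x : ℕ → ℝ) :
    ∑ m ∈ Ioc 0 N, K m * ((1 + Real.exp (-2 * lam * ∑ n ∈ range m, (x n + h1))) / 2)
      * Zx ν lam h (N - m) (sh m x) ≤ Zx ν lam h N x := by
  have := first ν (Ioc 0 N ×ˢ univ) (fun a e => (if a.2 = true then
    Real.exp (-2 * lam * ∑ n ∈ range a.1, (x n + h1)) else 1) * en lam h (N - a.1) (sh a.1 x) e)
    (fun a => (measurable_en lam h _).of_uncurry_left.const_mul _)
    (fun a => (en_int ν lam h _ _).const_mul _) (en_int ν lam h N x)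
    (fun e => (en_pos _ _ _ _ _).le) fun e he => by
      rw [en_split lam h N x e (mem_Ioc.1 (mem_product.1 he).1).2]
      refine mul_le_mul_of_nonneg_right ?_ (en_pos _ _ _ _ _).le
      split_ifs
      · refine Real.exp_le_exp.2 ?_
        rw [sum_add_distrib, sum_const, card_range, nsmul_eq_mul]
        unfold SS
        nlinarith [mul_le_mul_of_nonneg_left hh (show 0 ≤ lam * (e 0).1 by positivity)]
      · exact le_rfl
  refine le_trans (le_of_eq ?_) this
  rw [sum_product]
  refine sum_congr rfl fun m _ => ?_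
  simp only [Fintype.sum_bool, integral_const_mul, hν]
  unfold Zx
  simp; ring

end

theorem Zh_zero (K : ℕ → ℝ) (lam h : ℝ) (x : ℕ → ℝ) : Zh K lam h 0 x = 1 := by rw [Zh]

theorem Zh_eq (K : ℕ → ℝ) (lam h : ℝ) {g : ℕ} (hg : 1 ≤ g) (x : ℕ → ℝ) :
    Zh K lam h g x = ∑ m ∈ Ioc 0 g, K m *
      ((1 + Real.exp (-2 * lam * ∑ n ∈ range m, (x n + h))) / 2) * Zh K lam h (g - m) (sh m x) := by
  obtain ⟨g, rfl⟩ : ∃ k, g = k + 1 := ⟨g - 1, by omega⟩
  rw [Zh, ← Finset.Ico_add_one_add_one_eq_Ioc, sum_Ico_eq_sum_range]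
  refine sum_congr (by simp) fun i _ => ?_
  rw [zero_add, add_comm 1 i, Nat.add_sub_add_right]; rfl

theorem measurable_Zh (K : ℕ → ℝ) (lam h : ℝ) (g : ℕ) : Measurable (Zh K lam h g) := by
  induction g using Nat.strong_induction_on with
  | _ g ih =>
    rcases Nat.eq_zero_or_pos g with rfl | hg
    · rw [show Zh K lam h 0 = fun _ => 1 from funext (Zh_zero K lam h)]; fun_prop
    · rw [show Zh K lam h g = _ from funext (Zh_eq K lam h hg)]
      refine Finset.measurable_sum _ fun m hm => ?_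
      have := ih (g - m) (by have := mem_Ioc.1 hm; omega)
      fun_prop

theorem Zh_nonneg {K : ℕ → ℝ} (hK : ∀ m, 0 ≤ K m) (lam h : ℝ) (g : ℕ) :
    ∀ x, 0 ≤ Zh K lam h g x := by
  induction g using Nat.strong_induction_on with
  | _ g ih =>
    intro x
    rcases Nat.eq_zero_or_pos g with rfl | hg
    · rw [Zh_zero]; norm_num
    · rw [Zh_eq K lam h hg]
      exact sum_nonneg fun m hm => mul_nonneg (mul_nonneg (hK m) (by positivity))
        (ih (g - m) (by have := mem_Ioc.1 hm; omega) _)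

end Pool.Agent.MP_c26281_pr.SA.Old
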