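import Pool.Agent.MP_c26281_pr.SA.Base

/-! Definitions and statements of the steps. -/

open MeasureTheory ProbabilityTheory Finset Filter Topology
open scoped ENNReal

namespace Pool.Agent.MP_c26281_pr.SA

/-! ### Elementary sums -/

/-- power law `A n^(-1-α)` -/
noncomputable def pw (A α : ℝ) (n : ℕ) : ℝ≥0∞ := ENNReal.ofReal (A * (n : ℝ) ^ (-(1 + α)))

/-- power law on lengths `≥ L` -/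
noncomputable def pwL (A α : ℝ) (L n : ℕ) : ℝ≥0∞ := if L ≤ n then pw A α n else 0

/-- `a exp(-d z) / z` -/
noncomputable def nu (a d : ℝ) (z : ℕ) : ℝ≥0∞ := ENNReal.ofReal (a * Real.exp (-(d * z)) / z)

def SSum : Prop :=
  (∀ (A α : ℝ) (L : ℕ), 0 ≤ A → 0 < α → 1 ≤ L →
    ∑' n, pwL A α L n ≤ ENNReal.ofReal (A * ((L : ℝ) ^ (-(1 + α)) + (L : ℝ) ^ (-α) / α))) ∧
  (∀ L M : ℕ, 1 ≤ L → M ≤ 2 * L → ∑ n ∈ Ico L M, (1 / n : ℝ) ≤ Real.log 2 + 1 / L) ∧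
  (∀ a b : ℕ, 1 ≤ a → a ≤ b → Real.log (b / a) ≤ ∑ n ∈ Ico a b, (1 / n : ℝ)) ∧
  (∀ (α : ℝ) (a b : ℕ), 0 < α → 1 ≤ a → a ≤ b →
    ((a : ℝ) ^ (-α) - (b : ℝ) ^ (-α)) / α ≤ ∑ n ∈ Ico a b, (n : ℝ) ^ (-(1 + α)) ∧
    ∑ n ∈ Ioc a b, (n : ℝ) ^ (-(1 + α)) ≤ ((a : ℝ) ^ (-α) - (b : ℝ) ^ (-α)) / α) ∧
  (∀ (α : ℝ) (b : ℕ), 0 ≤ α → α < 1 →
    ∑ n ∈ Ioc 0 b, (n : ℝ) ^ (-α) ≤ (b : ℝ) ^ (1 - α) / (1 - α))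

def SNu : Prop := ∀ a d : ℝ, 0 ≤ a → 0 < d →
  ∑' z : ℕ, (z : ℝ≥0∞) * nu a d z ≤ ENNReal.ofReal (a / d) ∧
    ∑' z, nu a d z ≤ ENNReal.ofReal (5 * a * d ^ (-(1 / 4 : ℝ)))

def SSm : Prop := ∀ η C D : ℝ, 0 < η → 0 < C → 0 < D → ∃ a0 > 0, ∀ α : ℝ, 0 < α → α < a0 →
  (C / α) ^ (D * α) ≤ 1 + η

def SMg : Prop := ∀ (μ : Measure ℝ) [IsProbabilityMeasure μ], Ch μ → ∀ u > 0, ∃ t0 > 0, Mg μ t0 u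

/-- what is used of the law of the excursions at the scale `k` -/
def KA (K : ℕ → ℝ) (α u κ : ℝ) (k : ℕ) : Prop :=
  1 ≤ k ∧ 0 < κ ∧ (∀ n, 0 ≤ K n) ∧ K 0 = 0 ∧ ∑ n ∈ range (2 * k + 1), K n = 1 - κ * k ∧
  (∀ m : ℕ, k ≤ m → κ * α * (1 - u) * ((k : ℝ) / m) ^ (1 + α) ≤ K m ∧
    K m ≤ κ * α * (1 + u) * ((k : ℝ) / m) ^ (1 + α)) ∧
  ∑ n ∈ range (2 * k + 1), n * K n ≤ 5 * α * κ * k ^ 2 ∧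
  ∀ L : ℕ, 2 ≤ L → κ * k * (1 - 2 * (L : ℝ) ^ (-α)) ≤ ∑ n ∈ Ioc (2 * k) (L * k), K n

/-- hypotheses on the law of the excursions -/
def KH (K : ℕ → ℝ) (α c : ℝ) : Prop :=
  (∀ n, 0 ≤ K n) ∧ K 0 = 0 ∧ HasSum K 1 ∧ 0 < c ∧
    Tendsto (fun n : ℕ => K n * (n : ℝ) ^ (1 + α)) atTop (𝓝 c)

def SKA : Prop := ∀ u : ℝ, 0 < u → u ≤ 1 → ∃ a0 > 0, ∀ α : ℝ, 0 < α → α < a0 →
  ∀ (K : ℕ → ℝ) (c : ℝ), KH K α c → ∃ k0 : ℕ, ∀ k, k0 ≤ k → ∃ κ, KA K α u κ k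

/-! ### Coarse graining -/

/-- block number `q` -/
def blk (k q : ℕ) : Finset ℕ := Ico (q * k) ((q + 1) * k)

/-- coarse grained kernel -/
noncomputable def cg (k : ℕ) (l r : ℕ → ℝ≥0∞) (u : IA) : IA := kmk fun q p =>
  if q < p then ∑ z ∈ blk k q, ∑ w ∈ blk k (p - 1), r z * u z w * l w else 0

/-- kernel on sites built from a kernel on blocks -/
noncomputable def ex (k : ℕ) (l r : ℕ → ℝ≥0∞) (a : IA) : IA := kmk fun i j =>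
  l i * a (i / k + 1) (j / k) * r j

def SCG : Prop := ∀ k : ℕ, 1 ≤ k → ∀ l r : ℕ → ℝ≥0∞,
  (∀ u v : IA, u ≤ v → cg k l r u ≤ cg k l r v) ∧
  ∀ u a : IA, cg k l r (kst (u * ex k l r a) * u) = kst (cg k l r u * a) * cg k l r u

/-! ### The model -/

/-- all excursions -/
noncomputable def Kall (K : ℕ → ℝ) (lam h : ℝ) (x : ℕ → ℝ) : IA := kmk fun i j =>
  ENNReal.ofReal (K (j - i) / 2) * (1 + XX lam h x i j)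

/-- pinned partition function between two sites -/
noncomputable def Zk (K : ℕ → ℝ) (lam h : ℝ) (x : ℕ → ℝ) : IA := kst (Kall K lam h x)

/-- pinned partition function, real valued -/
noncomputable def Zh (K : ℕ → ℝ) (lam h : ℝ) : ℕ → (ℕ → ℝ) → ℝ
  | 0, _ => 1
  | g + 1, x => ∑ i ∈ range (g + 1), K (i + 1) *
      ((1 + Real.exp (-2 * lam * ∑ n ∈ range (i + 1), (x n + h))) / 2) *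
      Zh K lam h (g - i) (fun n => x (i + 1 + n))
decreasing_by omega

/-- all excursions but the long negative ones -/
noncomputable def Kp (K : ℕ → ℝ) (k : ℕ) (lam h : ℝ) (x : ℕ → ℝ) : IA := kmk fun i j =>
  ENNReal.ofReal (K (j - i) / 2) * (1 + if j - i ≤ 2 * k then XX lam h x i j else 0)

/-- long negative excursions -/
noncomputable def Kn (K : ℕ → ℝ) (k : ℕ) (lam h : ℝ) (x : ℕ → ℝ) : IA := kmk fun i j =>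
  if j - i ≤ 2 * k then 0 else ENNReal.ofReal (K (j - i) / 2) * XX lam h x i j

/-- deterministic majorant of the mean of `Kp` -/
noncomputable def Kbar (K : ℕ → ℝ) (k : ℕ) : IA := tk fun n =>
  if n ≤ 2 * k then ENNReal.ofReal (K n * Real.exp (n / k)) else ENNReal.ofReal (K n / 2)

/-- weight from a site to the end of its block -/
noncomputable def ll (k : ℕ) (lam h : ℝ) (x : ℕ → ℝ) (w : ℕ) : ℝ≥0∞ :=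
  XX lam h x w ((w / k + 1) * k)

/-- weight from the start of its block to a site -/
noncomputable def rr (k : ℕ) (κ lam h : ℝ) (x : ℕ → ℝ) (z : ℕ) : ℝ≥0∞ :=
  ENNReal.ofReal κ * XX lam h x (z / k * k) z

/-- upper bound on the moments of order `t` -/
def Mo (μ : Measure ℝ) (lam h t r : ℝ) : Prop := ∀ i j : ℕ,
  ∫⁻ x, XX lam h x i j ^ t ∂(PP μ) ≤ ENNReal.ofReal (Real.exp (r * (j - i : ℕ)))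

def SAdcg : Prop := ∀ (μ : Measure ℝ) [IsProbabilityMeasure μ] (k : ℕ) (κ lam h : ℝ), 1 ≤ k →
  (∀ u : (ℕ → ℝ) → IA, Ad (fld μ 1) u →
    Ad (fld μ k) fun x => cg k (ll k lam h x) (rr k κ lam h x) (u x)) ∧
  ∀ (t : ℝ) (r : ℝ) (u : (ℕ → ℝ) → IA), 0 < t → t ≤ 1 → 0 ≤ r → Mo μ lam h t r → 0 ≤ κ →
    Ad (fld μ 1) u → ∀ q p, Nk (PP μ) t (fun x => cg k (ll k lam h x) (rr k κ lam h x) (u x)) q p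
      ≤ ENNReal.ofReal (Real.exp (2 * r * k)) *
        cg k (fun _ => 1) (fun _ => ENNReal.ofReal κ ^ t) (Nk (PP μ) t u) q p

def SBridge : Prop := ∀ (K : ℕ → ℝ) (lam h : ℝ), (∀ n, 0 ≤ K n) → K 0 = 0 →
  ∀ (μ : Measure ℝ) [IsProbabilityMeasure μ] (t : ℝ) (i L : ℕ),
    ∫⁻ x, Zk K lam h x i (i + L) ^ t ∂(PP μ) = ∫⁻ x, ENNReal.ofReal (Zh K lam h L x) ^ t ∂(PP μ)

def SFree : Prop := ∀ (K : ℕ → ℝ) (α c : ℝ), 0 < α → KH K α c →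
  ∀ (ν : Measure (ℕ × Bool)) [IsProbabilityMeasure ν], (∀ m s, ν.real {(m, s)} = K m / 2) →
  ∀ (μ : Measure ℝ) [IsProbabilityMeasure μ], Ch μ → ∀ (lam h t : ℝ) (D : ℝ≥0∞), 0 < t → t ≤ 1 →
  D ≠ ⊤ → Mo μ lam h t 0 →
  (∀ j : ℕ, ∫⁻ x, ENNReal.ofReal (Zh K lam h j x) ^ t ∂(PP μ) ≤ D * (j + 1)) →
  Tendsto (fun N : ℕ => (1 / (N : ℝ)) * ∫ ω, Real.log (Z ν lam h N ω) ∂(PP μ)) atTop (𝓝 0)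

def SRare : Prop := ∀ (K : ℕ → ℝ) (α c : ℝ), 0 < α → α ≤ 1 → KH K α c →
  ∀ (ν : Measure (ℕ × Bool)) [IsProbabilityMeasure ν], (∀ m s, ν.real {(m, s)} = K m / 2) →
  ∀ (μ : Measure ℝ) [IsProbabilityMeasure μ], Ch μ → ∀ (lam h h1 r : ℝ) (m0 : ℕ), 0 ≤ lam →
  h ≤ h1 → 0 ≤ h1 → 1 < r → 1 ≤ m0 →
  (∀ j : ℕ, ∃ L, L ≤ (j + 1) * m0 ∧ ENNReal.ofReal (r ^ j / (m0 * (j + 1)))
    ≤ ∫⁻ x, ENNReal.ofReal (Zh K lam h1 L x) ^ (1 / (1 + α)) ∂(PP μ)) →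
  ∃ δ > 0, ∀ᶠ N : ℕ in atTop, δ ≤ (1 / (N : ℝ)) * ∫ ω, Real.log (Z ν lam h N ω) ∂(PP μ)

/-! ### Upper bound -/

/-- graded join of `j + 1` clusters -/
noncomputable def gD (E : IA) (C : ℕ → IA) : ℕ → ℕ → IA
  | 0, z => C z
  | j + 1, z => ∑ x ∈ antidiagonal z, C x.1 * E * gD E C j x.2

/-- graded join -/
noncomputable def gj (E : IA) (C : ℕ → IA) (z : ℕ) : IA := gsum fun j => gD E C j z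

/-- majorant of `gD` -/
noncomputable def jD (g : ℝ≥0∞) (p : ℕ → ℝ≥0∞) : ℕ → ℕ → ℝ≥0∞
  | 0, z => p z
  | j + 1, z => g * cv p (jD g p j) z

/-- majorant of `gj` -/
noncomputable def jn (g : ℝ≥0∞) (p : ℕ → ℝ≥0∞) (z : ℕ) : ℝ≥0∞ := ∑' j, jD g p j z

/-- the recursion: kill, shift, join -/
noncomputable def Pm (g : ℝ≥0∞) (p0 : ℕ → ℝ≥0∞) : ℕ → ℕ → ℝ≥0∞
  | 0 => p0
  | ρ + 1 => jn g fun z => Pm g p0 ρ (z + 1)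

/-- smallest gap at level `ρ` -/
def LL (ρ0 ρ : ℕ) : ℕ := 2 ^ max (ρ + 1) ρ0

/-- weight of a cluster of length `n` and mass `m` in the first moment -/
noncomputable def f1 (α η : ℝ) (ρ0 n m : ℕ) : ℝ≥0∞ :=
  ENNReal.ofReal ((2 : ℝ) ^ (-(α * m)) * (1 + η * n / 2 ^ max m ρ0) ^ 2)

/-- dressed gap -/
noncomputable def WW (H : IA) (C : ℕ → IA) : IA := H * kst (gsum C * H)

/-- total moment of the dressed gap on lengths `< B` -/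
noncomputable def Wt {Ω : Type} [MeasurableSpace Ω] (P : Measure Ω) (t : ℝ) (B : ℕ) (H : Ω → IA)
    (C : ℕ → Ω → IA) : ℝ≥0∞ := ∑ n ∈ range B, Nm P t (fun ω => WW (H ω) fun z => C z ω) n

/-- state of the renormalization at level `ρ` -/
def St {Ω : Type} [MeasurableSpace Ω] {P : Measure Ω} (F : Fld P) (α η : ℝ) (ρ0 ρ : ℕ) (A : ℝ)
    (p : ℕ → ℝ≥0∞) (H : Ω → IA) (C : ℕ → Ω → IA) : Prop :=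
  Ad F H ∧ (∀ z, Ad F (C z)) ∧ (∀ n, Nm P 1 H n ≤ pwL A α (LL ρ0 ρ) n) ∧
  (∀ z, ∑' n, f1 α η ρ0 n (ρ + z) * Nm P 1 (C z) n ≤ p z) ∧
  ∀ z, ∑' n, Nm P (1 / (1 + α)) (C z) n ≤ p z

def SAlg : Prop :=
  (∀ (E : IA) (C : ℕ → IA), gsum C * kst (E * gsum C) ≤ gsum (gj E C)) ∧
  (∀ H C0 C1 : IA, H * kst ((C0 + C1) * H)
    ≤ (H * kst (C0 * H)) * kst (C1 * (H * kst (C0 * H)))) ∧
  ∀ E G C : IA, (E + G) * kst (C * (E + G)) ≤ kst (E * C) * E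
    + kst (E * C) * (G * kst (C * kst (E * C) * G)) * kst (C * E)

def SJn : Prop := ∀ (g : ℝ≥0∞) (p : ℕ → ℝ≥0∞),
  ∑' z, jn g p z ≤ (∑' z, p z) * (1 - g * ∑' z, p z)⁻¹ ∧
  ∑' z : ℕ, (z : ℝ≥0∞) * jn g p z ≤ (∑' z : ℕ, (z : ℝ≥0∞) * p z) * (1 - g * ∑' z, p z)⁻¹ ^ 2

def SSeq : Prop := ∀ (g M : ℝ≥0∞) (p0 : ℕ → ℝ≥0∞) (e : ℝ), 0 < e → e ≤ 1 → M ≠ ⊤ → g ≠ ⊤ →
  ∑' z, p0 z ≤ M → 2 * g * ∑' z : ℕ, (z : ℝ≥0∞) * p0 z ≤ ENNReal.ofReal (1 - e) →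
  (∀ R, ∏ ρ ∈ range R, (1 - g * ∑' z, Pm g p0 ρ (z + 1))⁻¹ ≤ ENNReal.ofReal (1 / e)) ∧
  ∑' ρ, Pm g p0 ρ 0 ≤ M * ENNReal.ofReal (1 / e)

def SJoin : Prop := ∀ (Ω : Type) [MeasurableSpace Ω] (P : Measure Ω) [IsProbabilityMeasure P]
  (F : Fld P) (E : Ω → IA) (C : ℕ → Ω → IA), Ad F E → (∀ z, Ad F (C z)) →
  (∀ z, Ad F fun ω => gj (E ω) (fun y => C y ω) z) ∧
  ∀ (t : ℝ) (f : ℕ → ℕ → ℝ≥0∞) (e p : ℕ → ℝ≥0∞) (g : ℝ≥0∞), 0 < t → t ≤ 1 →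
    (∀ n1 l n2 z1 z2, f (n1 + l + n2) (z1 + z2) * Nm P t E l ≤ f n1 z1 * e l * f n2 z2) →
    ∑' l, e l ≤ g → (∀ z, ∑' n, f n z * Nm P t (C z) n ≤ p z) →
    ∀ z, ∑' n, f n z * Nm P t (fun ω => gj (E ω) (fun y => C y ω) z) n ≤ jn g p z

def SF1 : Prop := ∀ (α η : ℝ) (ρ0 r n1 l n2 z1 z2 : ℕ), 0 ≤ η → l ≤ 2 * 2 ^ max r ρ0 →
  f1 α η ρ0 (n1 + l + n2) (r + (z1 + z2)) ≤ f1 α η ρ0 n1 (r + z1) *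
    ENNReal.ofReal ((2 : ℝ) ^ (α * r) * (1 + 2 * η) ^ 2) * f1 α η ρ0 n2 (r + z2)

def SKill : Prop := ∀ (α η A β : ℝ) (L : ℕ) (a b : ℕ → ℝ≥0∞), 0 < α → α ≤ 1 → 0 < η → η ≤ 1 →
  0 ≤ A → 0 ≤ β → 1 ≤ L → (∀ n, a n ≤ pwL A α L n) →
  ∑' n : ℕ, ENNReal.ofReal ((1 + η * n / L) ^ 2) * b n ≤ ENNReal.ofReal (β * (L : ℝ) ^ α) →
  108 / η ^ 2 * (A / α) * β ≤ 1 →
  ∀ n, a n + cv (cv a b) (pwL (A * (1 + 108 / η ^ 2 * (A / α) * β)) α L) n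
    ≤ pwL (A * (1 + 108 / η ^ 2 * (A / α) * β)) α L n

def SWt : Prop := ∀ (Ω : Type) [MeasurableSpace Ω] (P : Measure Ω) [IsProbabilityMeasure P]
  (F : Fld P) (t : ℝ) (B L : ℕ) (g M : ℝ≥0∞) (H : Ω → IA) (C : ℕ → Ω → IA), 0 < t → t ≤ 1 →
  Ad F H → (∀ z, Ad F (C z)) → ∑' n, Nm P t (fun ω => klo L (H ω)) n ≤ g →
  ∑' z, ∑' n, Nm P t (C z) n ≤ M →
  Wt P t B H C ≤ (1 - g * M)⁻¹ * g + (1 - g * M)⁻¹ ^ 2 *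
    Wt P t B (fun ω => khi L (H ω)) fun z ω => gj (klo L (H ω)) (fun y => C y ω) z

def SStep : Prop := ∀ (Ω : Type) [MeasurableSpace Ω] (P : Measure Ω) [IsProbabilityMeasure P]
  (F : Fld P) (α η A A' : ℝ) (ρ0 ρ : ℕ) (g : ℝ≥0∞) (p : ℕ → ℝ≥0∞) (H : Ω → IA)
  (C : ℕ → Ω → IA), 0 < α → α ≤ 1 → 0 < η → η ≤ 1 → 0 ≤ A → St F α η ρ0 ρ A p H C → p 0 ≠ ⊤ →
  108 / η ^ 2 * (A / α) * (p 0).toReal ≤ 1 → A * (1 + 108 / η ^ 2 * (A / α) * (p 0).toReal) ≤ A' →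
  ENNReal.ofReal ((1 + 2 * η) ^ 2 * A' * (Real.log 2 + 1 / 2 ^ ρ0)) ≤ g →
  ENNReal.ofReal (A' ^ (1 / (1 + α)) * (Real.log 2 + 1 / 2 ^ ρ0)) ≤ g →
  ∃ (H' : Ω → IA) (C' : ℕ → Ω → IA), St F α η ρ0 (ρ + 1) A' (jn g fun z => p (z + 1)) H' C' ∧
    ∀ B, Wt P (1 / (1 + α)) B H C ≤ (1 - g * ∑' z, p (z + 1))⁻¹ * g
      + (1 - g * ∑' z, p (z + 1))⁻¹ ^ 2 * Wt P (1 / (1 + α)) B H' C'

def SRG : Prop := ∀ (Ω : Type) [MeasurableSpace Ω] (P : Measure Ω) [IsProbabilityMeasure P]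
  (F : Fld P) (α η A Ab e : ℝ) (ρ0 : ℕ) (g M : ℝ≥0∞) (p0 : ℕ → ℝ≥0∞) (H : Ω → IA)
  (C : ℕ → Ω → IA), 0 < α → α ≤ 1 → 0 < η → η ≤ 1 → 0 ≤ A → 0 < e → e ≤ 1 → M ≠ ⊤ → g ≠ ⊤ →
  St F α η ρ0 0 A p0 H C → ∑' z, p0 z ≤ M →
  2 * g * ∑' z : ℕ, (z : ℝ≥0∞) * p0 z ≤ ENNReal.ofReal (1 - e) →
  108 / η ^ 2 * (Ab / α) * (M.toReal / e) ≤ 1 →
  A * Real.exp (108 / η ^ 2 * (Ab / α) * (M.toReal / e)) ≤ Ab →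
  ENNReal.ofReal ((1 + 2 * η) ^ 2 * Ab * (Real.log 2 + 1 / 2 ^ ρ0)) ≤ g →
  ENNReal.ofReal (Ab ^ (1 / (1 + α)) * (Real.log 2 + 1 / 2 ^ ρ0)) ≤ g →
  ∀ B : ℕ, Wt P (1 / (1 + α)) B H C ≤ B * g * ENNReal.ofReal (1 / e) ^ 2

def SZero : Prop := ∀ (Ω : Type) [MeasurableSpace Ω] (P : Measure Ω) [IsProbabilityMeasure P]
  (F : Fld P) (α η A : ℝ) (ρ0 : ℕ) (p : ℕ → ℝ≥0∞) (H : Ω → IA) (C : ℕ → Ω → IA),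
  0 < α → α ≤ 1 → 0 < η → η ≤ 1 → 1 ≤ ρ0 → Ad F H → (∀ z, Ad F (C z)) →
  (∀ n, 2 ^ ρ0 ≤ n → Nm P 1 H n ≤ pw A α n) → ∑' n, Nm P 1 H n ≤ 3 →
  (∀ z, ∑' n, f1 α η ρ0 n z * Nm P 1 (C z) n ≤ p z) →
  (∀ z, ∑' n, Nm P (1 / (1 + α)) (C z) n ≤ p z) → ((2 : ℝ) ^ ρ0) ^ α ≤ 9 →
  ∃ (H' : Ω → IA) (C' : ℕ → Ω → IA), St F α η ρ0 0 A (jn 27 p) H' C' ∧
    ∀ B, Wt P (1 / (1 + α)) B H C ≤ (1 - 27 * ∑' z, p z)⁻¹ * 27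
      + (1 - 27 * ∑' z, p z)⁻¹ ^ 2 * Wt P (1 / (1 + α)) B H' C'

/-- choice of the parameters of the upper bound -/
def SParU : Prop := ∀ ε : ℝ, 0 < ε → ∃ η e : ℝ, 0 < η ∧ η ≤ 1 / 100 ∧ 0 < e ∧ e ≤ 1 ∧
  ∀ B1 : ℝ, ∃ a0 > 0, ∀ α : ℝ, 0 < α → α < a0 → ∀ d : ℝ, 2 * α ^ 2 * Real.log 2 * (1 + ε) ≤ d →
  ∃ (ρ0 : ℕ) (g M : ℝ), α ≤ 1 ∧ 1 ≤ ρ0 ∧ B1 / α ≤ 2 ^ ρ0 ∧ ((2 : ℝ) ^ ρ0) ^ α ≤ 9 ∧ 0 ≤ g ∧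
    (α / 2 * (1 + η)) ^ (1 / (1 + α)) ≤ α / 2 * (1 + η) ^ 3 ∧
    27 * (5 * (α / 2 * (1 + η) ^ 3) * d ^ (-(1 / 4 : ℝ))) ≤ η / 2 ∧
    2 * (5 * (α / 2 * (1 + η) ^ 3) * d ^ (-(1 / 4 : ℝ))) ≤ M ∧
    2 * g * (α / 2 * (1 + η) ^ 3 / d * (1 + η) ^ 2) ≤ 1 - e ∧
    108 / η ^ 2 * (2 * α * (1 + η) ^ 2 / α) * (M / e) ≤ 1 ∧
    2 * α * (1 + η) * Real.exp (108 / η ^ 2 * (2 * α * (1 + η) ^ 2 / α) * (M / e))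
      ≤ 2 * α * (1 + η) ^ 2 ∧
    (1 + 2 * η) ^ 2 * (2 * α * (1 + η) ^ 2) * (Real.log 2 + 1 / 2 ^ ρ0) ≤ g ∧
    (2 * α * (1 + η) ^ 2) ^ (1 / (1 + α)) * (Real.log 2 + 1 / 2 ^ ρ0) ≤ g

def SAbsU : Prop := ∀ ε : ℝ, 0 < ε → ∃ η : ℝ, 0 < η ∧ η ≤ 1 / 100 ∧ ∀ B1 : ℝ, ∃ a0 > 0,
  ∀ α : ℝ, 0 < α → α < a0 → ∀ d : ℝ, 2 * α ^ 2 * Real.log 2 * (1 + ε) ≤ d →
  ∀ (Ω : Type) [MeasurableSpace Ω] (P : Measure Ω) [IsProbabilityMeasure P]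
  (F : Fld P) (H : Ω → IA) (C : ℕ → Ω → IA), Ad F H → (∀ z, Ad F (C z)) →
  (∀ n : ℕ, B1 / α ≤ n → Nm P 1 H n ≤ pw (2 * α * (1 + η)) α n) → ∑' n, Nm P 1 H n ≤ 3 →
  (∀ z n, Nm P 1 (C z) n ≤ if n = z then pw (α / 2 * (1 + η)) α z *
    ENNReal.ofReal (Real.exp (-(d * z)) * (2 : ℝ) ^ (α * z)) else 0) →
  (∀ z n, Nm P (1 / (1 + α)) (C z) n ≤ if n = z then pw (α / 2 * (1 + η)) α z ^ (1 / (1 + α)) *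
    ENNReal.ofReal (Real.exp (-(d * z))) else 0) →
  ∃ D : ℝ≥0∞, D ≠ ⊤ ∧ ∀ B : ℕ, Wt P (1 / (1 + α)) B H C ≤ D * (B + 1)

def STq : Prop := ∀ ζ : ℝ, 0 < ζ → ∃ n1 : ℕ, ∀ (α A J : ℝ) (j a : ℕ → ℝ≥0∞), 0 < α → α ≤ 1 →
  0 ≤ A → 1 ≤ J → ∑' n, j n ≤ ENNReal.ofReal J →
  ∑' n : ℕ, ENNReal.ofReal (Real.exp n) * j n ≤ 10 → (∀ n, a n ≤ pw A α n) →
  ∀ n, n1 ≤ n → cv j a n ≤ pw (A * J * (1 + ζ)) α n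

def STail : Prop := ∀ η : ℝ, 0 < η → ∃ u B1 a0 : ℝ, 0 < u ∧ u ≤ 1 / 10 ∧ u ≤ η ∧ 0 < a0 ∧
  ∀ α : ℝ, 0 < α → α < a0 → ∀ j a : ℕ → ℝ≥0∞, ∑' n, j n ≤ ENNReal.ofReal (1 + u) →
  ∑' n : ℕ, ENNReal.ofReal (Real.exp n) * j n ≤ 10 → (∀ n, a n ≤ pw (α / 2 * (1 + u)) α n) →
  ∃ φ : ℕ → ℝ≥0∞, (∀ n, j n + cv (cv j a) φ n ≤ φ n) ∧ ∑' n, φ n ≤ ENNReal.ofReal (5 / 2) ∧
    ∀ n : ℕ, B1 / α ≤ n → φ n ≤ pw (2 * α * (1 + η)) α n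

def SShort : Prop := ∀ v : ℝ, 0 < v → v ≤ 1 / 10 → ∃ a0 > 0, ∀ α : ℝ, 0 < α → α < a0 →
  ∀ (K : ℕ → ℝ) (u κ : ℝ) (k : ℕ), KA K α u κ k → ∃ j : ℕ → ℝ≥0∞,
  cg k (fun _ => 1) (fun _ => ENNReal.ofReal κ) (kst (klo (2 * k + 1) (Kbar K k))) ≤ tk j ∧
  ∑' n, j n ≤ ENNReal.ofReal (1 + v) ∧ ∑' n : ℕ, ENNReal.ofReal (Real.exp n) * j n ≤ 10

def SGreen : Prop := ∀ η : ℝ, 0 < η → ∃ u B1 a0 : ℝ, 0 < u ∧ u ≤ 1 / 10 ∧ u ≤ η ∧ 0 < a0 ∧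
  ∀ α : ℝ, 0 < α → α < a0 → ∀ (K : ℕ → ℝ) (κ : ℝ) (k : ℕ), KA K α u κ k → ∃ φ : ℕ → ℝ≥0∞,
  cg k (fun _ => 1) (fun _ => ENNReal.ofReal κ) (kst (Kbar K k)) ≤ tk φ ∧
  ∑' n, φ n ≤ ENNReal.ofReal (5 / 2) ∧ ∀ n : ℕ, B1 / α ≤ n → φ n ≤ pw (2 * α * (1 + η)) α n

/-- gaps of the upper bound -/
noncomputable def HU (K : ℕ → ℝ) (k : ℕ) (κ lam h : ℝ) (x : ℕ → ℝ) : IA :=
  cg k (ll k lam h x) (rr k κ lam h x) (kst (Kp K k lam h x))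

/-- stretches of the upper bound -/
noncomputable def CU (a α : ℝ) (k : ℕ) (lam h : ℝ) (z : ℕ) (x : ℕ → ℝ) : IA := kmk fun p q =>
  if q - p = z then pw a α z * XX lam h x (p * k) (q * k) else 0

def SHC : Prop := ∀ (μ : Measure ℝ) [IsProbabilityMeasure μ] (K : ℕ → ℝ) (k : ℕ)
  (κ lam h : ℝ), 1 ≤ k → (∀ n, 0 ≤ K n) → 0 ≤ κ →
  (Ad (fld μ k) (HU K k κ lam h) ∧ ∀ (r : ℝ) (φ : ℕ → ℝ≥0∞), 0 ≤ r → r * k ≤ 1 →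
    Mo μ lam h 1 r → cg k (fun _ => 1) (fun _ => ENNReal.ofReal κ) (kst (Kbar K k)) ≤ tk φ →
    ∀ n, Nm (PP μ) 1 (HU K k κ lam h) n ≤ ENNReal.ofReal (Real.exp (2 * r * k)) * φ n) ∧
  ∀ a α : ℝ, (∀ z, Ad (fld μ k) (CU a α k lam h z)) ∧ ∀ t r : ℝ, 0 < t → Mo μ lam h t r →
    ∀ z n, Nm (PP μ) t (CU a α k lam h z) n
      ≤ if n = z then pw a α z ^ t * ENNReal.ofReal (Real.exp (r * k * z)) else 0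

def SZcU : Prop := ∀ (μ : Measure ℝ) [IsProbabilityMeasure μ], Ch μ → ∀ (K : ℕ → ℝ) (k : ℕ)
  (α u a κ lam h t : ℝ) (D : ℝ≥0∞), 0 < α → 0 ≤ u → KA K α u κ k → α / 2 * (1 + u) ≤ a →
  0 < t → t ≤ 1 → D ≠ ⊤ →
  (∀ B : ℕ, Wt (PP μ) t B (HU K k κ lam h) (CU a α k lam h) ≤ D * (B + 1)) →
  ∃ D' : ℝ≥0∞, D' ≠ ⊤ ∧ ∀ j : ℕ, ∫⁻ x, Zk K lam h x 0 (0 + j) ^ t ∂(PP μ) ≤ D' * (j + 1)

def SParM : Prop := ∀ ε α y s : ℝ, 0 < ε → ε ≤ 1 → 0 < α → α ≤ ε / 20 →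
  Real.log 2 * (1 - ε / 20) ≤ 2 * y → 2 * y ≤ Real.log 2 → 1 / (1 + α) + (2 + ε) * α ^ 2 ≤ s →
  2 * y * (1 / (1 + α)) ^ 2 * (1 + ε * α ^ 2 / 20) - 2 * y * (1 / (1 + α)) * s
    ≤ -(2 * α ^ 2 * Real.log 2 * (1 + ε / 4)) ∧
  2 * y * (1 + ε * α ^ 2 / 20) - 2 * y * s
    ≤ α * Real.log 2 - 2 * α ^ 2 * Real.log 2 * (1 + ε / 4)

def SUp : Prop := ∀ ε : ℝ, 0 < ε → ∃ a0 > 0, ∀ α : ℝ, 0 < α → α < a0 →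
  ∀ (K : ℕ → ℝ) (c : ℝ), KH K α c →
  ∀ (ν : Measure (ℕ × Bool)) [IsProbabilityMeasure ν], (∀ m s, ν.real {(m, s)} = K m / 2) →
  ∀ (μ : Measure ℝ) [IsProbabilityMeasure μ], Ch μ → ∃ lam0 > 0, ∀ lam : ℝ, 0 < lam →
  lam < lam0 → ∀ h : ℝ, (1 / (1 + α) + (2 + ε) * α ^ 2) * lam ≤ h →
  Tendsto (fun N : ℕ => (1 / (N : ℝ)) * ∫ ω, Real.log (Z ν lam h N ω) ∂(PP μ)) atTop (𝓝 0)

/-! ### Lower bound -/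

/-- in every run, all the gaps but one are paid by the stretches -/
def Star (L : List (ℕ × ℕ)) : Prop := ∀ (l0 l : List (ℕ × ℕ)) (r j : ℕ) (l2 : List (ℕ × ℕ)),
  L = l0 ++ l ++ (r, j) :: l2 →
  ∃ t ∈ r :: l.map Prod.fst, (l.map Prod.fst).sum + r ≤ (l.map Prod.snd).sum + t

/-- in every final run, all the gaps are paid by the stretches -/
def Suf (L : List (ℕ × ℕ)) : Prop := ∀ l1 l2 : List (ℕ × ℕ), L = l1 ++ l2 →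
  (l2.map Prod.fst).sum ≤ (l2.map Prod.snd).sum

/-- weight of a letter -/
noncomputable def bet (κ τ : ℝ) (j : ℕ) : ℝ := κ * τ * Real.exp (-(τ * (j + 1))) / (j + 1)

/-- join two, kill, shift -/
noncomputable def Rq (p : Polynomial ℝ) : Polynomial ℝ := (p + p ^ 2).divX

/-- initial generating polynomial -/
noncomputable def P0 (β : ℕ → ℝ) (V : ℕ) : Polynomial ℝ :=
  ∑ j ∈ Icc 2 V, Polynomial.monomial (j - 2) (β j)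

def SInit : Prop := ∀ κ : ℝ, 1 / 2 < κ → ∃ (τ c : ℝ) (V : ℕ), 0 < τ ∧ 0 < c ∧
  c ≤ 2 * ∑ j ∈ Icc 2 V, ((j : ℝ) - 1) * bet κ τ j - 1 ∧ 8 * ∑ j ∈ Icc 2 V, bet κ τ j ≤ c

def SGrow : Prop := ∀ (p : Polynomial ℝ) (c : ℝ), (∀ n, 0 ≤ p.coeff n) → 0 < c →
  c ≤ 2 * (p.derivative.eval 1 + p.eval 1) - 1 → 8 * p.eval 1 ≤ c →
  ∃ i, 1 < (Rq^[i] p).eval 1

/-- admissible cluster: first stretch, then letters (gap, stretch) -/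
def Good (R V ρ : ℕ) (c : ℕ × List (ℕ × ℕ)) : Prop :=
  (1 ≤ c.1 ∧ c.1 ≤ V) ∧ (∀ x ∈ c.2, 2 ≤ x.1 ∧ x.1 ≤ R ∧ 1 ≤ x.2 ∧ x.2 ≤ V) ∧
  (c.2.map Prod.fst).sum + ρ ≤ c.1 + (c.2.map Prod.snd).sum ∧
  (∀ (l1 : List (ℕ × ℕ)) (r j : ℕ) (l2 : List (ℕ × ℕ)), c.2 = l1 ++ (r, j) :: l2 →
    (l1.map Prod.fst).sum + r ≤ c.1 + (l1.map Prod.snd).sum) ∧ Suf c.2 ∧ Star c.2

/-- join of two clusters across a gap of level `ρ` -/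
def jo (ρ : ℕ) (c d : ℕ × List (ℕ × ℕ)) : ℕ × List (ℕ × ℕ) := (c.1, c.2 ++ (ρ, d.1) :: d.2)

def SGood : Prop := ∀ R V ρ : ℕ, 2 ≤ ρ → ρ ≤ R →
  (∀ c d, Good R V ρ c → Good R V ρ d → Good R V ρ (jo ρ c d)) ∧
  (∀ c, Good R V ρ c → Star ((ρ, c.1) :: c.2) ∧ Suf ((ρ, c.1) :: c.2) ∧
    ∀ x ∈ (ρ, c.1) :: c.2, 2 ≤ x.1 ∧ x.1 ≤ R ∧ 1 ≤ x.2 ∧ x.2 ≤ V) ∧
  ∀ a b c d : ℕ × List (ℕ × ℕ), (∀ x ∈ a.2, x.1 ≠ ρ) → (∀ x ∈ b.2, x.1 ≠ ρ) →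
    jo ρ a c = jo ρ b d → a = b ∧ c = d

/-- the clusters alive at level `i + 2` -/
def SClu : Prop := ∀ (β : ℕ → ℝ) (V i : ℕ), ∃ S : Finset (ℕ × List (ℕ × ℕ)),
  (∀ c ∈ S, Good (i + 1) V (i + 2) c ∧ c.2.length + 1 ≤ 2 ^ i) ∧
  ∑ c ∈ S, Polynomial.monomial (c.1 + (c.2.map Prod.snd).sum - ((c.2.map Prod.fst).sum + (i + 2)))
    (β c.1 * (c.2.map fun x => β x.2).prod) = Rq^[i] (P0 β V)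

/-- a family of types -/
def Ty (β : ℕ → ℝ) (a : ℝ) (R V D N0 : ℕ) : Prop := ∀ n : ℕ, ∃ T : Finset (List (ℕ × ℕ)),
  T.card ≤ N0 ^ (n + 1) ∧ (∀ L ∈ T, L.length ≤ D * (n + 1) ∧
    (∀ x ∈ L, 2 ≤ x.1 ∧ x.1 ≤ R ∧ 1 ≤ x.2 ∧ x.2 ≤ V) ∧ Star L ∧ Suf L) ∧
  a ^ (n + 1) ≤ ∑ L ∈ T, (L.map fun x => β x.2).prod

def SComb : Prop := ∀ (β : ℕ → ℝ) (V i : ℕ), (∀ j, 0 ≤ β j) →
  ∃ D N0 : ℕ, Ty β ((Rq^[i] (P0 β V)).eval 1) (i + 2) V D N0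

def STy : Prop := ∀ κ : ℝ, 1 / 2 < κ → ∃ (τ a : ℝ) (R V D N0 : ℕ), 0 < τ ∧ 1 < a ∧ 1 ≤ N0 ∧
  Ty (bet κ τ) a R V D N0

/-- lengths (gap, stretch) of a letter -/
def Fib (Q s : ℕ) (a : ℕ × ℕ) : Finset (ℕ × ℕ) :=
  Ico (Q ^ (a.1 - 1)) (Q ^ a.1) ×ˢ Ico (a.2 * s) ((a.2 + 1) * s)

/-- chains of a given type -/
def Pl (Q s : ℕ) : List (ℕ × ℕ) → Finset (List (ℕ × ℕ))
  | [] => {[]}
  | a :: L => image₂ List.cons (Fib Q s a) (Pl Q s L)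

/-- weighted number of chains, the stretches starting in `O` being free -/
noncomputable def Phi (Q s : ℕ) (O : Finset ℕ) : List (ℕ × ℕ) → ℕ → ℝ≥0∞
  | [], _ => 1
  | a :: L, x => ∑ y ∈ Fib Q s a,
      (if x + y.1 ∈ O then 1 else ((Q : ℝ≥0∞) ^ a.2)⁻¹) * Phi Q s O L (x + y.1 + y.2)

def SCount : Prop := ∀ (Q s a : ℕ) (O : Finset ℕ) (L : List (ℕ × ℕ)), 1 ≤ Q → 1 ≤ s → 1 ≤ a →
  (∀ x ∈ L, 1 ≤ x.2) → Star L → Suf L →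
  Phi Q s O L 0 ≤ ((s * (1 + a) : ℕ) : ℝ≥0∞) ^ L.length * (1 + (a : ℝ≥0∞)⁻¹) ^ O.card

def SJen : Prop := ∀ (Ω : Type) [MeasurableSpace Ω] (P : Measure Ω) (ι : Type) (T : Finset ι)
  (t : ℝ) (y : ι → Ω → ℝ≥0∞) (A : ι → Set Ω) (B : ℝ≥0∞), 0 < t → t ≤ 1 → 1 ≤ B → B ≠ ⊤ →
  (∀ c ∈ T, Measurable (y c)) → (∀ c ∈ T, MeasurableSet (A c)) →
  (∀ c ∈ T, ∀ ω, ω ∉ A c → y c ω = 0) → (∀ c ∈ T, ∫⁻ ω, y c ω ^ t ∂P ≠ ⊤) →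
  (∀ c ∈ T, ∑ c' ∈ T, ∫⁻ ω in A c', y c ω ^ t ∂P ≤ B * ∫⁻ ω, y c ω ^ t ∂P) →
  ∑ c ∈ T, ∫⁻ ω, y c ω ^ t ∂P ≤ 2 * (2 * B) ^ (1 - t) * ∫⁻ ω, (∑ c ∈ T, y c ω) ^ t ∂P

/-- weight of a chain -/
noncomputable def val (H C : IA) : List (ℕ × ℕ) → ℕ → ℝ≥0∞
  | [], _ => 1
  | a :: c, x => H x (x + a.1) * C (x + a.1) (x + a.1 + a.2) * val H C c (x + a.1 + a.2)

/-- length of a chain -/
def tot (c : List (ℕ × ℕ)) : ℕ := (c.map fun a => a.1 + a.2).sum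

/-- all the stretches of a chain pass the test -/
def Ps {Ω : Type} (A : ℕ → ℕ → Set Ω) : List (ℕ × ℕ) → ℕ → Set Ω
  | [], _ => Set.univ
  | a :: c, x => A (x + a.1) (x + a.1 + a.2) ∩ Ps A c (x + a.1 + a.2)

/-- blocks covered by the stretches of a chain -/
def Oc : List (ℕ × ℕ) → ℕ → Finset ℕ
  | [], _ => ∅
  | a :: c, x => Ico (x + a.1) (x + a.1 + a.2) ∪ Oc c (x + a.1 + a.2)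

def SLAlg : Prop := ∀ (H C : IA) (T : Finset (List (ℕ × ℕ))) (x M : ℕ), (∀ c ∈ T, tot c ≤ M) →
  ∑ c ∈ T, val H C c x ≤ ∑ q ∈ Icc x (x + M), kst (H * C) x q

def SPl : Prop := ∀ Q s : ℕ, 2 ≤ Q → 1 ≤ s →
  (∀ L L' : List (ℕ × ℕ), (∀ x ∈ L, 1 ≤ x.1) → (∀ x ∈ L', 1 ≤ x.1) → L ≠ L' →
    Disjoint (Pl Q s L) (Pl Q s L')) ∧
  (∀ (L : List (ℕ × ℕ)) (f : List (ℕ × ℕ) → ℝ≥0∞) (a : ℕ × ℕ),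
    ∑ c ∈ Pl Q s (a :: L), f c = ∑ y ∈ Fib Q s a, ∑ c ∈ Pl Q s L, f (y :: c)) ∧
  ∀ (R V : ℕ) (L : List (ℕ × ℕ)), (∀ x ∈ L, 2 ≤ x.1 ∧ x.1 ≤ R ∧ x.2 ≤ V) → ∀ c ∈ Pl Q s L,
    c.length = L.length ∧ (∀ y ∈ c, Q ≤ y.1) ∧ tot c ≤ L.length * (Q ^ R + (V + 1) * s) ∧
    ∀ x, (Oc c x).card ≤ L.length * ((V + 1) * s)

/-- the abstract model of the lower bound -/
structure LM {Ω : Type} [MeasurableSpace Ω] {P : Measure Ω} (F : Fld P) (t u : ℝ) (Q s V : ℕ)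
    (H C : Ω → IA) (A : ℕ → ℕ → Set Ω) (wg e : ℕ → ℝ≥0∞) (β : ℕ → ℝ) : Prop where
  t0 : 0 < t
  t1 : t ≤ 1
  u0 : 0 ≤ u
  u1 : u ≤ 1 / 2
  Q2 : 2 ≤ Q
  s1 : 1 ≤ s
  adH : Ad F H
  adC : Ad F C
  mA : ∀ p q, MeasurableSet[F.s (Set.Ico p q)] (A p q)
  off : ∀ ω p q, ω ∉ A p q → C ω p q = 0
  Hle : ∀ ω p l, H ω p (p + l) ≤ wg l
  wfin : ∀ l, wg l ≠ ⊤
  wpos : wg Q ≠ 0
  Hlo : ∀ p l, Q ≤ l → ENNReal.ofReal (1 - u) * wg l ^ t ≤ ∫⁻ ω, H ω p (p + l) ^ t ∂P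
  Cfin : ∀ p q, ∫⁻ ω, C ω p q ^ t ∂P ≠ ⊤
  Clo : ∀ p n, e n ≤ ∫⁻ ω, C ω p (p + n) ^ t ∂P
  PA : ∀ p n j, j * s ≤ n → P (A p (p + n)) ≤ ((Q : ℝ≥0∞) ^ j)⁻¹
  b0 : ∀ j, 0 ≤ β j
  lw : ∀ r j, 2 ≤ r → 1 ≤ j → j ≤ V → ENNReal.ofReal (β j) ≤
    ∑ y ∈ Fib Q s (r, j), ENNReal.ofReal (1 - u) * wg y.1 ^ t * e y.2

def SFirst : Prop := ∀ (Ω : Type) [MeasurableSpace Ω] (P : Measure Ω) [IsProbabilityMeasure P]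
  (F : Fld P) (t u : ℝ) (Q s V : ℕ) (H C : Ω → IA) (A : ℕ → ℕ → Set Ω) (wg e : ℕ → ℝ≥0∞)
  (β : ℕ → ℝ), LM F t u Q s V H C A wg e β →
  (∀ c x, Measurable[F.s (Set.Ici x)] fun ω => val (H ω) (C ω) c x) ∧
  (∀ c x, MeasurableSet (Ps A c x)) ∧
  (∀ c x ω, ω ∉ Ps A c x → val (H ω) (C ω) c x = 0) ∧
  (∀ c x, ∫⁻ ω, val (H ω) (C ω) c x ^ t ∂P ≠ ⊤) ∧
  ∀ L : List (ℕ × ℕ), (∀ a ∈ L, 2 ≤ a.1 ∧ 1 ≤ a.2 ∧ a.2 ≤ V) → ∀ x,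
    ENNReal.ofReal (L.map fun a => β a.2).prod
      ≤ ∑ c ∈ Pl Q s L, ∫⁻ ω, val (H ω) (C ω) c x ^ t ∂P

def SInd : Prop := ∀ (Ω : Type) [MeasurableSpace Ω] (P : Measure Ω) [IsProbabilityMeasure P]
  (F : Fld P) (Q s m : ℕ) (A : ℕ → ℕ → Set Ω) (O O' : Finset ℕ), 2 ≤ Q → 1 ≤ s →
  (∀ p q, MeasurableSet[F.s (Set.Ico p q)] (A p q)) →
  (∀ p n j, j * s ≤ n → P (A p (p + n)) ≤ ((Q : ℝ≥0∞) ^ j)⁻¹) →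
  (∀ p n, n ≤ m → p ∉ O' → Disjoint (Ico p (p + n)) O) →
  ∀ L : List (ℕ × ℕ), (∀ a ∈ L, (a.2 + 1) * s ≤ m) → ∀ (x : ℕ) (f : Ω → ℝ≥0∞),
  Measurable[F.s (↑O ∪ Set.Iio x)] f →
  ∑ c ∈ Pl Q s L, ∫⁻ ω in Ps A c x, f ω ∂P ≤ Phi Q s O' L x * ∫⁻ ω, f ω ∂P

def SBulk : Prop := ∀ (Ω : Type) [MeasurableSpace Ω] (P : Measure Ω) [IsProbabilityMeasure P]
  (F : Fld P) (t u : ℝ) (Q s V : ℕ) (H C : Ω → IA) (A : ℕ → ℕ → Set Ω) (wg e : ℕ → ℝ≥0∞)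
  (β : ℕ → ℝ), LM F t u Q s V H C A wg e β → ∀ (c : List (ℕ × ℕ)) (x : ℕ),
  (Measurable[F.s ↑(Oc c x)] fun ω => val (tk wg) (C ω) c x) ∧
  (∀ ω, val (H ω) (C ω) c x ≤ val (tk wg) (C ω) c x) ∧
  ((∀ y ∈ c, Q ≤ y.1) → ∫⁻ ω, val (tk wg) (C ω) c x ^ t ∂P
    ≤ 2 ^ c.length * ∫⁻ ω, val (H ω) (C ω) c x ^ t ∂P)

def SMom : Prop := ∀ (Ω : Type) [MeasurableSpace Ω] (P : Measure Ω) [IsProbabilityMeasure P]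
  (F : Fld P) (t u : ℝ) (Q s V : ℕ) (H C : Ω → IA) (A : ℕ → ℕ → Set Ω) (wg e : ℕ → ℝ≥0∞)
  (β : ℕ → ℝ), LM F t u Q s V H C A wg e β → ∀ (a : ℝ) (R D N0 : ℕ), 0 ≤ a → 1 ≤ N0 →
  Ty β a R V D N0 → ∀ n : ℕ, ENNReal.ofReal (a ^ (n + 1)) ≤
    4 * (((N0 * (6 * s * (1 + (V + 1) * s) ^ 2) ^ D : ℕ) : ℝ≥0∞) ^ (n + 1)) ^ (1 - t) *
      ∑ q ∈ Icc 0 (D * (n + 1) * (Q ^ R + (V + 1) * s)), ∫⁻ ω, kst (H ω * C ω) 0 q ^ t ∂P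

def SAbsL : Prop := ∀ (Ω : Type) [MeasurableSpace Ω] (P : Measure Ω) [IsProbabilityMeasure P]
  (F : Fld P) (t u : ℝ) (Q s V : ℕ) (H C : Ω → IA) (A : ℕ → ℕ → Set Ω) (wg e : ℕ → ℝ≥0∞)
  (β : ℕ → ℝ), LM F t u Q s V H C A wg e β → ∀ (a : ℝ) (R D N0 : ℕ), 1 ≤ N0 →
  Ty β a R V D N0 → ((N0 * (6 * s * (1 + (V + 1) * s) ^ 2) ^ D : ℕ) : ℝ) ^ (1 - t) < a →
  ∃ (r c0 : ℝ) (m0 : ℕ), 1 < r ∧ 0 < c0 ∧ ∀ n : ℕ, ∃ p, p ≤ (n + 1) * m0 ∧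
    ENNReal.ofReal (c0 * r ^ n / (n + 1)) ≤ ∫⁻ ω, (kst (H ω * C ω) * H ω) 0 p ^ t ∂P

/-- log-linear minorant with total weight at most `m` on the sites of `[i, j)` -/
def Lin (lam h : ℝ) (f : (ℕ → ℝ) → ℝ≥0∞) (w : ℝ≥0∞) (i j : ℕ) (m : ℝ) : Prop :=
  w ≠ ⊤ ∧ ∃ a : ℕ → ℝ, (∀ n, 0 ≤ a n ∧ a n ≤ 1) ∧ ∑ n ∈ Ico i j, a n ≤ m ∧
    ∀ x : ℕ → ℝ,
      w * ENNReal.ofReal (Real.exp (-2 * lam * ∑ n ∈ Ico i j, a n * (x n + h))) ≤ f x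

/-- log-linear minorants for a kernel -/
def KL (lam h : ℝ) (A : (ℕ → ℝ) → IA) (w : IA) (m : ℝ) : Prop :=
  ∀ i j, i ≤ j → Lin lam h (fun x => A x i j) (w i j) i j m

def SLin : Prop := ∀ lam h : ℝ,
  (∀ (ι : Type) (T : Finset ι) (f : ι → (ℕ → ℝ) → ℝ≥0∞) (w : ι → ℝ≥0∞) (i j : ℕ) (m : ℝ),
    0 ≤ m → (∀ c ∈ T, Lin lam h (f c) (w c) i j m) →
    Lin lam h (fun x => ∑ c ∈ T, f c x) (∑ c ∈ T, w c) i j m) ∧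
  (∀ (f g : (ℕ → ℝ) → ℝ≥0∞) (w v : ℝ≥0∞) (i r j : ℕ) (m m' : ℝ), i ≤ r → r ≤ j →
    Lin lam h f w i r m → Lin lam h g v r j m' →
    Lin lam h (fun x => f x * g x) (w * v) i j (m + m')) ∧
  (∀ (f g : (ℕ → ℝ) → ℝ≥0∞) (w v : ℝ≥0∞) (i j : ℕ) (m m' : ℝ), Lin lam h f w i j m →
    (∀ x, f x ≤ g x) → v ≤ w → (m ≤ m' ∨ ((j - i : ℕ) : ℝ) ≤ m') → Lin lam h g v i j m') ∧
  (∀ (w : ℝ≥0∞) (i j : ℕ), w ≠ ⊤ → Lin lam h (fun _ => w) w i j 0 ∧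
    Lin lam h (fun x => w * XX lam h x i j) w i j (j - i : ℕ) ∧
    Lin lam h (fun x => w * (1 + XX lam h x i j)) (2 * w) i j (j - i : ℕ)) ∧
  (∀ (A B : (ℕ → ℝ) → IA) (w v : IA) (m m' : ℝ), 0 ≤ m + m' → KL lam h A w m → KL lam h B v m' →
    KL lam h (fun x => A x * B x) (w * v) (m + m')) ∧
  ∀ (ι : Type) (T : Finset ι) (A : ι → (ℕ → ℝ) → IA) (w : ι → IA) (m : ℝ), 0 ≤ m →
    (∀ c ∈ T, KL lam h (A c) (w c) m) → KL lam h (fun x => ∑ c ∈ T, A c x) (∑ c ∈ T, w c) m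

/-- law of the short excursions -/
noncomputable def ks (K : ℕ → ℝ) (k n : ℕ) : ℝ≥0∞ := if n ≤ 2 * k then ENNReal.ofReal (K n) else 0

/-- Green function of the short excursions, on lengths `≤ 2 k` -/
noncomputable def us (K : ℕ → ℝ) (k n : ℕ) : ℝ≥0∞ :=
  if n ≤ 2 * k then kst (tk (ks K k)) 0 n else 0

/-- positive excursions of intermediate length -/
noncomputable def kz (K : ℕ → ℝ) (k L n : ℕ) : ℝ≥0∞ :=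
  if 2 * k < n ∧ n ≤ L * k then ENNReal.ofReal (K n / 2) else 0

/-- very long positive excursions -/
noncomputable def km (K : ℕ → ℝ) (k L n : ℕ) : ℝ≥0∞ :=
  if L * k < n then ENNReal.ofReal (K n / 2) else 0

/-- junction -/
noncomputable def GG (K : ℕ → ℝ) (k L : ℕ) (lam h : ℝ) (x : ℕ → ℝ) : IA :=
  kst (klo (2 * k + 1) (Kall K lam h x) + tk (kz K k L))

/-- gaps of the lower bound -/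
noncomputable def HL (K : ℕ → ℝ) (k L : ℕ) (κ lam h : ℝ) (x : ℕ → ℝ) : IA :=
  cg k (ll k lam h x) (rr k κ lam h x) (GG K k L lam h x * tk (km K k L) * GG K k L lam h x)

/-- the test -/
def Pa (b : ℝ) (i j : ℕ) : Set (ℕ → ℝ) := {x | ∑ n ∈ Ico i j, x n ≤ -(b * (j - i : ℕ))}

/-- stretches of the lower bound -/
noncomputable def CL (a α b : ℝ) (k s : ℕ) (lam h : ℝ) (x : ℕ → ℝ) : IA := kmk fun p q =>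
  if s ≤ q - p then pw a α (q - p) *
    (Pa b (p * k) (q * k)).indicator (fun y => XX lam h y (p * k) (q * k)) x else 0

/-- truncated gaps -/
noncomputable def HT (a α : ℝ) (H : IA) : IA := kmk fun p q => min (pw a α (q - p)) (H p q)

def SUs : Prop := ∀ (K : ℕ → ℝ) (α u κ : ℝ) (k : ℕ), 0 ≤ α → KA K α u κ k →
  ENNReal.ofReal ((1 - 5 / 2 * α) / (κ * k)) ≤ ∑' n, us K k n

def SUsL : Prop := ∀ (K : ℕ → ℝ) (k : ℕ) (lam h : ℝ), (∀ n, 0 ≤ K n) → K 0 = 0 →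
  KL lam h (fun x => kst (klo (2 * k + 1) (Kall K lam h x))) (tk (us K k)) (2 * k)

def SJun : Prop := ∀ u : ℝ, 0 < u → u ≤ 1 → ∃ J : ℕ, ∃ a0 > 0, ∀ α : ℝ, 0 < α → α < a0 →
  ∀ (K : ℕ → ℝ) (v κ lam h : ℝ) (k L : ℕ), KA K α v κ k → 2 ≤ L → 2 * (L : ℝ) ^ (-α) ≤ u / 16 →
  ∃ g : ℕ → ℝ≥0∞, (∀ n, (J + 1) * (L + 2) * k < n → g n = 0) ∧
    ENNReal.ofReal ((2 - u) / (κ * k)) ≤ ∑' n, g n ∧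
    KL lam h (GG K k L lam h) (tk g) ((J + 1) * (2 * k))

def SGap : Prop := ∀ (K : ℕ → ℝ) (α u κ lam h m : ℝ) (k L S : ℕ) (g : ℕ → ℝ≥0∞), 0 < α →
  0 < u → u ≤ 1 → 0 ≤ m → KA K α u κ k → 1 ≤ L → (∀ n, S * k < n → g n = 0) →
  ENNReal.ofReal ((2 - u) / (κ * k)) ≤ ∑' n, g n → KL lam h (GG K k L lam h) (tk g) m →
  ∀ q l, 2 * S + L + 3 ≤ l → Lin lam h (fun x => HL K k L κ lam h x q (q + l))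
    (pw (2 * α * (1 - u) ^ 2) α l) (q * k) ((q + l) * k) (2 * m + 2 * k)

def SMin : Prop := ∀ (μ : Measure ℝ) [IsProbabilityMeasure μ], Ch μ →
  ∀ (lam h m t : ℝ) (f : (ℕ → ℝ) → ℝ≥0∞) (w : ℝ≥0∞) (i j : ℕ), 0 ≤ lam → 0 ≤ h → 0 < t → t ≤ 1 →
  Lin lam h f w i j m → ENNReal.ofReal (1 - (2 * lam * h * m + 2 * lam * Real.sqrt m)) * w ^ t
    ≤ ∫⁻ x, (min w (f x)) ^ t ∂(PP μ)

def SPass : Prop := ∀ (μ : Measure ℝ) [IsProbabilityMeasure μ], Ch μ →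
  ∀ (t0 u u1 lam h t : ℝ) (i j : ℕ), Mg μ t0 u1 → 0 < lam → 2 * lam ≤ t0 → 1 / 2 ≤ t → t ≤ 1 →
  0 < u → u ≤ 1 → 0 ≤ u1 → u1 ≤ u ^ 2 / 4 →
  PP μ (Pa ((1 - u) * 2 * t * lam) i j)
    ≤ ENNReal.ofReal (Real.exp (-(2 * t ^ 2 * lam ^ 2 * (1 - 3 * u) * (j - i : ℕ)))) ∧
  (4 / u ^ 3 ≤ lam ^ 2 * (j - i : ℕ) → ENNReal.ofReal ((1 - u) *
      Real.exp ((2 * lam ^ 2 * t ^ 2 * (1 - u1) - 2 * lam * t * h) * (j - i : ℕ)))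
    ≤ ∫⁻ x in Pa ((1 - u) * 2 * t * lam) i j, XX lam h x i j ^ t ∂(PP μ))

def SDom : Prop := ∀ (K : ℕ → ℝ) (α u κ lam h b a : ℝ) (k L s : ℕ) (x : ℕ → ℝ), 0 < α → α ≤ 1 →
  0 < u → u ≤ 1 → KA K α u κ k → 2 ≤ L → 4 / u ≤ s →
  kst (HT a α (HL K k L κ lam h x) * CL (α / 2 * (1 - u) ^ 2) α b k s lam h x) *
    HT a α (HL K k L κ lam h x) ≤ cg k (ll k lam h x) (rr k κ lam h x) (Zk K lam h x)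

def SZcL : Prop := ∀ (μ : Measure ℝ) [IsProbabilityMeasure μ] (K : ℕ → ℝ) (k m0 : ℕ)
  (κ lam h t r c0 : ℝ), 1 ≤ k → (∀ n, 0 ≤ K n) → K 0 = 0 → 0 ≤ κ → 0 < t → t ≤ 1 → 1 < r →
  0 < c0 → Mo μ lam h t 0 →
  (∀ n : ℕ, ∃ p, p ≤ (n + 1) * m0 ∧ ENNReal.ofReal (c0 * r ^ n / (n + 1))
    ≤ ∫⁻ x, cg k (ll k lam h x) (rr k κ lam h x) (Zk K lam h x) 0 p ^ t ∂(PP μ)) →
  ∃ m1 : ℕ, 1 ≤ m1 ∧ ∀ j : ℕ, ∃ L, L ≤ (j + 1) * m1 ∧ ENNReal.ofReal (r ^ j / (m1 * (j + 1)))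
    ≤ ∫⁻ x, ENNReal.ofReal (Zh K lam h L x) ^ t ∂(PP μ)

def SLw : Prop := ∀ (α u d τ κ0 : ℝ) (Q s r j : ℕ), 0 < α → α ≤ 1 → 0 < u → u ≤ 1 / 4 → 2 ≤ Q →
  1 ≤ s → 0 < τ → 0 ≤ d → d * s ≤ τ → κ0 * τ ≤ (1 - u) ^ 6 * α ^ 2 * Real.log Q → 2 ≤ r → 1 ≤ j →
  ENNReal.ofReal (bet κ0 τ j) ≤ ∑ y ∈ Fib Q s (r, j), ENNReal.ofReal (1 - u) *
    pw (2 * α * (1 - u) ^ 2) α y.1 ^ (1 / (1 + α)) *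
    if s ≤ y.2 then pw (α / 2 * (1 - u) ^ 2) α y.2 ^ (1 / (1 + α)) *
      ENNReal.ofReal ((1 - u) * Real.exp (-(d * y.2))) else 0

/-- the model at scale `k` is an instance of the abstract model -/
def SLM : Prop := ∀ (μ : Measure ℝ) [IsProbabilityMeasure μ], Ch μ →
  ∀ (K : ℕ → ℝ) (α u u1 κ lam h t0 m d τ κ0 : ℝ) (k L Q s V : ℕ), 0 < α → α ≤ 1 → 0 < u →
  u ≤ 1 / 4 → 1 ≤ k → 2 ≤ Q → 1 ≤ s → 0 < lam → 0 ≤ h → Mg μ t0 u1 → 2 * lam ≤ t0 → 0 ≤ u1 →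
  u1 ≤ u ^ 2 / 4 → 0 ≤ κ0 → 0 < τ → 0 ≤ d →
  (∀ q l, Q ≤ l → Lin lam h (fun x => HL K k L κ lam h x q (q + l))
    (pw (2 * α * (1 - u) ^ 2) α l) (q * k) ((q + l) * k) m) →
  2 * lam * h * m + 2 * lam * Real.sqrt m ≤ u →
  (Q : ℝ) ≤ Real.exp (2 * (1 / (1 + α)) ^ 2 * (lam ^ 2 * k) * (1 - 3 * u) * s) →
  4 / u ^ 3 ≤ lam ^ 2 * k * s →
  -d ≤ (2 * lam ^ 2 * (1 / (1 + α)) ^ 2 * (1 - u1) - 2 * lam * (1 / (1 + α)) * h) * k →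
  d * s ≤ τ → κ0 * τ ≤ (1 - u) ^ 6 * α ^ 2 * Real.log Q →
  LM (fld μ k) (1 / (1 + α)) u Q s V
    (fun x => HT (2 * α * (1 - u) ^ 2) α (HL K k L κ lam h x))
    (CL (α / 2 * (1 - u) ^ 2) α ((1 - u) * 2 * (1 / (1 + α)) * lam) k s lam h)
    (fun p q => Pa ((1 - u) * 2 * (1 / (1 + α)) * lam) (p * k) (q * k))
    (pw (2 * α * (1 - u) ^ 2) α)
    (fun n => if s ≤ n then pw (α / 2 * (1 - u) ^ 2) α n ^ (1 / (1 + α)) *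
      ENNReal.ofReal ((1 - u) * Real.exp (-(d * n))) else 0)
    (bet κ0 τ)

def SParB : Prop := ∀ (a C : ℝ) (V D N0 : ℕ), 1 < a → 0 < C → 1 ≤ N0 → ∃ a0 > 0, ∀ α : ℝ, 0 < α →
  α < a0 → ∀ s : ℕ, 1 ≤ s → s ≤ C / α ^ 2 →
  ((N0 * (6 * s * (1 + (V + 1) * s) ^ 2) ^ D : ℕ) : ℝ) ^ (1 - 1 / (1 + α)) < a

/-- choice of the parameters of the lower bound -/
def SParL : Prop := ∀ (ε τ b a : ℝ) (J V D N0 : ℕ), 0 < ε → ε ≤ 1 → 0 < τ → 0 < b → 1 < a →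
  1 ≤ N0 → ∃ a0 > 0, ∀ α : ℝ, 0 < α → α < a0 → ∀ y : ℝ, b / 2 ≤ y → y ≤ b → ∃ s Q L : ℕ,
    α ≤ 1 / 2 ∧ 2 ≤ L ∧ 2 * (L : ℝ) ^ (-α) ≤ ε / 100 / 16 ∧ 2 * ((J + 1) * (L + 2)) + L + 3 ≤ Q ∧
    (Q : ℝ) ≤ Real.exp (2 * (1 / (1 + α)) ^ 2 * y * (1 - 3 * (ε / 100)) * s) ∧
    4 / (ε / 100) ≤ s ∧ 4 / (ε / 100) ^ 3 ≤ y * s ∧
    2 * y * (1 / (1 + α)) * ((2 - ε) * α ^ 2) * (1 + ε / 100) * s ≤ τ ∧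
    1 / 2 * (1 + ε / 4) * τ ≤ (1 - ε / 100) ^ 6 * α ^ 2 * Real.log Q ∧
    ((N0 * (6 * s * (1 + (V + 1) * s) ^ 2) ^ D : ℕ) : ℝ) ^ (1 - 1 / (1 + α)) < a

def SLow : Prop := ∀ ε : ℝ, 0 < ε → ∃ a0 > 0, ∀ α : ℝ, 0 < α → α < a0 →
  ∀ (K : ℕ → ℝ) (c : ℝ), KH K α c →
  ∀ (ν : Measure (ℕ × Bool)) [IsProbabilityMeasure ν], (∀ m s, ν.real {(m, s)} = K m / 2) →
  ∀ (μ : Measure ℝ) [IsProbabilityMeasure μ], Ch μ → ∃ lam0 > 0, ∀ lam : ℝ, 0 < lam →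
  lam < lam0 → ∀ h : ℝ, h ≤ (1 / (1 + α) + (2 - ε) * α ^ 2) * lam →
  ∃ δ > 0, ∀ᶠ N : ℕ in atTop, δ ≤ (1 / (N : ℝ)) * ∫ ω, Real.log (Z ν lam h N ω) ∂(PP μ)

end Pool.Agent.MP_c26281_pr.SA
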